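import Pool.Agent.Lib.MP_d439b2_co.BU.Spec

/-!
# MP_d439b2_co, BU: prime graphs without bull and `P_5` (`S_A`)
-/

set_option autoImplicit false

namespace Pool.Agent.MPd439b2.BU

open Pool.Agent.MPd439b2

theorem aA (h1 : S_A1) (h2 : S_A2) (h3 : S_A3) (h4 : S_A4) : S_A := by
  intro V _ G X hP hB h5 a ha b hb c hc hab hac hbc nab nac
  by_contra nbc
  have hX : 3 ≤ X.ncard := by
    have e : ({a, b, c} : Set V).ncard = 3 := by
      rw [Set.ncard_eq_three]
      exact ⟨a, b, c, hab, hac, hbc, rfl⟩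
    rw [← e]
    refine Set.ncard_le_ncard ?_ (Set.toFinite X)
    rintro x (rfl | rfl | rfl)
    · exact ha
    · exact hb
    · exact hc
  have hF := h1 V G X hP hB h5
  obtain ⟨w, hw, wa, wb, wc⟩ := h2 V G X (hP.conn hX) hB h5 hF a ha b hb c hc hab hac hbc nab nac nbc
  exact h3 V G X hP hB hF (h4 V G X hP hB h5 hF) a ha b hb c hc w hw hab hac hbc nab nac nbc wa wb wc

end Pool.Agent.MPd439b2.BU
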