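import Pool.Agent.Lib.MP_d439b2_co.BU.Spec

/-!
# MP_d439b2_co, BU/A2: three pairwise non-adjacent vertices have a common neighbour
-/

set_option autoImplicit false

namespace Pool.Agent.MPd439b2.BU

open Pool.Agent.MPd439b2

namespace A2aux

variable {V : Type} {G : SimpleGraph V} {X : Set V}

/-- the first vertex with a neighbour in `S` -/
theorem first {S : Set V} {d : V} (hX : Conn G X) (hS : S ⊆ X) (hSn : S.Nonempty)
    (hSS : ∀ s ∈ S, ∃ t ∈ S, G.Adj s t) (hd : d ∈ X) (hdn : ∀ s ∈ S, ¬ G.Adj d s) :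
    ∃ q ∈ X, ∃ p ∈ X, (∃ s ∈ S, G.Adj q s) ∧ G.Adj p q ∧ (∀ s ∈ S, ¬ G.Adj p s) ∧
      (p = d ∨ ∃ p' ∈ X, G.Adj p' p ∧ ¬ G.Adj p' q ∧ ∀ s ∈ S, ¬ G.Adj p' s) := by
  obtain ⟨l, r, hr0, hrl, hC, hinj, hadj, -, hY⟩ := path V G X {d} {y | ∃ s ∈ S, G.Adj y s} hX
    ⟨d, hd, rfl⟩ (by
      obtain ⟨s, hs⟩ := hSn
      exact ⟨s, hS hs, hSS s hs⟩)
  have hl : 1 ≤ l := by
    by_contra h
    have h0 : l = 0 := by omega
    rw [h0] at hrl
    obtain ⟨s, hs, h1⟩ := hrl
    rw [Set.mem_singleton_iff.1 hr0] at h1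
    exact hdn s hs h1
  have hno : ∀ i, i < l → ∀ s ∈ S, ¬ G.Adj (r i) s := by
    intro i hi s hs h
    have := hY i hi.le ⟨s, hs, h⟩
    omega
  refine ⟨r l, hC l le_rfl, r (l - 1), hC _ (by omega), hrl, ?_, hno _ (by omega), ?_⟩
  · rw [hadj _ (by omega) _ le_rfl]
    omega
  · by_cases h1 : l = 1
    · left
      rw [h1]
      exact Set.mem_singleton_iff.1 hr0
    · right
      refine ⟨r (l - 2), hC _ (by omega), ?_, ?_, hno _ (by omega)⟩
      · rw [hadj _ (by omega) _ (by omega)]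
        omega
      · rw [hadj _ (by omega) _ (by omega)]
        omega

/-- the case where two of the three vertices have a common neighbour -/
theorem case1 (hX : Conn G X) (hB : BF G X) (h5 : NoP G X 5) (hF : ∀ u b c a z, ¬ Fork G X u b c a z)
    {a b c x : V} (ha : a ∈ X) (hb : b ∈ X) (hc : c ∈ X) (hab' : a ≠ b)
    (hab : ¬ G.Adj a b) (hac : ¬ G.Adj a c) (hbc : ¬ G.Adj b c) (hx : x ∈ X) (hxa : G.Adj x a)
    (hxb : G.Adj x b) : ∃ w ∈ X, G.Adj w a ∧ G.Adj w b ∧ G.Adj w c := by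
  by_cases hxc : G.Adj x c
  · exact ⟨x, hx, hxa, hxb, hxc⟩
  have hS : ({a, x, b} : Set V) ⊆ X := by
    rintro s (rfl | rfl | rfl) <;> assumption
  obtain ⟨q, hq, p, hp, ⟨s, hs, hqs⟩, hpq, hpS, hd⟩ := first (S := {a, x, b}) (d := c) hX hS
    ⟨a, Or.inl rfl⟩ (by
      rintro s (rfl | rfl | rfl)
      · exact ⟨x, Or.inr (Or.inl rfl), hxa.symm⟩
      · exact ⟨a, Or.inl rfl, hxa⟩
      · exact ⟨x, Or.inr (Or.inl rfl), hxb.symm⟩) hc (by
      rintro s (rfl | rfl | rfl) h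
      · exact hac h.symm
      · exact hxc h.symm
      · exact hbc h.symm)
  have hpa : ¬ G.Adj p a := hpS a (Or.inl rfl)
  have hpx : ¬ G.Adj p x := hpS x (Or.inr (Or.inl rfl))
  have hpb : ¬ G.Adj p b := hpS b (Or.inr (Or.inr rfl))
  by_cases hqa : G.Adj q a
  · by_cases hqb : G.Adj q b
    · rcases hd with rfl | ⟨p', hp', hp'p, hp'q, hp'S⟩
      · exact ⟨q, hq, hqa, hqb, hpq.symm⟩
      · exfalso
        have hp'a : ¬ G.Adj p' a := hp'S a (Or.inl rfl)
        have hp'x : ¬ G.Adj p' x := hp'S x (Or.inr (Or.inl rfl))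
        have hp'b : ¬ G.Adj p' b := hp'S b (Or.inr (Or.inr rfl))
        by_cases hqx : G.Adj q x
        · exact hF q a b p p' ⟨hq, ha, hb, hp, hp', hqa, hqb, hpq.symm, hp'p.symm, hab', hab,
            fun h => hpa h.symm, fun h => hp'a h.symm, fun h => hpb h.symm, fun h => hp'b h.symm,
            fun h => hp'q h.symm⟩
        · exact h5 _ (ip5 hp' hp hq ha hx hp'p hpq hqa hxa.symm hp'q hp'a hp'x hpa hpx hqx)
    · exfalso
      by_cases hqx : G.Adj q x
      · exact hB (bull5 hq hx ha hp hb hqx hqa hxa hpq.symm hxb (fun h => hpx h.symm)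
          (fun h => hpa h.symm) hqb hab hpb)
      · exact h5 _ (ip5 hp hq ha hx hb hpq hqa hxa.symm hxb hpa hpx hpb hqx hqb hab)
  · exfalso
    by_cases hqb : G.Adj q b
    · by_cases hqx : G.Adj q x
      · exact hB (bull5 hq hx hb hp ha hqx hqb hxb hpq.symm hxa (fun h => hpx h.symm)
          (fun h => hpb h.symm) hqa (fun h => hab h.symm) hpa)
      · exact h5 _ (ip5 hp hq hb hx ha hpq hqb hxb.symm hxa hpb hpx hpa hqx hqa
          (fun h => hab h.symm))
    · have hqx : G.Adj q x := by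
        rcases hs with rfl | rfl | rfl
        · exact absurd hqs hqa
        · exact hqs
        · exact absurd hqs hqb
      exact hF x a b q p ⟨hx, ha, hb, hq, hp, hxa, hxb, hqx.symm, hpq.symm, hab', hab,
        fun h => hqa h.symm, fun h => hpa h.symm, fun h => hqb h.symm, fun h => hpb h.symm,
        fun h => hpx h.symm⟩

/-- the local part of the second case, half of the neighbourhoods -/
theorem half (hB : BF G X) (h5 : NoP G X 5) (hF : ∀ u b c a z, ¬ Fork G X u b c a z)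
    {a b x y p q : V} (ha : a ∈ X) (hb : b ∈ X) (hx : x ∈ X) (hy : y ∈ X) (hp : p ∈ X) (hq : q ∈ X)
    (hax : G.Adj a x) (hxy : G.Adj x y) (hyb : G.Adj y b) (hay : ¬ G.Adj a y) (hab : ¬ G.Adj a b)
    (hxb : ¬ G.Adj x b) (hxb' : x ≠ b) (hpq : G.Adj p q) (_hpa : ¬ G.Adj p a) (hpx : ¬ G.Adj p x)
    (hpy : ¬ G.Adj p y) (hpb : ¬ G.Adj p b) (hqb : ¬ G.Adj q b)
    (h : G.Adj q a ∨ G.Adj q x) : False := by
  by_cases hqa : G.Adj q a
  · by_cases hqx : G.Adj q x
    · by_cases hqy : G.Adj q y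
      · exact hB (bull5 hq hy hx hp hb hqy hqx hxy.symm hpq.symm hyb (fun h => hpy h.symm)
          (fun h => hpx h.symm) hqb hxb hpb)
      · exact h5 _ (ip5 hp hq hx hy hb hpq hqx hxy hyb hpx hpy hpb hqy hqb hxb)
    · by_cases hqy : G.Adj q y
      · exact hF y x b q p ⟨hy, hx, hb, hq, hp, hxy.symm, hyb, hqy.symm, hpq.symm, hxb', hxb,
          fun h => hqx h.symm, fun h => hpx h.symm, fun h => hqb h.symm, fun h => hpb h.symm,
          fun h => hpy h.symm⟩
      · exact h5 _ (ip5 hq ha hx hy hb hqa hax hxy hyb hqx hqy hqb hay hab hxb)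
  · have hqx : G.Adj q x := h.resolve_left hqa
    by_cases hqy : G.Adj q y
    · exact hB (bull5 hx hy hq ha hb hxy hqx.symm hqy.symm hax.symm hyb (fun h => hay h.symm) hqa
        hxb hqb hab)
    · exact h5 _ (ip5 hp hq hx hy hb hpq hqx hxy hyb hpx hpy hpb hqy hqb hxb)

end A2aux

open A2aux in
theorem a2 : S_A2 := by
  intro V _ G X hX hB h5 hF a ha b hb c hc hab' hac' hbc' hab hac hbc
  by_contra hno
  have n1 : ∀ x ∈ X, G.Adj x a → ¬ G.Adj x b := fun x hx h1 h2 =>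
    hno (case1 hX hB h5 hF ha hb hc hab' hab hac hbc hx h1 h2)
  have n2 : ∀ x ∈ X, G.Adj x a → ¬ G.Adj x c := by
    intro x hx h1 h2
    obtain ⟨w, hw, h3, h4, h5⟩ := case1 hX hB h5 hF ha hc hb hac' hac hab (fun h => hbc h.symm) hx
      h1 h2
    exact hno ⟨w, hw, h3, h5, h4⟩
  have n3 : ∀ x ∈ X, G.Adj x b → ¬ G.Adj x c := by
    intro x hx h1 h2
    obtain ⟨w, hw, h3, h4, h5⟩ := case1 hX hB h5 hF hb hc ha hbc' hbc (fun h => hab h.symm)
      (fun h => hac h.symm) hx h1 h2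
    exact hno ⟨w, hw, h5, h3, h4⟩
  obtain ⟨l, s, hs0, hsl, hC, hinj, hadj, -, -⟩ := path V G X {a} {b} hX ⟨a, ha, rfl⟩ ⟨b, hb, rfl⟩
  have e0 : s 0 = a := hs0
  have el : s l = b := hsl
  have l0 : l ≠ 0 := by
    rintro rfl
    exact hab' (e0.symm.trans el)
  have l1 : l ≠ 1 := by
    rintro rfl
    apply hab
    rw [← e0, ← el, hadj _ (by omega) _ le_rfl]
    omega
  have l2 : l ≠ 2 := by
    rintro rfl
    refine n1 (s 1) (hC 1 (by omega)) ?_ ?_
    · rw [← e0, hadj _ (by omega) _ (by omega)]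
      omega
    · rw [← el, hadj _ (by omega) _ (by omega)]
      omega
  have l4 : l < 4 := by
    by_contra h
    refine h5 s ⟨fun i hi => hC i (by omega), fun i hi j hj h => hinj i (by omega) j (by omega) h,
      fun i hi j hj => ?_⟩
    rw [hadj i (by omega) j (by omega)]
    omega
  have l3 : l = 3 := by omega
  subst l3
  have hx : s 1 ∈ X := hC 1 (by omega)
  have hy : s 2 ∈ X := hC 2 (by omega)
  have hax : G.Adj a (s 1) := by
    rw [← e0, hadj _ (by omega) _ (by omega)]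
    omega
  have hxy : G.Adj (s 1) (s 2) := by
    rw [hadj _ (by omega) _ (by omega)]
    omega
  have hyb : G.Adj (s 2) b := by
    rw [← el, hadj _ (by omega) _ (by omega)]
    omega
  have hay : ¬ G.Adj a (s 2) := by
    rw [← e0, hadj _ (by omega) _ (by omega)]
    omega
  have hxb : ¬ G.Adj (s 1) b := by
    rw [← el, hadj _ (by omega) _ (by omega)]
    omega
  have hxb' : s 1 ≠ b := fun h => hab (h ▸ hax)
  have hya' : s 2 ≠ a := fun h => hab (h ▸ hyb)
  generalize s 1 = x at *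
  generalize s 2 = y at *
  have hcx : ¬ G.Adj c x := fun h => n2 x hx hax.symm h.symm
  have hcy : ¬ G.Adj c y := fun h => n3 y hy hyb h.symm
  have hS : ({a, x, y, b} : Set V) ⊆ X := by
    rintro t (rfl | rfl | rfl | rfl) <;> assumption
  obtain ⟨q, hq, p, hp, ⟨t, ht, hqt⟩, hpq, hpS, -⟩ := first (S := {a, x, y, b}) (d := c) hX hS
    ⟨a, Or.inl rfl⟩ (by
      rintro t (rfl | rfl | rfl | rfl)
      · exact ⟨x, Or.inr (Or.inl rfl), hax⟩
      · exact ⟨a, Or.inl rfl, hax.symm⟩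
      · exact ⟨b, Or.inr (Or.inr (Or.inr rfl)), hyb⟩
      · exact ⟨y, Or.inr (Or.inr (Or.inl rfl)), hyb.symm⟩) hc (by
      rintro t (rfl | rfl | rfl | rfl) h
      · exact hac h.symm
      · exact hcx h
      · exact hcy h
      · exact hbc h.symm)
  have hpa : ¬ G.Adj p a := hpS a (Or.inl rfl)
  have hpx : ¬ G.Adj p x := hpS x (Or.inr (Or.inl rfl))
  have hpy : ¬ G.Adj p y := hpS y (Or.inr (Or.inr (Or.inl rfl)))
  have hpb : ¬ G.Adj p b := hpS b (Or.inr (Or.inr (Or.inr rfl)))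
  by_cases hqa : G.Adj q a
  · exact half hB h5 hF ha hb hx hy hp hq hax hxy hyb hay hab hxb hxb' hpq hpa hpx hpy hpb
      (n1 q hq hqa) (Or.inl hqa)
  · by_cases hqb : G.Adj q b
    · exact half hB h5 hF hb ha hy hx hp hq hyb.symm hxy.symm hax.symm (fun h => hxb h.symm)
        (fun h => hab h.symm) (fun h => hay h.symm) hya' hpq hpb hpy hpx hpa hqa (Or.inl hqb)
    · by_cases hqx : G.Adj q x
      · exact half hB h5 hF ha hb hx hy hp hq hax hxy hyb hay hab hxb hxb' hpq hpa hpx hpy hpb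
          hqb (Or.inr hqx)
      · have hqy : G.Adj q y := by
          rcases ht with rfl | rfl | rfl | rfl
          · exact absurd hqt hqa
          · exact absurd hqt hqx
          · exact hqt
          · exact absurd hqt hqb
        exact half hB h5 hF hb ha hy hx hp hq hyb.symm hxy.symm hax.symm (fun h => hxb h.symm)
          (fun h => hab h.symm) (fun h => hay h.symm) hya' hpq hpb hpy hpx hpa hqa (Or.inr hqy)

end Pool.Agent.MPd439b2.BU
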