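import Pool.Agent.Lib.MP_d439b2_co.BU.Spec

/-!
# MP_d439b2_co, BU, A3: there is a banner
-/

set_option autoImplicit false

namespace Pool.Agent.MPd439b2.BU

open Pool.Agent.MPd439b2

private theorem a3_mix {V : Type} {G : SimpleGraph V} {X : Set V}
    (hF : ∀ u b c a z, ¬ Fork G X u b c a z) (hB : ∀ u z a b c, ¬ Ban G X u z a b c)
    {a b c w y : V} (ma : a ∈ X) (mb : b ∈ X) (mc : c ∈ X) (mw : w ∈ X) (my : y ∈ X)
    (ab' : a ≠ b) (bc' : b ≠ c) (ab : ¬ G.Adj a b) (ac : ¬ G.Adj a c)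
    (bc : ¬ G.Adj b c) (wa : G.Adj w a) (wb : G.Adj w b) (wc : G.Adj w c) (ya : G.Adj y a)
    (yc : ¬ G.Adj y c) : G.Adj y w := by
  by_contra hyw
  by_cases yb : G.Adj y b
  · exact hB w y a b c ⟨mw, my, ma, mb, mc, wa, wb, wc, ya, yb, fun h => hyw h.symm, yc, ab', ab, ac,
      bc⟩
  · exact hF w b c a y ⟨mw, mb, mc, ma, my, wb, wc, wa, ya.symm, bc', bc, fun h => ab h.symm,
      fun h => yb h.symm, fun h => ac h.symm, fun h => yc h.symm, fun h => hyw h.symm⟩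

theorem a3 : S_A3 := by
  intro V _ G X hX hBF hF hB a ma b mb c mc u mu ab' ac' bc' ab ac bc ua ub uc
  set T : Set V := {a, b, c} with hT
  have mem_T : ∀ t, t ∈ T ↔ t = a ∨ t = b ∨ t = c := by
    intro t
    simp [hT]
  have hTX : T ⊆ X := by
    intro t ht
    rcases (mem_T t).mp ht with rfl | rfl | rfl
    · exact ma
    · exact mb
    · exact mc
  have haT : a ∈ T := (mem_T a).mpr (Or.inl rfl)
  have hbT : b ∈ T := (mem_T b).mpr (Or.inr (Or.inl rfl))
  have hcT : c ∈ T := (mem_T c).mpr (Or.inr (Or.inr rfl))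
  -- (1)
  have hmix : ∀ y ∈ X, (∃ t ∈ T, G.Adj y t) → (∃ t ∈ T, ¬ G.Adj y t) → ∀ w ∈ X,
      (∀ t ∈ T, G.Adj w t) → G.Adj y w := by
    intro y my h1 h2 w mw hw
    have wa := hw a haT
    have wb := hw b hbT
    have wc := hw c hcT
    have ba : ¬ G.Adj b a := fun h => ab h.symm
    have ca : ¬ G.Adj c a := fun h => ac h.symm
    have cb : ¬ G.Adj c b := fun h => bc h.symm
    obtain ⟨t, ht, hyt⟩ := h1
    obtain ⟨t', ht', hyt'⟩ := h2
    rcases (mem_T t).mp ht with rfl | rfl | rfl <;> rcases (mem_T t').mp ht' with rfl | rfl | rfl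
    · exact absurd hyt hyt'
    · exact a3_mix hF hB ma mc mb mw my ac' bc'.symm ac ab cb wa wc wb hyt hyt'
    · exact a3_mix hF hB ma mb mc mw my ab' bc' ab ac bc wa wb wc hyt hyt'
    · exact a3_mix hF hB mb mc ma mw my bc' ac'.symm bc ba ca wb wc wa hyt hyt'
    · exact absurd hyt hyt'
    · exact a3_mix hF hB mb ma mc mw my ab'.symm ac' ba bc ac wb wa wc hyt hyt'
    · exact a3_mix hF hB mc mb ma mw my bc'.symm ab'.symm cb ca ba wc wb wa hyt hyt'
    · exact a3_mix hF hB mc ma mb mw my ac'.symm ab' ca cb ab wc wa wb hyt hyt'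
    · exact absurd hyt hyt'
  have hP : Conn Gᶜ X ∧ (∀ w ∈ X, (∀ t ∈ T, G.Adj w t) → ∀ m ∈ X, G.Adj w m) ∧
      (∀ y ∈ X, y ∉ X → (∀ t ∈ T, ¬ G.Adj y t) → (∃ m ∈ X, G.Adj y m) → ∀ w ∈ X,
        (∀ t ∈ T, G.Adj w t) → G.Adj y w) := by
    refine hX.closure (M₀ := T) (fun M => Conn Gᶜ M ∧
      (∀ w ∈ X, (∀ t ∈ T, G.Adj w t) → ∀ m ∈ M, G.Adj w m) ∧
      (∀ y ∈ X, y ∉ M → (∀ t ∈ T, ¬ G.Adj y t) → (∃ m ∈ M, G.Adj y m) → ∀ w ∈ X,
        (∀ t ∈ T, G.Adj w t) → G.Adj y w)) ?_ hTX ?_ ?_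
    · refine ⟨?_, fun w _ hw m hm => hw m hm, ?_⟩
      · rw [hT]
        refine Conn.insert (Conn.pair ?_) ⟨b, Or.inl rfl, ?_⟩
        · exact ⟨bc', bc⟩
        · exact ⟨ab'.symm, fun h => ab h.symm⟩
      · rintro y _ _ hno ⟨m, hm, hym⟩
        exact absurd hym (hno m hm)
    · intro hs
      exact ab' (hs haT hbT)
    · rintro M hTM hMX ⟨hM1, hM2, hM3⟩ y hy hyM h1 h2
      have hyw : ∀ w ∈ X, (∀ t ∈ T, G.Adj w t) → G.Adj y w := by
        intro w hw hwT
        by_cases hall : ∀ t ∈ T, G.Adj y t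
        · obtain ⟨m, hm, hym⟩ := h2
          exact absurd (hM2 y hy hall m hm) hym
        · by_cases hno : ∀ t ∈ T, ¬ G.Adj y t
          · exact hM3 y hy hyM hno h1 w hw hwT
          · push Not at hall hno
            exact hmix y hy hno hall w hw hwT
      refine ⟨?_, ?_, ?_⟩
      · obtain ⟨m, hm, hym⟩ := h2
        exact Conn.insert hM1 ⟨m, hm, fun h => hyM (h ▸ hm), fun h => hym h.symm⟩
      · intro w hw hwT m hm
        rcases Set.mem_insert_iff.mp hm with rfl | hm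
        · exact (hyw w hw hwT).symm
        · exact hM2 w hw hwT m hm
      · intro z hz hzM hno hex w hw hwT
        have hzM' : z ∉ M := fun h => hzM (Set.mem_insert_of_mem _ h)
        by_cases hzM2 : ∃ m ∈ M, G.Adj z m
        · exact hM3 z hz hzM' hno hzM2 w hw hwT
        · have hzy : G.Adj z y := by
            obtain ⟨m, hm, hzm⟩ := hex
            rcases Set.mem_insert_iff.mp hm with rfl | hm
            · exact hzm
            · exact absurd ⟨m, hm, hzm⟩ hzM2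
          by_contra hzw
          have hzno : ∀ m ∈ M, ¬ G.Adj z m := fun m hm h => hzM2 ⟨m, hm, h⟩
          obtain ⟨x, hx, m, hm, hyx, hym, -, hxm⟩ := mixed_co hM1 h1 h2
          exact hBF (bull5 hw hy (hMX hx) (hMX hm) hz (hyw w hw hwT).symm (hM2 w hw hwT x hx) hyx
            (hM2 w hw hwT m hm) hzy.symm hym hxm (fun h => hzw h.symm)
            (fun h => hzno x hx h.symm) (fun h => hzno m hm h.symm))
  refine G.loopless.irrefl u (hP.2.1 u mu (fun t ht => ?_) u mu)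
  rcases (mem_T t).mp ht with rfl | rfl | rfl
  · exact ua
  · exact ub
  · exact uc

end Pool.Agent.MPd439b2.BU
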