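import Pool.Agent.Lib.MP_d439b2_co.BU.Spec

/-!
# MP_d439b2_co, BU: A4, there is no banner (helper50)
-/

set_option autoImplicit false

namespace Pool.Agent.MPd439b2.BU

open Pool.Agent.MPd439b2

private theorem a4Fact {V : Type} {G : SimpleGraph V} {X : Set V} (hbf : BF G X) (hp : NoP G X 5)
    (hf : ∀ u b c a z, ¬ Fork G X u b c a z) {u z a b c y : V} (h : Ban G X u z a b c)
    (hy : y ∈ X) (ya : G.Adj y a) (yb : ¬ G.Adj y b) :
    G.Adj y u ∧ G.Adj y z ∧ ¬ G.Adj y c := by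
  have hyz : y ≠ z := fun e => yb (e ▸ h.zb)
  have hyb : ¬ G.Adj b y := fun e => yb e.symm
  by_cases yc : G.Adj y c
  · exfalso
    by_cases yz : G.Adj y z
    · exact hbf (bull5 h.mz hy h.ma h.mb h.mc yz.symm h.za ya h.zb yc yb h.ab h.zc h.ac h.bc)
    · exact hp _ (ip5 h.mb h.mz h.ma hy h.mc h.zb.symm h.za ya.symm yc (fun e => h.ab e.symm)
        hyb h.bc (fun e => yz e.symm) h.zc h.ac)
  · by_cases yz : G.Adj y z
    · by_cases yu : G.Adj y u
      · exact ⟨yu, yz, yc⟩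
      · exfalso
        exact hp _ (ip5 h.mc h.mu h.mb h.mz hy h.uc.symm h.ub h.zb.symm yz.symm
          (fun e => h.bc e.symm) (fun e => h.zc e.symm) (fun e => yc e.symm) h.uz
          (fun e => yu e.symm) hyb)
    · exfalso
      by_cases yu : G.Adj y u
      · exact hbf (bull5 h.ma h.mu hy h.mz h.mc h.ua.symm ya.symm yu.symm h.za.symm h.uc h.uz yz
          h.ac yc h.zc)
      · exact hf a y z u c ⟨h.ma, hy, h.mz, h.mu, h.mc, ya.symm, h.za.symm, h.ua.symm, h.uc, hyz,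
          yz, yu, yc, fun e => h.uz e.symm, h.zc, h.ac⟩

theorem a4 : S_A4 := by
  intro V _ G X hX hbf hp hf u z a b c h
  have key := Prm.closure hX (M₀ := {a, b})
    (fun M => (∀ x ∈ M, G.Adj x u ∧ G.Adj x z ∧ ¬ G.Adj x c) ∧ Conn Gᶜ M)
    ⟨by
      rintro x (rfl | rfl)
      · exact ⟨h.ua.symm, h.za.symm, h.ac⟩
      · exact ⟨h.ub.symm, h.zb.symm, h.bc⟩, Conn.pair ⟨h.ab', h.ab⟩⟩
    (by
      rintro x (rfl | rfl)
      · exact h.ma
      · exact h.mb)
    (by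
      intro hs
      exact h.ab' (hs (Set.mem_insert _ _) (Set.mem_insert_of_mem _ rfl)))
    (by
      intro M _ hMX hM y hy hyM h1 h2
      obtain ⟨x, hx, m, hm, yx, ym, hxm, xm⟩ := mixed_co hM.2 h1 h2
      have hB : Ban G X u z x m c := ⟨h.mu, h.mz, hMX hx, hMX hm, h.mc, (hM.1 x hx).1.symm,
        (hM.1 m hm).1.symm, h.uc, (hM.1 x hx).2.1.symm, (hM.1 m hm).2.1.symm, h.uz, h.zc, hxm, xm,
        (hM.1 x hx).2.2, (hM.1 m hm).2.2⟩
      refine ⟨?_, Conn.insert hM.2 ⟨m, hm, ?_, fun e => ym e.symm⟩⟩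
      · rintro w (rfl | hw)
        · exact a4Fact hbf hp hf hB hy yx ym
        · exact hM.1 w hw
      · rintro rfl
        exact hyM hm)
  exact G.irrefl (key.1 u h.mu).1

end Pool.Agent.MPd439b2.BU
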