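import Pool.Agent.Lib.MP_d439b2_co.BU.Spec

/-!
# MP_d439b2_co, BU: task B1 (helper62)

A component at a cut vertex with two neighbours of the cut vertex is an induced path.
-/

set_option autoImplicit false

namespace Pool.Agent.MPd439b2.BU

open Pool.Agent.MPd439b2

namespace B1Aux

variable {V : Type}

/-- the situation of B1 -/
structure Cx (G : SimpleGraph V) (X C : Set V) (v w : V) : Prop where
  hP : Prm G X
  hB : BF G X
  vX : v ∈ X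
  CX : C ⊆ X
  vC : v ∉ C
  cC : Conn G C
  wX : w ∈ X
  wC : w ∉ C
  vw : G.Adj v w
  out : ∀ y ∈ X, y ≠ v → y ∉ C → ∀ c ∈ C, ¬ G.Adj c y

/-- the neighbours of `v` in `C` -/
def Nn (G : SimpleGraph V) (C : Set V) (v : V) : Set V := {x | x ∈ C ∧ G.Adj v x}

/-- the other vertices of `C` -/
def Zz (G : SimpleGraph V) (C : Set V) (v : V) : Set V := {x | x ∈ C ∧ ¬ G.Adj v x}

variable {G : SimpleGraph V} {X C : Set V} {v w : V}

theorem Cx.wn (h : Cx G X C v w) {c : V} (hc : c ∈ C) : ¬ G.Adj c w :=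
  h.out w h.wX h.vw.ne' h.wC c hc

/-- (BL) -/
theorem Cx.bl (h : Cx G X C v w) {n n' z : V} {K : Set V}
    (hn : n ∈ Nn G C v) (hn' : n' ∈ Nn G C v) (hne : n ≠ n') (hK : K ⊆ Zz G C v) (cK : Conn G K)
    (t : ∃ k ∈ K, G.Adj k n) (t' : ∃ k ∈ K, G.Adj k n') (hz : z ∈ Zz G C v) (hzK : z ∉ K)
    (hzt : G.Adj n' z ∨ ∃ k ∈ K, G.Adj k z) : G.Adj z n := by
  by_contra hcon
  apply h.hB
  have hKC : K ⊆ C := fun x hx => (hK hx).1
  have hBC : insert n' K ⊆ C := Set.insert_subset hn'.1 hKC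
  refine bullS (A := {v}) (B := insert n' K) (C := {n}) (P := {w}) (Q := {z})
    (Set.singleton_subset_iff.2 h.vX) (hBC.trans h.CX) (Set.singleton_subset_iff.2 (h.CX hn.1))
    (Set.singleton_subset_iff.2 h.wX) (Set.singleton_subset_iff.2 (h.CX hz.1))
    (Conn.singleton G v) (cK.insert t') (Conn.singleton G n) (Conn.singleton G w) (Conn.singleton G z)
    (Set.disjoint_singleton_left.2 fun hh => h.vC (hBC hh))
    (Set.disjoint_singleton.2 fun e => h.vC (e ▸ hn.1))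
    (Set.disjoint_singleton_right.2 ?_)
    (Set.disjoint_singleton.2 h.vw.ne)
    (Set.disjoint_singleton_right.2 fun hh => h.wC (hBC hh))
    (Set.disjoint_singleton.2 fun e => h.wC (e ▸ hn.1))
    (Set.disjoint_singleton.2 fun e => h.vC (e ▸ hz.1))
    (Set.disjoint_singleton_right.2 ?_)
    (Set.disjoint_singleton.2 fun e => hz.2 (e ▸ hn.2))
    (Set.disjoint_singleton.2 fun e => h.wC (e ▸ hz.1))
    ⟨v, rfl, n', Or.inl rfl, hn'.2⟩ (tch_single.2 hn.2) ?_ (tch_single.2 h.vw) ?_ ?_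
    (fun t => h.wn hn.1 (tch_single.1 t)) (fun t => hz.2 (tch_single.1 t))
    (fun t => hcon (tch_single.1 t).symm) (fun t => h.wn hz.1 (tch_single.1 t).symm)
  · rintro (e | e)
    · exact hne e
    · exact (hK e).2 hn.2
  · rintro (e | e)
    · exact hz.2 (e ▸ hn'.2)
    · exact hzK e
  · obtain ⟨k, hk, hkn⟩ := t
    exact ⟨k, Or.inr hk, n, rfl, hkn⟩
  · rcases hzt with h1 | ⟨k, hk, hkz⟩
    · exact ⟨n', Or.inl rfl, z, rfl, h1⟩
    · exact ⟨k, Or.inr hk, z, rfl, hkz⟩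
  · rintro ⟨x, hx, y, hy, hxy⟩
    rw [Set.mem_singleton_iff] at hy
    subst hy
    exact h.wn (hBC hx) hxy

/-- (S1) -/
theorem Cx.s1 (h : Cx G X C v w) {Y : Set V} (hY : Y ⊆ Zz G C v) (cY : Conn G Y)
    (nY : ∀ u ∈ Zz G C v, u ∉ nb G Y) {n : V} (hn : n ∈ Nn G C v) : ∃ y ∈ Y, G.Adj y n := by
  by_contra hcon
  push Not at hcon
  have hnA : n ∈ C \ (Y ∪ {x | x ∈ Nn G C v ∧ ∃ y ∈ Y, G.Adj y x}) := ⟨hn.1, by
    rintro (h1 | ⟨_, y, hy, hyn⟩)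
    · exact (hY h1).2 hn.2
    · exact hcon y hy hyn⟩
  obtain ⟨R, hR, hnR, cR, nR⟩ := exists_comp G hnA
  have hRC : R ⊆ C := fun x hx => (hR hx).1
  have hRY : ∀ r ∈ R, ∀ y ∈ Y, ¬ G.Adj r y := by
    intro r hr y hy hry
    have h1 := (hR hr).2
    by_cases hrv : G.Adj v r
    · exact h1 (Or.inr ⟨⟨hRC hr, hrv⟩, y, hy, hry.symm⟩)
    · exact nY r ⟨hRC hr, hrv⟩ ⟨fun h2 => h1 (Or.inl h2), y, hy, hry.symm⟩
  obtain ⟨y0, hy0⟩ := cY.1
  have hRne : R ≠ C := by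
    intro e
    have h1 : y0 ∈ R := by rw [e]; exact (hY hy0).1
    exact (hR h1).2 (Or.inl hy0)
  obtain ⟨r, hr, a, ha, hra⟩ := h.cC.2 R hRC ⟨n, hnR⟩ hRne
  have haN : a ∈ {x | x ∈ Nn G C v ∧ ∃ y ∈ Y, G.Adj y x} := by
    by_contra h1
    by_cases h2 : a ∈ Y
    · exact hRY r hr a h2 hra
    · exact nR a ⟨ha.1, fun h3 => h3.elim h2 h1⟩ ⟨ha.2, r, hr, hra⟩
  obtain ⟨⟨haC, hva⟩, y, hy, hya⟩ := haN
  apply h.hB
  refine bullS (A := {v}) (B := {a}) (C := R) (P := {w}) (Q := Y)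
    (Set.singleton_subset_iff.2 h.vX) (Set.singleton_subset_iff.2 (h.CX haC)) (hRC.trans h.CX)
    (Set.singleton_subset_iff.2 h.wX) (fun x hx => h.CX (hY hx).1)
    (Conn.singleton G v) (Conn.singleton G a) cR (Conn.singleton G w) cY
    (Set.disjoint_singleton.2 fun e => h.vC (e ▸ haC))
    (Set.disjoint_singleton_left.2 fun hh => h.vC (hRC hh))
    (Set.disjoint_singleton_left.2 fun hh => ha.2 hh)
    (Set.disjoint_singleton.2 h.vw.ne)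
    (Set.disjoint_singleton.2 fun e => h.wC (e ▸ haC))
    (Set.disjoint_singleton_right.2 fun hh => h.wC (hRC hh))
    (Set.disjoint_singleton_left.2 fun hh => h.vC (hY hh).1)
    (Set.disjoint_singleton_left.2 fun hh => (hY hh).2 hva)
    (Set.disjoint_left.2 fun x hx hx' => (hR hx).2 (Or.inl hx'))
    (Set.disjoint_singleton_left.2 fun hh => h.wC (hY hh).1)
    (tch_single.2 hva) ⟨v, rfl, n, hnR, hn.2⟩ ⟨a, rfl, r, hr, hra.symm⟩ (tch_single.2 h.vw)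
    ⟨a, rfl, y, hy, hya.symm⟩ (fun t => h.wn haC (tch_single.1 t)) ?_ ?_ ?_ ?_
  · rintro ⟨x, hx, y, hy, hxy⟩
    rw [Set.mem_singleton_iff] at hy
    subst hy
    exact h.wn (hRC hx) hxy
  · rintro ⟨x, hx, y, hy, hxy⟩
    rw [Set.mem_singleton_iff] at hx
    subst hx
    exact (hY hy).2 hxy
  · rintro ⟨x, hx, y, hy, hxy⟩
    exact hRY x hx y hy hxy
  · rintro ⟨x, hx, y, hy, hxy⟩
    rw [Set.mem_singleton_iff] at hx
    subst hx
    exact h.wn (hY hy).1 hxy.symm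

/-- (S2) -/
theorem Cx.s2 (h : Cx G X C v w) {n n' : V} (hn : n ∈ Nn G C v) (hn' : n' ∈ Nn G C v) :
    ¬ G.Adj n n' := by
  intro hnn
  obtain ⟨K, hK, hnK, cK, nK⟩ := exists_comp G hn
  have hn'K : n' ∈ K := by
    by_contra h1
    exact nK n' hn' ⟨h1, n, hnK, hnn⟩
  have hmod : Mod G X K := by
    refine ⟨fun x hx => h.CX (hK hx).1, fun y hy hyK a ha b hb hya => ?_⟩
    by_cases hyv : y = v
    · subst hyv; exact (hK hb).2
    by_cases hyC : y ∈ C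
    · by_cases hvy : G.Adj v y
      · exact absurd ⟨hyK, a, ha, hya.symm⟩ (nK y ⟨hyC, hvy⟩)
      · by_contra hyb
        obtain ⟨a', ha', b', hb', h1, h2, h3⟩ := mixed_conn cK ⟨a, ha, hya⟩ ⟨b, hb, hyb⟩
        exact h.hB (bull5 h.vX (h.CX (hK ha').1) (h.CX (hK hb').1) h.wX hy (hK ha').2 (hK hb').2 h3
          h.vw h1.symm (h.wn (hK ha').1) (h.wn (hK hb').1) hvy (fun e => h2 e.symm)
          (fun e => h.wn hyC e.symm))
    · exact absurd hya.symm (h.out y hy hyv hyC a (hK ha).1)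
  rcases h.hP K hmod with h1 | h1
  · exact hnn.ne (h1 hnK hn'K)
  · have h2 : v ∈ K := by rw [h1]; exact h.vX
    exact h.vC (hK h2).1

/-- (S3) -/
theorem Cx.s3 (h : Cx G X C v w) {Y : Set V} (hY : Y ⊆ Zz G C v) (cY : Conn G Y) {n n' : V}
    (hn : n ∈ Nn G C v) (hn' : n' ∈ Nn G C v) (hne : n ≠ n') {y₀ : V} (h0 : y₀ ∈ Y)
    (h1 : G.Adj y₀ n) (h2 : G.Adj y₀ n') : ∀ y ∈ Y, G.Adj y n ∧ G.Adj y n' := by
  have e : {y | y ∈ Y ∧ G.Adj y n ∧ G.Adj y n'} = Y := by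
    refine cY.eq_of_nb (fun y hy => hy.1) ⟨y₀, h0, h1, h2⟩ ?_
    rintro z hz ⟨hz1, y', ⟨hy', q1, q2⟩, hyz⟩
    have hz2 : z ∉ ({y'} : Set V) := fun e => hyz.ne (Set.mem_singleton_iff.1 e).symm
    have hK : ({y'} : Set V) ⊆ Zz G C v := Set.singleton_subset_iff.2 (hY hy')
    exact hz1 ⟨hz, h.bl hn hn' hne hK (Conn.singleton G y') ⟨y', rfl, q1⟩ ⟨y', rfl, q2⟩ (hY hz) hz2
        (Or.inr ⟨y', rfl, hyz⟩),
      h.bl hn' hn hne.symm hK (Conn.singleton G y') ⟨y', rfl, q2⟩ ⟨y', rfl, q1⟩ (hY hz) hz2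
        (Or.inr ⟨y', rfl, hyz⟩)⟩
  intro y hy
  have h3 : y ∈ {y | y ∈ Y ∧ G.Adj y n ∧ G.Adj y n'} := by rw [e]; exact hy
  exact h3.2

/-- an initial segment of a path is connected -/
theorem conn_seg {p : ℕ → V} (j : ℕ) (h : ∀ i < j, G.Adj (p i) (p (i + 1))) :
    Conn G {x | ∃ i ≤ j, x = p i} := by
  induction j with
  | zero =>
    have e : {x | ∃ i ≤ 0, x = p i} = {p 0} := by
      ext x
      constructor
      · rintro ⟨i, hi, rfl⟩
        rw [Nat.le_zero.1 hi]; rfl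
      · intro hx
        exact ⟨0, le_rfl, hx⟩
    rw [e]
    exact Conn.singleton G _
  | succ j ih =>
    have e : {x | ∃ i ≤ j + 1, x = p i} = insert (p (j + 1)) {x | ∃ i ≤ j, x = p i} := by
      ext x
      constructor
      · rintro ⟨i, hi, rfl⟩
        rcases Nat.lt_or_ge j i with h1 | h1
        · rw [show i = j + 1 by omega]; exact Or.inl rfl
        · exact Or.inr ⟨i, h1, rfl⟩
      · rintro (hx | ⟨i, hi, hx⟩)
        · exact ⟨j + 1, le_rfl, hx⟩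
        · exact ⟨i, by omega, hx⟩
    rw [e]
    exact (ih fun i hi => h i (by omega)).insert ⟨p j, ⟨j, le_rfl, rfl⟩, h j (by omega)⟩

/-- the existence of `w` -/
theorem exists_w (hX : Conn G X) (hv : v ∈ X) (hCX : C ⊆ X \ {v}) (hne : C ≠ X \ {v})
    (out : ∀ y ∈ X, y ≠ v → y ∉ C → ∀ c ∈ C, ¬ G.Adj c y) : ∃ w, w ∈ X ∧ w ∉ C ∧ G.Adj v w := by
  have hD : ((X \ {v}) \ C).Nonempty := by
    by_contra h
    rw [Set.not_nonempty_iff_eq_empty, Set.sdiff_eq_empty] at h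
    exact hne (Set.Subset.antisymm hCX h)
  obtain ⟨d, hd, e, he, hde⟩ := hX.2 ((X \ {v}) \ C) (fun x hx => hx.1.1) hD (by
    intro e
    have h1 : v ∈ (X \ {v}) \ C := by rw [e]; exact hv
    exact h1.1.2 rfl)
  have hev : e = v := by
    by_contra hev
    have heC : e ∈ C := by
      by_contra heC
      exact he.2 ⟨⟨he.1, hev⟩, heC⟩
    exact out d hd.1.1 (fun h => hd.1.2 h) hd.2 e heC hde.symm
  subst hev
  exact ⟨d, hd.1.1, hd.2, hde.symm⟩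

/-- (S4): a mixed vertex -/
theorem Cx.s4 (h : Cx G X C v w) {a b : V} (ha : a ∈ Nn G C v) (hb : b ∈ Nn G C v) (hab : a ≠ b) :
    ∃ y n₁ n₂, y ∈ Zz G C v ∧ n₁ ∈ Nn G C v ∧ n₂ ∈ Nn G C v ∧ G.Adj y n₁ ∧ ¬ G.Adj y n₂ := by
  by_contra hcon
  push Not at hcon
  have hmod : Mod G X (Nn G C v) := by
    refine ⟨fun x hx => h.CX hx.1, fun y hy hyN a ha b hb hya => ?_⟩
    by_cases hyv : y = v
    · subst hyv; exact hb.2
    by_cases hyC : y ∈ C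
    · exact hcon y a b ⟨hyC, fun h1 => hyN ⟨hyC, h1⟩⟩ ha hb hya
    · exact absurd hya.symm (h.out y hy hyv hyC a ha.1)
  rcases h.hP _ hmod with h1 | h1
  · exact hab (h1 ha hb)
  · have h2 : v ∈ Nn G C v := by rw [h1]; exact h.vX
    exact h.vC h2.1

/-- the final path -/
theorem final {l : ℕ} {p : ℕ → V} {n₁ n₂ : V} (h : Cx G X C v w) (hn₁ : n₁ ∈ Nn G C v)
    (hn₂ : n₂ ∈ Nn G C v) (h12 : n₁ ≠ n₂) (pZ : ∀ i ≤ l, p i ∈ Zz G C v)
    (pinj : ∀ i ≤ l, ∀ j ≤ l, p i = p j → i = j)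
    (padj : ∀ i ≤ l, ∀ j ≤ l, G.Adj (p i) (p j) ↔ i = j + 1 ∨ j = i + 1)
    (p1 : ∀ i ≤ l, (G.Adj (p i) n₁ ↔ i = 0)) (p2 : ∀ i ≤ l, (G.Adj (p i) n₂ ↔ i = l))
    (hN : ∀ n ∈ Nn G C v, n = n₁ ∨ n = n₂) (hZ : ∀ z ∈ Zz G C v, ∃ i ≤ l, z = p i) :
    ∃ (n : ℕ) (p : ℕ → V), IP G X n p ∧ C = {x | ∃ i < n, x = p i} ∧
      ∀ i, 0 < i → i + 1 < n → ¬ G.Adj (p i) v := by
  obtain ⟨q, q0, qm, ql⟩ : ∃ q : ℕ → V, q 0 = n₁ ∧ (∀ i ≤ l, q (i + 1) = p i) ∧ q (l + 2) = n₂ := by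
    refine ⟨fun i => if i = 0 then n₁ else if i ≤ l + 1 then p (i - 1) else n₂, by simp, ?_, ?_⟩
    · intro i hi
      have : i + 1 ≤ l + 1 := by omega
      simp only [Nat.add_eq_zero_iff, one_ne_zero, and_false, if_false, this, if_true,
        Nat.add_sub_cancel]
    · have h1 : ¬ (l + 2 ≤ l + 1) := by omega
      have h2 : ¬ (l + 2 = 0) := by omega
      show (if l + 2 = 0 then n₁ else if l + 2 ≤ l + 1 then p (l + 2 - 1) else n₂) = n₂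
      rw [if_neg h2, if_neg h1]
  have cs : ∀ i < l + 3, i = 0 ∨ (∃ i' ≤ l, i = i' + 1) ∨ i = l + 2 := by
    intro i hi
    rcases Nat.eq_zero_or_pos i with h1 | h1
    · exact Or.inl h1
    · rcases Nat.lt_or_ge i (l + 2) with h2 | h2
      · exact Or.inr (Or.inl ⟨i - 1, by omega, by omega⟩)
      · exact Or.inr (Or.inr (by omega))
  have s12 : ¬ G.Adj n₁ n₂ := h.s2 hn₁ hn₂
  have d1 : ∀ i ≤ l, n₁ ≠ p i := fun i hi e => (pZ i hi).2 (e ▸ hn₁.2)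
  have d2 : ∀ i ≤ l, n₂ ≠ p i := fun i hi e => (pZ i hi).2 (e ▸ hn₂.2)
  have hqC : ∀ i < l + 3, q i ∈ C := by
    intro i hi
    rcases cs i hi with rfl | ⟨i', hi', rfl⟩ | rfl
    · rw [q0]; exact hn₁.1
    · rw [qm i' hi']; exact (pZ i' hi').1
    · rw [ql]; exact hn₂.1
  refine ⟨l + 3, q, ⟨fun i hi => h.CX (hqC i hi), ?_, ?_⟩, ?_, ?_⟩
  · intro i hi j hj hij
    rcases cs i hi with rfl | ⟨i', hi', rfl⟩ | rfl <;> rcases cs j hj with rfl | ⟨j', hj', rfl⟩ | rfl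
    · rfl
    · rw [q0, qm j' hj'] at hij
      exact absurd hij (d1 j' hj')
    · rw [q0, ql] at hij
      exact absurd hij h12
    · rw [q0, qm i' hi'] at hij
      exact absurd hij.symm (d1 i' hi')
    · rw [qm i' hi', qm j' hj'] at hij
      rw [pinj i' hi' j' hj' hij]
    · rw [ql, qm i' hi'] at hij
      exact absurd hij.symm (d2 i' hi')
    · rw [q0, ql] at hij
      exact absurd hij.symm h12
    · rw [ql, qm j' hj'] at hij
      exact absurd hij (d2 j' hj')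
    · rfl
  · intro i hi j hj
    rcases cs i hi with rfl | ⟨i', hi', rfl⟩ | rfl <;> rcases cs j hj with rfl | ⟨j', hj', rfl⟩ | rfl
    · exact iff_of_false (G.loopless.irrefl _) (by omega)
    · rw [q0, qm j' hj', G.adj_comm, p1 j' hj']
      omega
    · rw [q0, ql]
      exact iff_of_false s12 (by omega)
    · rw [q0, qm i' hi', p1 i' hi']
      omega
    · rw [qm i' hi', qm j' hj', padj i' hi' j' hj']
      omega
    · rw [ql, qm i' hi', p2 i' hi']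
      omega
    · rw [q0, ql]
      exact iff_of_false (fun e => s12 e.symm) (by omega)
    · rw [ql, qm j' hj', G.adj_comm, p2 j' hj']
      omega
    · exact iff_of_false (G.loopless.irrefl _) (by omega)
  · ext x
    constructor
    · intro hx
      by_cases hvx : G.Adj v x
      · rcases hN x ⟨hx, hvx⟩ with rfl | rfl
        · exact ⟨0, by omega, q0.symm⟩
        · exact ⟨l + 2, by omega, ql.symm⟩
      · obtain ⟨i, hi, rfl⟩ := hZ x ⟨hx, hvx⟩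
        exact ⟨i + 1, by omega, (qm i hi).symm⟩
    · rintro ⟨i, hi, rfl⟩
      exact hqC i hi
  · intro i hi1 hi2
    have : i - 1 + 1 = i := by omega
    rw [← this, qm (i - 1) (by omega)]
    exact fun e => (pZ (i - 1) (by omega)).2 e.symm

end B1Aux

open B1Aux in
theorem b1 : S_B1 := by
  intro V _ G X C v hP hB hX hv hC hne a ha b hb hab hva hvb
  obtain ⟨hCX, cC, nC⟩ := hC
  have hvC : v ∉ C := fun h => (hCX h).2 rfl
  have out : ∀ y ∈ X, y ≠ v → y ∉ C → ∀ c ∈ C, ¬ G.Adj c y := fun y hy hyv hyC c hc hcy =>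
    nC y ⟨hy, hyv⟩ ⟨hyC, c, hc, hcy⟩
  obtain ⟨w, hwX, hwC, hvw⟩ := exists_w hX hv hCX hne out
  have h : Cx G X C v w := ⟨hP, hB, hv, hCX.trans Set.sdiff_subset, hvC, cC, hwX, hwC, hvw, out⟩
  obtain ⟨y, n₁, n₂, hyZ, hn₁, hn₂, hy1, hy2⟩ := h.s4 ⟨ha, hva⟩ ⟨hb, hvb⟩ hab
  have h12 : n₁ ≠ n₂ := fun e => hy2 (e ▸ hy1)
  obtain ⟨Y, hYZ, hyY, cY, nY⟩ := exists_comp G hyZ
  have hboth : ∀ x ∈ Y, G.Adj x n₁ → ¬ G.Adj x n₂ := fun x hx q1 q2 =>
    hy2 (h.s3 hYZ cY hn₁ hn₂ h12 hx q1 q2 y hyY).2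
  obtain ⟨y1, hy1Y, hy1n⟩ := h.s1 hYZ cY nY hn₁
  obtain ⟨y2, hy2Y, hy2n⟩ := h.s1 hYZ cY nY hn₂
  obtain ⟨l, p, p0, pl, pY, pinj, padj, pX, pYY⟩ :=
    path V G Y {x | G.Adj x n₁} {x | G.Adj x n₂} cY ⟨y1, hy1Y, hy1n⟩ ⟨y2, hy2Y, hy2n⟩
  have hl : 1 ≤ l := by
    by_contra h0
    have h1 : l = 0 := by omega
    subst h1
    exact hboth (p 0) (pY 0 le_rfl) p0 pl
  have pZ : ∀ i ≤ l, p i ∈ Zz G C v := fun i hi => hYZ (pY i hi)
  have p1 : ∀ i ≤ l, (G.Adj (p i) n₁ ↔ i = 0) := fun i hi => ⟨fun e => pX i hi e, by rintro rfl; exact p0⟩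
  have p2 : ∀ i ≤ l, (G.Adj (p i) n₂ ↔ i = l) := fun i hi => ⟨fun e => pYY i hi e, by rintro rfl; exact pl⟩
  have pc : ∀ i < l, G.Adj (p i) (p (i + 1)) := fun i hi =>
    (padj i (by omega) (i + 1) (by omega)).2 (Or.inr rfl)
  -- `Y` is the path
  have hK : {x | ∃ i ≤ l, x = p i} = Y := by
    by_contra hKY
    have hKs : {x | ∃ i ≤ l, x = p i} ⊆ Y := by
      rintro _ ⟨i, hi, rfl⟩
      exact pY i hi
    obtain ⟨k, hk, z, hz, hkz⟩ := cY.2 {x | ∃ i ≤ l, x = p i} hKs ⟨p 0, 0, by omega, rfl⟩ hKY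
    have cK := conn_seg (G := G) (p := p) l pc
    have t1 : ∃ k ∈ {x | ∃ i ≤ l, x = p i}, G.Adj k n₁ := ⟨p 0, ⟨0, by omega, rfl⟩, p0⟩
    have t2 : ∃ k ∈ {x | ∃ i ≤ l, x = p i}, G.Adj k n₂ := ⟨p l, ⟨l, le_rfl, rfl⟩, pl⟩
    exact hboth z hz.1
      (h.bl hn₁ hn₂ h12 (hKs.trans hYZ) cK t1 t2 (hYZ hz.1) hz.2 (Or.inr ⟨k, hk, hkz⟩))
      (h.bl hn₂ hn₁ h12.symm (hKs.trans hYZ) cK t2 t1 (hYZ hz.1) hz.2 (Or.inr ⟨k, hk, hkz⟩))
  -- there are no further neighbours of `v`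
  have hN : ∀ n ∈ Nn G C v, n = n₁ ∨ n = n₂ := by
    intro n₃ hn₃
    by_contra hcon
    push Not at hcon
    obtain ⟨z, hz, hzn⟩ := h.s1 hYZ cY nY hn₃
    rw [← hK] at hz
    obtain ⟨j, hj, rfl⟩ := hz
    rcases Nat.lt_or_ge j l with hjl | hjl
    · have hs : {x | ∃ i ≤ j, x = p i} ⊆ Zz G C v := by
        rintro _ ⟨i, hi, rfl⟩
        exact pZ i (by omega)
      have h1 : G.Adj (p (j + 1)) n₁ := by
        refine h.bl hn₁ hn₃ hcon.1.symm hs (conn_seg j fun i hi => pc i (by omega))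
          ⟨p 0, ⟨0, by omega, rfl⟩, p0⟩ ⟨p j, ⟨j, le_rfl, rfl⟩, hzn⟩ (pZ _ (by omega)) ?_
          (Or.inr ⟨p j, ⟨j, le_rfl, rfl⟩, pc j hjl⟩)
        rintro ⟨i, hi, e⟩
        have := pinj (j + 1) (by omega) i (by omega) e
        omega
      have := (p1 (j + 1) (by omega)).1 h1
      omega
    · have hjl' : j = l := by omega
      subst hjl'
      have h1 : G.Adj (p (j - 1)) n₂ := by
        refine h.bl hn₂ hn₃ hcon.2.symm (Set.singleton_subset_iff.2 (pZ j le_rfl)) (Conn.singleton G (p j))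
          ⟨p j, rfl, pl⟩ ⟨p j, rfl, hzn⟩ (pZ _ (by omega)) ?_ (Or.inr ⟨p j, rfl, ?_⟩)
        · intro e
          have := pinj (j - 1) (by omega) j (by omega) e
          omega
        · exact (padj j le_rfl (j - 1) (by omega)).2 (Or.inl (by omega))
      have := (p2 (j - 1) (by omega)).1 h1
      omega
  -- there are no further vertices
  have hZ : ∀ z ∈ Zz G C v, ∃ i ≤ l, z = p i := by
    intro z hz
    by_contra hcon
    have hzY : z ∉ Y := by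
      rw [← hK]; exact hcon
    obtain ⟨Y₂, hY₂Z, hzY₂, cY₂, nY₂⟩ := exists_comp G hz
    have h0 : p 0 ∉ Y₂ := by
      intro h0
      have e : Y ∩ Y₂ = Y₂ := by
        refine cY₂.eq_of_nb Set.inter_subset_right ⟨p 0, pY 0 (by omega), h0⟩ ?_
        rintro u hu ⟨hu1, c, hc, hcu⟩
        exact nY u (hY₂Z hu) ⟨fun h1 => hu1 ⟨h1, hu⟩, c, hc.1, hcu⟩
      rw [← e] at hzY₂
      exact hzY hzY₂.1
    have h1 : G.Adj (p 0) n₂ :=
      h.bl hn₂ hn₁ h12.symm hY₂Z cY₂ (h.s1 hY₂Z cY₂ nY₂ hn₂) (h.s1 hY₂Z cY₂ nY₂ hn₁) (pZ 0 (by omega)) h0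
        (Or.inl p0.symm)
    have := (p2 0 (by omega)).1 h1
    omega
  exact final h hn₁ hn₂ h12 pZ pinj padj p1 p2 hN hZ

end Pool.Agent.MPd439b2.BU
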