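import Pool.Agent.Lib.MP_d439b2_co.BU.Spec

/-!
# MP_d439b2_co, BU, B2: layouts of prime graphs with a cut vertex
-/

set_option autoImplicit false

namespace Pool.Agent.MPd439b2.BU

open Pool.Agent.MPd439b2

namespace b2Aux

variable {V : Type}

theorem comp_eq {G : SimpleGraph V} {X D D' : Set V} (h : IsComp G X D) (h' : IsComp G X D')
    (hne : (D ∩ D').Nonempty) : D = D' := by
  have key : ∀ D D' : Set V, IsComp G X D → IsComp G X D' → (D ∩ D').Nonempty → D' ⊆ D := by
    intro D D' h h' hne
    have h1 : D ∩ D' = D' := h'.2.1.eq_of_nb Set.inter_subset_right hne (by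
      rintro v hv ⟨hv1, a, ha, hav⟩
      apply hv1
      refine ⟨?_, hv⟩
      by_contra hvD
      exact h.2.2 v (h'.1 hv) ⟨hvD, a, ha.1, hav⟩)
    rw [← h1]
    exact Set.inter_subset_left
  exact Set.Subset.antisymm (key D' D h' h (by rwa [Set.inter_comm])) (key D D' h h' hne)

/-- layouts of unions of components -/
theorem lt_comps [Finite V] {G : SimpleGraph V} {R : Set V → Prop} {Y : Set V}
    (hC : ∀ C, IsComp G Y C → LT R C)
    (hR : ∀ B ⊆ Y, (∀ b ∈ B, ∀ y ∈ Y, G.Adj b y → y ∈ B) → R B) : LT R Y := by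
  classical
  let F : Finset (Set V) := (Set.toFinite {C : Set V | IsComp G Y C}).toFinset
  have hF : ∀ C, C ∈ F ↔ IsComp G Y C := fun C => Set.Finite.mem_toFinset _
  have hU : (⋃ C ∈ F, C) = Y := by
    ext y
    simp only [Set.mem_iUnion, exists_prop]
    constructor
    · rintro ⟨C, hC, hy⟩
      exact ((hF C).1 hC).1 hy
    · intro hy
      obtain ⟨C, h1, h2, h3, h4⟩ := exists_comp G hy
      exact ⟨C, (hF C).2 ⟨h1, h3, h4⟩, h2⟩
  rw [← hU]
  refine LT.biUnion F (fun C => C) ?_ (fun C hCF => hC C ((hF C).1 hCF)) ?_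
  · intro C hCF D hDF hne
    rw [Set.disjoint_iff_inter_eq_empty]
    by_contra h
    exact hne (comp_eq ((hF C).1 hCF) ((hF D).1 hDF) (Set.nonempty_iff_ne_empty.2 h))
  · intro t ht
    apply hR
    · intro y hy
      simp only [Set.mem_iUnion, exists_prop] at hy
      obtain ⟨C, hCt, hyC⟩ := hy
      exact ((hF C).1 (ht hCt)).1 hyC
    · intro b hb y hy hby
      simp only [Set.mem_iUnion, exists_prop] at hb ⊢
      obtain ⟨C, hCt, hbC⟩ := hb
      refine ⟨C, hCt, ?_⟩
      by_contra hyC
      exact ((hF C).1 (ht hCt)).2.2 y hy ⟨hyC, b, hbC, hby⟩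

theorem rows_le {G : SimpleGraph V} {X B : Set V} {v : V}
    (h : ∀ b ∈ B, ∀ y ∈ X, G.Adj b y → y ∉ B → y = v) : (Rw G X B).encard ≤ 3 := by
  have h1 : Rw G X B ⊆ {∅, {v}} := by
    rintro T ⟨b, hb, rfl⟩
    by_cases hv : v ∈ (G.neighborSet b ∩ X) \ B
    · right
      rw [Set.mem_singleton_iff]
      ext y
      rw [Set.mem_singleton_iff]
      constructor
      · rintro ⟨⟨hy1, hy2⟩, hy3⟩
        exact h b hb y hy2 hy1 hy3
      · rintro rfl
        exact hv
    · left
      rw [Set.eq_empty_iff_forall_notMem]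
      rintro y ⟨⟨hy1, hy2⟩, hy3⟩
      apply hv
      rw [← h b hb y hy2 hy1 hy3]
      exact ⟨⟨hy1, hy2⟩, hy3⟩
  refine (Set.encard_le_encard h1).trans ((Set.encard_insert_le _ _).trans ?_)
  rw [Set.encard_singleton]
  norm_num

end b2Aux

open b2Aux in
theorem b2 (h1 : S_B1) (h5 : S_R5) : S_B2 := by
  intro V _ G X v₀ hP hB hX hv₀ hcut
  -- the claim
  have claim : ∀ n : ℕ, ∀ v ∈ X, ∀ C : Set V, C.ncard ≤ n → IsComp G (X \ {v}) C →
      C ≠ X \ {v} → RL G X 3 C := by
    intro n
    induction n with
    | zero =>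
      intro v _ C hn hC _
      rw [Nat.le_zero, Set.ncard_eq_zero] at hn
      exact absurd hn hC.2.1.1.ne_empty
    | succ n ih =>
      intro v hv C hn hC hne
      have hCX : C ⊆ X := hC.1.trans Set.sdiff_subset
      have hvC : v ∉ C := fun h => (hC.1 h).2 rfl
      have hout : ∀ c ∈ C, ∀ y ∈ X, G.Adj c y → y ∉ C → y = v := by
        intro c hc y hy hcy hyC
        by_contra hyv
        exact hC.2.2 y ⟨hy, hyv⟩ ⟨hyC, c, hc, hcy⟩
      obtain ⟨a, haC, hav⟩ : ∃ a ∈ C, G.Adj v a := by
        by_contra hcon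
        push Not at hcon
        have : C = X := hX.eq_of_nb hCX hC.2.1.1 (by
          rintro u hu ⟨huC, a, ha, hau⟩
          have := hout a ha u hu hau huC
          subst this
          exact hcon a ha hau.symm)
        exact hvC (this ▸ hv)
      by_cases hN : ∃ b ∈ C, G.Adj v b ∧ b ≠ a
      · obtain ⟨b, hbC, hbv, hba⟩ := hN
        obtain ⟨m, p, hp, hCp, hpv⟩ := h1 V G X C v hP hB hX hv hC hne a haC b hbC hba.symm hav hbv
        rw [hCp]
        refine h5 V G X m p hp.2.1 ?_
        intro i hi0 him y hy hiy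
        have hpi : p i ∈ C := by
          rw [hCp]
          exact ⟨i, by omega, rfl⟩
        have hyC : y ∈ C := by
          by_contra hyC
          have := hout _ hpi y hy hiy hyC
          subst this
          exact hpv i hi0 him hiy
        rw [hCp] at hyC
        obtain ⟨j, hj, rfl⟩ := hyC
        rcases (hp.2.2 i (by omega) j hj).1 hiy with h | h
        · right
          rw [h]
        · left
          rw [← h, Nat.add_sub_cancel]
      · push Not at hN
        have hvN : ∀ c ∈ C, G.Adj c v → c = a := fun c hc hcv => hN c hc hcv.symm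
        have haX : a ∈ X := hCX haC
        have hva : v ≠ a := fun h => hvC (h ▸ haC)
        have hlt : RL G X 3 (C \ {a}) := by
          refine lt_comps (G := G) (fun C' hC' => ?_) (fun B hB hcl => ?_)
          · refine ih a haX C' ?_ ⟨?_, hC'.2.1, ?_⟩ ?_
            · have h6 := Set.ncard_le_ncard hC'.1
              rw [Set.ncard_sdiff_singleton_of_mem haC] at h6
              omega
            · exact fun x hx => ⟨hCX (hC'.1 hx).1, (hC'.1 hx).2⟩
            · rintro u ⟨hu, hua⟩ ⟨huC', c, hc, hcu⟩
              by_cases huC : u ∈ C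
              · exact hC'.2.2 u ⟨huC, hua⟩ ⟨huC', c, hc, hcu⟩
              · have := hout c (hC'.1 hc).1 u hu hcu huC
                subst this
                exact (hC'.1 hc).2 (hvN c (hC'.1 hc).1 hcu)
            · intro he
              have : v ∈ C' := by
                rw [he]
                exact ⟨hv, hva⟩
              exact hvC (hC'.1 this).1
          · refine rows_le (v := a) ?_
            intro b hb y hy hby hyB
            by_contra hya
            by_cases hyC : y ∈ C
            · exact hyB (hcl b hb y ⟨hyC, hya⟩ hby)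
            · have := hout b (hB hb).1 y hy hby hyC
              subst this
              exact (hB hb).2 (hvN b (hB hb).1 hby)
        have h7 : insert a (C \ {a}) = C := by
          rw [Set.insert_sdiff_singleton, Set.insert_eq_of_mem haC]
        rw [← h7]
        refine LT.insert hlt (fun h => h.2 rfl) ?_
        rw [h7]
        exact rows_le (v := v) hout
  have hlt : RL G X 3 (X \ {v₀}) := by
    refine lt_comps (G := G) (fun C hC => claim C.ncard v₀ hv₀ C le_rfl hC ?_) (fun B hB hcl => ?_)
    · rintro rfl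
      exact hcut hC.2.1
    · refine rows_le (v := v₀) ?_
      intro b hb y hy hby hyB
      by_contra hyv
      exact hyB (hcl b hb y ⟨hy, hyv⟩ hby)
  have h7 : insert v₀ (X \ {v₀}) = X := by
    rw [Set.insert_sdiff_singleton, Set.insert_eq_of_mem hv₀]
  have h8 : RL G X 3 (insert v₀ (X \ {v₀})) := by
    refine LT.insert hlt (fun h => h.2 rfl) ?_
    rw [h7]
    exact rows_le (v := v₀) (fun b _ y hy _ hyX => absurd hy hyX)
  rwa [h7] at h8

end Pool.Agent.MPd439b2.BU
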