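import Pool.Agent.Lib.MP_d439b2_co.BU.Spec

/-!
# MP_d439b2_co, BU: B3, domination (helper50)
-/

set_option autoImplicit false

namespace Pool.Agent.MPd439b2.BU

open Pool.Agent.MPd439b2

theorem b3 : S_B3 := by
  intro V G X P M f hbf hM hPne hPM hMX hf hfP h2 z₀ hz₀
  by_contra hz
  obtain ⟨l, r, r0, rl, rM, rinj, radj, rX, rY⟩ := path V G M {z | ¬ G.Adj f z} P hM
    ⟨z₀, hz₀, hz⟩ (by
      obtain ⟨q, hq⟩ := hPne
      exact ⟨q, hPM hq, hq⟩)
  have hadj : ∀ i, 1 ≤ i → i ≤ l → G.Adj f (r i) := by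
    intro i h1 hi
    by_contra h
    have := rX i hi h
    omega
  have hr0 : ¬ G.Adj f (r 0) := r0
  have h0P : r 0 ∉ P := fun h => hr0 (hfP _ h)
  have h0n : ∀ q ∈ P, ¬ G.Adj (r 0) q := fun q hq hrq =>
    hr0 (h2 (r 0) (rM 0 (Nat.zero_le _)) h0P ⟨q, hq, hrq⟩).1
  have hl0 : l ≠ 0 := by
    rintro rfl
    exact h0P rl
  have hl1 : l ≠ 1 := by
    rintro rfl
    exact h0n _ rl ((radj 0 (by omega) 1 (by omega)).2 (Or.inr rfl))
  have hl : 2 ≤ l := by omega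
  have h1P : r 1 ∉ P := fun h => by
    have := rY 1 (by omega) h
    omega
  have h01 : G.Adj (r 0) (r 1) := (radj 0 (by omega) 1 (by omega)).2 (Or.inr rfl)
  have f1 : G.Adj f (r 1) := hadj 1 le_rfl (by omega)
  have m0 : r 0 ∈ X := hMX (rM 0 (by omega))
  have m1 : r 1 ∈ X := hMX (rM 1 (by omega))
  by_cases hc : ∃ q ∈ P, G.Adj (r 1) q
  · obtain ⟨_, q, hq, q', hq', a1, a2, a3, a4⟩ := h2 (r 1) (rM 1 (by omega)) h1P hc
    exact hbf (bull5 (p := q') (q := r 0) hf m1 (hMX (hPM hq)) (hMX (hPM hq')) m0 f1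
      (hfP q hq) a1 (hfP q' hq') h01.symm a2 a3 hr0 (fun e => h0n q hq e.symm)
      (fun e => h0n q' hq' e.symm))
  · have hl2 : l ≠ 2 := by
      rintro rfl
      exact hc ⟨_, rl, (radj 1 (by omega) 2 (by omega)).2 (Or.inr rfl)⟩
    have hl3 : 3 ≤ l := by omega
    have h2P : r 2 ∉ P := fun h => by
      have := rY 2 (by omega) h
      omega
    obtain ⟨q, hq, hq2⟩ : ∃ q ∈ P, ¬ G.Adj (r 2) q := by
      by_cases hd : ∃ q ∈ P, G.Adj (r 2) q
      · obtain ⟨_, q, hq, q', hq', a1, a2, a3, a4⟩ := h2 (r 2) (rM 2 (by omega)) h2P hd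
        exact ⟨q', hq', a2⟩
      · obtain ⟨q, hq⟩ := hPne
        exact ⟨q, hq, fun h => hd ⟨q, hq, h⟩⟩
    have h12 : G.Adj (r 1) (r 2) := (radj 1 (by omega) 2 (by omega)).2 (Or.inr rfl)
    have h02 : ¬ G.Adj (r 2) (r 0) := fun h => by
      have := (radj 2 (by omega) 0 (by omega)).1 h
      omega
    exact hbf (bull5 (p := q) (q := r 0) hf m1 (hMX (rM 2 (by omega))) (hMX (hPM hq)) m0 f1
      (hadj 2 (by omega) (by omega)) h12 (hfP q hq) h01.symm (fun e => hc ⟨q, hq, e⟩) hq2 hr0 h02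
      (fun e => h0n q hq e.symm))

end Pool.Agent.MPd439b2.BU
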