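import Pool.Agent.Lib.MP_d439b2_co.BU.Spec

/-!
# MP_d439b2_co, BU, B4: no vertex is complete to `P`
-/

set_option autoImplicit false

namespace Pool.Agent.MPd439b2.BU

open Pool.Agent.MPd439b2

/-- **B4.** No vertex is complete to `P`. -/
theorem b4 (h3 : S_B3) : S_B4 := by
  intro V _ G X P hPrm hBF hP hPX hns H f₀ hf₀X hf₀P
  by_contra hcon
  push Not at hcon
  set F : Set V := {f | f ∈ X ∧ f ∉ P ∧ ∀ q ∈ P, G.Adj f q} with hF
  have hf₀F : f₀ ∈ F := ⟨hf₀X, hf₀P, hcon⟩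
  obtain ⟨p₀, hp₀⟩ := hP.1
  have hPF : ∀ p ∈ P, p ∈ X \ F := fun p hp => ⟨hPX hp, fun h => h.2.1 hp⟩
  obtain ⟨M, hMs, hp₀M, hMc, hMnb⟩ := exists_comp G (hPF p₀ hp₀)
  have hPM : P ⊆ M := by
    have h1 : P ∩ M = P := hP.eq_of_nb Set.inter_subset_left ⟨p₀, hp₀, hp₀M⟩ (by
      rintro v hv ⟨hv1, c, hc, hcv⟩
      exact hMnb v (hPF v hv) ⟨fun h => hv1 ⟨hv, h⟩, c, hc.2, hcv⟩)
    rw [← h1]
    exact Set.inter_subset_right
  have hMX : M ⊆ X := fun m hm => (hMs hm).1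
  have hcomp : ∀ f ∈ F, ∀ m ∈ M, G.Adj f m := by
    intro f hf
    refine h3 V G X P M f hBF hMc hP.1 hPM hMX hf.1 hf.2.2 (fun m hm hmP hex => ?_)
    refine H f hf.1 hf.2.1 hf.2.2 m (hMX hm) hmP hex ?_
    by_contra hall
    push Not at hall
    exact (hMs hm).2 ⟨hMX hm, hmP, hall⟩
  have hmod : Mod G X M := by
    refine ⟨hMX, fun y hy hyM a ha b hb hya => ?_⟩
    by_cases hyF : y ∈ F
    · exact hcomp y hyF b hb
    · exact absurd ⟨hyM, a, ha, hya.symm⟩ (hMnb y ⟨hy, hyF⟩)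
  rcases hPrm M hmod with h | h
  · exact hns (h.anti hPM)
  · have h1 : f₀ ∈ M := by
      rw [h]
      exact hf₀X
    exact (hMs h1).2 hf₀F

end Pool.Agent.MPd439b2.BU
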