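import Pool.Agent.Lib.MP_d439b2_co.BU.Spec

set_option autoImplicit false

namespace Pool.Agent.MPd439b2.BU

open Pool.Agent.MPd439b2

private theorem b5_mod (n s i : ℕ) (hs : s < n) (hi : i < n) :
    (i + s < n ∧ (i + s) % n = i + s) ∨ (n ≤ i + s ∧ (i + s) % n = i + s - n) := by
  rcases Nat.lt_or_ge (i + s) n with h | h
  · exact Or.inl ⟨h, Nat.mod_eq_of_lt h⟩
  · refine Or.inr ⟨h, ?_⟩
    rw [Nat.mod_eq_sub_mod h, Nat.mod_eq_of_lt (by omega)]

private theorem b5_rot (V : Type) (G : SimpleGraph V) (X : Set V) (n s : ℕ) (p : ℕ → V)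
    (h : IC G X n p) (hs : s < n) : IC G X n fun i => p ((i + s) % n) := by
  obtain ⟨h1, h2, h3⟩ := h
  have hn : 0 < n := by omega
  refine ⟨fun i _ => h1 _ (Nat.mod_lt _ hn), fun i hi j hj hij => ?_, fun i hi j hj => ?_⟩
  · have h4 := h2 _ (Nat.mod_lt _ hn) _ (Nat.mod_lt _ hn) hij
    rcases b5_mod n s i hs hi with ⟨h5, h6⟩ | ⟨h5, h6⟩ <;>
      rcases b5_mod n s j hs hj with ⟨h7, h8⟩ | ⟨h7, h8⟩ <;> rw [h6, h8] at h4 <;> omega
  · rw [h3 _ (Nat.mod_lt _ hn) _ (Nat.mod_lt _ hn)]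
    rcases b5_mod n s i hs hi with ⟨h5, h6⟩ | ⟨h5, h6⟩ <;>
      rcases b5_mod n s j hs hj with ⟨h7, h8⟩ | ⟨h7, h8⟩ <;> rw [h6, h8] <;> omega

private theorem b5_cyc (V : Type) (G : SimpleGraph V) (X : Set V) (n i j l : ℕ) (p r : ℕ → V)
    (hp : IP G X n p) (hij : i < j) (hj : j < n) (hr : IP G X (l + 1) r)
    (hrp : ∀ k ≤ l, ∀ s < n, r k ≠ p s) (h0 : ∀ k ≤ l, (G.Adj (r k) (p i) ↔ k = 0))
    (hl : ∀ k ≤ l, (G.Adj (r k) (p j) ↔ k = l))
    (hin : ∀ k ≤ l, ∀ s, i < s → s < j → ¬ G.Adj (r k) (p s)) :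
    ∃ c, IC G X (j - i + l + 2) c := by
  obtain ⟨p1, p2, p3⟩ := hp
  obtain ⟨r1, r2, r3⟩ := hr
  obtain ⟨d, hd⟩ : ∃ d, j = i + d := ⟨j - i, by omega⟩
  obtain ⟨c, hc⟩ : ∃ c : ℕ → V, ∀ k, c k = if k ≤ d then p (i + k) else r (l - (k - d - 1)) :=
    ⟨fun k => if k ≤ d then p (i + k) else r (l - (k - d - 1)), fun k => rfl⟩
  have hc1 : ∀ k, k ≤ d → c k = p (i + k) := fun k hk => by rw [hc, if_pos hk]
  have hc2 : ∀ k, ¬ k ≤ d → c k = r (l - (k - d - 1)) := fun k hk => by rw [hc, if_neg hk]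
  have hN : j - i + l + 2 = d + l + 2 := by omega
  rw [hN]
  -- adjacency between the two parts
  have hpr : ∀ k t, k ≤ d → t ≤ l → (G.Adj (r t) (p (i + k)) ↔ (k = 0 ∧ t = 0) ∨ (k = d ∧ t = l)) := by
    intro k t hk ht
    rcases Nat.eq_zero_or_pos k with h | h
    · rw [h, Nat.add_zero, h0 t ht]
      constructor
      · intro h4
        exact Or.inl ⟨rfl, h4⟩
      · rintro (h4 | h4)
        · exact h4.2
        · omega
    · rcases Nat.lt_or_ge k d with h5 | h5
      · constructor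
        · intro h6
          exact absurd h6 (hin t ht (i + k) (by omega) (by omega))
        · rintro (h6 | h6)
          · omega
          · omega
      · have h6 : k = d := by omega
        rw [h6, ← hd, hl t ht]
        constructor
        · intro h7
          exact Or.inr ⟨rfl, h7⟩
        · rintro (h7 | h7)
          · omega
          · exact h7.2
  refine ⟨c, ?_, ?_, ?_⟩
  · intro k hk
    by_cases h : k ≤ d
    · rw [hc1 k h]
      exact p1 _ (by omega)
    · rw [hc2 k h]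
      exact r1 _ (by omega)
  · intro k hk k' hk' he
    by_cases h : k ≤ d <;> by_cases h' : k' ≤ d
    · rw [hc1 k h, hc1 k' h'] at he
      have := p2 _ (by omega) _ (by omega) he
      omega
    · rw [hc1 k h, hc2 k' h'] at he
      exact absurd he.symm (hrp _ (by omega) _ (by omega))
    · rw [hc2 k h, hc1 k' h'] at he
      exact absurd he (hrp _ (by omega) _ (by omega))
    · rw [hc2 k h, hc2 k' h'] at he
      have := r2 _ (by omega) _ (by omega) he
      omega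
  · intro k hk k' hk'
    by_cases h : k ≤ d <;> by_cases h' : k' ≤ d
    · rw [hc1 k h, hc1 k' h', p3 _ (by omega) _ (by omega)]
      omega
    · rw [hc1 k h, hc2 k' h', G.adj_comm, hpr k _ h (by omega)]
      omega
    · rw [hc2 k h, hc1 k' h', hpr k' _ h' (by omega)]
      omega
    · rw [hc2 k h, hc2 k' h', r3 _ (by omega) _ (by omega)]
      omega

theorem b5 : S_B5 := ⟨b5_rot, b5_cyc⟩

end Pool.Agent.MPd439b2.BU
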