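import Pool.Agent.Lib.MP_d439b2_co.BU.Spec

/-!
# MP_d439b2_co, BU: connected sets at a long induced cycle (`S_B6`), helper42
-/

set_option autoImplicit false

namespace Pool.Agent.MPd439b2.BU

open Pool.Agent.MPd439b2

private theorem b6_conn {V : Type} {G : SimpleGraph V} {p : ℕ → V} (a : ℕ) (m : ℕ) (hm : a + 1 ≤ m)
    (hadj : ∀ i, i + 1 < m → G.Adj (p i) (p (i + 1))) :
    Conn G {x | ∃ i, a ≤ i ∧ i < m ∧ x = p i} := by
  induction m, hm using Nat.le_induction with
  | base =>
    have h : {x | ∃ i, a ≤ i ∧ i < a + 1 ∧ x = p i} = {p a} := by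
      ext x
      constructor
      · rintro ⟨i, h1, h2, rfl⟩
        have : i = a := by omega
        rw [this]
        rfl
      · rintro rfl
        exact ⟨a, le_rfl, by omega, rfl⟩
    rw [h]
    exact Conn.singleton G _
  | succ m hm ih =>
    have h := (ih fun i hi => hadj i (by omega)).insert (v := p m)
      ⟨p (m - 1), ⟨m - 1, by omega, by omega, rfl⟩, by
        have := hadj (m - 1) (by omega)
        rwa [Nat.sub_add_cancel (by omega)] at this⟩
    have h2 : {x | ∃ i, a ≤ i ∧ i < m + 1 ∧ x = p i} =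
        insert (p m) {x | ∃ i, a ≤ i ∧ i < m ∧ x = p i} := by
      ext x
      constructor
      · rintro ⟨i, h1, h2, rfl⟩
        by_cases him : i = m
        · rw [him]
          exact Set.mem_insert _ _
        · exact Set.mem_insert_of_mem _ ⟨i, h1, by omega, rfl⟩
      · rintro (rfl | ⟨i, h1, h2, rfl⟩)
        · exact ⟨m, by omega, by omega, rfl⟩
        · exact ⟨i, h1, by omega, rfl⟩
    rw [h2]
    exact h

private theorem b6_core (h7 : S_F7) {V : Type} {G : SimpleGraph V} {X K : Set V} {n : ℕ}
    {p : ℕ → V} (hB : BF G X) (hC : IC G X n p) (hn : 7 ≤ n) (hK : Conn G K) (hKX : K ⊆ X)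
    (hd : ∀ i < n, p i ∉ K) (h0 : ¬ Tch G K {p 0}) (h1 : Tch G K {p 1}) {j : ℕ} (hj : j < n)
    (h2 : 2 ≤ j) (hjt : Tch G K {p j}) : False := by
  classical
  set Q : Set V := {x | ∃ i, 6 ≤ i ∧ i < n ∧ x = p i} with hQ
  set S : ℕ → Set V := fun i => if i = 7 then K else if i = 6 then Q else {p i} with hS
  have hS7 : S 7 = K := if_pos rfl
  have hS6 : S 6 = Q := by
    simp only [hS]
    rw [if_neg (by omega), if_pos trivial]
  have hSi : ∀ i, i < 6 → S i = {p i} := by
    intro i hi
    simp only [hS]
    rw [if_neg (by omega), if_neg (by omega)]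
  have hadj : ∀ i, i + 1 < n → G.Adj (p i) (p (i + 1)) := by
    intro i hi
    exact (hC.2.2 i (by omega) (i + 1) hi).2 (Or.inl rfl)
  obtain ⟨t, ht, htr⟩ := exists_tr G 7 S K
  have hSP : SP G X 8 S (rC 7 [t]) := by
    refine ⟨?_, ?_, ?_, ?_⟩
    · intro i hi
      by_cases h : i = 7
      · rw [h, hS7]
        exact hKX
      by_cases h' : i = 6
      · rw [h', hS6]
        rintro x ⟨l, _, hl, rfl⟩
        exact hC.1 l hl
      rw [hSi i (by omega)]
      exact Set.singleton_subset_iff.2 (hC.1 i (by omega))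
    · intro i hi
      by_cases h : i = 7
      · rw [h, hS7]
        exact hK
      by_cases h' : i = 6
      · rw [h', hS6]
        exact b6_conn 6 n (by omega) hadj
      rw [hSi i (by omega)]
      exact Conn.singleton G _
    · intro i hi l hl
      by_cases h : i = 7
      · rw [h, hS7]
        by_cases h' : l = 6
        · rw [h', hS6, Set.disjoint_right]
          rintro x ⟨s, _, hs, rfl⟩
          exact hd s hs
        rw [hSi l (by omega), Set.disjoint_singleton_right]
        exact hd l (by omega)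
      by_cases h' : i = 6
      · rw [h', hS6, hSi l (by omega), Set.disjoint_singleton_right]
        rintro ⟨s, h6, hs, he⟩
        have := hC.2.1 l (by omega) s hs he
        omega
      rw [hSi i (by omega), hSi l (by omega), Set.disjoint_singleton]
      intro he
      have := hC.2.1 i (by omega) l (by omega) he
      omega
    · intro i hi l hl
      by_cases h : i = 7
      · rw [h, hS7, htr l (by omega)]
        have : rC 7 [t] 7 l = t.testBit l := by
          unfold rC
          rw [if_neg (by omega)]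
          rfl
        rw [this]
      have hr : rC 7 [t] i l = ((l + 1 == i) || (l == 0 && i + 1 == 7)) := by
        unfold rC
        rw [if_pos (by omega)]
      rw [hr]
      simp only [Bool.or_eq_true, Bool.and_eq_true, beq_iff_eq]
      by_cases h' : i = 6
      · rw [h', hS6, hSi l (by omega)]
        constructor
        · rintro ⟨x, ⟨s, h6, hs, rfl⟩, y, hy, hxy⟩
          rw [Set.mem_singleton_iff] at hy
          rw [hy] at hxy
          have := (hC.2.2 s hs l (by omega)).1 hxy
          omega
        · intro h''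
          have h3 : l = 5 ∨ l = 0 := by omega
          rcases h3 with rfl | rfl
          · exact ⟨p 6, ⟨6, le_rfl, by omega, rfl⟩, p 5, rfl, (hadj 5 (by omega)).symm⟩
          · refine ⟨p (n - 1), ⟨n - 1, by omega, by omega, rfl⟩, p 0, rfl, ?_⟩
            exact (hC.2.2 (n - 1) (by omega) 0 (by omega)).2 (by omega)
      rw [hSi i (by omega), hSi l (by omega), tch_single, hC.2.2 i (by omega) l (by omega)]
      omega
  have hb0 : t.testBit 0 = false := by
    have h := (htr 0 (by omega)).not
    rw [hSi 0 (by omega)] at h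
    simpa using h.1 h0
  have hb1 : t.testBit 1 = true := by
    have h := htr 1 (by omega)
    rw [hSi 1 (by omega)] at h
    exact h.1 h1
  have ht2 := h7 V G X S t hB hSP (by simpa using ht) hb0 hb1
  subst ht2
  by_cases h6 : j < 6
  · have h := htr j (by omega)
    rw [hSi j h6] at h
    have h3 := h.1 hjt
    interval_cases j <;> revert h3 <;> decide
  · have h := htr 6 (by omega)
    rw [hS6] at h
    have h3 : Tch G K Q := by
      obtain ⟨x, hx, y, hy, hxy⟩ := hjt
      exact ⟨x, hx, y, ⟨j, by omega, hj, hy⟩, hxy⟩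
    have h4 := h.1 h3
    revert h4
    decide

theorem b6 (h7 : S_F7) (h5 : S_B5) : S_B6 := by
  intro V G X K n p hB hC hn hK hKX hd
  by_contra hcon
  push Not at hcon
  obtain ⟨⟨i, hi, j, hj, ti, tj, hij⟩, k, hk, tk⟩ := hcon
  obtain ⟨s, hs, ts, ts'⟩ : ∃ s < n, ¬ Tch G K {p s} ∧ Tch G K {p ((s + 1) % n)} := by
    by_contra h
    push Not at h
    have hall : ∀ m, ¬ Tch G K {p ((k + m) % n)} := by
      intro m
      induction m with
      | zero => rwa [Nat.add_zero, Nat.mod_eq_of_lt hk]
      | succ m ih =>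
        have h' := h ((k + m) % n) (Nat.mod_lt _ (by omega)) ih
        rwa [Nat.mod_add_mod] at h'
    have h' := hall (n + i - k)
    have he : k + (n + i - k) = i + n := by omega
    rw [he, Nat.add_mod_right, Nat.mod_eq_of_lt hi] at h'
    exact h' ti
  have hC' := h5.1 V G X n s p hC hs
  have hrot : ∀ a < n, ∃ b < n, a = (b + s) % n := by
    intro a ha
    by_cases h : s ≤ a
    · exact ⟨a - s, by omega, by rw [Nat.sub_add_cancel h, Nat.mod_eq_of_lt ha]⟩
    · refine ⟨a + n - s, by omega, ?_⟩
      rw [Nat.sub_add_cancel (by omega), Nat.add_mod_right, Nat.mod_eq_of_lt ha]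
  obtain ⟨i', hi', ei⟩ := hrot i hi
  obtain ⟨j', hj', ej⟩ := hrot j hj
  have t0 : ¬ Tch G K {(fun i => p ((i + s) % n)) 0} := by
    show ¬ Tch G K {p ((0 + s) % n)}
    rwa [Nat.zero_add, Nat.mod_eq_of_lt hs]
  have t1 : Tch G K {(fun i => p ((i + s) % n)) 1} := by
    show Tch G K {p ((1 + s) % n)}
    rwa [Nat.add_comm 1 s]
  have ti' : Tch G K {(fun i => p ((i + s) % n)) i'} := by
    show Tch G K {p ((i' + s) % n)}
    rwa [← ei]
  have tj' : Tch G K {(fun i => p ((i + s) % n)) j'} := by
    show Tch G K {p ((j' + s) % n)}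
    rwa [← ej]
  have hne : i' ≠ j' := by
    rintro rfl
    exact hij (ei.trans ej.symm)
  have hi0 : i' ≠ 0 := by
    rintro rfl
    exact t0 ti'
  have hj0 : j' ≠ 0 := by
    rintro rfl
    exact t0 tj'
  have hd' : ∀ a < n, (fun i => p ((i + s) % n)) a ∉ K := fun a _ =>
    hd _ (Nat.mod_lt _ (by omega))
  by_cases h2 : 2 ≤ i'
  · exact b6_core h7 hB hC' hn hK hKX hd' t0 t1 hi' h2 ti'
  · exact b6_core h7 hB hC' hn hK hKX hd' t0 t1 hj' (by omega) tj'

end Pool.Agent.MPd439b2.BU
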