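import Pool.Agent.Lib.MP_d439b2_co.BU.Spec

/-!
# MP_d439b2_co, BU: prime graphs with a long induced cycle (`S_B7`), helper42
-/

set_option autoImplicit false

namespace Pool.Agent.MPd439b2.BU

open Pool.Agent.MPd439b2

private theorem b7_conn {V : Type} {G : SimpleGraph V} {p : ℕ → V} (m : ℕ) (hm : 1 ≤ m)
    (hadj : ∀ i, i + 1 < m → G.Adj (p i) (p (i + 1))) :
    Conn G {x | ∃ i < m, x = p i} := by
  induction m, hm using Nat.le_induction with
  | base =>
    have h : {x | ∃ i < 1, x = p i} = {p 0} := by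
      ext x
      constructor
      · rintro ⟨i, h2, rfl⟩
        have : i = 0 := by omega
        rw [this]
        rfl
      · rintro rfl
        exact ⟨0, by omega, rfl⟩
    rw [h]
    exact Conn.singleton G _
  | succ m hm ih =>
    have h := (ih fun i hi => hadj i (by omega)).insert (v := p m)
      ⟨p (m - 1), ⟨m - 1, by omega, rfl⟩, by
        have := hadj (m - 1) (by omega)
        rwa [Nat.sub_add_cancel (by omega)] at this⟩
    have h2 : {x | ∃ i < m + 1, x = p i} = insert (p m) {x | ∃ i < m, x = p i} := by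
      ext x
      constructor
      · rintro ⟨i, h2, rfl⟩
        by_cases him : i = m
        · rw [him]
          exact Set.mem_insert _ _
        · exact Set.mem_insert_of_mem _ ⟨i, by omega, rfl⟩
      · rintro (rfl | ⟨i, h2, rfl⟩)
        · exact ⟨m, by omega, rfl⟩
        · exact ⟨i, by omega, rfl⟩
    rw [h2]
    exact h

private theorem b7_tch {V : Type} {G : SimpleGraph V} {K : Set V} {v y : V}
    (h : Tch G K {y}) : Tch G (K \ {v}) {y} ∨ Tch G {v} {y} := by
  obtain ⟨x, hx, z, hz, hxz⟩ := h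
  by_cases hxv : x = v
  · exact Or.inr ⟨x, hxv, z, hz, hxz⟩
  · exact Or.inl ⟨x, ⟨hx, hxv⟩, z, hz, hxz⟩

theorem b7 (h4 : S_B4) (h5 : S_B5) (h6 : S_B6) : S_B7 := by
  intro V _ G X n p hP hB hT hC hn x hx
  classical
  set Q : Set V := {x | ∃ i < n, x = p i} with hQ
  by_contra hxQ'
  have hxQ : x ∉ Q := hxQ'
  have hQX : Q ⊆ X := by
    rintro y ⟨i, hi, rfl⟩
    exact hC.1 i hi
  have hadj : ∀ i, i + 1 < n → G.Adj (p i) (p (i + 1)) := fun i hi =>
    (hC.2.2 i (by omega) (i + 1) hi).2 (Or.inl rfl)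
  have hQc : Conn G Q := b7_conn n (by omega) hadj
  have hQs : ¬ Q.Subsingleton := by
    intro h
    have := h (show p 0 ∈ Q from ⟨0, by omega, rfl⟩) (show p 1 ∈ Q from ⟨1, by omega, rfl⟩)
    exact absurd (hC.2.1 0 (by omega) 1 (by omega) this) (by omega)
  have key : ∀ f ∈ X, f ∉ Q → ∃ q ∈ Q, ¬ G.Adj f q := by
    refine h4 V G X Q hP hB hQc hQX hQs ?_
    intro f hf hfQ hfc m hm hmQ hm1 hm2
    have huniq : ∀ i < n, ∀ j < n, G.Adj m (p i) → G.Adj m (p j) → i = j := by
      rcases h6 V G X {m} n p hB hC hn (Conn.singleton G m) (Set.singleton_subset_iff.2 hm)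
        (fun i hi h => hmQ ⟨i, hi, (Set.mem_singleton_iff.1 h).symm⟩) with h | h
      · intro i hi j hj h1 h2
        exact h i hi j hj (tch_single.2 h1) (tch_single.2 h2)
      · exfalso
        obtain ⟨q, ⟨i, hi, rfl⟩, hq⟩ := hm2
        exact hq (tch_single.1 (h i hi))
    obtain ⟨q, ⟨a, ha, rfl⟩, hma⟩ := hm1
    have hC' := h5.1 V G X n a p hC ha
    set r : ℕ → V := fun i => p ((i + a) % n) with hr
    have hr0 : r 0 = p a := by
      show p ((0 + a) % n) = p a
      rw [Nat.zero_add, Nat.mod_eq_of_lt ha]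
    have hrQ : ∀ i, r i ∈ Q := fun i => ⟨(i + a) % n, Nat.mod_lt _ (by omega), rfl⟩
    have hm0 : G.Adj m (r 0) := by
      rw [hr0]
      exact hma
    have hmi : ∀ i < n, 0 < i → ¬ G.Adj m (r i) := by
      intro i hi h0 h
      have h1 := huniq ((i + a) % n) (Nat.mod_lt _ (by omega)) a ha h hma
      have h2 : r i = r 0 := by
        rw [hr0]
        show p ((i + a) % n) = p a
        rw [h1]
      have := hC'.2.1 i hi 0 (by omega) h2
      omega
    have hn01 : G.Adj (r 0) (r 1) := (hC'.2.2 0 (by omega) 1 (by omega)).2 (Or.inl rfl)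
    have hnn : ∀ i < n, ∀ j < n, ¬ (i + 1 = j ∨ j + 1 = i ∨ (i = 0 ∧ j + 1 = n) ∨
        (j = 0 ∧ i + 1 = n)) → ¬ G.Adj (r i) (r j) := fun i hi j hj h h' =>
      h ((hC'.2.2 i hi j hj).1 h')
    have hfm : G.Adj f m := by
      by_contra hfm
      exact hB (bull5 hf (hQX (hrQ 0)) (hQX (hrQ 1)) (hQX (hrQ 4)) hm (hfc _ (hrQ 0))
        (hfc _ (hrQ 1)) hn01 (hfc _ (hrQ 4)) hm0.symm (hnn 0 (by omega) 4 (by omega) (by omega))
        (hnn 1 (by omega) 4 (by omega) (by omega)) hfm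
        (fun h => hmi 1 (by omega) (by omega) h.symm) (fun h => hmi 4 (by omega) (by omega) h.symm))
    refine ⟨hfm, r 0, hrQ 0, r 2, hrQ 2, hm0, hmi 2 (by omega) (by omega),
      hnn 0 (by omega) 2 (by omega) (by omega), fun h => ?_⟩
    have := hC'.2.1 0 (by omega) 2 (by omega) h
    omega
  obtain ⟨K₀, hK₀, hxK, hK₀c, hnb⟩ := exists_comp G (A := X \ Q) (v := x) ⟨hx, hxQ⟩
  -- two touched indices
  have htwo : ∃ i < n, ∃ j < n, i ≠ j ∧ Tch G K₀ {p i} ∧ Tch G K₀ {p j} := by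
    by_contra hcon
    push Not at hcon
    obtain ⟨i, hi, hni⟩ : ∃ i < n, ∀ j < n, j ≠ i → ¬ Tch G K₀ {p j} := by
      by_cases h : ∃ i < n, Tch G K₀ {p i}
      · obtain ⟨i, hi, ht⟩ := h
        exact ⟨i, hi, fun j hj hji => hcon i hi j hj hji.symm ht⟩
      · push Not at h
        exact ⟨0, by omega, fun j hj _ => h j hj⟩
    have heq : K₀ = X \ {p i} := by
      refine (hT (p i) (hC.1 i hi)).eq_of_nb (C := K₀) ?_ ⟨x, hxK⟩ ?_
      · intro y hy
        refine ⟨(hK₀ hy).1, fun h => (hK₀ hy).2 ⟨i, hi, h⟩⟩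
      · intro y hy hyn
        by_cases hyQ : y ∈ Q
        · obtain ⟨j, hj, rfl⟩ := hyQ
          obtain ⟨_, a, ha, haj⟩ := hyn
          refine hni j hj ?_ ⟨a, ha, p j, rfl, haj⟩
          rintro rfl
          exact hy.2 rfl
        · exact hnb y ⟨hy.1, hyQ⟩ hyn
    obtain ⟨j, hj, hji⟩ : ∃ j < n, j ≠ i := by
      by_cases h0 : i = 0
      · exact ⟨1, by omega, by omega⟩
      · exact ⟨0, by omega, fun h => h0 h.symm⟩
    have hmem : p j ∈ K₀ := by
      rw [heq]
      exact ⟨hC.1 j hj, fun h => hji (hC.2.1 j hj i hi h)⟩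
    exact (hK₀ hmem).2 ⟨j, hj, rfl⟩
  -- minimal connected subset with two touched indices
  have hfin : {K : Set V | K ⊆ K₀ ∧ Conn G K ∧ ∃ i < n, ∃ j < n, i ≠ j ∧ Tch G K {p i} ∧
    Tch G K {p j}}.Finite := Set.toFinite _
  obtain ⟨K, hK⟩ := hfin.exists_minimal ⟨K₀, subset_rfl, hK₀c, htwo⟩
  obtain ⟨hKK, hKc, i, hi, j, hj, hij, ti, tj⟩ := hK.1
  have hall : ∀ i < n, Tch G K {p i} := by
    rcases h6 V G X K n p hB hC hn hKc (fun y hy => (hK₀ (hKK hy)).1)
      (fun i hi h => (hK₀ (hKK h)).2 ⟨i, hi, rfl⟩) with h | h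
    · exact absurd (h i hi j hj ti tj) hij
    · exact h
  obtain ⟨u, hu⟩ := hKc.1
  by_cases hKu : K = {u}
  · subst hKu
    obtain ⟨q, ⟨i, hi, rfl⟩, hq⟩ := key u (hK₀ (hKK rfl)).1 (hK₀ (hKK rfl)).2
    exact hq (tch_single.1 (hall i hi))
  · obtain ⟨v, hv, hvu, hvc⟩ := growAux.shrink G K u hKc hu hKu
    have n1 : ∀ i < n, ∀ j < n, i ≠ j → Tch G (K \ {v}) {p i} → ¬ Tch G (K \ {v}) {p j} := by
      intro i hi j hj hij h1 h2
      have hle := hK.2 (y := K \ {v}) ⟨Set.sdiff_subset.trans hKK, hvc, i, hi, j, hj, hij, h1, h2⟩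
        Set.sdiff_subset
      exact (hle hv).2 rfl
    have n2 : ∀ i < n, ∀ j < n, i ≠ j → Tch G {v} {p i} → ¬ Tch G {v} {p j} := by
      intro i hi j hj hij h1 h2
      have hle := hK.2 (y := {v}) ⟨Set.singleton_subset_iff.2 (hKK hv), Conn.singleton G v,
        i, hi, j, hj, hij, h1, h2⟩ (Set.singleton_subset_iff.2 hv)
      exact hvu (Set.mem_singleton_iff.1 (hle hu)).symm
    have a0 := b7_tch (v := v) (hall 0 (by omega))
    have a1 := b7_tch (v := v) (hall 1 (by omega))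
    have a2 := b7_tch (v := v) (hall 2 (by omega))
    have m01 := n1 0 (by omega) 1 (by omega) (by omega)
    have m02 := n1 0 (by omega) 2 (by omega) (by omega)
    have m12 := n1 1 (by omega) 2 (by omega) (by omega)
    have k01 := n2 0 (by omega) 1 (by omega) (by omega)
    have k02 := n2 0 (by omega) 2 (by omega) (by omega)
    have k12 := n2 1 (by omega) 2 (by omega) (by omega)
    rcases a0 with a0 | a0
    · rcases a1 with a1 | a1
      · exact m01 a0 a1
      · rcases a2 with a2 | a2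
        · exact m02 a0 a2
        · exact k12 a1 a2
    · rcases a1 with a1 | a1
      · rcases a2 with a2 | a2
        · exact m12 a1 a2
        · exact k02 a0 a2
      · exact k01 a0 a1

end Pool.Agent.MPd439b2.BU
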