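import Pool.Agent.Lib.MP_d439b2_co.BU.Ext

/-!
# MP_d439b2_co, BU, B9: no induced paths with six vertices
-/

set_option autoImplicit false

namespace Pool.Agent.MPd439b2.BU

open Pool.Agent.MPd439b2

namespace b9Aux

variable {V : Type} {G : SimpleGraph V} {X : Set V}

/-- segments of paths are connected -/
theorem seg_conn {r : ℕ → V} {a b : ℕ} (hab : a ≤ b) (h : ∀ i, a ≤ i → i < b → G.Adj (r i) (r (i + 1))) :
    Conn G {x | ∃ i, a ≤ i ∧ i ≤ b ∧ x = r i} := by
  induction b, hab using Nat.le_induction with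
  | base =>
    have : {x | ∃ i, a ≤ i ∧ i ≤ a ∧ x = r i} = {r a} := by
      ext x
      constructor
      · rintro ⟨i, h1, h2, rfl⟩
        rw [Nat.le_antisymm h2 h1]
        rfl
      · rintro rfl
        exact ⟨a, le_rfl, le_rfl, rfl⟩
    rw [this]
    exact Conn.singleton G _
  | succ b hab ih =>
    have h1 : {x | ∃ i, a ≤ i ∧ i ≤ b + 1 ∧ x = r i} =
        insert (r (b + 1)) {x | ∃ i, a ≤ i ∧ i ≤ b ∧ x = r i} := by
      ext x
      constructor
      · rintro ⟨i, hi, hi', rfl⟩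
        by_cases h : i = b + 1
        · left; rw [h]
        · right; exact ⟨i, hi, by omega, rfl⟩
      · rintro (rfl | ⟨i, hi, hi', rfl⟩)
        · exact ⟨b + 1, by omega, le_rfl, rfl⟩
        · exact ⟨i, hi, by omega, rfl⟩
    rw [h1]
    exact (ih fun i hi hi' => h i hi (by omega)).insert ⟨r b, ⟨b, hab, le_rfl, rfl⟩, h b hab (by omega)⟩

/-- the list of the possible traces -/
def L : List ℕ := [0, 1, 2, 3, 4, 5, 7, 8, 9, 16, 17, 32, 33, 34, 36, 40, 48, 56, 63]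

theorem sp7 {q : ℕ → V} (hq : IP G X 6 q) {K : Set V} (hK : Conn G K)
    (hKX : K ⊆ X) (hd : ∀ i < 6, q i ∉ K) {t : ℕ} (ht : Tr G 6 (fun i => {q i}) K t) :
    SP G X 7 (fun i => if i < 6 then ({q i} : Set V) else K) (rP 6 [t]) :=
  hq.sp.snoc (r' := rP 6 [t]) (t := t) (fun i hi j hj => by simp [rP, hi]) (fun j hj => by simp [rP]) hK
    hKX (fun j hj => Set.disjoint_singleton_right.2 (hd j hj)) ht

/-- two sets -/
theorem sp8 {q : ℕ → V} (hq : IP G X 6 q) {K K' : Set V} (hK : Conn G K)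
    (hKX : K ⊆ X) (hd : ∀ i < 6, q i ∉ K) (hK' : Conn G K') (hKX' : K' ⊆ X) (hd' : ∀ i < 6, q i ∉ K')
    (hdd : Disjoint K' K) {t t' t'' : ℕ} (ht : Tr G 6 (fun i => {q i}) K t)
    (ht' : Tr G 6 (fun i => {q i}) K' t') (h : ∀ j < 6, t''.testBit j = t'.testBit j)
    (h6 : Tch G K' K ↔ t''.testBit 6 = true) (hlt : t'' < 128) :
    ∃ S : ℕ → Set V, SP G X 8 S (rP 6 [t, t'']) := by
  have t7 : Tr G 7 (fun i => if i < 6 then ({q i} : Set V) else K) K' t'' := by
    refine ⟨by simpa using hlt, fun j hj => ?_⟩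
    by_cases hj6 : j < 6
    · simp only [hj6, if_true]
      rw [h j hj6]
      exact ht'.2 j hj6
    · have : j = 6 := by omega
      subst this
      simpa using h6
  exact ⟨_, (sp7 hq hK hKX hd ht).snoc (r' := rP 6 [t, t'']) (t := t'') (K := K')
    (fun i hi j hj => by
      by_cases h : i < 6
      · simp [rP, h]
      · have : i = 6 := by omega
        subst this
        simp [rP])
    (fun j hj => by simp [rP]) hK' hKX'
    (fun j hj => by
      by_cases h : j < 6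
      · simpa [h] using hd' j h
      · simpa [h] using hdd) t7⟩

/-- the traces of connected sets -/
theorem trace (hf : S_FP6) (hb : BF G X) {q : ℕ → V} (hq : IP G X 6 q) {K : Set V} (hK : Conn G K)
    (hKX : K ⊆ X) (hd : ∀ i < 6, q i ∉ K) {t : ℕ} (ht : Tr G 6 (fun i => {q i}) K t) : t ∈ L :=
  hf.1 V G X _ t hb (sp7 hq hK hKX hd ht) (by simpa using ht.1)

/-- (1), (2): the trace is not `63` -/
theorem not_full [Finite V] (h4 : S_B4) (hf6 : S_FP6) (hP : Prm G X) (hb : BF G X)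
    {q : ℕ → V} (hq : IP G X 6 q) {K : Set V} (hK : Conn G K) (hKX : K ⊆ X)
    (hd : ∀ i < 6, q i ∉ K) : ¬ ∀ i < 6, Tch G K {q i} := by
  intro hf
  rcases full_min hK hKX hd hf with ⟨f, hfX, hfp, hfa⟩ | ⟨A, B, hA, hB, hAX, hBX, hAB, htAB, hpA, hpB, hnA,
    hnB, hor⟩
  · have hQc : Conn G {x | ∃ i < 6, x = q i} := by
      have h1 := seg_conn (G := G) (r := q) (a := 0) (b := 5) (by omega) (fun i _ hi => by
        rw [hq.2.2 i (by omega) (i + 1) (by omega)]
        omega)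
      have h2 : {x | ∃ i < 6, x = q i} = {x | ∃ i, 0 ≤ i ∧ i ≤ 5 ∧ x = q i} := by
        ext x
        constructor
        · rintro ⟨i, hi, rfl⟩; exact ⟨i, by omega, by omega, rfl⟩
        · rintro ⟨i, _, hi, rfl⟩; exact ⟨i, by omega, rfl⟩
      rw [h2]
      exact h1
    have hQX : {x | ∃ i < 6, x = q i} ⊆ X := by
      rintro x ⟨i, hi, rfl⟩
      exact hq.1 i hi
    have hQs : ¬ {x | ∃ i < 6, x = q i}.Subsingleton := fun h => by
      have h1 : q 0 = q 1 := h ⟨0, by omega, rfl⟩ ⟨1, by omega, rfl⟩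
      have := hq.2.1 0 (by omega) 1 (by omega) h1
      omega
    obtain ⟨_, ⟨i, hi, rfl⟩, hqf⟩ := h4 V G X {x | ∃ i < 6, x = q i} hP hb hQc hQX hQs (by
      rintro f hf hfQ hfall m hm hmQ ⟨_, ⟨i, hi, rfl⟩, hmi⟩ ⟨_, ⟨j, hj, rfl⟩, hmj⟩
      have hmp : ∀ i < 6, q i ∉ ({m} : Set V) := fun i hi h => hmQ ⟨i, hi, h.symm⟩
      have hfp : ∀ i < 6, q i ∉ ({f} : Set V) := fun i hi h => hfQ ⟨i, hi, h.symm⟩
      obtain ⟨t, ht⟩ := exists_tr G 6 (fun i => ({q i} : Set V)) {m}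
      have h1 : t.testBit i = true := (ht.2 i hi).1 (tch_single.2 hmi)
      have h2 : ¬ t.testBit j = true := fun h => hmj (tch_single.1 ((ht.2 j hj).2 h))
      have ht64 : t < 64 := by simpa using ht.1
      have key : ∀ t < 64, ∀ i < 6, ∀ j < 6, (t.testBit i = true ∧ ¬ t.testBit j = true) →
          (0 < t ∧ t < 63) := by
        decide +kernel
      have key' : ∀ t < 64, (0 < t ∧ t < 63) → ∃ i < 6, ∃ j < 6, t.testBit i = true ∧
          (¬ t.testBit j = true) ∧ i ≠ j ∧ i + 1 ≠ j ∧ j + 1 ≠ i := by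
        decide +kernel
      obtain ⟨ht0, ht63⟩ := key t ht64 i hi j hj ⟨h1, h2⟩
      obtain ⟨i', hi', j', hj', hbi, hbj, hne, hne1, hne2⟩ := key' t ht64 ⟨ht0, ht63⟩
      have hadj : ∀ k < 6, (G.Adj m (q k) ↔ t.testBit k = true) := fun k hk => by
        rw [← ht.2 k hk]; exact tch_single.symm
      refine ⟨?_, q i', ⟨i', hi', rfl⟩, q j', ⟨j', hj', rfl⟩, (hadj i' hi').2 hbi,
        fun h => hbj ((hadj j' hj').1 h), fun h => ?_, fun h => hne (hq.2.1 i' hi' j' hj' h)⟩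
      · by_contra hfm
        have tf : Tr G 6 (fun i => ({q i} : Set V)) {f} 63 := by
          refine ⟨by norm_num, fun j hj => ?_⟩
          rw [tch_single]
          have key : ∀ j < 6, Nat.testBit 63 j = true := by decide
          exact iff_of_true (hfall _ ⟨j, hj, rfl⟩) (key j hj)
        have key6 : ∀ t < 64, ¬ Nat.testBit t 6 = true := by decide
        obtain ⟨S, hS⟩ := sp8 hq (Conn.singleton G f) (Set.singleton_subset_iff.2 hf) hfp
          (Conn.singleton G m) (Set.singleton_subset_iff.2 hm) hmp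
          (Set.disjoint_singleton.2 (fun e => by
            subst e
            exact hmj (hfall _ ⟨j, hj, rfl⟩))) tf ht (t'' := t) (fun j hj => rfl)
          (iff_of_false (fun h => hfm (tch_single.1 h).symm) (key6 t ht64)) (by omega)
        exact hb (hf6.2.2 V G X S t hS ht0 ht63)
      · have := (hq.2.2 i' hi' j' hj').1 h
        omega)
      f hfX (fun ⟨i, hi, h⟩ => hfp i hi h)
    exact hqf (hfa i hi)
  · obtain ⟨t, ht⟩ := exists_tr G 6 (fun i => ({q i} : Set V)) A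
    obtain ⟨t', ht'⟩ := exists_tr G 6 (fun i => ({q i} : Set V)) B
    have h1 := trace hf6 hb hq hA hAX hpA ht
    have h2 := trace hf6 hb hq hB hBX hpB ht'
    have key : ∀ t ∈ L, ∀ t' ∈ L, ((¬ ∀ i < 6, t.testBit i = true) ∧ (¬ ∀ i < 6, t'.testBit i = true) ∧
        ∀ i < 6, t.testBit i = true ∨ t'.testBit i = true) → (t = 7 ∧ t' = 56) ∨ (t = 56 ∧ t' = 7) := by
      decide +kernel
    have h3 := key t h1 t' h2 ⟨fun h => hnA fun i hi => (ht.2 i hi).2 (h i hi),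
      fun h => hnB fun i hi => (ht'.2 i hi).2 (h i hi), fun i hi => by
        rw [← ht.2 i hi, ← ht'.2 i hi]
        exact hor i hi⟩
    have key2 : ∀ j < 6, Nat.testBit (56 + 64) j = Nat.testBit 56 j := by decide
    rcases h3 with ⟨rfl, rfl⟩ | ⟨rfl, rfl⟩
    · obtain ⟨S, hS⟩ := sp8 hq hA hAX hpA hB hBX hpB hAB.symm ht ht' (t'' := 56 + 64) key2
        (iff_of_true htAB.symm (by decide)) (by norm_num)
      exact hb ((hf6.2.1 V G X S).1 hS)
    · obtain ⟨S, hS⟩ := sp8 hq hB hBX hpB hA hAX hpA hAB ht' ht (t'' := 56 + 64) key2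
        (iff_of_true htAB (by decide)) (by norm_num)
      exact hb ((hf6.2.1 V G X S).1 hS)

/-- no set touches exactly two far vertices -/
theorem no_long (h5 : S_B5) (hN : NoC G X 6) {q : ℕ → V} (hq : IP G X 6 q) {K : Set V} (hK : Conn G K)
    (hKX : K ⊆ X) (hd : ∀ i < 6, q i ∉ K) {i j : ℕ} (hij : i + 4 ≤ j) (hj : j < 6)
    (hti : Tch G K {q i}) (htj : Tch G K {q j}) (hno : ∀ s, i < s → s < j → ¬ Tch G K {q s}) : False := by
  obtain ⟨x0, hx0, hx0a⟩ := tch_right_single.1 hti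
  obtain ⟨x3, hx3, hx3a⟩ := tch_right_single.1 htj
  obtain ⟨l, r, hr0, hrl, hrK, hri, hra, hr0', hrl'⟩ := path V G K {x | G.Adj x (q i)}
    {x | G.Adj x (q j)} hK ⟨x0, hx0, hx0a⟩ ⟨x3, hx3, hx3a⟩
  have hrp : IP G X (l + 1) r := ⟨fun i hi => hKX (hrK i (by omega)), fun i hi j hj h =>
    hri i (by omega) j (by omega) h, fun i hi j hj => by
      rw [hra i (by omega) j (by omega)]; omega⟩
  obtain ⟨c, hc⟩ := h5.2 V G X 6 i j l q r hq (by omega) hj hrp
    (fun k hk s hs e => hd s hs (e ▸ hrK k hk))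
    (fun k hk => ⟨fun h => hr0' k hk h, fun h => h ▸ hr0⟩)
    (fun k hk => ⟨fun h => hrl' k hk h, fun h => h ▸ hrl⟩)
    (fun k hk s hs1 hs2 h => hno s hs1 hs2 (tch_right_single.2 ⟨_, hrK k hk, h⟩))
  exact hN (j - i + l + 2) (by omega) c hc

/-- (3) -/
theorem trace' [Finite V] (h4 : S_B4) (h5 : S_B5) (hf6 : S_FP6) (hP : Prm G X) (hb : BF G X) (hN : NoC G X 6)
    {q : ℕ → V} (hq : IP G X 6 q) {K : Set V} (hK : Conn G K) (hKX : K ⊆ X) (hd : ∀ i < 6, q i ∉ K) {t : ℕ}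
    (ht : Tr G 6 (fun i => {q i}) K t) : t ∈ [0, 1, 2, 3, 4, 5, 7, 8, 9, 16, 32, 36, 40, 48, 56] := by
  have h1 := trace hf6 hb hq hK hKX hd ht
  have h63 : ¬ ∀ i < 6, t.testBit i = true := fun h =>
    not_full h4 hf6 hP hb hq hK hKX hd fun i hi => (ht.2 i hi).2 (h i hi)
  have hl : ∀ i < 6, ∀ j < 6, i + 4 ≤ j → ¬ (t.testBit i = true ∧ t.testBit j = true ∧
      ∀ s < 6, i < s → s < j → ¬ t.testBit s = true) := by
    rintro i hi j hj hij ⟨h1, h2, h3⟩
    exact no_long h5 hN hq hK hKX hd hij hj ((ht.2 i hi).2 h1) ((ht.2 j hj).2 h2)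
      fun s hs1 hs2 h => h3 s (by omega) hs1 hs2 ((ht.2 s (by omega)).1 h)
  have key : ∀ t ∈ L, t ∈ [17, 33, 34, 63] ∨ t ∈ [0, 1, 2, 3, 4, 5, 7, 8, 9, 16, 32, 36, 40, 48, 56] := by
    decide +kernel
  refine (key t h1).resolve_left fun h => ?_
  simp only [List.mem_cons, List.not_mem_nil, or_false] at h
  rcases h with rfl | rfl | rfl | rfl
  · exact hl 0 (by omega) 4 (by omega) (by omega) ⟨by decide, by decide, by decide⟩
  · exact hl 0 (by omega) 5 (by omega) (by omega) ⟨by decide, by decide, by decide⟩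
  · exact hl 1 (by omega) 5 (by omega) (by omega) ⟨by decide, by decide, by decide⟩
  · exact h63 (by decide)

/-- (4) -/
theorem exists9 [Finite V] (h4 : S_B4) (h5 : S_B5) (hf6 : S_FP6) (hP : Prm G X) (hb : BF G X) (hT : TC G X)
    (hN : NoC G X 6) {q : ℕ → V} (hq : IP G X 6 q) : ∃ K : Set V, Conn G K ∧ K ⊆ X ∧ (∀ i < 6, q i ∉ K) ∧
      Tr G 6 (fun i => {q i}) K 9 := by
  have hm : ∀ i < 6, i ≠ 2 → q i ∈ X \ {q 2} := fun i hi h2 =>
    ⟨hq.1 i hi, fun e => h2 (hq.2.1 i hi 2 (by omega) e)⟩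
  obtain ⟨l, r, hr0, hrl, hrC, hri, hra, hr0', hrl'⟩ := path V G (X \ {q 2}) {q 0, q 1}
    {q 3, q 4, q 5} (hT (q 2) (hq.1 2 (by omega))) ⟨q 0, hm 0 (by omega) (by omega), Or.inl rfl⟩
    ⟨q 3, hm 3 (by omega) (by omega), Or.inl rfl⟩
  have e0 : ∃ a < 2, r 0 = q a := by
    rcases hr0 with h | h
    · exact ⟨0, by omega, h⟩
    · exact ⟨1, by omega, h⟩
  have el : ∃ b < 6, 3 ≤ b ∧ r l = q b := by
    rcases hrl with h | h | h
    · exact ⟨3, by omega, by omega, h⟩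
    · exact ⟨4, by omega, by omega, h⟩
    · exact ⟨5, by omega, by omega, h⟩
  obtain ⟨a, ha, hra0⟩ := e0
  obtain ⟨b, hb6, hb3, hrbl⟩ := el
  have hl2 : 2 ≤ l := by
    by_contra hl
    have : l = 0 ∨ l = 1 := by omega
    rcases this with rfl | rfl
    · have := hq.2.1 a (by omega) b hb6 (hra0 ▸ hrbl)
      omega
    · have h1 : G.Adj (r 0) (r 1) := (hra 0 (by omega) 1 (by omega)).2 (by omega)
      rw [hra0, hrbl] at h1
      have := (hq.2.2 a (by omega) b hb6).1 h1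
      omega
  have hK : Conn G {x | ∃ i, 1 ≤ i ∧ i ≤ l - 1 ∧ x = r i} :=
    seg_conn (by omega) fun i hi hi' => (hra i (by omega) (i + 1) (by omega)).2 (by omega)
  have hKX : {x | ∃ i, 1 ≤ i ∧ i ≤ l - 1 ∧ x = r i} ⊆ X := by
    rintro x ⟨i, _, hi, rfl⟩
    exact (hrC i (by omega)).1
  have hd : ∀ i < 6, q i ∉ {x | ∃ i, 1 ≤ i ∧ i ≤ l - 1 ∧ x = r i} := by
    rintro i hi ⟨k, hk1, hk2, e⟩
    have : i = 0 ∨ i = 1 ∨ i = 2 ∨ i = 3 ∨ i = 4 ∨ i = 5 := by omega
    rcases this with rfl | rfl | rfl | rfl | rfl | rfl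
    · have := hr0' k (by omega) (Or.inl e.symm); omega
    · have := hr0' k (by omega) (Or.inr e.symm); omega
    · exact (hrC k (by omega)).2 e.symm
    · have := hrl' k (by omega) (Or.inl e.symm); omega
    · have := hrl' k (by omega) (Or.inr (Or.inl e.symm)); omega
    · have := hrl' k (by omega) (Or.inr (Or.inr e.symm)); omega
  obtain ⟨t, ht⟩ := exists_tr G 6 (fun i => ({q i} : Set V)) {x | ∃ i, 1 ≤ i ∧ i ≤ l - 1 ∧ x = r i}
  have htl := trace' h4 h5 hf6 hP hb hN hq hK hKX hd ht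
  have h1 : t.testBit a = true := (ht.2 a (by omega)).1 (tch_right_single.2
    ⟨r 1, ⟨1, le_rfl, by omega, rfl⟩, by
      rw [← hra0]
      exact (hra 1 (by omega) 0 (by omega)).2 (by omega)⟩)
  have h2 : t.testBit b = true := (ht.2 b hb6).1 (tch_right_single.2
    ⟨r (l - 1), ⟨l - 1, by omega, le_rfl, rfl⟩, by
      rw [← hrbl]
      exact (hra (l - 1) (by omega) l le_rfl).2 (by omega)⟩)
  have key : ∀ t ∈ [0, 1, 2, 3, 4, 5, 7, 8, 9, 16, 32, 36, 40, 48, 56], ∀ a < 2, ∀ b < 6, 3 ≤ b →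
      Nat.testBit t a = true ∧ Nat.testBit t b = true → t = 9 := by decide +kernel
  have h9 := key t htl a ha b hb6 hb3 ⟨h1, h2⟩
  subst h9
  exact ⟨_, hK, hKX, hd, ht⟩

end b9Aux

open b9Aux in
theorem b9 (h4 : S_B4) (h5 : S_B5) (hf6 : S_FP6) : S_B9 := by
  intro V _ G X hP hb hT hN q hq
  obtain ⟨K, hK, hKX, hKd, hKt⟩ := exists9 h4 h5 hf6 hP hb hT hN hq
  obtain ⟨K', hK', hKX', hKd', hKt'⟩ := exists9 h4 h5 hf6 hP hb hT hN hq.rev
  have hd' : ∀ i < 6, q i ∉ K' := fun i hi h => hKd' (5 - i) (by omega) (by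
    rwa [show 6 - 1 - (5 - i) = i by omega])
  have ht' : Tr G 6 (fun i => {q i}) K' 36 := by
    refine ⟨by norm_num, fun j hj => ?_⟩
    have h1 := hKt'.2 (5 - j) (by omega)
    simp only [show 6 - 1 - (5 - j) = j by omega] at h1
    rw [h1]
    have key : ∀ j < 6, (Nat.testBit 9 (5 - j) = true ↔ Nat.testBit 36 j = true) := by decide
    exact key j hj
  have hun : ¬ ((K ∩ K').Nonempty ∨ Tch G K K') := by
    intro h
    have h1 := hK.union hK' h
    have h2 : Tr G 6 (fun i => {q i}) (K ∪ K') 45 := by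
      refine ⟨by norm_num, fun j hj => ?_⟩
      have h3 : Tch G (K ∪ K') {q j} ↔ Tch G K {q j} ∨ Tch G K' {q j} := by
        simp only [tch_right_single, Set.mem_union, or_and_right, exists_or]
      rw [h3, hKt.2 j hj, ht'.2 j hj]
      have key : ∀ j < 6, (Nat.testBit 9 j = true ∨ Nat.testBit 36 j = true ↔ Nat.testBit 45 j = true) := by
        decide
      exact key j hj
    have h3 := trace hf6 hb hq h1 (Set.union_subset hKX hKX') (fun i hi h => by
      rcases h with h | h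
      · exact hKd i hi h
      · exact hd' i hi h) h2
    exact absurd h3 (by decide)
  have hdis : Disjoint K' K := by
    rw [Set.disjoint_left]
    intro x hx hx'
    exact hun (Or.inl ⟨x, hx', hx⟩)
  obtain ⟨S, hS⟩ := sp8 hq hK hKX hKd hK' hKX' hd' hdis hKt ht' (t'' := 36) (fun j hj => rfl)
    (iff_of_false (fun h => hun (Or.inr h.symm)) (by decide)) (by norm_num)
  exact hb ((hf6.2.1 V G X S).2 hS)

end Pool.Agent.MPd439b2.BU
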