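import Pool.Agent.Lib.MP_d439b2_co.BU.Spec

/-!
# MP_d439b2_co, BU: C1, the traces 2, 3, 8, 24 do not occur (helper50)
-/

set_option autoImplicit false

namespace Pool.Agent.MPd439b2.BU

open Pool.Agent.MPd439b2

private theorem c1Tab : ∀ t ∈ tr5, t ≠ 2 → t ≠ 3 → ∀ t' ∈ [2, 3],
    (ok5 t t' true = true → t.testBit 0 = true) ∧
      (ok5 t t' false = true → t.testBit 0 = false) := by
  decide

private theorem c1Main (hT : S_FP5) {V : Type} {G : SimpleGraph V} {X : Set V} {p : ℕ → V}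
    (hX : Hyp G X) (hp : IP G X 5 p) {y : V} (hy : y ∈ X) (hyp : ∀ i < 5, y ≠ p i)
    (ht : Tv G 5 p y 2 ∨ Tv G 5 p y 3) : False := by
  obtain ⟨hT1, hT2⟩ := hT V G X p hX.bf hX.p6 hX.c6 hp
  set M : Set V := {x | x ∈ X ∧ (x = p 0 ∨ ((∀ i < 5, x ≠ p i) ∧ (Tv G 5 p x 2 ∨ Tv G 5 p x 3)))}
    with hM
  have h0 : p 0 ∈ M := ⟨hp.1 0 (by norm_num), Or.inl rfl⟩
  have hyM : y ∈ M := ⟨hy, Or.inr ⟨hyp, ht⟩⟩
  have h1 : p 1 ∉ M := by
    rintro ⟨_, h | ⟨h, _⟩⟩
    · have := hp.2.1 1 (by norm_num) 0 (by norm_num) h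
      omega
    · exact h 1 (by norm_num) rfl
  have key : ∀ w ∈ X, w ∉ M → ∀ m ∈ M, (G.Adj w m ↔ G.Adj w (p 0)) := by
    intro w hw hwM m hm
    obtain ⟨hmX, rfl | ⟨hmp, hmt⟩⟩ := hm
    · rfl
    have hwm : w ≠ m := by
      rintro rfl
      exact hwM ⟨hmX, Or.inr ⟨hmp, hmt⟩⟩
    by_cases hwp : ∀ i < 5, w ≠ p i
    · obtain ⟨t, htw⟩ := exists_tv G 5 p w
      have ht5 := hT1 w hw hwp t htw
      have hn2 : t ≠ 2 := by
        rintro rfl
        exact hwM ⟨hw, Or.inr ⟨hwp, Or.inl htw⟩⟩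
      have hn3 : t ≠ 3 := by
        rintro rfl
        exact hwM ⟨hw, Or.inr ⟨hwp, Or.inr htw⟩⟩
      obtain ⟨t', ht', htm⟩ : ∃ t' ∈ [2, 3], Tv G 5 p m t' := by
        rcases hmt with h | h
        · exact ⟨2, by simp, h⟩
        · exact ⟨3, by simp, h⟩
      obtain ⟨k1, k2⟩ := hT2 w hw m hmX hwm hwp hmp t t' htw htm
      obtain ⟨d1, d2⟩ := c1Tab t ht5 hn2 hn3 t' ht'
      rw [htw.2 0 (by norm_num)]
      constructor
      · intro h
        exact d1 (k1 h)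
      · intro h
        by_contra hc
        rw [d2 (k2 hc)] at h
        exact absurd h (by decide)
    · push Not at hwp
      obtain ⟨i, hi, rfl⟩ := hwp
      have e1 : G.Adj (p i) (p 0) ↔ i = 1 := by
        rw [hp.2.2 i hi 0 (by norm_num)]
        omega
      rw [e1, G.adj_comm]
      have e2 : ∀ t', t' = 2 ∨ t' = 3 → Tv G 5 p m t' → (G.Adj m (p i) ↔ i = 1) := by
        intro t' ht' htm
        rw [htm.2 i hi]
        have hi0 : i ≠ 0 := by
          rintro rfl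
          exact hwM h0
        interval_cases i
        · exact absurd rfl hi0
        all_goals rcases ht' with rfl | rfl <;> decide
      rcases hmt with h | h
      · exact e2 2 (Or.inl rfl) h
      · exact e2 3 (Or.inr rfl) h
  have hmod : Mod G X M := ⟨fun x hx => hx.1, fun w hw hwM a ha b hb hwa =>
    (key w hw hwM b hb).2 ((key w hw hwM a ha).1 hwa)⟩
  rcases hX.prm M hmod with h | h
  · exact hyp 0 (by norm_num) (h hyM h0)
  · exact h1 (h ▸ hp.1 1 (by norm_num))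

theorem c1 (hT : S_FP5) : S_C1 := by
  intro V _ G X p hX hp y hy hyp t ht
  have hr := hp.rev
  have hrp : ∀ i < 5, y ≠ (fun i => p (5 - 1 - i)) i := fun i hi => hyp _ (by omega)
  refine ⟨?_, ?_, ?_, ?_⟩
  · rintro rfl
    exact c1Main hT hX hp hy hyp (Or.inl ht)
  · rintro rfl
    exact c1Main hT hX hp hy hyp (Or.inr ht)
  · rintro rfl
    refine c1Main hT hX hr hy hrp (Or.inl ⟨by norm_num, fun j hj => ?_⟩)
    have h1 : ∀ j < 5, Nat.testBit 8 (5 - 1 - j) = Nat.testBit 2 j := by decide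
    show G.Adj y (p (5 - 1 - j)) ↔ _
    rw [ht.2 _ (by omega), h1 j hj]
  · rintro rfl
    refine c1Main hT hX hr hy hrp (Or.inr ⟨by norm_num, fun j hj => ?_⟩)
    have h1 : ∀ j < 5, Nat.testBit 24 (5 - 1 - j) = Nat.testBit 3 j := by decide
    show G.Adj y (p (5 - 1 - j)) ↔ _
    rw [ht.2 _ (by omega), h1 j hj]

end Pool.Agent.MPd439b2.BU
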