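import Pool.Agent.Lib.MP_d439b2_co.BU.Spec

/-!
# MP_d439b2_co, BU, C2: the trace `{2}` does not occur
-/

set_option autoImplicit false

namespace Pool.Agent.MPd439b2.BU

open Pool.Agent.MPd439b2

namespace c2Aux

theorem tab1 : ∀ t ∈ tr5, t ≠ 2 → t ≠ 3 → t ≠ 8 → t ≠ 24 →
    (ok5 t 4 true = true ∨ ok5 t 4 false = true) → t ∈ [0, 4, 5, 20, 7, 28, 31] := by
  decide

theorem tab2 : ∀ t ∈ [4, 5, 20], ok5 31 t false = false := by decide

theorem tab3 : ok5 31 4 false = false ∧ ok5 7 4 true = false ∧ ok5 28 4 true = false := by decide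

theorem tab4 : ∀ t ∈ [5, 20, 7, 28], ∀ s ∈ [0, 4], ok5 t s true = false := by decide

/-- the pair of positions for the trace `t` -/
theorem tab5 : ∀ t ∈ [4, 5, 20, 7, 28], ∃ i < 5, ∃ j < 5, Nat.testBit t i = true ∧
    Nat.testBit t j = false ∧ i ≠ j ∧ i + 1 ≠ j ∧ j + 1 ≠ i := by decide

end c2Aux

open c2Aux in
theorem c2 (hT : S_FP5) (h1 : S_C1) (h4 : S_B4) : S_C2 := by
  intro V _ G X p hH hp x hxX hxP tx htx htx4
  subst htx4
  obtain ⟨hT1, hT2⟩ := hT V G X p hH.bf hH.p6 hH.c6 hp
  have hC1 := h1 V G X p hH hp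
  have padj := hp.2.2
  -- unique traces
  have uniq : ∀ y t t', Tv G 5 p y t → Tv G 5 p y t' → t = t' := by
    intro y t t' ht ht'
    apply Nat.eq_of_testBit_eq
    intro j
    by_cases hj : j < 5
    · have h2 := ht.2 j hj
      have h3 := ht'.2 j hj
      rw [Bool.eq_iff_iff, ← h2, ← h3]
    · have e : ∀ s, s < 2 ^ 5 → Nat.testBit s j = false := by
        intro s hs
        exact Nat.testBit_lt_two_pow (lt_of_lt_of_le hs (Nat.pow_le_pow_right (by norm_num)
          (by omega)))
      rw [e t ht.1, e t' ht'.1]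
  -- the possible traces
  have trs : ∀ y ∈ X, (∀ i < 5, y ≠ p i) → ∀ t, Tv G 5 p y t → t ∈ [0, 4, 5, 20, 7, 28, 31] := by
    intro y hy hyP t ht
    by_cases hyx : y = x
    · subst hyx
      rw [uniq _ _ _ ht htx]
      simp
    · obtain ⟨c1, c2, c3, c4⟩ := hC1 y hy hyP t ht
      obtain ⟨d1, d2⟩ := hT2 y hy x hxX hyx hyP hxP t 4 ht htx
      refine tab1 t (hT1 y hy hyP t ht) c1 c2 c3 c4 ?_
      by_cases had : G.Adj y x
      · exact Or.inl (d1 had)
      · exact Or.inr (d2 had)
  let P : Set V := {z | ∃ i < 5, z = p i}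
  have hPm : ∀ i < 5, p i ∈ P := fun i hi => ⟨i, hi, rfl⟩
  have hPX : P ⊆ X := by
    rintro z ⟨i, hi, rfl⟩
    exact hp.1 i hi
  have hPc : Conn G P := by
    have e : ∀ n, n < 5 → Conn G {z | ∃ i < n + 1, z = p i} := by
      intro n
      induction n with
      | zero =>
        intro _
        have : {z | ∃ i < 0 + 1, z = p i} = {p 0} := by
          ext z
          constructor
          · rintro ⟨i, hi, rfl⟩
            have : i = 0 := by omega
            rw [this]
            rfl
          · rintro rfl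
            exact ⟨0, by omega, rfl⟩
        rw [this]
        exact Conn.singleton G _
      | succ n ih =>
        intro hn
        have : {z | ∃ i < n + 1 + 1, z = p i} = insert (p (n + 1)) {z | ∃ i < n + 1, z = p i} := by
          ext z
          constructor
          · rintro ⟨i, hi, rfl⟩
            by_cases h : i = n + 1
            · subst h
              exact Set.mem_insert _ _
            · exact Set.mem_insert_of_mem _ ⟨i, by omega, rfl⟩
          · rintro (rfl | ⟨i, hi, rfl⟩)
            · exact ⟨n + 1, by omega, rfl⟩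
            · exact ⟨i, by omega, rfl⟩
        rw [this]
        exact (ih (by omega)).insert ⟨p n, ⟨n, by omega, rfl⟩,
          (padj n (by omega) (n + 1) hn).2 (Or.inl rfl)⟩
    exact e 4 (by norm_num)
  have hPs : ¬ P.Subsingleton := by
    intro h
    have h2 := h (hPm 0 (by norm_num)) (hPm 1 (by norm_num))
    have h3 := hp.2.1 0 (by norm_num) 1 (by norm_num) h2
    omega
  have notP : ∀ y, y ∉ P → ∀ i < 5, y ≠ p i := fun y hy i hi h => hy ⟨i, hi, h⟩
  -- no complete vertex
  have hcomp : ∀ f ∈ X, f ∉ P → ∃ q ∈ P, ¬ G.Adj f q := by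
    refine h4 V G X P hH.prm hH.bf hPc hPX hPs ?_
    intro f hf hfP hfc m hm hmP hm1 hm2
    obtain ⟨t, ht⟩ := exists_tv G 5 p m
    have htr := trs m hm (notP m hmP) t ht
    have htf : Tv G 5 p f 31 := by
      refine ⟨by norm_num, fun j hj => ⟨fun _ => ?_, fun _ => hfc _ (hPm j hj)⟩⟩
      interval_cases j <;> decide
    have t0 : t ≠ 0 := by
      rintro rfl
      obtain ⟨_, ⟨i, hi, rfl⟩, hq⟩ := hm1
      have := (ht.2 i hi).1 hq
      simp at this
    have t31 : t ≠ 31 := by
      rintro rfl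
      obtain ⟨_, ⟨i, hi, rfl⟩, hq⟩ := hm2
      exact hq ((ht.2 i hi).2 (by interval_cases i <;> decide))
    have htr' : t ∈ [4, 5, 20, 7, 28] := by
      simp only [List.mem_cons, List.not_mem_nil, or_false] at htr ⊢
      tauto
    have hfm : f ≠ m := by
      rintro rfl
      exact t31 (uniq _ _ _ ht htf)
    have hfx : f ≠ x := by
      rintro rfl
      exact absurd (uniq _ _ _ htf htx) (by norm_num)
    have hfx' : G.Adj f x := by
      by_contra had
      have := (hT2 f hf x hxX hfx (notP f hfP) hxP 31 4 htf htx).2 had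
      rw [tab3.1] at this
      exact Bool.false_ne_true this
    have fp : ∀ i < 5, G.Adj f (p i) := fun i hi => hfc _ (hPm i hi)
    have np : ∀ i < 5, ∀ j < 5, ¬ (i + 1 = j ∨ j + 1 = i) → ¬ G.Adj (p i) (p j) :=
      fun i hi j hj h h' => h ((padj i hi j hj).1 h')
    have xp2 : G.Adj x (p 2) := (htx.2 2 (by norm_num)).2 (by decide)
    have nxp : ∀ i < 5, i ≠ 2 → ¬ G.Adj x (p i) := by
      intro i hi hi2 h
      have := (htx.2 i hi).1 h
      interval_cases i <;> first | exact hi2 rfl | exact absurd this (by decide)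
    refine ⟨?_, ?_⟩
    · by_contra hno
      have hmx : t ≠ 4 → m ≠ x := by
        rintro h rfl
        exact h (uniq _ _ _ ht htx)
      have hpair := hT2 f hf m hm hfm (notP f hfP) (notP m hmP) 31 t htf ht
      have h20 := hpair.2 hno
      have hd : t = 7 ∨ t = 28 := by
        simp only [List.mem_cons, List.not_mem_nil, or_false] at htr'
        rcases htr' with rfl | rfl | rfl | rfl | rfl
        · rw [tab2 4 (by simp)] at h20; exact absurd h20 Bool.false_ne_true
        · rw [tab2 5 (by simp)] at h20; exact absurd h20 Bool.false_ne_true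
        · rw [tab2 20 (by simp)] at h20; exact absurd h20 Bool.false_ne_true
        · exact Or.inl rfl
        · exact Or.inr rfl
      rcases hd with rfl | rfl
      · have hmx' : ¬ G.Adj m x := by
          intro had
          have := (hT2 m hm x hxX (hmx (by norm_num)) (notP m hmP) hxP 7 4 ht htx).1 had
          rw [tab3.2.1] at this
          exact Bool.false_ne_true this
        have m2 : G.Adj m (p 2) := (ht.2 2 (by norm_num)).2 (by decide)
        have m4 : ¬ G.Adj m (p 4) := fun h => absurd ((ht.2 4 (by norm_num)).1 h) (by decide)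
        exact hH.bf (bull5 hf (hp.1 2 (by norm_num)) hxX (hp.1 4 (by norm_num)) hm
          (fp 2 (by norm_num)) hfx' xp2.symm (fp 4 (by norm_num)) m2.symm
          (np 2 (by norm_num) 4 (by norm_num) (by norm_num)) (nxp 4 (by norm_num) (by norm_num))
          hno (fun h => hmx' h.symm) (fun h => m4 h.symm))
      · have hmx' : ¬ G.Adj m x := by
          intro had
          have := (hT2 m hm x hxX (hmx (by norm_num)) (notP m hmP) hxP 28 4 ht htx).1 had
          rw [tab3.2.2] at this
          exact Bool.false_ne_true this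
        have m2 : G.Adj m (p 2) := (ht.2 2 (by norm_num)).2 (by decide)
        have m0 : ¬ G.Adj m (p 0) := fun h => absurd ((ht.2 0 (by norm_num)).1 h) (by decide)
        exact hH.bf (bull5 hf (hp.1 2 (by norm_num)) hxX (hp.1 0 (by norm_num)) hm
          (fp 2 (by norm_num)) hfx' xp2.symm (fp 0 (by norm_num)) m2.symm
          (np 2 (by norm_num) 0 (by norm_num) (by norm_num)) (nxp 0 (by norm_num) (by norm_num))
          hno (fun h => hmx' h.symm) (fun h => m0 h.symm))
    · obtain ⟨i, hi, j, hj, h5, h6, h7, h8, h9⟩ := tab5 t htr'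
      refine ⟨p i, hPm i hi, p j, hPm j hj, (ht.2 i hi).2 h5, fun h => ?_,
        np i hi j hj (by omega), fun h => h7 (hp.2.1 i hi j hj h)⟩
      rw [(ht.2 j hj).1 h] at h6
      exact Bool.noConfusion h6
  -- the set B
  let B : Set V := {y | y ∈ X ∧ y ∉ P ∧ ∃ t ∈ [0, 4], Tv G 5 p y t}
  have hxB : x ∈ B := ⟨hxX, fun ⟨i, hi, h⟩ => hxP i hi h, 4, by simp, htx⟩
  have hBX : B ⊆ X \ {p 2} := fun y hy => ⟨hy.1, fun h => hy.2.1 ⟨2, by norm_num, h⟩⟩
  have hBe : B = X \ {p 2} := by
    refine (hH.tc (p 2) (hp.1 2 (by norm_num))).eq_of_nb hBX ⟨x, hxB⟩ ?_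
    rintro v ⟨hvX, hv2⟩ ⟨hvB, b, ⟨hbX, hbP, s, hs, hbs⟩, hbv⟩
    by_cases hvP : v ∈ P
    · obtain ⟨i, hi, rfl⟩ := hvP
      have h5 := (hbs.2 i hi).1 hbv
      have hi2 : i ≠ 2 := fun h => hv2 (by rw [h]; rfl)
      simp only [List.mem_cons, List.not_mem_nil, or_false] at hs
      rcases hs with rfl | rfl
      · simp at h5
      · interval_cases i <;> first | exact hi2 rfl | exact absurd h5 (by decide)
    · obtain ⟨t, ht⟩ := exists_tv G 5 p v
      have htr := trs v hvX (notP v hvP) t ht
      have t31 : t ≠ 31 := by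
        rintro rfl
        obtain ⟨_, ⟨i, hi, rfl⟩, hq⟩ := hcomp v hvX hvP
        exact hq ((ht.2 i hi).2 (by interval_cases i <;> decide))
      have t0 : t ≠ 0 := by
        rintro rfl
        exact hvB ⟨hvX, hvP, 0, by simp, ht⟩
      have t4 : t ≠ 4 := by
        rintro rfl
        exact hvB ⟨hvX, hvP, 4, by simp, ht⟩
      have htr' : t ∈ [5, 20, 7, 28] := by
        simp only [List.mem_cons, List.not_mem_nil, or_false] at htr ⊢
        tauto
      have hvb : v ≠ b := fun h => hvB (h ▸ ⟨hbX, hbP, s, hs, hbs⟩)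
      have h6 := (hT2 v hvX b hbX hvb (notP v hvP) (notP b hbP) t s ht hbs).1 hbv.symm
      rw [tab4 t htr' s hs] at h6
      exact Bool.false_ne_true h6
  have h0 : p 0 ∈ B := by
    rw [hBe]
    refine ⟨hp.1 0 (by norm_num), fun h => ?_⟩
    have := hp.2.1 0 (by norm_num) 2 (by norm_num) h
    omega
  exact h0.2.1 (hPm 0 (by norm_num))

end Pool.Agent.MPd439b2.BU
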