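import Pool.Agent.Lib.MP_d439b2_co.BU.Spec

set_option autoImplicit false

namespace Pool.Agent.MPd439b2.BU

open Pool.Agent.MPd439b2

private theorem c3_conn {V : Type} (G : SimpleGraph V) (X : Set V) (n : ℕ) (p : ℕ → V)
    (hp : IP G X n p) : ∀ m, m < n → Conn G {x | ∃ i < m + 1, x = p i} := by
  intro m
  induction m with
  | zero =>
    intro _
    have h : {x | ∃ i < 0 + 1, x = p i} = {p 0} := by
      ext x
      constructor
      · rintro ⟨i, hi, rfl⟩
        have : i = 0 := by omega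
        rw [this]
        rfl
      · intro hx
        exact ⟨0, by omega, hx⟩
    rw [h]
    exact Conn.singleton G _
  | succ m ih =>
    intro hm
    have h : {x | ∃ i < m + 1 + 1, x = p i} = insert (p (m + 1)) {x | ∃ i < m + 1, x = p i} := by
      ext x
      constructor
      · rintro ⟨i, hi, rfl⟩
        rcases Nat.lt_or_ge i (m + 1) with h | h
        · exact Or.inr ⟨i, h, rfl⟩
        · left
          have : i = m + 1 := by omega
          rw [this]
      · rintro (hx | ⟨i, hi, hx⟩)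
        · exact ⟨m + 1, by omega, hx⟩
        · exact ⟨i, by omega, hx⟩
    rw [h]
    refine Conn.insert (ih (by omega)) ⟨p m, ⟨m, by omega, rfl⟩, ?_⟩
    exact (hp.2.2 m (by omega) (m + 1) hm).2 (Or.inl rfl)

private theorem c3_tab : ∀ t ∈ tr5, t ≠ 2 → t ≠ 3 → t ≠ 8 → t ≠ 24 → t ≠ 4 →
    ok5 t 0 true = true → t = 0 ∨ t = 31 := by
  decide

theorem c3 (hT : S_FP5) (h1 : S_C1) (h2 : S_C2) : S_C3 := by
  intro V _ G X p hH hp z₀ hz₀X hz₀P t₀ ht₀ ht0
  rw [ht0] at ht₀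
  obtain ⟨f1, f2⟩ := hT V G X p hH.bf hH.p6 hH.c6 hp
  obtain ⟨Z, hZ⟩ : ∃ Z : Set V, Z = {z | z ∈ X ∧ (∀ i < 5, z ≠ p i) ∧ ∀ i < 5, ¬ G.Adj z (p i)} :=
    ⟨_, rfl⟩
  obtain ⟨F, hF⟩ : ∃ F : Set V, F = {f | f ∈ X ∧ (∀ i < 5, f ≠ p i) ∧ (∀ i < 5, G.Adj f (p i)) ∧
    ∃ z ∈ Z, G.Adj f z} := ⟨_, rfl⟩
  have hzt : ∀ z ∈ Z, Tv G 5 p z 0 := by
    intro z hz
    rw [hZ] at hz
    refine ⟨by norm_num, fun i hi => ?_⟩
    rw [Nat.zero_testBit]
    constructor
    · intro h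
      exact absurd h (hz.2.2 i hi)
    · intro h
      exact absurd h (by decide)
  have hz₀ : z₀ ∈ Z := by
    rw [hZ]
    refine ⟨hz₀X, hz₀P, fun i hi h => ?_⟩
    have := (ht₀.2 i hi).1 h
    rw [Nat.zero_testBit] at this
    exact absurd this (by decide)
  -- neighbours of `Z`
  have hnb : ∀ z ∈ Z, ∀ y ∈ X, G.Adj y z → y ∈ Z ∨ y ∈ F := by
    intro z hz y hy hyz
    have hz' := hz
    rw [hZ] at hz'
    have hyP : ∀ i < 5, y ≠ p i := by
      intro i hi h
      rw [h] at hyz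
      exact hz'.2.2 i hi hyz.symm
    obtain ⟨t, ht⟩ := exists_tv G 5 p y
    have ht1 := f1 y hy hyP t ht
    obtain ⟨c1, c2, c3, c4⟩ := h1 V G X p hH hp y hy hyP t ht
    have c5 := h2 V G X p hH hp y hy hyP t ht
    have ht2 := (f2 y hy z hz'.1 hyz.ne hyP hz'.2.1 t 0 ht (hzt z hz)).1 hyz
    rcases c3_tab t ht1 c1 c2 c3 c4 c5 ht2 with h | h
    · left
      rw [hZ]
      refine ⟨hy, hyP, fun i hi h' => ?_⟩
      have := (ht.2 i hi).1 h'
      rw [h, Nat.zero_testBit] at this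
      exact absurd this (by decide)
    · right
      rw [hF]
      refine ⟨hy, hyP, fun i hi => ?_, z, hz, hyz⟩
      rw [ht.2 i hi, h]
      interval_cases i <;> decide
  have key := Prm.closure hH.prm (M₀ := {x | ∃ i < 4 + 1, x = p i})
    (fun M => Conn G M ∧ (∀ m ∈ M, m ∉ Z ∧ m ∉ F) ∧ ∀ f ∈ F, ∀ m ∈ M, G.Adj f m) ?_ ?_ ?_ ?_
  · exact (key.2.1 z₀ hz₀X).1 hz₀
  · refine ⟨c3_conn G X 5 p hp 4 (by norm_num), ?_, ?_⟩
    · rintro _ ⟨i, hi, rfl⟩
      constructor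
      · intro h
        rw [hZ] at h
        exact h.2.1 i hi rfl
      · intro h
        rw [hF] at h
        exact h.2.1 i hi rfl
    · rintro f hf _ ⟨i, hi, rfl⟩
      rw [hF] at hf
      exact hf.2.2.1 i hi
  · rintro _ ⟨i, hi, rfl⟩
    exact hp.1 i hi
  · intro h
    have h3 := h (show p 0 ∈ {x | ∃ i < 4 + 1, x = p i} from ⟨0, by norm_num, rfl⟩)
      (show p 1 ∈ {x | ∃ i < 4 + 1, x = p i} from ⟨1, by norm_num, rfl⟩)
    have h4 := hp.2.1 0 (by norm_num) 1 (by norm_num) h3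
    omega
  · rintro M - hMX ⟨m1, m2, m3⟩ y hy hyM hya hyb
    obtain ⟨a, ha, b, hb, hya, hyb, hab⟩ := mixed_conn m1 hya hyb
    have hyF : y ∉ F := fun h => hyb (m3 y h b hb)
    have hyZ : y ∉ Z := by
      intro h
      rcases hnb y h a (hMX ha) hya.symm with h3 | h3
      · exact (m2 a ha).1 h3
      · exact (m2 a ha).2 h3
    refine ⟨Conn.insert m1 ⟨a, ha, hya.symm⟩, ?_, ?_⟩
    · rintro m (rfl | hm)
      · exact ⟨hyZ, hyF⟩
      · exact m2 m hm
    · rintro f hf m (rfl | hm)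
      · by_contra hfm
        have hf' := hf
        rw [hF] at hf'
        obtain ⟨hfX, -, -, z, hz, hfz⟩ := hf'
        have hzX : z ∈ X := by
          rw [hZ] at hz
          exact hz.1
        have hno : ∀ x ∈ X, x ∉ Z → x ∉ F → ¬ G.Adj x z := by
          intro x hx hx1 hx2 h
          rcases hnb z hz x hx h with h3 | h3
          · exact hx1 h3
          · exact hx2 h3
        exact hH.bf (bull5 hfX (hMX ha) (hMX hb) hzX hy (m3 f hf a ha) (m3 f hf b hb) hab hfz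
          hya.symm (hno a (hMX ha) (m2 a ha).1 (m2 a ha).2) (hno b (hMX hb) (m2 b hb).1 (m2 b hb).2)
          hfm (fun h => hyb h.symm) (fun h => hno m hy hyZ hyF h.symm))
      · exact m3 f hf m hm

end Pool.Agent.MPd439b2.BU
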