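import Pool.Agent.Lib.MP_d439b2_co.BU.Spec

/-!
# MP_d439b2_co, BU/C4: ears and gems
-/

set_option autoImplicit false

namespace Pool.Agent.MPd439b2.BU

open Pool.Agent.MPd439b2

namespace C4aux

variable {V : Type} {G : SimpleGraph V} {X : Set V} {p : ℕ → V}

/-- the traces outside of an induced `P_5` -/
theorem trace [Finite V] (hT : S_FP5) (h1 : S_C1) (h2 : S_C2) (h3 : S_C3) (hH : Hyp G X)
    (hp : IP G X 5 p) {y : V} (hy : y ∈ X) (hyp : ∀ i < 5, y ≠ p i) :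
    ∃ t ∈ [5, 7, 9, 18, 20, 21, 23, 28, 29, 31], Tv G 5 p y t := by
  obtain ⟨t, ht⟩ := exists_tv G 5 p y
  have e1 := (hT V G X p hH.bf hH.p6 hH.c6 hp).1 y hy hyp t ht
  obtain ⟨a1, a2, a3, a4⟩ := h1 V G X p hH hp y hy hyp t ht
  have a5 := h2 V G X p hH hp y hy hyp t ht
  have a6 := h3 V G X p hH hp y hy hyp t ht
  have key : ∀ t ∈ tr5, t ≠ 2 → t ≠ 3 → t ≠ 8 → t ≠ 24 → t ≠ 4 → t ≠ 0 →
      t ∈ [5, 7, 9, 18, 20, 21, 23, 28, 29, 31] := by decide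
  exact ⟨t, key t e1 a1 a2 a3 a4 a5 a6, ht⟩

/-- a vertex with trace `9` gives a gem -/
theorem gem9 [Finite V] (hT : S_FP5) (h1 : S_C1) (h2 : S_C2) (h3 : S_C3) (hH : Hyp G X)
    (hp : IP G X 5 p) {z : V} (hz : z ∈ X) (hzp : ∀ i < 5, z ≠ p i) (hz9 : Tv G 5 p z 9) :
    Gem Gᶜ X (p 0) (p 1) (p 2) z (p 4) := by
  have e : ∀ i j, i < 5 → j < 5 → (p i = p j ↔ i = j) := fun i j hi hj =>
    ⟨fun h => hp.2.1 i hi j hj h, fun h => by rw [h]⟩
  have adj : ∀ i j, i < 5 → j < 5 → (G.Adj (p i) (p j) ↔ i + 1 = j ∨ j + 1 = i) :=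
    fun i j hi hj => hp.2.2 i hi j hj
  have pz : ∀ i, i < 5 → p i ≠ z := fun i hi h => hzp i hi h.symm
  have z0 : G.Adj z (p 0) := (hz9.2 0 (by omega)).2 (by decide)
  have z1 : ¬ G.Adj z (p 1) := fun h => absurd ((hz9.2 1 (by omega)).1 h) (by decide)
  have z2 : ¬ G.Adj z (p 2) := fun h => absurd ((hz9.2 2 (by omega)).1 h) (by decide)
  have z3 : G.Adj z (p 3) := (hz9.2 3 (by omega)).2 (by decide)
  have z4 : ¬ G.Adj z (p 4) := fun h => absurd ((hz9.2 4 (by omega)).1 h) (by decide)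
  -- the other vertices
  have out : ∀ w ∈ X, (∀ i < 5, w ≠ p i) → w ≠ z → G.Adj z w ∧ G.Adj w (p 4) ∧ G.Adj w (p 2) ∧
      (G.Adj w (p 0) ↔ G.Adj w (p 1)) := by
    intro w hw hwp hwz
    obtain ⟨t, ht, htv⟩ := trace hT h1 h2 h3 hH hp hw hwp
    obtain ⟨b1, b2⟩ := (hT V G X p hH.bf hH.p6 hH.c6 hp).2 w hw z hz hwz hwp hzp t 9 htv hz9
    have c1 : ∀ t ∈ [5, 7, 9, 18, 20, 21, 23, 28, 29, 31], ok5 t 9 false = false := by decide
    have c2 : ∀ t ∈ [5, 7, 9, 18, 20, 21, 23, 28, 29, 31], ok5 t 9 true = true →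
        t ∈ [20, 23, 28, 31] := by decide
    have c3 : ∀ t ∈ [20, 23, 28, 31], t.testBit 4 = true ∧ t.testBit 2 = true ∧
        t.testBit 0 = t.testBit 1 := by decide
    have hwz' : G.Adj w z := by
      by_contra h
      have := b2 h
      rw [c1 t ht] at this
      exact absurd this (by decide)
    obtain ⟨d1, d2, d3⟩ := c3 t (c2 t ht (b1 hwz'))
    refine ⟨hwz'.symm, (htv.2 4 (by omega)).2 d1, (htv.2 2 (by omega)).2 d2, ?_⟩
    rw [htv.2 0 (by omega), htv.2 1 (by omega), d3]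
  have cases : ∀ w ∈ X, (∃ i, i < 5 ∧ w = p i) ∨ w = z ∨ ((∀ i < 5, w ≠ p i) ∧ w ≠ z) := by
    intro w _
    by_cases h : ∃ i, i < 5 ∧ w = p i
    · exact Or.inl h
    · right
      by_cases h' : w = z
      · exact Or.inl h'
      · exact Or.inr ⟨fun i hi hw => h ⟨i, hi, hw⟩, h'⟩
  refine ⟨hp.1 0 (by omega), hp.1 1 (by omega), hp.1 2 (by omega), hz, hp.1 4 (by omega),
    ?_, ?_, ?_, ?_⟩
  · intro w hw
    rcases cases w hw with ⟨i, hi, rfl⟩ | rfl | ⟨hw1, hw2⟩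
    · interval_cases i <;> simp [SimpleGraph.compl_adj, e, adj, pz]
    · simp [SimpleGraph.compl_adj, (hzp 4 (by omega)).symm, G.adj_comm (p 4), z4]
    · obtain ⟨o1, o2, o3, o4⟩ := out w hw hw1 hw2
      simp [SimpleGraph.compl_adj, hw1 0, hw1 1, hw1 2, hw2, o2.symm]
  · intro w hw
    rcases cases w hw with ⟨i, hi, rfl⟩ | rfl | ⟨hw1, hw2⟩
    · interval_cases i <;> simp [SimpleGraph.compl_adj, e, adj, pz]
    · simp [SimpleGraph.compl_adj, (hzp 2 (by omega)).symm, G.adj_comm (p 2), z2]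
    · obtain ⟨o1, o2, o3, o4⟩ := out w hw hw1 hw2
      simp [SimpleGraph.compl_adj, hw1 0, hw1 4, hw2, o3.symm]
  · intro w hw
    rcases cases w hw with ⟨i, hi, rfl⟩ | rfl | ⟨hw1, hw2⟩
    · interval_cases i <;> simp [SimpleGraph.compl_adj, e, z0, z1, z2, z3, z4, hzp]
    · simp [hzp 1, hzp 2, hzp 4]
    · obtain ⟨o1, o2, o3, o4⟩ := out w hw hw1 hw2
      simp [SimpleGraph.compl_adj, hw1 1, hw1 2, hw1 4, o1]
  · intro w hw n1 n2 n3
    rcases cases w hw with ⟨i, hi, rfl⟩ | rfl | ⟨hw1, hw2⟩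
    · interval_cases i <;> simp [SimpleGraph.compl_adj, e, adj] at n1 n3 ⊢
    · exact absurd rfl n2
    · obtain ⟨o1, o2, o3, o4⟩ := out w hw hw1 hw2
      simp [SimpleGraph.compl_adj, (hw1 0 (by omega)).symm, (hw1 1 (by omega)).symm,
        G.adj_comm (p 0) w, G.adj_comm (p 1) w, o4]

end C4aux

open C4aux in
theorem c4 (hT : S_FP5) (h1 : S_C1) (h2 : S_C2) (h3 : S_C3) : S_C4 := by
  intro V _ G X p hH hp
  by_cases n9 : ∃ z ∈ X, (∀ i < 5, z ≠ p i) ∧ Tv G 5 p z 9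
  · obtain ⟨z, hz, hzp, hz9⟩ := n9
    exact Or.inr ⟨z, Or.inl (gem9 hT h1 h2 h3 hH hp hz hzp hz9)⟩
  by_cases n18 : ∃ z ∈ X, (∀ i < 5, z ≠ p i) ∧ Tv G 5 p z 18
  · obtain ⟨z, hz, hzp, hz18⟩ := n18
    refine Or.inr ⟨z, Or.inr ?_⟩
    have hrev := hp.rev
    have := gem9 hT h1 h2 h3 hH hrev hz (fun i hi => hzp _ (by omega)) (by
      refine ⟨by decide, fun j hj => ?_⟩
      show G.Adj z (p (5 - 1 - j)) ↔ _
      rw [hz18.2 _ (by omega)]
      interval_cases j <;> decide)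
    exact this
  refine Or.inl ?_
  have e : ∀ i j, i < 5 → j < 5 → (p i = p j ↔ i = j) := fun i j hi hj =>
    ⟨fun h => hp.2.1 i hi j hj h, fun h => by rw [h]⟩
  have adj : ∀ i j, i < 5 → j < 5 → (G.Adj (p i) (p j) ↔ i + 1 = j ∨ j + 1 = i) :=
    fun i j hi hj => hp.2.2 i hi j hj
  have tr : ∀ y ∈ X, (∀ i < 5, y ≠ p i) → ∃ t ∈ [5, 7, 20, 21, 23, 28, 29, 31], Tv G 5 p y t := by
    intro y hy hyp
    obtain ⟨t, ht, htv⟩ := trace hT h1 h2 h3 hH hp hy hyp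
    have ht9 : t ≠ 9 := by
      rintro rfl
      exact n9 ⟨y, hy, hyp, htv⟩
    have ht18 : t ≠ 18 := by
      rintro rfl
      exact n18 ⟨y, hy, hyp, htv⟩
    refine ⟨t, ?_, htv⟩
    simp only [List.mem_cons, List.not_mem_nil, or_false] at ht ⊢
    omega
  have cases : ∀ w ∈ X, (∃ i, i < 5 ∧ w = p i) ∨ ((∀ i < 5, w ≠ p i) ∧
      ∃ t ∈ [5, 7, 20, 21, 23, 28, 29, 31], Tv G 5 p w t) := by
    intro w hw
    by_cases h : ∃ i, i < 5 ∧ w = p i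
    · exact Or.inl h
    · have h' : ∀ i < 5, w ≠ p i := fun i hi hw => h ⟨i, hi, hw⟩
      exact Or.inr ⟨h', tr w hw h'⟩
  have k2 : ∀ t ∈ [5, 7, 20, 21, 23, 28, 29, 31], t.testBit 2 = true := by decide
  have k0 : ∀ t ∈ [5, 7, 20, 21, 23, 28, 29, 31], ¬ t.testBit 0 = true → t ∈ [20, 28] := by decide
  have k4 : ∀ t ∈ [5, 7, 20, 21, 23, 28, 29, 31], ¬ t.testBit 4 = true → t ∈ [5, 7] := by decide
  have k1 : ∀ t ∈ [20, 28], ¬ t.testBit 1 = true ∧ ¬ t.testBit 0 = true := by decide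
  have k3 : ∀ t ∈ [5, 7], ¬ t.testBit 3 = true ∧ t.testBit 0 = true := by decide
  have kk : ∀ t ∈ [20, 28], ∀ t' ∈ [5, 7], ¬ ok5 t t' true = true := by decide
  -- the neighbours of `p 0` and `p 4` in the complement
  have hA : ∀ a ∈ X, Gᶜ.Adj (p 0) a → a ≠ p 4 → a ≠ p 2 → a = p 3 ∨
      ((∀ i < 5, a ≠ p i) ∧ ∃ t ∈ [20, 28], Tv G 5 p a t) := by
    intro a ha h n4 n2
    rcases cases a ha with ⟨i, hi, rfl⟩ | ⟨hw1, t, ht, htv⟩
    · left
      interval_cases i <;> simp [SimpleGraph.compl_adj, e, adj] at h n4 n2 ⊢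
    · right
      refine ⟨hw1, t, k0 t ht ?_, htv⟩
      intro h'
      exact h.2 ((htv.2 0 (by omega)).2 h').symm
  have hBB : ∀ b ∈ X, Gᶜ.Adj (p 4) b → b ≠ p 0 → b ≠ p 2 → b = p 1 ∨
      ((∀ i < 5, b ≠ p i) ∧ ∃ t ∈ [5, 7], Tv G 5 p b t) := by
    intro b hb h n4 n2
    rcases cases b hb with ⟨i, hi, rfl⟩ | ⟨hw1, t, ht, htv⟩
    · left
      interval_cases i <;> simp [SimpleGraph.compl_adj, e, adj] at h n4 n2 ⊢
    · right
      refine ⟨hw1, t, k4 t ht ?_, htv⟩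
      intro h'
      exact h.2 ((htv.2 4 (by omega)).2 h').symm
  refine ⟨hp.1 0 (by omega), hp.1 2 (by omega), hp.1 4 (by omega), ?_, ?_, ?_, ?_, ?_, ?_, ?_⟩
  · simp [SimpleGraph.compl_adj, e, adj]
  · simp [SimpleGraph.compl_adj, e, adj]
  · simp [SimpleGraph.compl_adj, e, adj]
  · intro y hy h
    rcases cases y hy with ⟨i, hi, rfl⟩ | ⟨hw1, t, ht, htv⟩
    · interval_cases i <;> simp [SimpleGraph.compl_adj, e, adj] at h ⊢
    · exact absurd ((htv.2 2 (by omega)).2 (k2 t ht)).symm h.2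
  · intro a ha ha1 ha2 ha3 b hb hb1 hb2 hb3
    rcases hA a ha ha1 ha2 ha3 with rfl | ⟨hap, t, ht, htv⟩
    · rcases hBB b hb hb1 hb2 hb3 with rfl | ⟨hbp, t', ht', htv'⟩
      · simp [SimpleGraph.compl_adj, e, adj]
      · refine ⟨fun h => hbp 3 (by omega) h.symm, fun h => ?_⟩
        exact (k3 t' ht').1 ((htv'.2 3 (by omega)).1 h.symm)
    · rcases hBB b hb hb1 hb2 hb3 with rfl | ⟨hbp, t', ht', htv'⟩
      · refine ⟨fun h => hap 1 (by omega) h, fun h => ?_⟩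
        exact (k1 t ht).1 ((htv.2 1 (by omega)).1 h)
      · have hab : a ≠ b := by
          rintro rfl
          exact (k1 t ht).2 ((htv.2 0 (by omega)).1 ((htv'.2 0 (by omega)).2 (k3 t' ht').2))
        refine ⟨hab, fun h => ?_⟩
        exact kk t ht t' ht' (((hT V G X p hH.bf hH.p6 hH.c6 hp).2 a ha b hb hab hap hbp t t' htv
          htv').1 h)
  · exact ⟨p 3, hp.1 3 (by omega), by simp [SimpleGraph.compl_adj, e, adj], by simp [e], by simp [e]⟩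
  · exact ⟨p 1, hp.1 1 (by omega), by simp [SimpleGraph.compl_adj, e, adj], by simp [e], by simp [e]⟩

end Pool.Agent.MPd439b2.BU
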