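import Pool.Agent.Lib.MP_d439b2_co.BU.Spec

/-!
# MP_d439b2_co, BU, D1: different ears are disjoint
-/

set_option autoImplicit false

namespace Pool.Agent.MPd439b2.BU

open Pool.Agent.MPd439b2

private theorem ear_symm {V : Type} {D : SimpleGraph V} {X : Set V} {u e v : V}
    (h : Ear D X u e v) : Ear D X v e u where
  mu := h.mv
  me := h.me
  mv := h.mu
  ue := h.ev.symm
  ev := h.ue.symm
  uv := h.uv.symm
  nbe y hy hey := (h.nbe y hy hey).symm
  bis a ha hva hau hae b hb hub hbv hbe := (h.bis b hb hub hbv hbe a ha hva hau hae).symm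
  exa := h.exb
  exb := h.exa

private theorem ear1 {V : Type} {D : SimpleGraph V} {X : Set V} {u e v u' e' v' : V}
    (h : Ear D X u e v) (h' : Ear D X u' e' v') : e' ≠ u := by
  intro he
  subst he
  obtain ⟨a, ha, hua, hav, hae⟩ := h.exa
  have h1 := h'.nbe v h.mv h.uv
  have h2 := h'.nbe e h.me h.ue
  have h3 := h'.nbe a ha hua
  have h4 : e ≠ v := h.ev.ne
  rcases h1 with h1 | h1 <;> rcases h2 with h2 | h2 <;> rcases h3 with h3 | h3
  · exact h4 (h2.trans h1.symm)
  · exact h4 (h2.trans h1.symm)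
  · exact hav (h3.trans h1.symm)
  · exact hae (h3.trans h2.symm)
  · exact hae (h3.trans h2.symm)
  · exact hav (h3.trans h1.symm)
  · exact h4 (h2.trans h1.symm)
  · exact h4 (h2.trans h1.symm)

private theorem ear2 {V : Type} {D : SimpleGraph V} {X : Set V} {u e v u' e' v' : V}
    (h : Ear D X u e v) (h' : Ear D X u' e' v') (hne : e ≠ e') : u ≠ u' := by
  intro he
  subst he
  obtain ⟨b, hb, hvb, hbu, hbe⟩ := h.exb
  have h1 : D.Adj e' b := h.bis e' h'.me h'.ue (ear1 (ear_symm h) h') (Ne.symm hne) b hb hvb hbu hbe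
  rcases h'.nbe b hb h1 with h2 | h2
  · exact hbu h2
  · have h3 : D.Adj u b := h2 ▸ h'.uv
    exact (h.bis b hb h3 hvb.ne' hbe b hb hvb hbu hbe).ne rfl

theorem d1 : S_D1 := by
  intro V D X u e v u' e' v' h h' hne
  refine ⟨ear1 h h', ear1 (ear_symm h) h', ear1 h' h, ear1 (ear_symm h') h, ear2 h h' hne,
    ear2 h (ear_symm h') hne, ear2 (ear_symm h) h' hne, ear2 (ear_symm h) (ear_symm h') hne⟩

end Pool.Agent.MPd439b2.BU
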