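import Pool.Agent.Lib.MP_d439b2_co.BU.Spec

/-!
# MP_d439b2_co, BU: D2, the layout (helper18)
-/

set_option autoImplicit false

namespace Pool.Agent.MPd439b2.BU

open Pool.Agent.MPd439b2

namespace D2

variable {V : Type}

/-- the step with a gem -/
theorem gem_step [Finite V] (hr : S_R4) {G : SimpleGraph V} {X Y : Set V} {a b x y c : V} {k : ℕ}
    (hk : 6 ≤ k) (hg : Gem Gᶜ X a b x y c) (hYX : Y ⊆ X) (ha : a ∈ Y) (hb : b ∈ Y) (hab : a ≠ b)
    (ih : ∀ Z ⊆ Y, Z.ncard < Y.ncard → RLp G Z k Z) : RLp G Y k Y := by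
  have hJY : ({a, b, x, y, c} ∩ Y : Set V) ⊆ Y := Set.inter_subset_right
  have haJ : a ∈ ({a, b, x, y, c} ∩ Y : Set V) := ⟨Or.inl rfl, ha⟩
  have hbJ : b ∈ ({a, b, x, y, c} ∩ Y : Set V) := ⟨Or.inr (Or.inl rfl), hb⟩
  have h5 : ({a, b, x, y, c} ∩ Y : Set V).ncard ≤ 5 := by
    refine (Set.ncard_le_ncard Set.inter_subset_left (Set.toFinite _)).trans ?_
    have h1 := Set.ncard_insert_le a ({b, x, y, c} : Set V)
    have h2 := Set.ncard_insert_le b ({x, y, c} : Set V)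
    have h3 := Set.ncard_insert_le x ({y, c} : Set V)
    have h4 := Set.ncard_insert_le y ({c} : Set V)
    have h6 := Set.ncard_singleton c
    omega
  have hz : ∀ z ∈ Y \ ({a, b, x, y, c} ∩ Y : Set V),
      z ∈ X ∧ z ≠ a ∧ z ≠ b ∧ z ≠ x ∧ z ≠ y ∧ z ≠ c := by
    rintro z ⟨hzY, hzJ⟩
    refine ⟨hYX hzY, ?_, ?_, ?_, ?_, ?_⟩
    · rintro rfl; exact hzJ ⟨Or.inl rfl, hzY⟩
    · rintro rfl; exact hzJ ⟨Or.inr (Or.inl rfl), hzY⟩
    · rintro rfl; exact hzJ ⟨Or.inr (Or.inr (Or.inl rfl)), hzY⟩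
    · rintro rfl; exact hzJ ⟨Or.inr (Or.inr (Or.inr (Or.inl rfl))), hzY⟩
    · rintro rfl; exact hzJ ⟨Or.inr (Or.inr (Or.inr (Or.inr rfl))), hzY⟩
  refine hr V G Y _ a k hJY haJ h5 hk ?_ (ih _ ?_ ?_)
  · rintro j ⟨hj, -⟩
    rcases hj with rfl | rfl | rfl | rfl | hj
    · exact Or.inr fun z _ => Iff.rfl
    · right
      intro z hzm
      obtain ⟨hzX, h1, h2, h3, h4, h6⟩ := hz z hzm
      have h := hg.nab z hzX h3 h4 h6
      rw [SimpleGraph.compl_adj, SimpleGraph.compl_adj] at h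
      constructor
      · intro hjz
        by_contra haz
        exact (h.1 ⟨h1.symm, haz⟩).2 hjz
      · intro haz
        by_contra hjz
        exact (h.2 ⟨h2.symm, hjz⟩).2 haz
    · left
      intro z hzm
      obtain ⟨hzX, h1, h2, h3, h4, h6⟩ := hz z hzm
      by_contra hjz
      rcases (hg.nbx z hzX).1 ⟨h3.symm, hjz⟩ with h | h | h
      · exact h1 h
      · exact h6 h
      · exact h4 h
    · left
      intro z hzm
      obtain ⟨hzX, h1, h2, h3, h4, h6⟩ := hz z hzm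
      by_contra hjz
      rcases (hg.nby z hzX).1 ⟨h4.symm, hjz⟩ with h | h | h
      · exact h2 h
      · exact h6 h
      · exact h3 h
    · rw [Set.mem_singleton_iff] at hj
      subst hj
      left
      intro z hzm
      obtain ⟨hzX, h1, h2, h3, h4, h6⟩ := hz z hzm
      by_contra hjz
      rcases (hg.nbc z hzX).1 ⟨h6.symm, hjz⟩ with h | h | h | h
      · exact h1 h
      · exact h2 h
      · exact h3 h
      · exact h4 h
  · exact Set.union_subset Set.sdiff_subset (Set.singleton_subset_iff.2 ha)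
  · refine Set.ncard_lt_ncard ⟨Set.union_subset Set.sdiff_subset (Set.singleton_subset_iff.2 ha),
      fun h => ?_⟩ (Set.toFinite _)
    rcases h hb with h' | h'
    · exact h'.2 hbJ
    · exact hab h'.symm

/-- the step with ears -/
theorem ear_step [Finite V] (hd : S_D1) (he : S_E5) {G : SimpleGraph V} {X Y : Set V} {k : ℕ}
    (hYX : Y ⊆ X) (hall : ∀ p, IP G Y 5 p → Ear Gᶜ X (p 0) (p 2) (p 4))
    (hno : ∀ Y ⊆ X, NoP G Y 5 → RL G Y k Y) : RL G Y ((3 * k + 1) * 4 ^ k + 4) Y := by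
  classical
  set E : Set V := {e | ∃ p, IP G Y 5 p ∧ e = p 2} with hE
  have hch : ∀ e ∈ E, ∃ w : V × V, w.1 ∈ Y ∧ w.2 ∈ Y ∧ Ear Gᶜ X w.1 e w.2 := by
    rintro e ⟨p, hp, rfl⟩
    exact ⟨(p 0, p 4), hp.1 0 (by norm_num), hp.1 4 (by norm_num), hall p hp⟩
  choose! w hw0 hw4 hwe using hch
  have hES : ES Gᶜ Y E (fun e => (w e).1) (fun e => (w e).2) := by
    refine
      { sub := ?_, mu := ?_, mv := ?_, eu := ?_, ev := ?_, uv := ?_, nbe := ?_, bis := ?_, inju := ?_,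
        injv := ?_, dis := ?_ }
    · rintro e ⟨p, hp, rfl⟩
      exact hp.1 2 (by norm_num)
    · intro e hem
      refine ⟨hw0 e hem, fun h => ?_⟩
      have hne : e ≠ (w e).1 := fun h' => (hwe e hem).ue.ne h'.symm
      exact (hd V Gᶜ X _ _ _ _ _ _ (hwe e hem) (hwe _ h) hne).1 rfl
    · intro e hem
      refine ⟨hw4 e hem, fun h => ?_⟩
      have hne : e ≠ (w e).2 := (hwe e hem).ev.ne
      exact (hd V Gᶜ X _ _ _ _ _ _ (hwe e hem) (hwe _ h) hne).2.1 rfl
    · intro e hem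
      exact (hwe e hem).ue.symm
    · intro e hem
      exact (hwe e hem).ev
    · intro e hem
      exact (hwe e hem).uv
    · intro e hem y hy h
      exact (hwe e hem).nbe y (hYX hy) h
    · intro e hem a ha hua hav b hb hvb hbu
      exact (hwe e hem).bis a (hYX ha.1) hua hav (fun h => ha.2 (h ▸ hem)) b (hYX hb.1) hvb hbu
        (fun h => hb.2 (h ▸ hem))
    · intro e hem f hfm h
      by_contra hne
      exact (hd V Gᶜ X _ _ _ _ _ _ (hwe e hem) (hwe f hfm) hne).2.2.2.2.1 h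
    · intro e hem f hfm h
      by_contra hne
      exact (hd V Gᶜ X _ _ _ _ _ _ (hwe e hem) (hwe f hfm) hne).2.2.2.2.2.2.2 h
    · intro e hem f hfm h
      by_cases hne : e = f
      · subst hne
        exact (hwe e hem).uv.ne h
      · exact (hd V Gᶜ X _ _ _ _ _ _ (hwe e hem) (hwe f hfm) hne).2.2.2.2.2.1 h
  refine he V G Y E _ _ k hES (hno _ (Set.sdiff_subset.trans hYX) fun p hp => ?_)
  exact (hp.1 2 (by norm_num)).2 ⟨p, hp.mono Set.sdiff_subset, rfl⟩

end D2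

/-- **D2.** The layout. -/
theorem d2 (h4 : S_C4) (hd : S_D1) (hr : S_R4) (he : S_E5) : S_D2 := by
  intro V _ G X k hX hno
  have hk : 6 ≤ (3 * k + 1) * 4 ^ k + 5 := by
    have h1 : 1 ≤ (3 * k + 1) * 4 ^ k := Nat.mul_pos (by omega) (by positivity)
    omega
  have key : ∀ n : ℕ, ∀ Y ⊆ X, Y.ncard = n → RLp G Y ((3 * k + 1) * 4 ^ k + 5) Y := by
    intro n
    induction n using Nat.strong_induction_on with
    | _ n ih =>
      intro Y hYX hn
      have ih' : ∀ Z ⊆ Y, Z.ncard < Y.ncard → RLp G Z ((3 * k + 1) * 4 ^ k + 5) Z :=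
        fun Z hZ hlt => ih _ (hn ▸ hlt) Z (hZ.trans hYX) rfl
      by_cases hc : ∀ p, IP G Y 5 p → Ear Gᶜ X (p 0) (p 2) (p 4)
      · exact (D2.ear_step hd he hYX hc hno).toRLp
      · push Not at hc
        obtain ⟨p, hp, hne⟩ := hc
        rcases h4 V G X p hX (hp.mono hYX) with h | ⟨z, h | h⟩
        · exact absurd h hne
        · exact D2.gem_step hr hk h hYX (hp.1 0 (by norm_num)) (hp.1 1 (by norm_num))
            (fun h' => absurd (hp.2.1 0 (by norm_num) 1 (by norm_num) h') (by norm_num)) ih'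
        · exact D2.gem_step hr hk h hYX (hp.1 4 (by norm_num)) (hp.1 3 (by norm_num))
            (fun h' => absurd (hp.2.1 4 (by norm_num) 3 (by norm_num) h') (by norm_num)) ih'
  exact (key _ X subset_rfl rfl).toRL

end Pool.Agent.MPd439b2.BU
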