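import Pool.Agent.Lib.MP_d439b2_co.BU.Spec

/-!
# MP_d439b2_co, BU: crossing ears are twins (task E1)
-/

set_option autoImplicit false

namespace Pool.Agent.MPd439b2.BU

open Pool.Agent.MPd439b2

namespace E1Aux

variable {V : Type}

theorem half {D : SimpleGraph V} {Y E : Set V} {u v : V → V} (hS : ES D Y E u v) {e f : V}
    (he : e ∈ E) (hf : f ∈ E) (hef : e ≠ f) (h1 : D.Adj (u f) (v e)) (h2 : D.Adj (u e) (v f)) :
    (∀ y ∈ Y \ E, D.Adj (u e) y → D.Adj (u f) y) ∧ ∀ y ∈ Y \ E, D.Adj (v e) y → D.Adj (v f) y := by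
  constructor
  · intro y hy h
    by_cases hyv : y = v e
    · rw [hyv]; exact h1
    · exact (hS.bis e he y hy h hyv (u f) (hS.mu f hf) h1.symm
        (fun h' => hef (hS.inju f hf e he h').symm)).symm
  · intro y hy h
    by_cases hyu : y = u e
    · rw [hyu]; exact h2.symm
    · exact hS.bis e he (v f) (hS.mv f hf) h2 (fun h' => hef (hS.injv f hf e he h').symm) y hy h hyu

theorem cross {G : SimpleGraph V} {Y E A Z : Set V} {u v : V → V} (hS : ES Gᶜ Y E u v) {e f : V}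
    (he : e ∈ E) (hf : f ∈ E) (hvZ : v e ∈ Z) (hvA : v e ∉ A)
    (h : (G.neighborSet (u e) ∩ Z) \ A = (G.neighborSet (u f) ∩ Z) \ A) :
    Gᶜ.Adj (u f) (v e) := by
  rw [SimpleGraph.compl_adj]
  refine ⟨hS.dis f hf e he, fun hadj => ?_⟩
  have h1 : v e ∈ (G.neighborSet (u f) ∩ Z) \ A := ⟨⟨hadj, hvZ⟩, hvA⟩
  rw [← h] at h1
  have h2 : G.Adj (u e) (v e) := h1.1.1
  have h3 := hS.uv e he
  rw [SimpleGraph.compl_adj] at h3
  exact h3.2 h2

end E1Aux

theorem e1 : S_E1 := by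
  intro V G Y E A Z u v hS e he f hf _ _ hveZ hvfZ hveA hvfA h
  by_cases hef : e = f
  · subst hef
    exact ⟨fun _ _ => Iff.rfl, fun _ _ => Iff.rfl⟩
  · have h1 := E1Aux.cross hS he hf hveZ hveA h
    have h2 := E1Aux.cross hS hf he hvfZ hvfA h.symm
    have a := E1Aux.half hS he hf hef h1 h2
    have b := E1Aux.half hS hf he (Ne.symm hef) h2 h1
    exact ⟨fun y hy => ⟨a.1 y hy, b.1 y hy⟩, fun y hy => ⟨a.2 y hy, b.2 y hy⟩⟩

end Pool.Agent.MPd439b2.BU
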