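import Pool.Agent.Lib.MP_d439b2_co.BU.Spec

/-!
# MP_d439b2_co, BU/E2: the sets which hang at the vertices `u r`
-/

set_option autoImplicit false

namespace Pool.Agent.MPd439b2.BU

open Pool.Agent.MPd439b2

namespace E2aux

/-- the branch of `e` -/
def Br {V : Type} (u v : V → V) (r e : V) : Set V :=
  {z | z = e ∨ z = u e ∨ (e ≠ r ∧ z = v e)}

theorem encard4 {α : Type} (a b c d : α) : ({a, b, c, d} : Set α).encard ≤ 4 := by
  have h1 : ({d} : Set α).encard ≤ 1 := (Set.encard_singleton d).le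
  have h2 : ({c, d} : Set α).encard ≤ 1 + 1 :=
    (Set.encard_insert_le _ _).trans (add_le_add_left h1 1)
  have h3 : ({b, c, d} : Set α).encard ≤ 1 + 1 + 1 :=
    (Set.encard_insert_le _ _).trans (add_le_add_left h2 1)
  have h4 : ({a, b, c, d} : Set α).encard ≤ 1 + 1 + 1 + 1 :=
    (Set.encard_insert_le _ _).trans (add_le_add_left h3 1)
  refine h4.trans ?_
  norm_num

end E2aux

open E2aux

/-- **E2.** -/
theorem e2 : S_E2 := by
  intro V _ G Y E u v ρ hES hρ y hy
  classical
  by_cases hr : ∃ r ∈ E, ρ r = r ∧ y = u r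
  swap
  · have h1 : Hst E u v ρ y = {y} := by
      ext z
      constructor
      · rintro (h | ⟨r, hrE, h1, h2, _⟩)
        · exact h
        · exact absurd ⟨r, hrE, h1, h2⟩ hr
      · intro h
        exact Or.inl h
    rw [h1]
    exact LT.single y
  obtain ⟨r, hrE, hrr, hyr⟩ := hr
  set F : Set V := {e | e ∈ E ∧ ρ e = r} with hF
  set s : Finset V := (Set.toFinite F).toFinset with hs
  have hms : ∀ e, e ∈ s ↔ e ∈ E ∧ ρ e = r := by
    intro e
    rw [hs, Set.Finite.mem_toFinset, hF]
    exact Iff.rfl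
  have hH : Hst E u v ρ y = ⋃ e ∈ s, Br u v r e := by
    ext z
    simp only [Set.mem_iUnion, exists_prop]
    constructor
    · rintro (h | ⟨r', hr'E, h1, h2, h3⟩)
      · exact ⟨r, (hms r).2 ⟨hrE, hrr⟩, Or.inr (Or.inl (h.trans hyr))⟩
      · have hrr' : r' = r := hES.inju r' hr'E r hrE (h2.symm.trans hyr)
        subst hrr'
        rcases h3 with h3 | ⟨e, heE, h4, h5, h6⟩
        · exact ⟨r', (hms r').2 ⟨hrE, hrr⟩, Or.inl h3⟩
        · refine ⟨e, (hms e).2 ⟨heE, h4⟩, ?_⟩
          rcases h6 with h6 | h6 | h6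
          · exact Or.inl h6
          · exact Or.inr (Or.inl h6)
          · exact Or.inr (Or.inr ⟨h5, h6⟩)
    · rintro ⟨e, he, h⟩
      obtain ⟨heE, her⟩ := (hms e).1 he
      by_cases h5 : e = r
      · subst h5
        rcases h with h | h | ⟨h, _⟩
        · exact Or.inr ⟨e, heE, hrr, hyr, Or.inl h⟩
        · exact Or.inl (h.trans hyr.symm)
        · exact absurd rfl h
      · refine Or.inr ⟨r, hrE, hrr, hyr, Or.inr ⟨e, heE, her, h5, ?_⟩⟩
        rcases h with h | h | ⟨_, h⟩
        · exact Or.inl h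
        · exact Or.inr (Or.inl h)
        · exact Or.inr (Or.inr h)
  rw [hH]
  refine LT.biUnion s (Br u v r) ?_ ?_ ?_
  · intro i hi j hj hij
    obtain ⟨hiE, _⟩ := (hms i).1 hi
    obtain ⟨hjE, _⟩ := (hms j).1 hj
    rw [Set.disjoint_left]
    intro x hx hx'
    have hx1 : x = i ∨ x = u i ∨ x = v i := by
      rcases hx with h | h | ⟨_, h⟩
      · exact Or.inl h
      · exact Or.inr (Or.inl h)
      · exact Or.inr (Or.inr h)
    have hx2 : x = j ∨ x = u j ∨ x = v j := by
      rcases hx' with h | h | ⟨_, h⟩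
      · exact Or.inl h
      · exact Or.inr (Or.inl h)
      · exact Or.inr (Or.inr h)
    rcases hx1 with h | h | h <;> rcases hx2 with h' | h' | h'
    · exact hij (h.symm.trans h')
    · exact (hES.mu j hjE).2 (h'.symm.trans h ▸ hiE)
    · exact (hES.mv j hjE).2 (h'.symm.trans h ▸ hiE)
    · exact (hES.mu i hiE).2 (h.symm.trans h' ▸ hjE)
    · exact hij (hES.inju i hiE j hjE (h.symm.trans h'))
    · exact hES.dis i hiE j hjE (h.symm.trans h')
    · exact (hES.mv i hiE).2 (h.symm.trans h' ▸ hjE)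
    · exact hES.dis j hjE i hiE (h'.symm.trans h)
    · exact hij (hES.injv i hiE j hjE (h.symm.trans h'))
  · intro e _
    refine RL.small ?_
    have h1 : Br u v r e ⊆ {e, u e, v e} := by
      rintro z (h | h | ⟨_, h⟩)
      · exact Or.inl h
      · exact Or.inr (Or.inl h)
      · exact Or.inr (Or.inr h)
    have h2 : (Br u v r e).ncard ≤ ({e, u e, v e} : Set V).ncard :=
      Set.ncard_le_ncard h1 (Set.toFinite _)
    have h3 : ({e, u e, v e} : Set V).ncard ≤ 3 := by
      have h5 : ({v e} : Set V).ncard = 1 := Set.ncard_singleton _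
      have h6 := Set.ncard_insert_le (u e) {v e}
      have h7 := Set.ncard_insert_le e {u e, v e}
      omega
    omega
  · intro t ht
    set S : Set V := ⋃ e ∈ t, Br u v r e with hS
    have hmemS : ∀ e ∈ t, ∀ z ∈ Br u v r e, z ∈ S := by
      intro e he z hz
      rw [hS]
      simp only [Set.mem_iUnion, exists_prop]
      exact ⟨e, he, hz⟩
    have hTw : ∀ e ∈ t, Tw Gᶜ Y E u v e r := by
      intro e he
      obtain ⟨heE, her⟩ := (hms e).1 (ht he)
      have := hρ.tw e heE
      rwa [her] at this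
    have hsub : Rw G Y S ⊆ {{z | z ∈ Y \ S ∧ ¬ (z ∉ E ∧ Gᶜ.Adj (u r) z)},
        {z | z ∈ Y \ S ∧ ¬ (z ∉ E ∧ Gᶜ.Adj (v r) z)}, Y \ S, (G.neighborSet r ∩ Y) \ S} := by
      rintro T ⟨a, ha, rfl⟩
      rw [hS] at ha
      simp only [Set.mem_iUnion, exists_prop] at ha
      obtain ⟨e, he, hae⟩ := ha
      obtain ⟨heE, her⟩ := (hms e).1 (ht he)
      have heS : e ∈ S := hmemS e he e (Or.inl rfl)
      have hueS : u e ∈ S := hmemS e he (u e) (Or.inr (Or.inl rfl))
      rcases hae with h | h | ⟨hne, h⟩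
      · subst h
        by_cases har : a = r
        · subst har
          exact Or.inr (Or.inr (Or.inr rfl))
        · refine Or.inr (Or.inr (Or.inl ?_))
          have hveS : v a ∈ S := hmemS a he (v a) (Or.inr (Or.inr ⟨har, rfl⟩))
          ext z
          constructor
          · rintro ⟨⟨_, h2⟩, h3⟩
            exact ⟨h2, h3⟩
          · rintro ⟨h2, h3⟩
            refine ⟨⟨?_, h2⟩, h3⟩
            rw [SimpleGraph.mem_neighborSet]
            by_contra h4
            have h5 : a ≠ z := fun h => h3 (h ▸ heS)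
            rcases hES.nbe a heE z h2 ⟨h5, h4⟩ with h6 | h6
            · exact h3 (h6 ▸ hueS)
            · exact h3 (h6 ▸ hveS)
      · subst h
        refine Or.inl ?_
        ext z
        constructor
        · rintro ⟨⟨h1, h2⟩, h3⟩
          refine ⟨⟨h2, h3⟩, ?_⟩
          rintro ⟨h4, h5⟩
          have h6 := ((hTw e he).1 z ⟨h2, h4⟩).2 h5
          exact h6.2 h1
        · rintro ⟨⟨h2, h3⟩, h4⟩
          refine ⟨⟨?_, h2⟩, h3⟩
          rw [SimpleGraph.mem_neighborSet]
          by_contra h5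
          have h6 : u e ≠ z := fun h => h3 (h ▸ hueS)
          have h7 : Gᶜ.Adj (u e) z := ⟨h6, h5⟩
          have h8 : z ∉ E := by
            intro hzE
            rcases hES.nbe z hzE (u e) (hES.mu e heE).1 h7.symm with h9 | h9
            · have := hES.inju e heE z hzE h9
              exact h3 (this ▸ heS)
            · exact hES.dis e heE z hzE h9
          exact h4 ⟨h8, ((hTw e he).1 z ⟨h2, h8⟩).1 h7⟩
      · subst h
        refine Or.inr (Or.inl ?_)
        have hveS : v e ∈ S := hmemS e he (v e) (Or.inr (Or.inr ⟨hne, rfl⟩))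
        ext z
        constructor
        · rintro ⟨⟨h1, h2⟩, h3⟩
          refine ⟨⟨h2, h3⟩, ?_⟩
          rintro ⟨h4, h5⟩
          have h6 := ((hTw e he).2 z ⟨h2, h4⟩).2 h5
          exact h6.2 h1
        · rintro ⟨⟨h2, h3⟩, h4⟩
          refine ⟨⟨?_, h2⟩, h3⟩
          rw [SimpleGraph.mem_neighborSet]
          by_contra h5
          have h6 : v e ≠ z := fun h => h3 (h ▸ hveS)
          have h7 : Gᶜ.Adj (v e) z := ⟨h6, h5⟩
          have h8 : z ∉ E := by
            intro hzE
            rcases hES.nbe z hzE (v e) (hES.mv e heE).1 h7.symm with h9 | h9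
            · exact hES.dis z hzE e heE h9.symm
            · have := hES.injv e heE z hzE h9
              exact h3 (this ▸ heS)
          exact h4 ⟨h8, ((hTw e he).2 z ⟨h2, h8⟩).1 h7⟩
    exact (Set.encard_le_encard hsub).trans (encard4 _ _ _ _)

end Pool.Agent.MPd439b2.BU
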