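import Pool.Agent.Lib.MP_d439b2_co.BU.Spec

/-!
# MP_d439b2_co, BU: the number of crossing classes (task E3)
-/

set_option autoImplicit false

namespace Pool.Agent.MPd439b2.BU

open Pool.Agent.MPd439b2

namespace E3Aux

variable {V : Type}

theorem flipES {D : SimpleGraph V} {Y E : Set V} {u v : V → V} (hS : ES D Y E u v) :
    ES D Y E v u where
  sub := hS.sub
  mu := hS.mv
  mv := hS.mu
  eu := hS.ev
  ev := hS.eu
  uv := fun e he => (hS.uv e he).symm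
  nbe := fun e he y hy h => (hS.nbe e he y hy h).symm
  bis := fun e he a ha h hne b hb h' hne' =>
    (hS.bis e he b hb h' hne' a ha h hne).symm
  inju := hS.injv
  injv := hS.inju
  dis := fun e he f hf h => hS.dis f hf e he h.symm

theorem flipTw {D : SimpleGraph V} {Y E : Set V} {u v : V → V} {e f : V} (h : Tw D Y E u v e f) :
    Tw D Y E v u e f := ⟨h.2, h.1⟩

theorem flipRep {D : SimpleGraph V} {Y E : Set V} {u v ρ : V → V} (h : Rep D Y E u v ρ) :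
    Rep D Y E v u ρ where
  mem := h.mem
  tw := fun e he => flipTw (h.tw e he)
  eq := fun e he f hf hh => h.eq e he f hf (flipTw hh)

theorem flipY1 {Y E : Set V} {u v ρ : V → V} : Y1 Y E v u ρ = Y1 Y E u v ρ := by
  ext z
  simp only [Y1, Set.mem_sdiff, Set.mem_setOf_eq]
  constructor
  · rintro ⟨h1, h2⟩
    exact ⟨h1, fun ⟨e, he, hne, h⟩ => h2 ⟨e, he, hne, h.symm⟩⟩
  · rintro ⟨h1, h2⟩
    exact ⟨h1, fun ⟨e, he, hne, h⟩ => h2 ⟨e, he, hne, h.symm⟩⟩

theorem mem_v {D : SimpleGraph V} {Y E : Set V} {u v ρ : V → V} (hS : ES D Y E u v) {r : V}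
    (hr : r ∈ E) (hρ : ρ r = r) : v r ∈ Y1 Y E u v ρ := by
  refine ⟨hS.mv r hr, ?_⟩
  rintro ⟨e, he, hne, h | h⟩
  · exact hS.dis e he r hr h.symm
  · have := hS.injv r hr e he h
    subst this
    exact hne hρ

theorem half (h1 : S_E1) {G : SimpleGraph V} {Y E A : Set V} {u v ρ : V → V} {k : ℕ}
    (hS : ES Gᶜ Y E u v) (hR : Rep Gᶜ Y E u v ρ)
    (hk : (Rw G (Y1 Y E u v ρ) A).encard ≤ k) :
    {r | r ∈ E ∧ ρ r = r ∧ u r ∈ A ∧ v r ∉ A}.encard ≤ k := by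
  refine le_trans ?_ hk
  refine Set.encard_le_encard_of_injOn (f := fun r => (G.neighborSet (u r) ∩ Y1 Y E u v ρ) \ A) ?_ ?_
  · rintro r ⟨_, _, hu, _⟩
    exact ⟨u r, hu, rfl⟩
  · rintro r ⟨hr, hρr, hur, hvr⟩ s ⟨hs, hρs, hus, hvs⟩ h
    have htw := h1 V G Y E A (Y1 Y E u v ρ) u v hS r hr s hs hur hus (mem_v hS hr hρr)
      (mem_v hS hs hρs) hvr hvs h
    have := hR.eq r hr s hs htw
    rw [hρr, hρs] at this
    exact this

end E3Aux

theorem e3 (h1 : S_E1) : S_E3 := by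
  intro V _ G Y E A u v ρ k hS hR _ hk
  refine ⟨E3Aux.half h1 hS hR hk, ?_⟩
  refine E3Aux.half h1 (E3Aux.flipES hS) (E3Aux.flipRep hR) ?_
  rw [E3Aux.flipY1]
  exact hk

end Pool.Agent.MPd439b2.BU
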