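import Pool.Agent.Lib.MP_d439b2_co.BU.Spec

/-!
# MP_d439b2_co, BU, E4: the number of rows of the expanded sets
-/

set_option autoImplicit false

namespace Pool.Agent.MPd439b2.BU

open Pool.Agent.MPd439b2

namespace E4Aux

variable {V : Type} {G D : SimpleGraph V} {Y E A : Set V} {u v ρ : V → V}

/-- the union of the hanging sets -/
def HA (E A : Set V) (u v ρ : V → V) : Set V := ⋃ y ∈ A, Hst E u v ρ y

theorem mem_HA {x : V} : x ∈ HA E A u v ρ ↔ ∃ y ∈ A, x ∈ Hst E u v ρ y := by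
  unfold HA
  rw [Set.mem_iUnion₂]
  simp only [exists_prop]

theorem rr (hR : Rep D Y E u v ρ) {e : V} (he : e ∈ E) : ρ (ρ e) = ρ e :=
  (hR.eq e he (ρ e) (hR.mem e he) (hR.tw e he)).symm

theorem uZ (hE : ES D Y E u v) {r : V} (hr : r ∈ E) (hrr : ρ r = r) : u r ∈ Y1 Y E u v ρ := by
  refine ⟨hE.mu r hr, ?_⟩
  rintro ⟨e, he, hne, h | h⟩
  · have := hE.inju r hr e he h
    subst this
    exact hne hrr
  · exact hE.dis r hr e he h

theorem vZ (hE : ES D Y E u v) {r : V} (hr : r ∈ E) (hrr : ρ r = r) : v r ∈ Y1 Y E u v ρ := by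
  refine ⟨hE.mv r hr, ?_⟩
  rintro ⟨e, he, hne, h | h⟩
  · exact hE.dis e he r hr h.symm
  · have := hE.injv r hr e he h
    subst this
    exact hne hrr

theorem F2 (hA : A ⊆ Y1 Y E u v ρ) {z : V} (hz : z ∈ Y1 Y E u v ρ) :
    z ∈ HA E A u v ρ ↔ z ∈ A := by
  constructor
  · intro h
    obtain ⟨y, hy, h | ⟨r, hr, hrr, hyr, h | ⟨e, he, her, hne, h | h | h⟩⟩⟩ := mem_HA.1 h
    · rw [h]; exact hy
    · exact absurd (h ▸ hr) hz.1.2
    · exact absurd (h ▸ he) hz.1.2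
    · exact absurd ⟨e, he, fun h' => hne (h'.symm.trans her), Or.inl h⟩ hz.2
    · exact absurd ⟨e, he, fun h' => hne (h'.symm.trans her), Or.inr h⟩ hz.2
  · intro h
    exact mem_HA.2 ⟨z, h, Or.inl rfl⟩

theorem F3 (hE : ES D Y E u v) (hR : Rep D Y E u v ρ) (hA : A ⊆ Y1 Y E u v ρ) {e : V}
    (he : e ∈ E) : e ∈ HA E A u v ρ ↔ u (ρ e) ∈ A := by
  constructor
  · intro h
    obtain ⟨y, hy, h | ⟨r, hr, hrr, hyr, h | ⟨e', he', her, hne, h | h | h⟩⟩⟩ := mem_HA.1 h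
    · exact absurd (h ▸ he) (hA hy).1.2
    · rw [h, hrr, ← hyr]; exact hy
    · rw [h, her, ← hyr]; exact hy
    · exact absurd (h ▸ he) (hE.mu e' he').2
    · exact absurd (h ▸ he) (hE.mv e' he').2
  · intro h
    refine mem_HA.2 ⟨u (ρ e), h, Or.inr ⟨ρ e, hR.mem e he, rr hR he, rfl, ?_⟩⟩
    by_cases hre : e = ρ e
    · exact Or.inl hre
    · exact Or.inr ⟨e, he, rfl, hre, Or.inl rfl⟩

theorem F4u (hE : ES D Y E u v) (hR : Rep D Y E u v ρ) (hA : A ⊆ Y1 Y E u v ρ) {e : V}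
    (he : e ∈ E) (hne : ρ e ≠ e) : u e ∈ HA E A u v ρ ↔ u (ρ e) ∈ A := by
  constructor
  · intro h
    obtain ⟨y, hy, h | ⟨r, hr, hrr, hyr, h | ⟨e', he', her, hne', h | h | h⟩⟩⟩ := mem_HA.1 h
    · exact absurd ⟨e, he, hne, Or.inl h.symm⟩ (hA hy).2
    · exact absurd (h ▸ hr) (hE.mu e he).2
    · exact absurd (h ▸ he') (hE.mu e he).2
    · have h5 := hE.inju e he e' he' h
      rw [h5, her, ← hyr]; exact hy
    · exact absurd h (hE.dis e he e' he')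
  · intro h
    exact mem_HA.2 ⟨u (ρ e), h, Or.inr ⟨ρ e, hR.mem e he, rr hR he, rfl,
      Or.inr ⟨e, he, rfl, hne.symm, Or.inr (Or.inl rfl)⟩⟩⟩

theorem F4v (hE : ES D Y E u v) (hR : Rep D Y E u v ρ) (hA : A ⊆ Y1 Y E u v ρ) {e : V}
    (he : e ∈ E) (hne : ρ e ≠ e) : v e ∈ HA E A u v ρ ↔ u (ρ e) ∈ A := by
  constructor
  · intro h
    obtain ⟨y, hy, h | ⟨r, hr, hrr, hyr, h | ⟨e', he', her, hne', h | h | h⟩⟩⟩ := mem_HA.1 h
    · exact absurd ⟨e, he, hne, Or.inr h.symm⟩ (hA hy).2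
    · exact absurd (h ▸ hr) (hE.mv e he).2
    · exact absurd (h ▸ he') (hE.mv e he).2
    · exact absurd h.symm (hE.dis e' he' e he)
    · have h5 := hE.injv e he e' he' h
      rw [h5, her, ← hyr]; exact hy
  · intro h
    exact mem_HA.2 ⟨u (ρ e), h, Or.inr ⟨ρ e, hR.mem e he, rr hR he, rfl,
      Or.inr ⟨e, he, rfl, hne.symm, Or.inr (Or.inr rfl)⟩⟩⟩

theorem HA_sub (hE : ES D Y E u v) (hA : A ⊆ Y1 Y E u v ρ) : HA E A u v ρ ⊆ Y := by
  intro x h
  obtain ⟨y, hy, h | ⟨r, hr, hrr, hyr, h | ⟨e, he, her, hne, h | h | h⟩⟩⟩ := mem_HA.1 h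
  · rw [h]; exact (hA hy).1.1
  · rw [h]; exact hE.sub hr
  · rw [h]; exact hE.sub he
  · rw [h]; exact (hE.mu e he).1
  · rw [h]; exact (hE.mv e he).1

theorem cadj {a b : V} (h : a ≠ b) : Gᶜ.Adj a b ↔ ¬ G.Adj a b := by
  rw [SimpleGraph.compl_adj]
  exact ⟨fun h' => h'.2, fun h' => ⟨h, h'⟩⟩

/-- equal neighbourhoods in the complement -/
theorem adj_tr {x p p' : V} (h1 : x ≠ p) (h2 : x ≠ p') (h : Gᶜ.Adj p x ↔ Gᶜ.Adj p' x) :
    G.Adj p x ↔ G.Adj p' x := by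
  rw [cadj h1.symm, cadj h2.symm] at h
  exact not_iff_not.1 h

theorem adjE (hE : ES Gᶜ Y E u v) {x y : V} (hy : y ∈ E) (hx : x ∈ Y) (hxy : x ≠ y) :
    G.Adj x y ↔ ¬ (x = u y ∨ x = v y) := by
  constructor
  · rintro h (h' | h')
    · have := hE.eu y hy
      rw [← h'] at this
      exact this.2 h.symm
    · have := hE.ev y hy
      rw [← h'] at this
      exact this.2 h.symm
  · intro h
    by_contra hn
    exact h (hE.nbe y hy x hx ⟨hxy.symm, fun h' => hn h'.symm⟩)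

/-- the classes which cross `A` the other way -/
def C2 (E A : Set V) (u v ρ : V → V) : Set V := {r | r ∈ E ∧ ρ r = r ∧ v r ∈ A ∧ u r ∉ A}

/-- the classes which cross `A` -/
def C1 (E A : Set V) (u v ρ : V → V) : Set V := {r | r ∈ E ∧ ρ r = r ∧ u r ∈ A ∧ v r ∉ A}

/-- the rows of the vertices outside of `E` are determined by few data -/
theorem det (hE : ES Gᶜ Y E u v) (hR : Rep Gᶜ Y E u v ρ) (hA : A ⊆ Y1 Y E u v ρ) {a b : V}
    (ha : a ∈ HA E A u v ρ) (haE : a ∉ E) (hb : b ∈ HA E A u v ρ) (hbE : b ∉ E)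
    (H1 : ∀ z ∈ Y1 Y E u v ρ, z ∉ A → (G.Adj a z ↔ G.Adj b z))
    (H2 : ∀ r ∈ C2 E A u v ρ, (G.Adj a r ↔ G.Adj b r) ∧ (G.Adj a (v r) ↔ G.Adj b (v r)))
    {y : V} (hy : y ∈ Y) (hyA : y ∉ HA E A u v ρ) : G.Adj a y ↔ G.Adj b y := by
  have haY := HA_sub hE hA ha
  have hbY := HA_sub hE hA hb
  have hne : ∀ {x z : V}, x ∈ HA E A u v ρ → z ∉ HA E A u v ρ → x ≠ z := fun hx hz h => hz (h ▸ hx)
  by_cases hyE : y ∈ E
  · have h3 : u (ρ y) ∉ A := fun h => hyA ((F3 hE hR hA hyE).2 h)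
    have full : u y ∉ HA E A u v ρ → v y ∉ HA E A u v ρ → (G.Adj a y ↔ G.Adj b y) := by
      intro hu hv
      rw [adjE hE hyE haY (hne ha hyA), adjE hE hyE hbY (hne hb hyA)]
      refine iff_of_true ?_ ?_
      · rintro (h | h)
        · exact hne ha hu h
        · exact hne ha hv h
      · rintro (h | h)
        · exact hne hb hu h
        · exact hne hb hv h
    by_cases hρ : ρ y = y
    · rw [hρ] at h3
      have hu : u y ∉ HA E A u v ρ := fun h => h3 ((F2 hA (uZ hE hyE hρ)).1 h)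
      by_cases hv : v y ∈ A
      · exact (H2 y ⟨hyE, hρ, hv, h3⟩).1
      · exact full hu fun h => hv ((F2 hA (vZ hE hyE hρ)).1 h)
    · exact full (fun h => h3 ((F4u hE hR hA hyE hρ).1 h)) fun h => h3 ((F4v hE hR hA hyE hρ).1 h)
  · by_cases hz : y ∈ Y1 Y E u v ρ
    · exact H1 y hz fun h => hyA ((F2 hA hz).2 h)
    · have h4 : ∃ e ∈ E, ρ e ≠ e ∧ (y = u e ∨ y = v e) := by
        by_contra hcon
        exact hz ⟨⟨hy, hyE⟩, hcon⟩
      obtain ⟨e, he, hρ, hye | hye⟩ := h4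
      · subst hye
        have h5 : u (ρ e) ∉ A := fun h => hyA ((F4u hE hR hA he hρ).2 h)
        have hZ := uZ (ρ := ρ) hE (hR.mem e he) (rr hR he)
        have h6 : u (ρ e) ∉ HA E A u v ρ := fun h => h5 ((F2 hA hZ).1 h)
        have e1 := adj_tr (hne ha hyA) (hne ha h6) ((hR.tw e he).1 a ⟨haY, haE⟩)
        have e2 := adj_tr (hne hb hyA) (hne hb h6) ((hR.tw e he).1 b ⟨hbY, hbE⟩)
        rw [G.adj_comm a, G.adj_comm b, e1, e2, G.adj_comm _ a, G.adj_comm _ b]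
        exact H1 _ hZ h5
      · subst hye
        have h5 : u (ρ e) ∉ A := fun h => hyA ((F4v hE hR hA he hρ).2 h)
        have hZ := vZ (ρ := ρ) hE (hR.mem e he) (rr hR he)
        by_cases hv : v (ρ e) ∈ A
        · have hC : ρ e ∈ C2 E A u v ρ := ⟨hR.mem e he, rr hR he, hv, h5⟩
          have hZu := uZ (ρ := ρ) hE (hR.mem e he) (rr hR he)
          have h6 : u (ρ e) ∉ HA E A u v ρ := fun h => h5 ((F2 hA hZu).1 h)
          have key : ∀ x ∈ HA E A u v ρ, x ∉ E →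
              (G.Adj x (v e) ↔ (¬ G.Adj x (ρ e) ∨ G.Adj x (v (ρ e)))) := by
            intro x hx hxE
            have hxY := HA_sub hE hA hx
            have t := (hR.tw e he).2 x ⟨hxY, hxE⟩
            have hxr : x ≠ ρ e := fun h => hxE (h ▸ hR.mem e he)
            have hxu : x ≠ u (ρ e) := hne hx h6
            have hxv : x ≠ v e := hne hx hyA
            have r1 := adjE hE (hR.mem e he) hxY hxr
            rw [cadj hxv.symm] at t
            by_cases hxv' : x = v (ρ e)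
            · have r2 : ¬ G.Adj x (ρ e) := fun h => (r1.1 h) (Or.inr hxv')
              have r3 : ¬ Gᶜ.Adj (v (ρ e)) x := by
                rw [← hxv']
                exact Gᶜ.loopless.irrefl x
              have r4 : ¬ ¬ G.Adj (v e) x := fun h => r3 (t.1 h)
              exact iff_of_true (not_not.1 r4).symm (Or.inl r2)
            · rw [cadj (Ne.symm hxv')] at t
              have r2 : G.Adj x (ρ e) := r1.2 (by
                rintro (h | h)
                · exact hxu h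
                · exact hxv' h)
              rw [G.adj_comm x (v e), G.adj_comm x (v (ρ e)), not_iff_not.1 t]
              exact ⟨fun h => Or.inr h, fun h => h.resolve_left (not_not.2 r2)⟩
          rw [key a ha haE, key b hb hbE, (H2 _ hC).1, (H2 _ hC).2]
        · have h6 : v (ρ e) ∉ HA E A u v ρ := fun h => hv ((F2 hA hZ).1 h)
          have e1 := adj_tr (hne ha hyA) (hne ha h6) ((hR.tw e he).2 a ⟨haY, haE⟩)
          have e2 := adj_tr (hne hb hyA) (hne hb h6) ((hR.tw e he).2 b ⟨hbY, hbE⟩)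
          rw [G.adj_comm a, G.adj_comm b, e1, e2, G.adj_comm _ a, G.adj_comm _ b]
          exact H1 _ hZ hv

/-- the first sets -/
theorem first (hE : ES Gᶜ Y E u v) (hR : Rep Gᶜ Y E u v ρ) (hA : A ⊆ Y1 Y E u v ρ) {a : V}
    (ha : a ∈ HA E A u v ρ) (haE : a ∉ E) :
    (G.neighborSet a ∩ Y1 Y E u v ρ) \ A ∈ Rw G (Y1 Y E u v ρ) A ∪
      (fun r => {y | y ∈ Y1 Y E u v ρ ∧ y ∉ A ∧ ¬ Gᶜ.Adj (v r) y}) '' C1 E A u v ρ := by
  obtain ⟨y, hy, h | ⟨r, hr, hrr, hyr, h | ⟨e, he, her, hne, h | h | h⟩⟩⟩ := mem_HA.1 ha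
  · exact Or.inl ⟨a, h ▸ hy, rfl⟩
  · exact absurd (h ▸ hr) haE
  · exact absurd (h ▸ he) haE
  · left
    have hρ : ρ e ≠ e := fun h' => hne (h'.symm.trans her)
    refine ⟨u r, hyr ▸ hy, ?_⟩
    ext z
    have key : z ∈ Y1 Y E u v ρ → z ∉ A → (G.Adj a z ↔ G.Adj (u r) z) := by
      intro hz hzA
      rw [h]
      refine adj_tr ?_ ?_ (her ▸ (hR.tw e he).1 z hz.1)
      · intro h'
        exact hz.2 ⟨e, he, hρ, Or.inl h'⟩
      · intro h'
        exact hzA (h' ▸ hyr ▸ hy)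
    constructor
    · rintro ⟨⟨h1, h2⟩, h3⟩
      exact ⟨⟨(key h2 h3).1 h1, h2⟩, h3⟩
    · rintro ⟨⟨h1, h2⟩, h3⟩
      exact ⟨⟨(key h2 h3).2 h1, h2⟩, h3⟩
  · have hρ : ρ e ≠ e := fun h' => hne (h'.symm.trans her)
    by_cases hv : v r ∈ A
    · left
      refine ⟨v r, hv, ?_⟩
      ext z
      have key : z ∈ Y1 Y E u v ρ → z ∉ A → (G.Adj a z ↔ G.Adj (v r) z) := by
        intro hz hzA
        rw [h]
        refine adj_tr ?_ ?_ (her ▸ (hR.tw e he).2 z hz.1)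
        · intro h'
          exact hz.2 ⟨e, he, hρ, Or.inr h'⟩
        · intro h'
          exact hzA (h' ▸ hv)
      constructor
      · rintro ⟨⟨h1, h2⟩, h3⟩
        exact ⟨⟨(key h2 h3).1 h1, h2⟩, h3⟩
      · rintro ⟨⟨h1, h2⟩, h3⟩
        exact ⟨⟨(key h2 h3).2 h1, h2⟩, h3⟩
    · right
      refine ⟨r, ⟨hr, hrr, hyr ▸ hy, hv⟩, ?_⟩
      ext z
      have key : z ∈ Y1 Y E u v ρ → (G.Adj a z ↔ ¬ Gᶜ.Adj (v r) z) := by
        intro hz
        have h1 : z ≠ v e := fun h' => hz.2 ⟨e, he, hρ, Or.inr h'⟩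
        have h2 : Gᶜ.Adj (v e) z ↔ Gᶜ.Adj (v r) z := her ▸ (hR.tw e he).2 z hz.1
        rw [h, ← h2, cadj h1.symm, not_not]
      constructor
      · rintro ⟨h2, h3, h1⟩
        exact ⟨⟨(key h2).2 h1, h2⟩, h3⟩
      · rintro ⟨⟨h1, h2⟩, h3⟩
        exact ⟨h2, h3, (key h2).1 h1⟩

/-- the rows of the vertices of `E` -/
theorem rowE (hE : ES Gᶜ Y E u v) (hR : Rep Gᶜ Y E u v ρ) (hA : A ⊆ Y1 Y E u v ρ) {a : V}
    (ha : a ∈ HA E A u v ρ) (haE : a ∈ E) :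
    (G.neighborSet a ∩ Y) \ HA E A u v ρ = Y \ HA E A u v ρ ∨ a ∈ C1 E A u v ρ := by
  have h3 := (F3 hE hR hA haE).1 ha
  have full : u a ∈ HA E A u v ρ → v a ∈ HA E A u v ρ →
      (G.neighborSet a ∩ Y) \ HA E A u v ρ = Y \ HA E A u v ρ := by
    intro hu hv
    ext y
    constructor
    · rintro ⟨⟨-, h1⟩, h2⟩
      exact ⟨h1, h2⟩
    · rintro ⟨h1, h2⟩
      refine ⟨⟨?_, h1⟩, h2⟩
      have hya : y ≠ a := fun h => h2 (h ▸ ha)
      refine ((adjE hE haE h1 hya).2 ?_).symm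
      rintro (h | h)
      · exact h2 (h ▸ hu)
      · exact h2 (h ▸ hv)
  by_cases hρ : ρ a = a
  · rw [hρ] at h3
    by_cases hv : v a ∈ A
    · exact Or.inl (full ((F2 hA (uZ hE haE hρ)).2 h3) ((F2 hA (vZ hE haE hρ)).2 hv))
    · exact Or.inr ⟨haE, hρ, h3, hv⟩
  · exact Or.inl (full ((F4u hE hR hA haE hρ).2 h3) ((F4v hE hR hA haE hρ).2 h3))

/-- a map which factors through another one -/
theorem factor {W W' : Type} [Finite W'] (S : Set V) (f : V → Set W) (κ : V → W')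
    (h : ∀ a ∈ S, ∀ b ∈ S, κ a = κ b → f a = f b) : (f '' S).ncard ≤ (κ '' S).ncard := by
  classical
  have h1 : f '' S ⊆ (fun t => if h : ∃ a ∈ S, κ a = t then f h.choose else ∅) '' (κ '' S) := by
    rintro _ ⟨a, ha, rfl⟩
    refine ⟨κ a, ⟨a, ha, rfl⟩, ?_⟩
    have h2 : ∃ b ∈ S, κ b = κ a := ⟨a, ha, rfl⟩
    show (if h : ∃ b ∈ S, κ b = κ a then f h.choose else ∅) = f a
    rw [dif_pos h2]
    exact h _ h2.choose_spec.1 _ ha h2.choose_spec.2
  exact (Set.ncard_le_ncard h1 ((Set.toFinite _).image _)).trans (Set.ncard_image_le (Set.toFinite _))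

theorem le_of_encard {W : Type} {s : Set W} [Finite W] {k : ℕ} (h : s.encard ≤ k) :
    s.ncard ≤ k := by
  rw [← (Set.toFinite s).cast_ncard_eq] at h
  exact_mod_cast h

end E4Aux

open E4Aux in
theorem e4 (h3 : S_E3) : S_E4 := by
  intro V _ G Y E A u v ρ k hE hR hA hk
  obtain ⟨hC1, hC2⟩ := h3 V G Y E A u v ρ k hE hR hA hk
  have hC1' : (C1 E A u v ρ).ncard ≤ k := le_of_encard hC1
  have hC2' : (C2 E A u v ρ).ncard ≤ k := le_of_encard hC2
  have hk' : (Rw G (Y1 Y E u v ρ) A).ncard ≤ k := le_of_encard hk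
  set Z := Y1 Y E u v ρ with hZ
  set H := HA E A u v ρ with hH
  set S₂ : Set V := v '' C2 E A u v ρ ∪ C2 E A u v ρ with hS₂
  set f : V → Set V := fun a => (G.neighborSet a ∩ Y) \ H with hf
  set κ : V → Set V × Set V := fun a => ((G.neighborSet a ∩ Z) \ A, G.neighborSet a ∩ S₂) with hκ
  -- the two kinds of rows
  have hsplit : Rw G Y H ⊆ f '' (H \ E) ∪ insert (Y \ H) (f '' C1 E A u v ρ) := by
    rintro T ⟨a, ha, rfl⟩
    by_cases haE : a ∈ E
    · right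
      rcases rowE hE hR hA ha haE with h | h
      · exact Or.inl h
      · exact Or.inr ⟨a, h, rfl⟩
    · exact Or.inl ⟨a, ⟨ha, haE⟩, rfl⟩
  have h1 : (f '' (H \ E)).ncard ≤ (κ '' (H \ E)).ncard := by
    refine factor (H \ E) f κ ?_
    rintro a ⟨ha, haE⟩ b ⟨hb, hbE⟩ hab
    have e1 : (G.neighborSet a ∩ Z) \ A = (G.neighborSet b ∩ Z) \ A := congrArg Prod.fst hab
    have e2 : G.neighborSet a ∩ S₂ = G.neighborSet b ∩ S₂ := congrArg Prod.snd hab
    have H1 : ∀ z ∈ Z, z ∉ A → (G.Adj a z ↔ G.Adj b z) := by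
      intro z hz hzA
      have := Set.ext_iff.1 e1 z
      simp only [Set.mem_sdiff, Set.mem_inter_iff, hz, hzA, and_true, not_false_eq_true,
        SimpleGraph.mem_neighborSet] at this
      exact this
    have H2' : ∀ s ∈ S₂, (G.Adj a s ↔ G.Adj b s) := by
      intro s hs
      have := Set.ext_iff.1 e2 s
      simp only [Set.mem_inter_iff, hs, and_true, SimpleGraph.mem_neighborSet] at this
      exact this
    have H2 : ∀ r ∈ C2 E A u v ρ, (G.Adj a r ↔ G.Adj b r) ∧ (G.Adj a (v r) ↔ G.Adj b (v r)) :=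
      fun r hr => ⟨H2' r (Or.inr hr), H2' (v r) (Or.inl ⟨r, hr, rfl⟩)⟩
    show (G.neighborSet a ∩ Y) \ H = (G.neighborSet b ∩ Y) \ H
    ext y
    constructor
    · rintro ⟨⟨q1, q2⟩, q3⟩
      exact ⟨⟨(det hE hR hA ha haE hb hbE H1 H2 q2 q3).1 q1, q2⟩, q3⟩
    · rintro ⟨⟨q1, q2⟩, q3⟩
      exact ⟨⟨(det hE hR hA ha haE hb hbE H1 H2 q2 q3).2 q1, q2⟩, q3⟩
  set FS : Set (Set V) := Rw G Z A ∪
      (fun r => {y | y ∈ Z ∧ y ∉ A ∧ ¬ Gᶜ.Adj (v r) y}) '' C1 E A u v ρ with hFS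
  have h2 : κ '' (H \ E) ⊆ FS ×ˢ (𝒫 S₂) := by
    rintro _ ⟨a, ⟨ha, haE⟩, rfl⟩
    exact ⟨first hE hR hA ha haE, Set.inter_subset_right⟩
  have h4 : FS.ncard ≤ 2 * k := by
    refine (Set.ncard_union_le _ _).trans ?_
    have := Set.ncard_image_le (f := fun r => {y | y ∈ Z ∧ y ∉ A ∧ ¬ Gᶜ.Adj (v r) y})
      (Set.toFinite (C1 E A u v ρ))
    omega
  have h5 : S₂.ncard ≤ 2 * k := by
    refine (Set.ncard_union_le _ _).trans ?_
    have := Set.ncard_image_le (f := v) (Set.toFinite (C2 E A u v ρ))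
    omega
  have h6 : (κ '' (H \ E)).ncard ≤ 2 * k * 4 ^ k := by
    refine (Set.ncard_le_ncard h2 (Set.toFinite _)).trans ?_
    rw [Set.ncard_prod, Set.ncard_powerset]
    have : 2 ^ S₂.ncard ≤ 4 ^ k := by
      calc 2 ^ S₂.ncard ≤ 2 ^ (2 * k) := Nat.pow_le_pow_right (by norm_num) h5
        _ = 4 ^ k := by rw [pow_mul]; norm_num
    exact Nat.mul_le_mul h4 this
  have h7 : (insert (Y \ H) (f '' C1 E A u v ρ)).ncard ≤ k + 1 := by
    refine (Set.ncard_insert_le _ _).trans ?_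
    have := Set.ncard_image_le (f := f) (Set.toFinite (C1 E A u v ρ))
    omega
  have h8 : (Rw G Y H).ncard ≤ (3 * k + 1) * 4 ^ k := by
    refine (Set.ncard_le_ncard hsplit (Set.toFinite _)).trans ((Set.ncard_union_le _ _).trans ?_)
    have h9 : k + 1 ≤ (k + 1) * 4 ^ k := Nat.le_mul_of_pos_right _ (by positivity)
    calc (f '' (H \ E)).ncard + (insert (Y \ H) (f '' C1 E A u v ρ)).ncard
        ≤ 2 * k * 4 ^ k + (k + 1) * 4 ^ k := by omega
      _ = (3 * k + 1) * 4 ^ k := by ring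
  show (Rw G Y H).encard ≤ _
  rw [← (Set.toFinite (Rw G Y H)).cast_ncard_eq]
  exact_mod_cast h8

end Pool.Agent.MPd439b2.BU
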