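import Pool.Agent.Lib.MP_d439b2_co.BU.Spec

/-!
# MP_d439b2_co, BU: E5, layouts with ears
-/

set_option autoImplicit false

namespace Pool.Agent.MPd439b2.BU

open Pool.Agent.MPd439b2

namespace E5

variable {V : Type}

private theorem some_eq (s t : Set V) (hs : s.Nonempty) (ht : t.Nonempty) (h : s = t) :
    hs.some = ht.some := by
  subst h
  rfl

private theorem tw_refl (D : SimpleGraph V) (Y E : Set V) (u v : V → V) (e : V) :
    Tw D Y E u v e e := ⟨fun _ _ => Iff.rfl, fun _ _ => Iff.rfl⟩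

private theorem tw_symm {D : SimpleGraph V} {Y E : Set V} {u v : V → V} {e f : V}
    (h : Tw D Y E u v e f) : Tw D Y E u v f e :=
  ⟨fun y hy => (h.1 y hy).symm, fun y hy => (h.2 y hy).symm⟩

private theorem tw_trans {D : SimpleGraph V} {Y E : Set V} {u v : V → V} {e f g : V}
    (h : Tw D Y E u v e f) (h' : Tw D Y E u v f g) : Tw D Y E u v e g :=
  ⟨fun y hy => (h.1 y hy).trans (h'.1 y hy), fun y hy => (h.2 y hy).trans (h'.2 y hy)⟩

private theorem exists_rep (D : SimpleGraph V) (Y E : Set V) (u v : V → V) :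
    ∃ ρ, Rep D Y E u v ρ := by
  classical
  have hne : ∀ e ∈ E, {f | f ∈ E ∧ Tw D Y E u v e f}.Nonempty :=
    fun e he => ⟨e, he, tw_refl D Y E u v e⟩
  obtain ⟨ρ, hρ⟩ : ∃ ρ : V → V, ∀ e (he : e ∈ E), ρ e = (hne e he).some :=
    ⟨fun e => if h : {f | f ∈ E ∧ Tw D Y E u v e f}.Nonempty then h.some else e,
      fun e he => dif_pos (hne e he)⟩
  refine ⟨ρ, ?_, ?_, ?_⟩
  · intro e he
    rw [hρ e he]
    exact (hne e he).some_mem.1
  · intro e he
    rw [hρ e he]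
    exact (hne e he).some_mem.2
  · intro e he f hf hef
    rw [hρ e he, hρ f hf]
    apply some_eq
    ext g
    constructor
    · rintro ⟨hg, h⟩
      exact ⟨hg, tw_trans (tw_symm hef) h⟩
    · rintro ⟨hg, h⟩
      exact ⟨hg, tw_trans hef h⟩

end E5

theorem e5 (h2 : S_E2) (h4 : S_E4) : S_E5 := by
  intro V _ G Y E u v k hES hRL
  obtain ⟨ρ, hρ⟩ := E5.exists_rep Gᶜ Y E u v
  have hZ : Y1 Y E u v ρ ⊆ Y \ E := Set.sdiff_subset
  have hk : RL G (Y1 Y E u v ρ) k (Y1 Y E u v ρ) := RL.restrict hZ hRL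
  have hρρ : ∀ e ∈ E, ρ (ρ e) = ρ e := fun e he =>
    (hρ.eq e he (ρ e) (hρ.mem e he) (hρ.tw e he)).symm
  have huZ : ∀ r ∈ E, ρ r = r → u r ∈ Y1 Y E u v ρ := by
    intro r hr hρr
    refine ⟨hES.mu r hr, ?_⟩
    rintro ⟨e, he, hne, h | h⟩
    · have h5 := hES.inju r hr e he h
      rw [← h5] at hne
      exact hne hρr
    · exact hES.dis r hr e he h
  -- where an element hangs
  have hcase : ∀ y ∈ Y1 Y E u v ρ, ∀ z ∈ Hst E u v ρ y, (z = y) ∨ (z ∈ E ∧ y = u (ρ z)) ∨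
      ∃ e ∈ E, ρ e ≠ e ∧ (z = u e ∨ z = v e) ∧ y = u (ρ e) := by
    rintro y hy z (h | ⟨r, hr, hρr, hyr, h | ⟨e, he, hρe, hne, h⟩⟩)
    · exact Or.inl h
    · refine Or.inr (Or.inl ⟨h ▸ hr, ?_⟩)
      rw [h, hρr]
      exact hyr
    · rcases h with h | h
      · refine Or.inr (Or.inl ⟨h ▸ he, ?_⟩)
        rw [h, hρe]
        exact hyr
      · refine Or.inr (Or.inr ⟨e, he, ?_, h, ?_⟩)
        · rw [hρe]
          exact hne.symm
        · rw [hρe]
          exact hyr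
  have huv : ∀ e ∈ E, ∀ z, (z = u e ∨ z = v e) → z ∈ Y \ E := by
    rintro e he z (rfl | rfl)
    · exact hES.mu e he
    · exact hES.mv e he
  have hsame : ∀ e ∈ E, ∀ f ∈ E, ∀ z, (z = u e ∨ z = v e) → (z = u f ∨ z = v f) → e = f := by
    rintro e he f hf z (h | h) (h' | h')
    · exact hES.inju e he f hf (h.symm.trans h')
    · exact absurd (h.symm.trans h') (hES.dis e he f hf)
    · exact absurd (h'.symm.trans h) (hES.dis f hf e he)
    · exact hES.injv e he f hf (h.symm.trans h')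
  have hunion : (⋃ y ∈ Y1 Y E u v ρ, Hst E u v ρ y) = Y := by
    ext z
    simp only [Set.mem_iUnion, exists_prop]
    constructor
    · rintro ⟨y, hy, hz⟩
      rcases hcase y hy z hz with h | ⟨h, -⟩ | ⟨e, he, -, h, -⟩
      · rw [h]
        exact (hZ hy).1
      · exact hES.sub h
      · exact (huv e he z h).1
    · intro hz
      by_cases hzE : z ∈ E
      · refine ⟨u (ρ z), huZ _ (hρ.mem z hzE) (hρρ z hzE), Or.inr ⟨ρ z, hρ.mem z hzE, hρρ z hzE, rfl,
          ?_⟩⟩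
        by_cases h : z = ρ z
        · exact Or.inl h
        · exact Or.inr ⟨z, hzE, rfl, h, Or.inl rfl⟩
      · by_cases hzZ : ∃ e ∈ E, ρ e ≠ e ∧ (z = u e ∨ z = v e)
        · obtain ⟨e, he, hne, h⟩ := hzZ
          exact ⟨u (ρ e), huZ _ (hρ.mem e he) (hρρ e he), Or.inr ⟨ρ e, hρ.mem e he, hρρ e he, rfl,
            Or.inr ⟨e, he, rfl, hne.symm, Or.inr h⟩⟩⟩
        · exact ⟨z, ⟨⟨hz, hzE⟩, hzZ⟩, Or.inl rfl⟩
  have hexp := LT.exp (R' := fun B => (Rw G Y B).encard ≤ (((3 * k + 1) * 4 ^ k + 4 : ℕ) : ℕ∞)) hk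
    (Hst E u v ρ) ?_ ?_ ?_
  · rw [hunion] at hexp
    exact hexp
  · intro y hy z hz hyz
    rw [Set.disjoint_left]
    intro x hxy hxz
    apply hyz
    rcases hcase y hy x hxy with h | ⟨h, hy'⟩ | ⟨e, he, hne, h, hy'⟩
    · rcases hcase z hz x hxz with h' | ⟨h', -⟩ | ⟨e, he, hne, h', -⟩
      · exact h.symm.trans h'
      · rw [h] at h'
        exact absurd h' (hZ hy).2
      · rw [h] at h'
        exact absurd ⟨e, he, hne, h'⟩ hy.2
    · rcases hcase z hz x hxz with h' | ⟨h', hz'⟩ | ⟨e, he, hne, h', -⟩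
      · rw [h'] at h
        exact absurd h (hZ hz).2
      · exact hy'.trans hz'.symm
      · exact absurd h (huv e he x h').2
    · rcases hcase z hz x hxz with h' | ⟨h', hz'⟩ | ⟨f, hf, hnf, h', hz'⟩
      · rw [h'] at h
        exact absurd ⟨e, he, hne, h⟩ hz.2
      · exact absurd h' (huv e he x h).2
      · rw [hy', hz', hsame e he f hf x h h']
  · intro y hy
    exact RL.mono (by omega) (h2 V G Y E u v ρ hES hρ y hy)
  · intro A hA hR
    refine (h4 V G Y E A u v ρ k hES hρ hA hR).trans ?_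
    exact_mod_cast Nat.le_add_right _ _

end Pool.Agent.MPd439b2.BU
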