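import Pool.Agent.Lib.MP_d439b2_co.BU.Eng

/-!
# MP_d439b2_co, BU: finite facts, cycles (helper1)
-/

set_option autoImplicit false

namespace Pool.Agent.MPd439b2.BU

open Pool.Agent.MPd439b2 Eng

private def cs7 : List (List (List ℕ)) :=
  [[[1], [2], [7], [0], [3]], [[1], [7, 3], [2], [0], [4]], [[1], [7, 4], [3, 2], [0], [5]],
  [[1], [7, 5], [6, 0], [2], [4]], [[1], [6, 0], [7], [2], [5]]]

private def cs6 : List (List (List ℕ)) :=
  [[[1], [0], [6], [2], [5]], [[2], [6, 0], [1], [3], [5]], [[1], [2], [6], [0], [3]],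
  [[1], [6, 3], [2], [0], [4]], [[3], [2], [6], [4], [1]], [[6], [0], [1], [3], [5]],
  [[4], [6, 0], [5], [3], [1]], [[4], [6, 2], [3], [5], [1]], [[4], [3], [6], [5], [2]],
  [[5], [0], [6], [4], [1]], [[1], [5, 0], [6], [2], [4]], [[5], [6, 3], [4], [0], [2]],
  [[5], [6], [0], [4], [2]], [[5], [4], [6], [0], [3]], [[0], [6], [5], [1], [3]],
  [[1], [6], [0], [2], [4]]]

private def cs6a : List (List (List ℕ)) :=
  [[[6], [0], [3, 2, 1], [7], [5]], [[6], [0], [7], [3], [1]], [[6], [3], [7], [0], [4]],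
  [[0], [7, 3], [6], [5], [2]]]

private def cs6b : List (List (List ℕ)) :=
  [[[6], [0], [7, 5, 4, 3], [8], [1]], [[6], [0], [8], [7], [1]], [[3], [8, 6], [7], [2], [0]],
  [[7], [3], [6, 2, 1, 0], [8], [4]], [[0], [8, 7], [6], [1], [3]], [[7], [3], [8], [6], [4]],
  [[6], [7], [8], [0], [3]]]

private def cs6c : List (List (List ℕ)) :=
  [[[0], [7, 3], [6], [1], [4]], [[0], [1], [7, 5, 4], [6], [2]], [[2], [3], [7, 5, 4], [1], [6]]]

private theorem tab7 : ((List.range 128).all fun t => t.testBit 0 || !t.testBit 1 || Nat.beq t 2 ||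
    anyB 8 (rC 7 [t]) cs7) = true := by decide +kernel

theorem f7 : S_F7 := by
  intro _ _ _ _ t hB h ht h0 h1
  by_contra hne
  have h2 := List.all_eq_true.1 tab7 t (List.mem_range.2 ht)
  rw [h0, h1] at h2
  have h3 : Nat.beq t 2 = false := by
    rw [Bool.eq_false_iff]
    intro h
    exact hne (Nat.eq_of_beq_eq_true h)
  rw [h3] at h2
  exact hB (bull_of_any h cs7 (by simpa using h2))

private theorem tab6 : ((List.range 64).all fun t =>
    ([0, 1, 2, 4, 8, 16, 32, 9, 18, 36, 63] : List ℕ).any (fun s => Nat.beq s t) ||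
    anyB 7 (rC 6 [t]) cs6) = true := by decide +kernel

theorem f6 : S_F6 := by
  intro _ _ _ _ t hB h ht
  have h2 := List.all_eq_true.1 tab6 t (List.mem_range.2 ht)
  rw [Bool.or_eq_true] at h2
  rcases h2 with h2 | h2
  · rw [List.any_eq_true] at h2
    obtain ⟨s, hs, hst⟩ := h2
    rwa [← Nat.eq_of_beq_eq_true hst]
  · exact absurd (bull_of_any h cs6 h2) hB

private theorem tab6a : (([64, 65, 72, 73] : List ℕ).all fun t => anyB 8 (rC 6 [9, t]) cs6a) = true := by
  decide +kernel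

private theorem tab6b : (([64, 65, 72, 73, 128, 129, 136, 137, 192, 193, 200, 201] : List ℕ).all
    fun t => anyB 9 (rC 6 [1, 72, t]) cs6b) = true := by decide +kernel

private theorem tab6c : (([9, 18, 36] : List ℕ).all fun t => anyB 8 (rC 6 [9, t]) cs6c) = true := by
  decide +kernel

theorem f6b : S_F6b :=
  ⟨fun _ _ _ _ t h ht => bull_of_any h cs6a (List.all_eq_true.1 tab6a t ht),
    fun _ _ _ _ t h ht => bull_of_any h cs6b (List.all_eq_true.1 tab6b t ht),
    fun _ _ _ _ t h ht => bull_of_any h cs6c (List.all_eq_true.1 tab6c t ht)⟩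

end Pool.Agent.MPd439b2.BU
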