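import Pool.Agent.Lib.MP_d439b2_co.BU.Eng

/-!
# MP_d439b2_co, BU: finite facts, the path with six vertices (helper1)
-/

set_option autoImplicit false

namespace Pool.Agent.MPd439b2.BU

open Pool.Agent.MPd439b2 Eng

private def csa : List (List (List ℕ)) :=
  [[[1], [2], [6], [0], [3]], [[1], [6, 3], [2], [0], [4]], [[3], [6, 1], [2], [4], [0]],
  [[2], [3], [6], [1], [4]], [[1], [6, 4], [3, 2], [0], [5]], [[1], [6], [0], [2], [4]],
  [[2], [6, 4], [3], [1], [5]], [[6], [4], [3, 2], [0], [5]], [[4], [3], [6], [5], [2]],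
  [[1], [6], [0], [2], [5]], [[2], [6], [1, 0], [3], [5]], [[3], [6], [5, 4], [2], [0]],
  [[6], [4], [5], [0], [3]]]

private def csb : List (List (List ℕ)) :=
  [[[7], [6], [3, 2], [5], [0]], [[3], [2], [6, 1, 0], [4], [7]]]

private def csc : List (List (List ℕ)) :=
  [[[6], [0], [1], [5], [7]], [[1], [6], [0], [7], [5]], [[1], [6], [2], [7], [5]],
  [[2], [6], [1], [7], [4]], [[6], [2], [3], [5], [7]], [[3], [6], [2], [7], [0]],
  [[7], [3], [2], [0], [4]], [[6], [4], [5], [1], [7]], [[4], [7], [3], [5], [1]],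
  [[6], [5], [4], [1], [7]], [[1], [6], [0], [7], [4]], [[1], [6], [2], [7], [4]],
  [[7], [2], [1], [5], [3]], [[6], [4], [3], [1], [7]], [[1], [6], [0], [7], [3]],
  [[1], [7], [0], [2], [5]], [[7], [3], [4], [0], [2]], [[7], [2], [3], [5], [1]],
  [[7], [1], [2], [5], [0]]]

private theorem taba : ((List.range 64).all fun t =>
    ([0, 1, 2, 3, 4, 5, 7, 8, 9, 16, 17, 32, 33, 34, 36, 40, 48, 56, 63] : List ℕ).any
      (fun s => Nat.beq s t) || anyB 7 (rP 6 [t]) csa) = true := by decide +kernel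

private theorem tabb : anyB 8 (rP 6 [7, 56 + 64]) csb = true ∧ anyB 8 (rP 6 [9, 36]) csb = true := by
  decide +kernel

private theorem tabc : ((List.range 63).all fun t => Nat.beq t 0 || anyB 8 (rP 6 [63, t]) csc) = true := by
  decide +kernel

theorem fp6 : S_FP6 := by
  refine ⟨fun _ _ _ _ t hB h ht => ?_, fun _ _ _ _ => ⟨fun h => bull_of_any h csb tabb.1,
    fun h => bull_of_any h csb tabb.2⟩, fun _ _ _ _ t h h0 ht => ?_⟩
  · have h2 := List.all_eq_true.1 taba t (List.mem_range.2 ht)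
    rw [Bool.or_eq_true] at h2
    rcases h2 with h2 | h2
    · rw [List.any_eq_true] at h2
      obtain ⟨s, hs, hst⟩ := h2
      rwa [← Nat.eq_of_beq_eq_true hst]
    · exact absurd (bull_of_any h csa h2) hB
  · have h2 := List.all_eq_true.1 tabc t (List.mem_range.2 ht)
    rw [Bool.or_eq_true] at h2
    rcases h2 with h2 | h2
    · exact absurd (Nat.eq_of_beq_eq_true h2) (by omega)
    · exact bull_of_any h csc h2

end Pool.Agent.MPd439b2.BU
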