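import Pool.Agent.Lib.MP_d439b2_co.BU.Eng

/-!
# MP_d439b2_co, BU: finite facts, the path with five vertices (helper1)
-/

set_option autoImplicit false

namespace Pool.Agent.MPd439b2.BU

open Pool.Agent.MPd439b2 Eng

/-- a certificate for an induced path (`c = false`) or an induced cycle (`c = true`) with six vertices -/
private def chk6 (n : ℕ) (r : ℕ → ℕ → Bool) (c : Bool) (l : List ℕ) : Bool :=
  Nat.beq l.length 6 && goodL n l && ((List.range 6).all fun i => (List.range 6).all fun j =>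
    (rs r (l.getD i 0) (l.getD j 0)) ==
      (Nat.beq (i + 1) j || Nat.beq (j + 1) i || (c && ((Nat.beq i 0 && Nat.beq j 5) ||
        (Nat.beq j 0 && Nat.beq i 5)))))

private theorem chk6_spec {V : Type} {G : SimpleGraph V} {X : Set V} {n : ℕ} {v : ℕ → V}
    {r : ℕ → ℕ → Bool} (h : SP G X n (fun i => {v i}) r) {c : Bool} {l : List ℕ}
    (hl : chk6 n r c l = true) :
    (∀ i < 6, v (l.getD i 0) ∈ X) ∧
      (∀ i < 6, ∀ j < 6, v (l.getD i 0) = v (l.getD j 0) → i = j) ∧
      ∀ i < 6, ∀ j < 6, (G.Adj (v (l.getD i 0)) (v (l.getD j 0)) ↔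
        (i + 1 = j ∨ j + 1 = i ∨ (c = true ∧ ((i = 0 ∧ j = 5) ∨ (j = 0 ∧ i = 5))))) := by
  rw [chk6, Bool.and_eq_true, Bool.and_eq_true, List.all_eq_true] at hl
  obtain ⟨⟨hlen, hg⟩, hr⟩ := hl
  replace hlen := Nat.eq_of_beq_eq_true hlen
  obtain ⟨hn, hd⟩ := goodL_iff hg
  have hmem : ∀ i < 6, l.getD i 0 ∈ l := by
    intro i hi
    rw [List.getD_eq_getElem l 0 (by omega)]
    exact List.getElem_mem _
  have hinj : ∀ i < 6, ∀ j < 6, l.getD i 0 = l.getD j 0 → i = j := by
    intro i hi j hj h1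
    rw [List.getD_eq_getElem l 0 (by omega), List.getD_eq_getElem l 0 (by omega)] at h1
    exact (hd.getElem_inj_iff).1 h1
  have hv : ∀ i < n, ∀ j < n, i ≠ j → v i ≠ v j := by
    intro i hi j hj hij
    exact Set.disjoint_singleton.1 (dis' h hi hj hij)
  refine ⟨fun i hi => ?_, fun i hi j hj hij => ?_, fun i hi j hj => ?_⟩
  · exact h.sub _ (hn _ (hmem i hi)) rfl
  · by_contra hne
    exact hv _ (hn _ (hmem i hi)) _ (hn _ (hmem j hj)) (fun e => hne (hinj i hi j hj e)) hij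
  · by_cases hij : i = j
    · subst hij
      refine iff_of_false (G.loopless.irrefl _) ?_
      rintro (h1 | h1 | ⟨_, h1 | h1⟩) <;> omega
    · have h1 := hr i (List.mem_range.2 hi)
      rw [List.all_eq_true] at h1
      have h2 := h1 j (List.mem_range.2 hj)
      rw [beq_iff_eq] at h2
      rw [← tch_single, rs_iff h (hn _ (hmem i hi)) (hn _ (hmem j hj)) fun e => hij (hinj i hi j hj e), h2]
      simp only [Bool.or_eq_true, Bool.and_eq_true, Nat.beq_eq]
      tauto

private theorem path_of {V : Type} {G : SimpleGraph V} {X : Set V} {n : ℕ} {v : ℕ → V}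
    {r : ℕ → ℕ → Bool} (h : SP G X n (fun i => {v i}) r) {l : List ℕ} (hl : chk6 n r false l = true) :
    IP G X 6 (fun i => v (l.getD i 0)) := by
  obtain ⟨h1, h2, h3⟩ := chk6_spec h hl
  refine ⟨h1, h2, fun i hi j hj => ?_⟩
  rw [h3 i hi j hj]
  simp

private theorem cyc_of {V : Type} {G : SimpleGraph V} {X : Set V} {n : ℕ} {v : ℕ → V}
    {r : ℕ → ℕ → Bool} (h : SP G X n (fun i => {v i}) r) {l : List ℕ} (hl : chk6 n r true l = true) :
    IC G X 6 (fun i => v (l.getD i 0)) := by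
  obtain ⟨h1, h2, h3⟩ := chk6_spec h hl
  refine ⟨h1, h2, fun i hi j hj => ?_⟩
  rw [h3 i hi j hj]
  constructor
  · rintro (h | h | ⟨_, h | h⟩)
    · exact Or.inl h
    · exact Or.inr (Or.inl h)
    · exact Or.inr (Or.inr (Or.inl ⟨h.1, by omega⟩))
    · exact Or.inr (Or.inr (Or.inr ⟨h.1, by omega⟩))
  · rintro (h | h | h | h)
    · exact Or.inl h
    · exact Or.inr (Or.inl h)
    · exact Or.inr (Or.inr ⟨rfl, Or.inl ⟨h.1, by omega⟩⟩)
    · exact Or.inr (Or.inr ⟨rfl, Or.inr ⟨h.1, by omega⟩⟩)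

private def bad (n : ℕ) (r : ℕ → ℕ → Bool) (cs : List (List (List ℕ))) (ps cy : List (List ℕ)) : Bool :=
  anyB n r cs || ps.any (chk6 n r false) || cy.any (chk6 n r true)

private theorem not_bad {V : Type} {G : SimpleGraph V} {X : Set V} {n : ℕ} {v : ℕ → V}
    {r : ℕ → ℕ → Bool} (hB : BF G X) (hP : NoP G X 6) (hC : NoC G X 6)
    (h : SP G X n (fun i => {v i}) r) (cs : List (List (List ℕ))) (ps cy : List (List ℕ)) :
    ¬ bad n r cs ps cy = true := by
  intro hb
  rw [bad, Bool.or_eq_true, Bool.or_eq_true, List.any_eq_true, List.any_eq_true] at hb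
  rcases hb with (hb | ⟨l, _, hb⟩) | ⟨l, _, hb⟩
  · exact hB (bull_of_any h cs hb)
  · exact hP _ (path_of h hb)
  · exact hC 6 le_rfl _ (cyc_of h hb)

private def cs1 : List (List (List ℕ)) :=
  [[[1], [2], [5], [0], [3]], [[1], [5, 3], [2], [0], [4]], [[3], [5, 1], [2], [4], [0]],
  [[3], [2], [5], [4], [1]], [[1], [5], [0], [2], [4]], [[3], [5], [4], [2], [0]]]

private def cs2 : List (List (List ℕ)) :=
  [[[2], [6], [1, 0], [3], [5]], [[3], [6], [2, 1, 0], [4], [5]], [[1], [6], [4, 3, 2], [0], [5]],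
  [[2], [6], [4, 3], [1], [5]], [[1], [2], [6, 5], [0], [3]], [[1], [2], [6, 0], [5], [3]],
  [[1], [3, 2], [6, 5], [0], [4]], [[1], [3, 2], [6, 0], [5], [4]],
  [[3], [6, 1, 0], [2], [4], [5]], [[1], [6], [5], [2], [4]], [[6], [3], [4], [5], [2]],
  [[1], [6, 5], [2], [0], [4]], [[1], [6, 0], [2], [5], [4]], [[2], [5, 1], [6], [3], [0]],
  [[2], [1, 0], [6], [3], [5]], [[1], [5], [0], [2], [6]], [[6], [5, 1], [2], [4], [0]],
  [[6], [1, 0], [2], [4], [5]], [[2], [6, 1], [5], [3], [0]], [[6], [2], [5], [0], [3]],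
  [[2], [3], [6, 5], [1], [4]], [[2], [3], [6, 1, 0], [5], [4]], [[1], [2], [6, 4, 3], [0], [5]],
  [[6], [2], [5], [4], [1]], [[6], [2], [4, 3], [0], [5]], [[2], [6, 3], [5], [1], [4]],
  [[5], [2], [1, 0], [6], [3]], [[1], [2], [5, 0], [6], [3]], [[2], [1, 0], [5], [3], [6]],
  [[5], [2], [6], [0], [3]], [[3], [2, 1, 0], [6], [4], [5]], [[0], [6], [1], [5], [4]],
  [[3], [6, 5], [2], [4], [0]], [[5], [6, 3], [2], [0], [4]], [[6], [1], [0], [5], [2]],
  [[3], [6], [5], [2], [0]], [[1], [3, 2], [6, 4], [0], [5]], [[1], [6, 5, 3], [2], [0], [4]],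
  [[3], [2], [6, 4], [5], [1]], [[6], [3, 2], [4], [0], [5]], [[5], [3], [2, 1, 0], [6], [4]],
  [[1], [3, 2], [5, 0], [6], [4]], [[3], [5, 6, 1], [2], [4], [0]], [[1], [0], [6], [2], [5]],
  [[2], [3], [5, 1, 0], [6], [4]], [[3], [2, 6, 0], [5], [4], [1]], [[5], [3], [6], [0], [4]],
  [[0], [6, 3], [5], [1], [4]], [[1], [6], [5, 0], [2], [4]], [[0], [6], [5], [1], [4]],
  [[5], [3], [6], [0], [2]], [[1], [5], [4, 3, 2], [0], [6]], [[1], [5], [6], [0], [4]],
  [[1], [5], [6], [2], [4]], [[1], [2], [5, 4, 3], [0], [6]], [[1], [3, 2], [5, 4], [0], [6]],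
  [[1], [5, 4, 3], [2], [0], [6]], [[1], [5], [6, 0], [2], [4]], [[1], [6, 4], [5], [0], [3]],
  [[1], [4, 6, 2], [5], [0], [3]], [[6], [4], [5], [0], [3]], [[6], [4], [3], [0], [5]],
  [[2], [5], [4, 3], [1], [6]], [[2], [5], [6], [1], [4]], [[2], [3], [5, 4], [1], [6]],
  [[1], [4, 5, 2], [6], [0], [3]], [[2], [4, 3], [5], [1], [6]], [[2], [5], [4, 3], [6], [0]],
  [[5], [0], [6], [4], [1]], [[6], [4], [5], [1], [3]], [[4], [6, 0], [5], [3], [1]],
  [[0], [6, 4], [5], [1], [3]], [[6], [4], [3], [1], [5]], [[0], [5], [1], [6], [4]],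
  [[3], [5, 2], [4], [6], [1]], [[4], [5], [6], [3], [0]], [[4], [5, 0], [6], [3], [1]],
  [[5], [4, 3], [2], [0], [6]], [[2], [5, 3], [6], [1], [4]], [[6], [5, 3], [2], [0], [4]],
  [[4], [3], [5], [6], [2]], [[2], [4, 3], [6], [1], [5]], [[6], [4, 3], [2], [0], [5]],
  [[5], [6, 1], [2], [4], [0]], [[1], [5, 2], [0], [6], [3]], [[5], [1, 0], [2], [4], [6]],
  [[5], [4], [3], [0], [6]], [[0], [5, 4], [6], [1], [3]], [[0], [5], [1], [6], [3]]]

private def ps1 : List (List ℕ) := [[4, 3, 2, 1, 0, 5], [0, 1, 2, 3, 4, 5]]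

private def cy1 : List (List ℕ) := [[0, 1, 2, 3, 4, 5]]

private def ps2 : List (List ℕ) :=
  [[4, 3, 2, 1, 6, 5], [0, 1, 2, 3, 6, 5], [4, 3, 2, 1, 5, 6], [0, 1, 2, 3, 5, 6]]

private def cy2 : List (List ℕ) := [[0, 1, 6, 4, 3, 5], [0, 1, 5, 4, 3, 6]]

private theorem tab1 : ((List.range 32).all fun t => tr5.any (fun s => Nat.beq s t) ||
    bad 6 (rP 5 [t]) cs1 ps1 cy1) = true := by decide +kernel

private theorem tab2 : (tr5.all fun t => tr5.all fun t' => ok5 t t' false ||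
    bad 7 (rP 5 [t, t']) cs2 ps2 cy2) = true := by decide +kernel

private theorem tab3 : (tr5.all fun t => tr5.all fun t' => ok5 t t' true ||
    bad 7 (rP 5 [t, t' + 32]) cs2 ps2 cy2) = true := by decide +kernel

private def vv {V : Type} (p : ℕ → V) (y z : V) (i : ℕ) : V := if i < 5 then p i else if i = 5 then y else z

private theorem vv_lt {V : Type} (p : ℕ → V) (y z : V) {i : ℕ} (h : i < 5) : vv p y z i = p i := if_pos h

private theorem vv5 {V : Type} (p : ℕ → V) (y z : V) : vv p y z 5 = y := rfl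

private theorem vv6 {V : Type} (p : ℕ → V) (y z : V) : vv p y z 6 = z := rfl

private theorem rP_lt {ts : List ℕ} {i j : ℕ} (h : i < 5) : rP 5 ts i j = (j + 1 == i) := if_pos h

private theorem path5 {V : Type} {G : SimpleGraph V} {X : Set V} {p : ℕ → V} (h : IP G X 5 p) {i j : ℕ}
    (hi : i < 5) (hj : j < i) : G.Adj (p i) (p j) ↔ (j + 1 == i) = true := by
  rw [h.2.2 i hi j (by omega), beq_iff_eq]
  omega

private theorem sp6 {V : Type} {G : SimpleGraph V} {X : Set V} {p : ℕ → V} {y : V} {t : ℕ}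
    (h : IP G X 5 p) (hy : y ∈ X) (hyp : ∀ i < 5, y ≠ p i) (ht : Tv G 5 p y t) :
    SP G X 6 (fun i => {vv p y y i}) (rP 5 [t]) := by
  refine ⟨fun i hi => ?_, fun i _ => Conn.singleton G _, fun i hi j hj => ?_, fun i hi j hj => ?_⟩
  · rw [Set.singleton_subset_iff]
    by_cases h5 : i < 5
    · rw [vv_lt p y y h5]; exact h.1 i h5
    · rw [show i = 5 by omega]; exact hy
  · rw [Set.disjoint_singleton]
    by_cases h5 : i < 5
    · rw [vv_lt p y y h5, vv_lt p y y (by omega)]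
      intro e
      have := h.2.1 i h5 j (by omega) e
      omega
    · rw [show i = 5 by omega, vv5, vv_lt p y y (by omega)]
      exact hyp j (by omega)
  · rw [tch_single]
    by_cases h5 : i < 5
    · rw [vv_lt p y y h5, vv_lt p y y (by omega), rP_lt h5]
      exact path5 h h5 hj
    · have h6 : i = 5 := by omega
      subst h6
      rw [vv_lt p y y hj]
      exact ht.2 j hj

private theorem sp7 {V : Type} {G : SimpleGraph V} {X : Set V} {p : ℕ → V} {y z : V} {t t' s : ℕ}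
    (h : IP G X 5 p) (hy : y ∈ X) (hz : z ∈ X) (hyz : y ≠ z) (hyp : ∀ i < 5, y ≠ p i)
    (hzp : ∀ i < 5, z ≠ p i) (ht : Tv G 5 p y t) (ht' : Tv G 5 p z t')
    (hs : ∀ j < 5, s.testBit j = t'.testBit j) (hs5 : G.Adj y z ↔ s.testBit 5 = true) :
    SP G X 7 (fun i => {vv p y z i}) (rP 5 [t, s]) := by
  refine ⟨fun i hi => ?_, fun i _ => Conn.singleton G _, fun i hi j hj => ?_, fun i hi j hj => ?_⟩
  · rw [Set.singleton_subset_iff]
    by_cases h5 : i < 5
    · rw [vv_lt p y z h5]; exact h.1 i h5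
    · by_cases h6 : i = 5
      · rw [h6]; exact hy
      · rw [show i = 6 by omega]; exact hz
  · rw [Set.disjoint_singleton]
    by_cases h5 : i < 5
    · rw [vv_lt p y z h5, vv_lt p y z (by omega)]
      intro e
      have := h.2.1 i h5 j (by omega) e
      omega
    · by_cases h6 : i = 5
      · rw [h6, vv5, vv_lt p y z (by omega)]
        exact hyp j (by omega)
      · rw [show i = 6 by omega, vv6]
        by_cases h7 : j = 5
        · rw [h7, vv5]; exact hyz.symm
        · rw [vv_lt p y z (show j < 5 by omega)]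
          exact hzp j (by omega)
  · rw [tch_single]
    by_cases h5 : i < 5
    · rw [vv_lt p y z h5, vv_lt p y z (by omega), rP_lt h5]
      exact path5 h h5 hj
    · by_cases h6 : i = 5
      · subst h6
        rw [vv_lt p y z hj]
        exact ht.2 j hj
      · have h7 : i = 6 := by omega
        subst h7
        by_cases h8 : j = 5
        · subst h8
          rw [G.adj_comm]
          exact hs5
        · have h9 : j < 5 := by omega
          rw [vv_lt p y z h9]
          refine (ht'.2 j h9).trans ?_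
          rw [← hs j h9]
          exact Iff.rfl

theorem fp5 : S_FP5 := by
  intro V G X p hB hP hC h
  have key : ∀ y ∈ X, (∀ i < 5, y ≠ p i) → ∀ t, Tv G 5 p y t → t ∈ tr5 := by
    intro y hy hyp t ht
    have h2 := List.all_eq_true.1 tab1 t (List.mem_range.2 ht.1)
    rw [Bool.or_eq_true] at h2
    rcases h2 with h2 | h2
    · rw [List.any_eq_true] at h2
      obtain ⟨s, hs, hst⟩ := h2
      rwa [← Nat.eq_of_beq_eq_true hst]
    · exact absurd h2 (not_bad hB hP hC (sp6 h hy hyp ht) cs1 ps1 cy1)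
  refine ⟨key, fun y hy z hz hyz hyp hzp t t' ht ht' => ?_⟩
  have m1 := key y hy hyp t ht
  have m2 := key z hz hzp t' ht'
  have hlt : t' < 32 := ht'.1
  refine ⟨fun hadj => ?_, fun hadj => ?_⟩
  · have h2 := List.all_eq_true.1 (List.all_eq_true.1 tab3 t m1) t' m2
    rw [Bool.or_eq_true] at h2
    refine h2.resolve_right (not_bad hB hP hC
      (sp7 h hy hz hyz hyp hzp ht ht' (fun j hj => ?_) (iff_of_true hadj ?_)) cs2 ps2 cy2)
    · rw [show (32 : ℕ) = 2 ^ 5 by norm_num, Nat.add_comm, Nat.testBit_two_pow_add_gt (by omega)]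
    · rw [show (32 : ℕ) = 2 ^ 5 by norm_num, Nat.add_comm, Nat.testBit_two_pow_add_eq,
        Nat.testBit_lt_two_pow (by simpa using hlt)]
      rfl
  · have h2 := List.all_eq_true.1 (List.all_eq_true.1 tab2 t m1) t' m2
    rw [Bool.or_eq_true] at h2
    refine h2.resolve_right (not_bad hB hP hC
      (sp7 h hy hz hyz hyp hzp ht ht' (fun _ _ => rfl) (iff_of_false hadj ?_)) cs2 ps2 cy2)
    rw [Nat.testBit_lt_two_pow (by simpa using hlt)]
    exact Bool.false_ne_true

end Pool.Agent.MPd439b2.BU
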