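import Pool.Agent.Lib.MP_d439b2_co.BU.Spec

/-!
# MP_d439b2_co, BU: layouts and modules
-/

set_option autoImplicit false

namespace Pool.Agent.MPd439b2.BU

open Pool.Agent.MPd439b2

theorem r1 : S_R1 := by
  classical
  intro V G X M m k hMod hm hM hX
  obtain ⟨hMX, hmod⟩ := hMod
  -- all elements of `M` have the same neighbours outside
  have hsame : ∀ y ∈ X, y ∉ M → ∀ a ∈ M, (G.Adj a y ↔ G.Adj m y) := fun y hy hyM a ha =>
    ⟨fun h => (hmod y hy hyM a ha m hm h.symm).symm, fun h => (hmod y hy hyM m hm a ha h.symm).symm⟩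
  -- the layout of `M`
  have h1 : RL G X k M := by
    refine LT.mono' hM fun B hB h => (le_trans (Set.encard_le_encard ?_)
      (Set.encard_image_le (fun T => T ∪ ((G.neighborSet m ∩ X) \ M)) _)).trans h
    rintro T ⟨a, ha, rfl⟩
    refine ⟨(G.neighborSet a ∩ M) \ B, ⟨a, ha, rfl⟩, ?_⟩
    ext z
    constructor
    · rintro (⟨⟨hz1, hz2⟩, hz3⟩ | ⟨⟨hz1, hz2⟩, hz3⟩)
      · exact ⟨⟨hz1, hMX hz2⟩, hz3⟩
      · exact ⟨⟨(hsame z hz2 hz3 a (hB ha)).2 hz1, hz2⟩, fun h' => hz3 (hB h')⟩
    · rintro ⟨⟨hz1, hz2⟩, hz3⟩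
      by_cases hzM : z ∈ M
      · exact Or.inl ⟨⟨hz1, hzM⟩, hz3⟩
      · exact Or.inr ⟨⟨(hsame z hz2 hzM a (hB ha)).1 hz1, hz2⟩, hzM⟩
  -- expansion
  set X' : Set V := (X \ M) ∪ {m} with hX'
  set B : V → Set V := fun y => if y = m then M else {y} with hB
  have hBm : B m = M := if_pos rfl
  have hBy : ∀ y, y ≠ m → B y = {y} := fun y hy => if_neg hy
  have hX'm : ∀ y ∈ X', y ≠ m → y ∈ X ∧ y ∉ M := by
    intro y hy hym
    rcases hy with hy | hy
    · exact ⟨hy.1, hy.2⟩
    · exact absurd hy hym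
  have hmemB : ∀ y ∈ X', ∀ z, z ∈ B y → z ∈ X := by
    intro y hy z hz
    by_cases hym : y = m
    · subst hym
      rw [hBm] at hz
      exact hMX hz
    · rw [hBy y hym] at hz
      rw [hz]
      exact (hX'm y hy hym).1
  have hU : (⋃ y ∈ X', B y) = X := by
    ext z
    simp only [Set.mem_iUnion]
    constructor
    · rintro ⟨y, hy, hz⟩
      exact hmemB y hy z hz
    · intro hz
      by_cases hzM : z ∈ M
      · exact ⟨m, Or.inr rfl, by rw [hBm]; exact hzM⟩
      · have hzm : z ≠ m := fun h => hzM (h ▸ hm)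
        exact ⟨z, Or.inl ⟨hz, hzM⟩, by rw [hBy z hzm]; rfl⟩
  have key : LT (fun B => (Rw G X B).encard ≤ k) (⋃ y ∈ X', B y) := by
    refine LT.exp hX B ?_ ?_ ?_
    · intro y hy z hz hyz
      by_cases hym : y = m
      · subst hym
        have hzm : z ≠ y := hyz.symm
        rw [hBm, hBy z hzm, Set.disjoint_singleton_right]
        exact (hX'm z hz hzm).2
      · rw [hBy y hym]
        by_cases hzm : z = m
        · subst hzm
          rw [hBm, Set.disjoint_singleton_left]
          exact (hX'm y hy hym).2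
        · rw [hBy z hzm, Set.disjoint_singleton]
          exact hyz
    · intro y hy
      by_cases hym : y = m
      · subst hym
        rw [hBm]
        exact h1
      · rw [hBy y hym]
        exact LT.single y
    · intro A hA hr
      by_cases hmA : m ∈ A
      · -- the union is `(A \ {m}) ∪ M`
        have hmem : ∀ z, z ∈ (⋃ y ∈ A, B y) ↔ z ∈ M ∨ z ∈ A := by
          intro z
          simp only [Set.mem_iUnion]
          constructor
          · rintro ⟨y, hy, hz⟩
            by_cases hym : y = m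
            · subst hym
              rw [hBm] at hz
              exact Or.inl hz
            · rw [hBy y hym] at hz
              rw [hz]
              exact Or.inr hy
          · rintro (hz | hz)
            · exact ⟨m, hmA, by rw [hBm]; exact hz⟩
            · by_cases hzm : z = m
              · exact ⟨m, hmA, by rw [hBm, hzm]; exact hm⟩
              · exact ⟨z, hz, by rw [hBy z hzm]; rfl⟩
        refine (Set.encard_le_encard ?_).trans hr
        rintro T ⟨a, ha, rfl⟩
        have hout : ∀ z, z ∉ (⋃ y ∈ A, B y) → z ∈ X → z ∈ X' ∧ z ∉ A ∧ z ∉ M := by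
          intro z hz hzX
          rw [hmem] at hz
          push Not at hz
          exact ⟨Or.inl ⟨hzX, hz.1⟩, hz.2, hz.1⟩
        have hout' : ∀ z, z ∈ X' → z ∉ A → z ∉ (⋃ y ∈ A, B y) ∧ z ∈ X ∧ z ∉ M := by
          intro z hz hzA
          have hzm : z ≠ m := fun h => hzA (h ▸ hmA)
          have h2 := hX'm z hz hzm
          exact ⟨fun h => ((hmem z).1 h).elim h2.2 hzA, h2⟩
        rcases (hmem a).1 ha with haM | haA
        · refine ⟨m, hmA, ?_⟩
          ext z
          constructor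
          · rintro ⟨⟨hz1, hz2⟩, hz3⟩
            obtain ⟨hz4, hz5, hz6⟩ := hout z hz3 hz2
            exact ⟨⟨(hsame z hz2 hz6 a haM).1 hz1, hz4⟩, hz5⟩
          · rintro ⟨⟨hz1, hz2⟩, hz3⟩
            obtain ⟨hz4, hz5, hz6⟩ := hout' z hz2 hz3
            exact ⟨⟨(hsame z hz5 hz6 a haM).2 hz1, hz5⟩, hz4⟩
        · refine ⟨a, haA, ?_⟩
          ext z
          constructor
          · rintro ⟨⟨hz1, hz2⟩, hz3⟩
            obtain ⟨hz4, hz5, hz6⟩ := hout z hz3 hz2
            exact ⟨⟨hz1, hz4⟩, hz5⟩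
          · rintro ⟨⟨hz1, hz2⟩, hz3⟩
            obtain ⟨hz4, hz5, hz6⟩ := hout' z hz2 hz3
            exact ⟨⟨hz1, hz5⟩, hz4⟩
      · -- the union is `A`
        have hUA : (⋃ y ∈ A, B y) = A := by
          ext z
          simp only [Set.mem_iUnion]
          constructor
          · rintro ⟨y, hy, hz⟩
            have hym : y ≠ m := fun h => hmA (h ▸ hy)
            rw [hBy y hym] at hz
            rw [hz]
            exact hy
          · intro hz
            have hzm : z ≠ m := fun h => hmA (h ▸ hz)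
            exact ⟨z, hz, by rw [hBy z hzm]; rfl⟩
        rw [hUA]
        refine (le_trans (Set.encard_le_encard ?_)
          (Set.encard_image_le (fun T => T ∪ {y | y ∈ M ∧ m ∈ T}) _)).trans hr
        rintro T ⟨a, ha, rfl⟩
        refine ⟨(G.neighborSet a ∩ X') \ A, ⟨a, ha, rfl⟩, ?_⟩
        have ham : a ≠ m := fun h => hmA (h ▸ ha)
        have haX := hX'm a (hA ha) ham
        have hAM : ∀ z ∈ A, z ∉ M := fun z hz =>
          (hX'm z (hA hz) fun h => hmA (h ▸ hz)).2
        ext z
        constructor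
        · rintro (⟨⟨hz1, hz2⟩, hz3⟩ | ⟨hz1, ⟨hz2, hz3⟩, hz4⟩)
          · refine ⟨⟨hz1, ?_⟩, hz3⟩
            rcases hz2 with hz2 | hz2
            · exact hz2.1
            · rw [hz2]
              exact hMX hm
          · exact ⟨⟨(hmod a haX.1 haX.2 m hm z hz1 hz2), hMX hz1⟩, fun h => hAM z h hz1⟩
        · rintro ⟨⟨hz1, hz2⟩, hz3⟩
          by_cases hzM : z ∈ M
          · refine Or.inr ⟨hzM, ⟨?_, Or.inr rfl⟩, hmA⟩
            exact hmod a haX.1 haX.2 z hzM m hm hz1
          · exact Or.inl ⟨⟨hz1, Or.inl ⟨hz2, hzM⟩⟩, hz3⟩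
  rwa [hU] at key

end Pool.Agent.MPd439b2.BU
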