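import Pool.Agent.Lib.MP_d439b2_co.BU.Spec

/-!
# MP_d439b2_co, BU: only prime sets matter
-/

set_option autoImplicit false

namespace Pool.Agent.MPd439b2.BU

open Pool.Agent.MPd439b2

theorem r2 (h1 : S_R1) : S_R2 := by
  intro V _ G X k h
  induction hn : X.ncard using Nat.strong_induction_on generalizing X with
  | _ n ih =>
    by_cases hP : Prm G X
    · exact h X subset_rfl hP
    · unfold Prm at hP
      push Not at hP
      obtain ⟨M, hM, hs, hMX⟩ := hP
      obtain ⟨m, hm, m', hm', hmm⟩ := hs
      have hsub : M ⊆ X := hM.1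
      have hlt1 : M.ncard < X.ncard := Set.ncard_lt_ncard (hsub.ssubset_of_ne hMX)
      have hsub2 : (X \ M) ∪ {m} ⊆ X :=
        Set.union_subset Set.sdiff_subset (Set.singleton_subset_iff.2 (hsub hm))
      have hlt2 : ((X \ M) ∪ {m}).ncard < X.ncard := by
        refine Set.ncard_lt_ncard (hsub2.ssubset_of_ne fun he => ?_)
        have h2 : m' ∈ (X \ M) ∪ {m} := by
          rw [he]
          exact hsub hm'
        rcases h2 with h2 | h2
        · exact h2.2 hm'
        · exact hmm (Set.mem_singleton_iff.1 h2).symm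
      refine h1 V G X M m k hM hm ?_ ?_
      · exact ih _ (hn ▸ hlt1) M (fun Y hY hP => h Y (hY.trans hsub) hP) rfl
      · exact ih _ (hn ▸ hlt2) _ (fun Y hY hP => h Y (hY.trans hsub2) hP) rfl

end Pool.Agent.MPd439b2.BU
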