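import Pool.Agent.Lib.MP_d439b2_co.BU.Spec

/-!
# MP_d439b2_co, BU: the two notions of layouts
-/

set_option autoImplicit false

namespace Pool.Agent.MPd439b2.BU

open Pool.Agent.MPd439b2

theorem r3 : S_R3 := by
  constructor
  · intro V G S k h
    have key : ∀ A : Set V, Lay (restr G S) k A → A ⊆ S → RL G S (k + 1) A := by
      intro A hA
      induction hA with
      | empty => intro _; exact LT.empty
      | single v _ => intro _; exact LT.single v
      | @union A B _ _ hd ht ihA ihB =>
        intro hS
        refine LT.union (ihA (Set.subset_union_left.trans hS)) (ihB (Set.subset_union_right.trans hS))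
          hd ?_
        have hsub : Rw G S (A ∪ B) ⊆ insert ∅ (Types (restr G S) (A ∪ B)) := by
          rintro T ⟨a, ha, rfl⟩
          have he : (G.neighborSet a ∩ S) \ (A ∪ B) = (restr G S).neighborSet a \ (A ∪ B) := by
            ext z
            constructor
            · rintro ⟨⟨h1, h2⟩, h3⟩
              exact ⟨⟨h1, hS ha, h2⟩, h3⟩
            · rintro ⟨⟨h1, _, h2⟩, h3⟩
              exact ⟨⟨h1, h2⟩, h3⟩
          rcases Set.eq_empty_or_nonempty ((G.neighborSet a ∩ S) \ (A ∪ B)) with h0 | h0
          · exact Or.inl h0
          · exact Or.inr ⟨h0, a, ha, he⟩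
        refine ((Set.encard_le_encard hsub).trans (Set.encard_insert_le _ _)).trans ?_
        push_cast
        gcongr
    exact key S h subset_rfl
  · intro V G k hk h
    have htyp : ∀ A : Set V, Types G A ⊆ Rw G Set.univ A := by
      rintro A T ⟨_, a, ha, rfl⟩
      exact ⟨a, ha, by rw [Set.inter_univ]⟩
    have key : ∀ A : Set V, RL G Set.univ k A → Lay G k A := by
      intro A hA
      induction hA with
      | empty => exact Lay.empty
      | single v => exact Lay.single' hk v
      | union _ _ hd hr ihA ihB =>
        exact Lay.union ihA ihB hd ((Set.encard_le_encard (htyp _)).trans hr)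
    exact key _ h

end Pool.Agent.MPd439b2.BU
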