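import Pool.Agent.Lib.MP_d439b2_co.BU.Spec

/-!
# MP_d439b2_co, BU: hanging a small set at a vertex
-/

set_option autoImplicit false

namespace Pool.Agent.MPd439b2.BU

open Pool.Agent.MPd439b2

namespace R4Aux

variable {V : Type}

theorem union_eq {J A : Set V} {a : V} [DecidableEq V] (ha : a ∈ A) (hJ : a ∈ J) :
    (⋃ y ∈ A, (if y = a then J else {y} : Set V)) = A ∪ J := by
  ext x
  simp only [Set.mem_iUnion, Set.mem_union]
  constructor
  · rintro ⟨y, hy, hx⟩
    split_ifs at hx with h
    · exact Or.inr hx
    · rw [Set.mem_singleton_iff] at hx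
      subst hx
      exact Or.inl hy
  · rintro (hx | hx)
    · by_cases h : x = a
      · refine ⟨a, ha, ?_⟩
        rw [if_pos rfl, h]
        exact hJ
      · refine ⟨x, hx, ?_⟩
        rw [if_neg h]
        rfl
    · refine ⟨a, ha, ?_⟩
      rw [if_pos rfl]
      exact hx

theorem union_eq' {J A : Set V} {a : V} [DecidableEq V] (ha : a ∉ A) :
    (⋃ y ∈ A, (if y = a then J else {y} : Set V)) = A := by
  ext x
  simp only [Set.mem_iUnion]
  constructor
  · rintro ⟨y, hy, hx⟩
    have h : y ≠ a := fun h => ha (h ▸ hy)
    rw [if_neg h, Set.mem_singleton_iff] at hx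
    subst hx
    exact hy
  · intro hx
    have h : x ≠ a := fun h => ha (h ▸ hx)
    refine ⟨x, hx, ?_⟩
    rw [if_neg h]
    rfl

end R4Aux

open R4Aux in
theorem r4 : S_R4 := by
  classical
  intro V _ G Y J a k hJY haJ hJ5 hk hJ hR
  set Y' : Set V := (Y \ J) ∪ {a} with hY'
  have haY' : a ∈ Y' := Or.inr rfl
  have hmem : ∀ y, y ∈ Y' ↔ (y ∈ Y ∧ y ∉ J) ∨ y = a := fun y => Iff.rfl
  have hall : (⋃ y ∈ Y', (if y = a then J else {y} : Set V)) = Y := by
    rw [union_eq haY' haJ]
    ext x
    constructor
    · rintro ((⟨h1, _⟩ | h1) | h1)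
      · exact h1
      · rw [Set.mem_singleton_iff] at h1
        rw [h1]
        exact hJY haJ
      · exact hJY h1
    · intro h1
      by_cases h2 : x ∈ J
      · exact Or.inr h2
      · exact Or.inl (Or.inl ⟨h1, h2⟩)
  have key : RLp G Y k (⋃ y ∈ Y', (if y = a then J else {y} : Set V)) := by
    refine LT.exp hR (fun y => (if y = a then J else {y} : Set V)) ?_ ?_ ?_
    · intro y hy z hz hyz
      rw [hmem] at hy hz
      by_cases h1 : y = a
      · have h2 : z ≠ a := fun h => hyz (h1.trans h.symm)
        rw [if_pos h1, if_neg h2, Set.disjoint_singleton_right]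
        exact (hz.resolve_right h2).2
      · by_cases h2 : z = a
        · rw [if_neg h1, if_pos h2, Set.disjoint_singleton_left]
          exact (hy.resolve_right h1).2
        · rw [if_neg h1, if_neg h2]
          exact Set.disjoint_singleton.2 hyz
    · intro y hy
      by_cases h1 : y = a
      · rw [if_pos h1]
        refine LT.of_all fun B hB => ?_
        refine (Set.encard_insert_le _ _).trans ?_
        have h2 : (Rw G Y B).encard ≤ 5 := by
          refine (rw_encard_le G Y B).trans ?_
          rw [← (Set.toFinite B).cast_ncard_eq]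
          exact_mod_cast (Set.ncard_le_ncard hB).trans hJ5
        calc (Rw G Y B).encard + 1 ≤ 5 + 1 := by gcongr
          _ = ((6 : ℕ) : ℕ∞) := by norm_num
          _ ≤ k := by exact_mod_cast hk
      · rw [if_neg h1]
        exact LT.single y
    · intro A hA hRA
      by_cases haA : a ∈ A
      · rw [union_eq haA haJ]
        have hd : Y \ (A ∪ J) = Y' \ A := by
          ext x
          constructor
          · rintro ⟨h1, h2⟩
            exact ⟨Or.inl ⟨h1, fun h => h2 (Or.inr h)⟩, fun h => h2 (Or.inl h)⟩
          · rintro ⟨h1 | h1, h2⟩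
            · exact ⟨h1.1, fun h => h.elim h2 h1.2⟩
            · rw [Set.mem_singleton_iff] at h1
              exact absurd (h1 ▸ haA) h2
        have hrow : ∀ w : V, (G.neighborSet w ∩ Y) \ (A ∪ J) = (G.neighborSet w ∩ Y') \ A := by
          intro w
          rw [Set.inter_sdiff_assoc, Set.inter_sdiff_assoc, hd]
        refine (Set.encard_le_encard ?_).trans hRA
        rintro T (rfl | ⟨w, hw, rfl⟩)
        · rw [hd]
          exact Or.inl rfl
        · rcases hw with hw | hw
          · exact Or.inr ⟨w, hw, hrow w⟩
          · rw [hrow w]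
            rcases hJ w hw with h1 | h1
            · left
              ext x
              constructor
              · rintro ⟨⟨_, h2⟩, h3⟩
                exact ⟨h2, h3⟩
              · rintro ⟨h2, h3⟩
                refine ⟨⟨?_, h2⟩, h3⟩
                rcases h2 with h2 | h2
                · exact h1 x h2
                · rw [Set.mem_singleton_iff] at h2
                  exact absurd (h2 ▸ haA) h3
            · right
              refine ⟨a, haA, ?_⟩
              ext x
              constructor
              · rintro ⟨⟨h2, h3⟩, h4⟩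
                rcases h3 with h3 | h3
                · exact ⟨⟨(h1 x h3).1 h2, Or.inl h3⟩, h4⟩
                · rw [Set.mem_singleton_iff] at h3
                  exact absurd (h3 ▸ haA) h4
              · rintro ⟨⟨h2, h3⟩, h4⟩
                rcases h3 with h3 | h3
                · exact ⟨⟨(h1 x h3).2 h2, Or.inl h3⟩, h4⟩
                · rw [Set.mem_singleton_iff] at h3
                  exact absurd (h3 ▸ haA) h4
      · rw [union_eq' haA]
        have hAJ : ∀ x ∈ A, x ∈ Y \ J := by
          intro x hx
          rcases hA hx with h1 | h1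
          · exact h1
          · rw [Set.mem_singleton_iff] at h1
            exact absurd (h1 ▸ hx) haA
        have hsub : insert (Y \ A) (Rw G Y A) ⊆
            (fun T => T ∪ {j | j ∈ J ∧ ((∀ z ∈ Y \ J, G.Adj j z) ∨ a ∈ T)}) ''
              insert (Y' \ A) (Rw G Y' A) := by
          rintro T (rfl | ⟨w, hw, rfl⟩)
          · refine ⟨Y' \ A, Or.inl rfl, ?_⟩
            ext x
            constructor
            · rintro (⟨h1 | h1, h2⟩ | ⟨h1, _⟩)
              · exact ⟨h1.1, h2⟩
              · rw [Set.mem_singleton_iff] at h1
                rw [h1]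
                exact ⟨hJY haJ, haA⟩
              · exact ⟨hJY h1, fun h => (hAJ x h).2 h1⟩
            · rintro ⟨h1, h2⟩
              by_cases h3 : x ∈ J
              · exact Or.inr ⟨h3, Or.inr ⟨haY', haA⟩⟩
              · exact Or.inl ⟨Or.inl ⟨h1, h3⟩, h2⟩
          · refine ⟨(G.neighborSet w ∩ Y') \ A, Or.inr ⟨w, hw, rfl⟩, ?_⟩
            have hwJ := hAJ w hw
            ext x
            constructor
            · rintro (⟨⟨h0, h1 | h1⟩, h2⟩ | ⟨h1, h2⟩)
              · exact ⟨⟨h0, h1.1⟩, h2⟩
              · rw [Set.mem_singleton_iff] at h1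
                rw [h1] at h0 ⊢
                exact ⟨⟨h0, hJY haJ⟩, haA⟩
              · refine ⟨⟨?_, hJY h1⟩, fun h => (hAJ x h).2 h1⟩
                rcases h2 with h2 | h2
                · exact (h2 w hwJ).symm
                · rcases hJ x h1 with h3 | h3
                  · exact (h3 w hwJ).symm
                  · have h4 : G.Adj w a := h2.1.1
                    exact ((h3 w hwJ).2 h4.symm).symm
            · rintro ⟨⟨h0, h1⟩, h2⟩
              by_cases h3 : x ∈ J
              · right
                refine ⟨h3, ?_⟩
                rcases hJ x h3 with h4 | h4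
                · exact Or.inl h4
                · right
                  have h5 : G.Adj w x := h0
                  exact ⟨⟨((h4 w hwJ).1 h5.symm).symm, haY'⟩, haA⟩
              · exact Or.inl ⟨⟨h0, Or.inl ⟨h1, h3⟩⟩, h2⟩
        exact ((Set.encard_le_encard hsub).trans (Set.encard_image_le _ _)).trans hRA
  rw [hall] at key
  exact key

end Pool.Agent.MPd439b2.BU
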