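import Pool.Agent.Lib.MP_d439b2_co.BU.Spec

/-!
# MP_d439b2_co, BU: layouts of paths
-/

set_option autoImplicit false

namespace Pool.Agent.MPd439b2.BU

open Pool.Agent.MPd439b2

theorem r5 : S_R5 := by
  classical
  intro V G X n p hinj hnb
  have key : ∀ m ≤ n, RL G X 3 {x | ∃ i < m, x = p i} := by
    intro m
    induction m with
    | zero =>
      intro _
      have : {x : V | ∃ i < 0, x = p i} = ∅ := by
        ext x
        simp
      rw [this]
      exact LT.empty
    | succ m ih =>
      intro hm
      have hset : {x | ∃ i < m + 1, x = p i} = insert (p m) {x | ∃ i < m, x = p i} := by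
        ext x
        constructor
        · rintro ⟨i, hi, rfl⟩
          rcases Nat.lt_succ_iff_lt_or_eq.1 hi with h | h
          · exact Or.inr ⟨i, h, rfl⟩
          · exact Or.inl (by rw [h])
        · rintro (rfl | ⟨i, hi, rfl⟩)
          · exact ⟨m, Nat.lt_succ_self m, rfl⟩
          · exact ⟨i, by omega, rfl⟩
      rw [hset]
      refine LT.insert (ih (by omega)) ?_ ?_
      · rintro ⟨i, hi, h⟩
        have := hinj m (by omega) i (by omega) h
        omega
      · rw [← hset]
        set A : Set V := {x | ∃ i < m + 1, x = p i} with hA
        have hsub : Rw G X A ⊆ {(G.neighborSet (p 0) ∩ X) \ A, (G.neighborSet (p m) ∩ X) \ A, ∅} := by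
          rintro T ⟨a, ⟨i, hi, rfl⟩, rfl⟩
          by_cases h0 : i = 0
          · subst h0
            exact Or.inl rfl
          by_cases h1 : i = m
          · subst h1
            exact Or.inr (Or.inl rfl)
          · refine Or.inr (Or.inr ?_)
            change (G.neighborSet (p i) ∩ X) \ A = ∅
            rw [Set.eq_empty_iff_forall_notMem]
            rintro z ⟨⟨hz1, hz2⟩, hz3⟩
            apply hz3
            rcases hnb i (by omega) (by omega) z hz2 hz1 with h | h
            · exact ⟨i - 1, by omega, h⟩
            · exact ⟨i + 1, by omega, h⟩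
        refine (Set.encard_le_encard hsub).trans ?_
        refine (Set.encard_insert_le _ _).trans ?_
        refine (add_le_add_left (Set.encard_insert_le _ _) 1).trans ?_
        rw [Set.encard_singleton]
        norm_num
  exact key n le_rfl

end Pool.Agent.MPd439b2.BU
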