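import Pool.Agent.Lib.MP_d439b2_co.BU.Main
import Pool.Agent.Lib.MP_d439b2_co.BU.R1
import Pool.Agent.Lib.MP_d439b2_co.BU.R2
import Pool.Agent.Lib.MP_d439b2_co.BU.R3
import Pool.Agent.Lib.MP_d439b2_co.BU.R4
import Pool.Agent.Lib.MP_d439b2_co.BU.R5
import Pool.Agent.Lib.MP_d439b2_co.BU.E1
import Pool.Agent.Lib.MP_d439b2_co.BU.E2
import Pool.Agent.Lib.MP_d439b2_co.BU.E3
import Pool.Agent.Lib.MP_d439b2_co.BU.E4
import Pool.Agent.Lib.MP_d439b2_co.BU.E5
import Pool.Agent.Lib.MP_d439b2_co.BU.A1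
import Pool.Agent.Lib.MP_d439b2_co.BU.A2
import Pool.Agent.Lib.MP_d439b2_co.BU.A3
import Pool.Agent.Lib.MP_d439b2_co.BU.A4
import Pool.Agent.Lib.MP_d439b2_co.BU.A
import Pool.Agent.Lib.MP_d439b2_co.BU.B1
import Pool.Agent.Lib.MP_d439b2_co.BU.B2
import Pool.Agent.Lib.MP_d439b2_co.BU.B3
import Pool.Agent.Lib.MP_d439b2_co.BU.B4
import Pool.Agent.Lib.MP_d439b2_co.BU.B5
import Pool.Agent.Lib.MP_d439b2_co.BU.B6
import Pool.Agent.Lib.MP_d439b2_co.BU.B7
import Pool.Agent.Lib.MP_d439b2_co.BU.B8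
import Pool.Agent.Lib.MP_d439b2_co.BU.B9
import Pool.Agent.Lib.MP_d439b2_co.BU.C1
import Pool.Agent.Lib.MP_d439b2_co.BU.C2
import Pool.Agent.Lib.MP_d439b2_co.BU.C3
import Pool.Agent.Lib.MP_d439b2_co.BU.C4
import Pool.Agent.Lib.MP_d439b2_co.BU.D1
import Pool.Agent.Lib.MP_d439b2_co.BU.D2
import Pool.Agent.Lib.MP_d439b2_co.BU.Fin1
import Pool.Agent.Lib.MP_d439b2_co.BU.Fin2
import Pool.Agent.Lib.MP_d439b2_co.BU.Fin3

/-!
# MP_d439b2_co, BU: the bull theorem, final form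

`bullF`: for every `k` there is `K` such that for every finite graph `G` without induced minor bull:
if every induced subgraph of `G` with independence number at most two has a layout of width at most
`k`, then `G` has a layout of width at most `K`.
-/

set_option autoImplicit false

namespace Pool.Agent.MPd439b2.BU

open Pool.Agent.MPd439b2

theorem bullF : S_BULL := by
  have hb3 := b3
  have hb4 := b4 hb3
  have hb5 := b5
  have hb6 := b6 f7 hb5
  have hr1 := r1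
  have hr2 := r2 hr1
  have hc1 := c1 fp5
  have hc2 := c2 fp5 hc1 hb4
  have hc3 := c3 fp5 hc1 hc2
  have hc4 := c4 fp5 hc1 hc2 hc3
  have he3 := e3 e1
  have he4 := e4 he3
  have he5 := e5 e2 he4
  exact bullMain (aA tA1 a2 a3 a4) (b2 b1 r5) (b7 hb4 hb5 hb6) (b8 hb4 hb5 f6 f6b)
    (b9 hb4 hb5 fp6) (d2 hc4 d1 r4 he5) hr2 r3 r5

end Pool.Agent.MPd439b2.BU
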