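import Pool.Agent.Lib.MP_d439b2_co.BU.Defs

/-!
# MP_d439b2_co, BU: graphs without the bull as an induced minor (helper1, note 2588)

**Theorem.** For every `k` there is a `K`: if `G` does not contain the bull as an induced minor and all
induced subgraphs of `G` without three pairwise non-adjacent vertices have layouts of width `k`, then `G` has
a layout of width `K`.

Every `S_...` is a statement to be proved in its own file; the docstring contains the complete proof.
`x ~ y` means `G.Adj x y`; `D = Gᶜ` is the complement.  'bull {a,b,c; p on a, q on b}' means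
`bull5` (vertices) or `bullS` (connected sets) with these arguments.  `BF G X` is `¬ IMS bull G X`.
-/

set_option autoImplicit false

namespace Pool.Agent.MPd439b2.BU

open Pool.Agent.MPd439b2

/-! ## Part R: layouts -/

/-- **R1.** Layouts and modules.

Proof. `X' = (X \ M) ∪ {m}`.  (1) `RL G X k M`: by `LT.mono'` it is enough that
`(Rw G X B).encard ≤ (Rw G M B).encard` for `B ⊆ M`.  All elements of `M` have the same neighbours in `X \ M`
(`Mod`), namely those of `m`: `T₀ = (G.neighborSet m ∩ X) \ M`.  So `Rw G X B ⊆ (fun T => T ∪ T₀) '' Rw G M B`.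
(2) `LT.exp` with `Y = X'`, `B m = M`, `B y = {y}` for `y ≠ m`; `⋃ y ∈ X', B y = X`; `LT R (B y)` by (1) or
`LT.single`.  Let `A ⊆ X'`, `(Rw G X' A).encard ≤ k`, `A' = ⋃ y ∈ A, B y`.  If `m ∈ A` then
`A' = (A \ {m}) ∪ M`, `X \ A' = X' \ A`, and `Rw G X A' ⊆ Rw G X' A`: the row of `a ∈ A \ {m}` is unchanged, the
row of `a ∈ M` is the row of `m` (both outside `M`).  If `m ∉ A` then `A' = A` and
`Rw G X A ⊆ (fun T => T ∪ {y | y ∈ M ∧ m ∈ T}) '' Rw G X' A` (an element `a ∈ A` is adjacent to all or to no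
elements of `M`, and `A ∩ M = ∅`). -/
def S_R1 : Prop := ∀ (V : Type) (G : SimpleGraph V) (X M : Set V) (m : V) (k : ℕ),
  Mod G X M → m ∈ M → RL G M k M → RL G ((X \ M) ∪ {m}) k ((X \ M) ∪ {m}) → RL G X k X

/-- **R2.** Only prime sets matter.  (Uses `S_R1`.)

Proof. Strong induction on `X.ncard`.  If `Prm G X` use the hypothesis.  Otherwise there is a module `M` of
`X` which is not subsingleton and not `X`; let `m ∈ M`.  `M` and `(X \ M) ∪ {m}` are subsets of `X` with fewer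
elements; the hypothesis is inherited by subsets.  `S_R1`. -/
def S_R2 : Prop := ∀ (V : Type) [Finite V] (G : SimpleGraph V) (X : Set V) (k : ℕ),
  (∀ Y ⊆ X, Prm G Y → RL G Y k Y) → RL G X k X

/-- **R3.** The two notions of layouts.

Proof. (1) Induction on the layout, for all sets `A ⊆ S` with `Lay (restr G S) k A`: `RL G S (k + 1) A`.  In the
union step `Rw G S A ⊆ insert ∅ (Types (restr G S) A)` (`A ⊆ S`: the row `(G.neighborSet a ∩ S) \ A` is
`(restr G S).neighborSet a \ A`).  (2) `Types G A ⊆ Rw G Set.univ A`.  Induction on `LT`. -/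
def S_R3 : Prop :=
  (∀ (V : Type) (G : SimpleGraph V) (S : Set V) (k : ℕ), Lay (restr G S) k S → RL G S (k + 1) S) ∧
  ∀ (V : Type) (G : SimpleGraph V) (k : ℕ), 1 ≤ k → RL G Set.univ k Set.univ → Lay G k Set.univ

/-- **R4.** Hanging a small set `J` at `a ∈ J`, if outside `J` every element of `J` is adjacent to everything
or has the same neighbours as `a`.

Proof. `Y' = (Y \ J) ∪ {a}`.  `LT.exp` with `B a = J`, `B y = {y}` for `y ≠ a`; `⋃ y ∈ Y', B y = Y`.
`LT R (B a)`: `LT.of_all`: a set `B ⊆ J` has at most `5` rows (`rw_encard_le`), and one more for the full row.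
Let `A ⊆ Y'`, `(insert (Y' \ A) (Rw G Y' A)).encard ≤ k`, `A' = ⋃ y ∈ A, B y`.  If `a ∈ A`: `A' = A ∪ J`,
`Y \ A' = Y' \ A`, the row of `w ∈ A` is unchanged, the row of `j ∈ J` in `Y` is full or the row of `a`; so
`insert (Y \ A') (Rw G Y A') ⊆ insert (Y' \ A) (Rw G Y' A)`.  If `a ∉ A`: `A' = A`, `A ∩ J = ∅`, and
`insert (Y \ A) (Rw G Y A) ⊆ φ '' insert (Y' \ A) (Rw G Y' A)`,
`φ T = T ∪ {j | j ∈ J ∧ ((∀ z ∈ Y \ J, G.Adj j z) ∨ a ∈ T)}`. -/
def S_R4 : Prop := ∀ (V : Type) [Finite V] (G : SimpleGraph V) (Y J : Set V) (a : V) (k : ℕ),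
  J ⊆ Y → a ∈ J → J.ncard ≤ 5 → 6 ≤ k →
  (∀ j ∈ J, (∀ z ∈ Y \ J, G.Adj j z) ∨ ∀ z ∈ Y \ J, (G.Adj j z ↔ G.Adj a z)) →
    RLp G ((Y \ J) ∪ {a}) k ((Y \ J) ∪ {a}) → RLp G Y k Y

/-- **R5.** Layouts of paths and cycles.

Proof. Induction on `m ≤ n`: `RL G X 3 {x | ∃ i < m, x = p i}` (`LT.insert`; for `m + 1` the new element is
`p m`, which is not in the set for `m` by injectivity).  Rows of `A = {p i | i < m}`, `m ≤ n`: for
`0 < i`, `i + 1 < m` all neighbours of `p i` in `X` are in `A`, so its row is `∅`.  So there are at most three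
rows: of `p 0`, of `p (m - 1)` and `∅`. -/
def S_R5 : Prop := ∀ (V : Type) (G : SimpleGraph V) (X : Set V) (n : ℕ) (p : ℕ → V),
  (∀ i < n, ∀ j < n, p i = p j → i = j) →
  (∀ i, 0 < i → i + 1 < n → ∀ y ∈ X, G.Adj (p i) y → y = p (i - 1) ∨ y = p (i + 1)) →
    RL G X 3 {x | ∃ i < n, x = p i}

/-! ## Part E: ears -/

/-- ear systems: `E` is a set of vertices of `Y`, the neighbours of `e ∈ E` in `D[Y]` are `u e` and `v e`,
which are adjacent; the other neighbours of `u e` are complete to the other neighbours of `v e` -/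
structure ES {V : Type} (D : SimpleGraph V) (Y E : Set V) (u v : V → V) : Prop where
  sub : E ⊆ Y
  mu : ∀ e ∈ E, u e ∈ Y \ E
  mv : ∀ e ∈ E, v e ∈ Y \ E
  eu : ∀ e ∈ E, D.Adj e (u e)
  ev : ∀ e ∈ E, D.Adj e (v e)
  uv : ∀ e ∈ E, D.Adj (u e) (v e)
  nbe : ∀ e ∈ E, ∀ y ∈ Y, D.Adj e y → y = u e ∨ y = v e
  bis : ∀ e ∈ E, ∀ a ∈ Y \ E, D.Adj (u e) a → a ≠ v e → ∀ b ∈ Y \ E, D.Adj (v e) b → b ≠ u e → D.Adj a b
  inju : ∀ e ∈ E, ∀ f ∈ E, u e = u f → e = f
  injv : ∀ e ∈ E, ∀ f ∈ E, v e = v f → e = f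
  dis : ∀ e ∈ E, ∀ f ∈ E, u e ≠ v f

/-- `e` and `f` have the same neighbours at `u` and at `v` (outside `E`) -/
def Tw {V : Type} (D : SimpleGraph V) (Y E : Set V) (u v : V → V) (e f : V) : Prop :=
  (∀ y ∈ Y \ E, (D.Adj (u e) y ↔ D.Adj (u f) y)) ∧ ∀ y ∈ Y \ E, (D.Adj (v e) y ↔ D.Adj (v f) y)

/-- representatives of the classes of `Tw` -/
structure Rep {V : Type} (D : SimpleGraph V) (Y E : Set V) (u v : V → V) (ρ : V → V) : Prop where
  mem : ∀ e ∈ E, ρ e ∈ E
  tw : ∀ e ∈ E, Tw D Y E u v e (ρ e)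
  eq : ∀ e ∈ E, ∀ f ∈ E, Tw D Y E u v e f → ρ e = ρ f

/-- `Y \ E` without the ends of the ears which are not representatives -/
def Y1 {V : Type} (Y E : Set V) (u v ρ : V → V) : Set V :=
  (Y \ E) \ {z | ∃ e ∈ E, ρ e ≠ e ∧ (z = u e ∨ z = v e)}

/-- what hangs at `y`: if `y = u r` for a representative `r`, then `r` and all triples `e, u e, v e` of
the other members `e` of its class -/
def Hst {V : Type} (E : Set V) (u v ρ : V → V) (y : V) : Set V :=
  {z | z = y ∨ ∃ r ∈ E, ρ r = r ∧ y = u r ∧ (z = r ∨ ∃ e ∈ E, ρ e = r ∧ e ≠ r ∧ (z = e ∨ z = u e ∨ z = v e))}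

/-- **E1.** Two ears which cross a set with the same row at `u` are twins (at `u` and at `v`).

Proof. `D = Gᶜ`.  Let `e ≠ f` (otherwise trivial).  `v e ∈ Z \ A`, `v e ≠ u f` (`dis`), `v f ≠ u e`.  Since
`D.Adj (u e) (v e)`, `v e` is not in the row of `u e`, hence not in the row of `u f`; so `D.Adj (u f) (v e)`
(they are distinct, not adjacent in `G`); in the same way `D.Adj (u e) (v f)`.
Let `y ∈ Y \ E`, `D.Adj (u e) y`.  If `y = v e` then `D.Adj (u f) y`.  Otherwise `bis e` with `a = y`,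
`b = u f` (`D.Adj (v e) (u f)`, `u f ≠ u e` by `inju`): `D.Adj y (u f)`.  By symmetry (`e ↔ f`) the first half of
`Tw`.  Let `D.Adj (v e) y`.  If `y = u e`: `D.Adj (v f) y`.  Otherwise `bis e` with `a = v f`
(`D.Adj (u e) (v f)`, `v f ≠ v e` by `injv`), `b = y`: `D.Adj (v f) y`. -/
def S_E1 : Prop := ∀ (V : Type) (G : SimpleGraph V) (Y E A Z : Set V) (u v : V → V),
  ES Gᶜ Y E u v → ∀ e ∈ E, ∀ f ∈ E, u e ∈ A → u f ∈ A → v e ∈ Z → v f ∈ Z → v e ∉ A → v f ∉ A →
    (G.neighborSet (u e) ∩ Z) \ A = (G.neighborSet (u f) ∩ Z) \ A → Tw Gᶜ Y E u v e f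

/-- **E2.** The sets which hang at the vertices `u r` have layouts with at most four rows.

Proof. `D = Gᶜ`.  If there is no `r ∈ E` with `ρ r = r`, `y = u r`, then `Hst .. y = {y}`.  Otherwise `r` is
unique (`inju`), `Hst .. y = {u r, r} ∪ ⋃ e ∈ F, {e, u e, v e}`, `F = {e ∈ E | ρ e = r, e ≠ r}` (a finite set).
`LT.biUnion` with the index set `insert r F` and `B r = {u r, r}`, `B e = {e, u e, v e}` (pairwise disjoint
by `inju`, `injv`, `dis`, `mu`, `mv`).  `LT R (B e)` since `B e` has at most three elements (`RL.small`).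
Let `F' ⊆ insert r F`, `S = ⋃ e ∈ F', B e`.  For `y ∈ Y \ S`, `e ∈ F'`:
(a) `D.Adj (u e) y ↔ y ∉ E ∧ D.Adj (u r) y`: if `y ∈ E` then `u e ∈ {u y, v y}` by `nbe`, so `y = e ∈ S`,
contradiction; if `y ∉ E` use `Tw e r` (`Rep.tw`, `ρ e = r`; for `e = r` trivial).  So all `u e`, `e ∈ F'`, have
the same row (note `u e ≠ y`).  (b) In the same way all `v e`, `e ∈ F' \ {r}`, have the same row.  (c) the row
of `e ∈ F' \ {r}` is full: `D.Adj e y` only for `y = u e`, `v e`, which are in `S`.  (d) the row of `r`.  So at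
most four rows. -/
def S_E2 : Prop := ∀ (V : Type) [Finite V] (G : SimpleGraph V) (Y E : Set V) (u v ρ : V → V),
  ES Gᶜ Y E u v → Rep Gᶜ Y E u v ρ → ∀ y ∈ Y1 Y E u v ρ, RL G Y 4 (Hst E u v ρ y)

/-- **E3.** The number of crossing classes.  (Uses `S_E1`.)

Proof. First set `C`: the map `r ↦ (G.neighborSet (u r) ∩ Z) \ A` from `C` to `Rw G Z A` (`Z = Y1 Y E u v ρ`)
is injective: if `r, s ∈ C` have the same image then `Tw r s` by `S_E1`, so `r = ρ r = ρ s = s`.  (`v r ∈ Z`.)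
Second set: the same with `u` and `v` exchanged: `ES Gᶜ Y E v u` holds (all fields are symmetric up to
`D.symm`) and `Tw D Y E v u` is `Tw D Y E u v` with the two parts exchanged. -/
def S_E3 : Prop := ∀ (V : Type) [Finite V] (G : SimpleGraph V) (Y E A : Set V) (u v ρ : V → V) (k : ℕ),
  ES Gᶜ Y E u v → Rep Gᶜ Y E u v ρ → A ⊆ Y1 Y E u v ρ → (Rw G (Y1 Y E u v ρ) A).encard ≤ k →
    {r | r ∈ E ∧ ρ r = r ∧ u r ∈ A ∧ v r ∉ A}.encard ≤ k ∧
    {r | r ∈ E ∧ ρ r = r ∧ v r ∈ A ∧ u r ∉ A}.encard ≤ k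

/-- **E4.** The number of rows of the expanded sets.  (Uses `S_E3`.)

Proof. `D = Gᶜ`, `Z = Y1 Y E u v ρ`, `Y₀ = Y \ E`, `A' = ⋃ y ∈ A, Hst E u v ρ y`,
`C = {r ∈ E | ρ r = r, u r ∈ A, v r ∉ A}`, `C' = {r ∈ E | ρ r = r, v r ∈ A, u r ∉ A}`, `S₂ = v '' C' ∪ C'`.
`C`, `C'` have at most `k` elements (`S_E3`), `S₂` at most `2 k`.  For `r` representative `u r, v r ∈ Z`
(`inju`, `injv`, `dis`).  The sets `Hst .. y`, `y ∈ Z`, are pairwise disjoint with union `Y`; for `e ∈ E` with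
`r = ρ e`: `e ∈ A' ↔ u r ∈ A`; if `ρ e ≠ e` then also `u e, v e ∈ A' ↔ u r ∈ A`.
(1) ROWS OF `a ∈ A' \ E`.  Claim: the row of `a` in `Y` is determined by the two sets
`(G.neighborSet a ∩ Z) \ A` and `G.neighborSet a ∩ S₂`.  Let `y ∈ Y \ A'`; we have to decide `G.Adj a y`, i.e.
`D.Adj a y` (`a ≠ y`).
  (1a) `y ∈ Z`: then `y ∈ Z \ A` and `G.Adj a y` is read off from the first set.
  (1b) `y = u e`, `ρ e ≠ e`, `r = ρ e`: `u r ∉ A` (otherwise `y ∈ A'`), `D.Adj a y ↔ D.Adj a (u r)` (`Rep.tw`,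
  `a ∈ Y₀`), `u r ∈ Z \ A`, `a ≠ u r` (`u r ∉ A'`): read off from the first set.
  (1c) `y = v e`, `ρ e ≠ e`, `r = ρ e`: `u r ∉ A`, `D.Adj a y ↔ D.Adj a (v r)`.  If `v r ∉ A`: as before.  If
  `v r ∈ A` then `r ∈ C'`, `v r ∈ S₂`, `r ∈ S₂`.  `D.Adj a (v r) ↔ a ≠ v r ∧ ¬ G.Adj a (v r)`; `G.Adj a (v r)` is
  read off from the second set, and `a = v r ↔ ¬ G.Adj a r`: `a ≠ r` (`a ∉ E`), `D.Adj a r ↔ a = u r ∨ a = v r`,
  and `a ≠ u r` since `u r ∉ A'`.  `G.Adj a r` is read off from the second set.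
  (1d) `y ∈ E`: `D.Adj a y ↔ a = u y ∨ a = v y`.  `u (ρ y) ∉ A`.  If `ρ y ≠ y` then `u y, v y ∉ A'`, so
  `G.Adj a y` is true.  If `ρ y = y`: `u y ∉ A'`; if `v y ∉ A` then `v y ∉ A'` and `G.Adj a y` is true;
  otherwise `y ∈ C' ⊆ S₂`, read off from the second set.
  So (use `encard_factor`-like argument: the row factors through `κ a = (first set, second set)`) the number
  of these rows is at most the number of pairs.  The second set is a subset of `S₂`: at most `2 ^ (2 k)`.  The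
  first set: for `a ∈ A` at most `k` values (`Rw G Z A`).  For `a ∉ A`: `a = u e` or `a = v e`, `ρ e ≠ e`,
  `r = ρ e`, `u r ∈ A`.  For `a = u e` the first set is the one of `u r ∈ A` (for `y ∈ Z \ A`:
  `D.Adj (u e) y ↔ D.Adj (u r) y`, and `y ≠ u e` (`u e ∉ Z`), `y ≠ u r`).  For `a = v e`: if `v r ∈ A` it is the one
  of `v r`; if `v r ∉ A` then `r ∈ C` and the first set is `{y ∈ Z \ A | ¬ D.Adj (v r) y}` (at most `k` values).
  Together at most `2 k` values, so at most `2 k 4 ^ k` rows.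
(2) ROWS OF `a ∈ A' ∩ E`.  `D.Adj a y`, `y ∈ Y \ A'`, implies `y = u a` or `y = v a`.  `u (ρ a) ∈ A`.  If
`ρ a ≠ a` then `u a, v a ∈ A'`: the row is full.  If `ρ a = a` then `u a ∈ A`, and if `v a ∈ A` the row is
full; otherwise `a ∈ C`.  So at most `k + 1` rows.
Together `≤ 2 k 4 ^ k + k + 1 ≤ (3 k + 1) 4 ^ k`. -/
def S_E4 : Prop := ∀ (V : Type) [Finite V] (G : SimpleGraph V) (Y E A : Set V) (u v ρ : V → V) (k : ℕ),
  ES Gᶜ Y E u v → Rep Gᶜ Y E u v ρ → A ⊆ Y1 Y E u v ρ → (Rw G (Y1 Y E u v ρ) A).encard ≤ k →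
    (Rw G Y (⋃ y ∈ A, Hst E u v ρ y)).encard ≤ ((3 * k + 1) * 4 ^ k : ℕ)

/-- **E5.** Layouts with ears.  (Uses `S_E2`, `S_E4`.)

Proof. `Tw` is an equivalence relation on `E`; take `ρ` with `Rep Gᶜ Y E u v ρ` (for instance by choice from
the class `{f ∈ E | Tw e f}`: `ρ e = Classical.choose` of the nonempty set; equal classes give equal
choices: define `ρ e = if h : {f | f ∈ E ∧ Tw e f}.Nonempty then h.some else e`; for `Tw e f` the two sets are
equal).  `Z = Y1 Y E u v ρ ⊆ Y \ E`: `RL G Z k Z` by `RL.restrict`.  `LT.exp` with `B = Hst E u v ρ`: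
`⋃ y ∈ Z, Hst .. y = Y`, pairwise disjoint (as in `S_E4`), `S_E2` (with `RL.mono`), `S_E4`. -/
def S_E5 : Prop := ∀ (V : Type) [Finite V] (G : SimpleGraph V) (Y E : Set V) (u v : V → V) (k : ℕ),
  ES Gᶜ Y E u v → RL G (Y \ E) k (Y \ E) → RL G Y ((3 * k + 1) * 4 ^ k + 4) Y

/-! ## Part A: prime graphs without `P_5` -/

/-- a fork: `u ~ b, c, a`, `a ~ z`, no other edges -/
structure Fork {V : Type} (G : SimpleGraph V) (X : Set V) (u b c a z : V) : Prop where
  mu : u ∈ X
  mb : b ∈ X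
  mc : c ∈ X
  ma : a ∈ X
  mz : z ∈ X
  ub : G.Adj u b
  uc : G.Adj u c
  ua : G.Adj u a
  az : G.Adj a z
  bc' : b ≠ c
  bc : ¬ G.Adj b c
  ba : ¬ G.Adj b a
  bz : ¬ G.Adj b z
  ca : ¬ G.Adj c a
  cz : ¬ G.Adj c z
  uz : ¬ G.Adj u z

/-- a banner: `u ~ a, b, c`, `z ~ a, b`, no other edges -/
structure Ban {V : Type} (G : SimpleGraph V) (X : Set V) (u z a b c : V) : Prop where
  mu : u ∈ X
  mz : z ∈ X
  ma : a ∈ X
  mb : b ∈ X
  mc : c ∈ X
  ua : G.Adj u a
  ub : G.Adj u b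
  uc : G.Adj u c
  za : G.Adj z a
  zb : G.Adj z b
  uz : ¬ G.Adj u z
  zc : ¬ G.Adj z c
  ab' : a ≠ b
  ab : ¬ G.Adj a b
  ac : ¬ G.Adj a c
  bc : ¬ G.Adj b c

/-- **A1.** No forks.

Proof. Fact: for a fork `u; b, c; a - z` and `y ∈ X`, `y ~ b`, `y` not `~ c`: `y ~ u`, `y` not `~ a, z`.  Cases
of the adjacencies of `y` to `u, a, z`:
no, no, no: `P_5` `y b u a z`.  no, no, yes: `P_5` `c u b y z`.  no, yes, no: bull `{{a}, {u}, {b, y}; z on a, c on u}`
(`bullS`).  no, yes, yes: `P_5` `c u b y z`.  yes, yes, no: bull `{u, a, y; c on u, z on a}`.  yes, no, yes and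
yes, yes, yes: bull `{u, y, b; c on u, z on y}`.
Closure (`Prm.closure`) with `M₀ = {b, c}` and
`P M = M ⊆ {x | x ~ u ∧ ¬ x ~ a ∧ ¬ x ~ z} ∧ Conn Gᶜ M`.  Step: `y` mixed on `M`; by `mixed_co` there are
`x, m ∈ M`, `y ~ x`, `y` not `~ m`, `x ≠ m`, `x` not `~ m`; `Fork G X u x m a z`; so by the fact
`y ~ u`, `y` not `~ a, z`; `insert y M` is co-connected (`Conn.insert`: `Gᶜ.Adj m y`).  Result: `X` itself is
contained in `{x | x ~ u ..}`, but `u ∈ X` is not adjacent to itself. -/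
def S_A1 : Prop := ∀ (V : Type) [Finite V] (G : SimpleGraph V) (X : Set V), Prm G X → BF G X →
  NoP G X 5 → ∀ u b c a z, ¬ Fork G X u b c a z

/-- **A2.** Three pairwise non-adjacent vertices have a common neighbour.

Proof. Suppose not.  FIRST VERTEX: let `S ⊆ X` be a set such that every element of `S` has a neighbour in `S`,
and let `d ∈ X`, `d ∉ S`, be without neighbours in `S`.  `path` with `C = X`, `{d}`, `{y | ∃ s ∈ S, y ~ s}`:
an induced path `r 0 = d, ..., r l`, only `r l` has a neighbour in `S`; `l ≥ 1`; all `r i` are not in `S`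
(for `i < l` since elements of `S` have neighbours in `S`; `r l ∈ S` would give `r (l-1)` a neighbour in
`S`).  `q = r l`, `p = r (l-1)`, and if `l ≥ 2`: `p' = r (l-2)`, `p' ~ p`, `p'` not `~ q`; `p, p'` have no
neighbours in `S`.
CASE 1: two of the three vertices have a common neighbour; by symmetry `x ~ a, b`, `x` not `~ c`.
`S = {a, x, b}`, `d = c`.  Neighbours of `q` in `S`: `{x}`: `Fork x a b q p`.  `{a}`: `P_5` `p q a x b`.
`{b}`: `P_5` `p q b x a`.  `{a, x}`: bull `{q, x, a; p on q, b on x}`.  `{b, x}`: bull `{q, x, b; p on q, a on x}`.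
`{a, b}`: if `l = 1` then `p = c` and `q` is a common neighbour of `a, b, c`; otherwise `P_5` `p' p q a x`.
`{a, b, x}`: if `l = 1` as before; otherwise `Fork q a b p p'`.
CASE 2: no two of the three vertices have a common neighbour.  `path` from `a` to `b` in `X`: induced
`s 0 = a, ..., s l = b`, `l ≥ 2`; `l = 2` is a common neighbour; `l ≥ 4` gives the `P_5` `s 0 .. s 4`; so
`l = 3`: `a, x, y, b`.  `S = {a, x, y, b}`, `d = c` (`c` not `~ x`: otherwise `x` is a common neighbour of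
`a, c`; the same for `y`).  Neighbours of `q` in `S` (not both `a` and `b`): `{a}`: `P_5` `q a x y b`.  `{x}`
and `{a, x}`: `P_5` `p q x y b`.  `{a, y}`: `Fork y x b q p`.  `{x, y}`: bull `{x, y, q; a on x, b on y}`.
`{a, x, y}`: bull `{q, y, x; p on q, b on y}`.  The cases with `b` instead of `a` by the symmetry
`a ↔ b, x ↔ y`. -/
def S_A2 : Prop := ∀ (V : Type) [Finite V] (G : SimpleGraph V) (X : Set V), Conn G X → BF G X →
  NoP G X 5 → (∀ u b c a z, ¬ Fork G X u b c a z) → ∀ a ∈ X, ∀ b ∈ X, ∀ c ∈ X, a ≠ b → a ≠ c → b ≠ c →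
    ¬ G.Adj a b → ¬ G.Adj a c → ¬ G.Adj b c → ∃ w ∈ X, G.Adj w a ∧ G.Adj w b ∧ G.Adj w c

/-- **A3.** There is a banner.

Proof. `T = {a, b, c}`, `C` = the set of common neighbours of `T` in `X`; `u ∈ C`.
(1) If `y ∈ X` is mixed on `T` then `y ~ w` for all `w ∈ C`: otherwise, if `y` is adjacent to exactly one
element of `T`, say to `a`: `Fork w b c a y`; if exactly to two, say `a` and `b`: `Ban w y a b c`.
(2) `Prm.closure` with `M₀ = T` and
`P M = Conn Gᶜ M ∧ (∀ w ∈ C, ∀ m ∈ M, w ~ m) ∧`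
`(∀ y ∈ X, y ∉ M → (∀ t ∈ T, ¬ y ~ t) → (∃ m ∈ M, y ~ m) → ∀ w ∈ C, y ~ w)`.
`P T`: co-connected; the third condition is void.  Step `M → insert y M`, `y` mixed on `M`, `T ⊆ M`:
`y ~ w` for all `w ∈ C`: if `y` is complete to `T` then `y ∈ C`, which is complete to `M`: contradiction to
mixed; if `y` is mixed on `T` use (1); if `y` has no neighbours in `T` use the third condition.  `insert y M`
is co-connected (`y` has a non-neighbour in `M`).  Third condition for `insert y M`: let `z ∉ insert y M`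
have no neighbours in `T` and a neighbour in `insert y M`, `w ∈ C`.  If `z` has a neighbour in `M`: old.
Otherwise `z ~ y` and `z` has no neighbours in `M`; suppose `z` not `~ w`.  By `mixed_co` there are
`x, m ∈ M`, `y ~ x`, `y` not `~ m`, `x` not `~ m`: bull `{w, y, x; m on w, z on y}`.  Contradiction.
(3) `P X` implies `u ~ u`: contradiction. -/
def S_A3 : Prop := ∀ (V : Type) [Finite V] (G : SimpleGraph V) (X : Set V), Prm G X → BF G X →
  (∀ u b c a z, ¬ Fork G X u b c a z) → (∀ u z a b c, ¬ Ban G X u z a b c) →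
    ∀ a ∈ X, ∀ b ∈ X, ∀ c ∈ X, ∀ u ∈ X, a ≠ b → a ≠ c → b ≠ c → ¬ G.Adj a b → ¬ G.Adj a c →
      ¬ G.Adj b c → G.Adj u a → G.Adj u b → G.Adj u c → False

/-- **A4.** There is no banner.

Proof. Fact: for `Ban u z a b c` and `y ∈ X`, `y ~ a`, `y` not `~ b`: `y ~ u`, `y ~ z`, `y` not `~ c`.  Cases of
the adjacencies of `y` to `u, z, c`:
no, no, no: `Fork a y z u c`.  no, no, yes and yes, no, yes: `P_5` `b z a y c`.  no, yes, no: `P_5` `c u b z y`.
no, yes, yes and yes, yes, yes: bull `{z, y, a; b on z, c on y}`.  yes, no, no: bull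
`{a, u, y; z on a, c on u}`.
Closure as in `S_A1` with `M₀ = {a, b}`, `P M = M ⊆ {x | x ~ u ∧ x ~ z ∧ ¬ x ~ c} ∧ Conn Gᶜ M`: for `y` mixed
on `M`, `x, m` from `mixed_co`: `Ban u z x m c`.  Result: `u ~ u`. -/
def S_A4 : Prop := ∀ (V : Type) [Finite V] (G : SimpleGraph V) (X : Set V), Prm G X → BF G X →
  NoP G X 5 → (∀ u b c a z, ¬ Fork G X u b c a z) → ∀ u z a b c, ¬ Ban G X u z a b c

/-- **A.** A prime graph without bull and without `P_5` has no three pairwise non-adjacent vertices.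
(Uses `S_A1`, ..., `S_A4`.)

Proof. Three such vertices: `3 ≤ X.ncard`, so `Conn G X` (`Prm.conn`).  `S_A1`, `S_A4`, `S_A2`, `S_A3`. -/
def S_A : Prop := ∀ (V : Type) [Finite V] (G : SimpleGraph V) (X : Set V), Prm G X → BF G X →
  NoP G X 5 → Al2 G X

/-! ## Part B: cut vertices, long cycles, `P_6` -/

/-- **B1.** A component at a cut vertex `v` with two neighbours of `v` is an induced path.

Proof. There is `w ∈ X \ C`, `w ≠ v`, `w ~ v`: take `w' ∈ (X \ {v}) \ C` and its component `C₂` of `G[X \ {v}]`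
(`exists_comp`); `C₂ ≠ X` and `Conn G X` give a vertex of `X` in `nb G C₂`, it is `v`; `C₂ ∩ C = ∅` (both
are components and `w' ∉ C`).  `w` has no neighbours in `C`.  No vertex of `X` outside `C ∪ {v}` has
neighbours in `C`.  `N = {x ∈ C | x ~ v}`, `Z = C \ N`.  `2 ≤ |N|`.
`Z ≠ ∅`: otherwise `C` is a module of `G[X]`, not subsingleton, not `X` (`v ∉ C`).
(BL) For `n ≠ n'` in `N`, `K ⊆ Z` connected and touching `{n}` and `{n'}`, `z ∈ Z \ K` with a neighbour in
`K ∪ {n'}`: `z ~ n`.  Otherwise bull `{{v}, {n}, K ∪ {n'}; {w} on v, {z} on K ∪ {n'}}`... the arguments of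
`bullS`: `A = {v}`, `B = K ∪ {n'}`, `C = {n}`, `P = {w}`, `Q = {z}`.
(S1) Let `Y` be a component of `G[Z]`.  `nb G Y ∩ X ⊆ N`.  Claim: every `n₃ ∈ N` has a neighbour in `Y`.
Otherwise let `N' = {n ∈ N | n has a neighbour in Y}`, `R` the component of `n₃` in `G[C \ (Y ∪ N')]`.  `R` does
not touch `Y` (neighbours of `Y` in `C` are in `N'`).  `R ≠ C`, `Conn G C` give `a ∈ C \ R` with a neighbour in
`R`; `a ∉ C \ (Y ∪ N')`, `a ∉ Y`, so `a ∈ N'`.  Bull `{{v}, {a}, R; {w} on v, Y on a}`.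
(S2) `N` is independent.  Otherwise let `K` be a component of `G[N]` with two elements.  `K` is a module:
`v` is complete to `K`; other elements of `N` and the vertices outside `C ∪ {v}` have no neighbours in `K`;
let `z ∈ Z` be mixed on `K`; by `mixed_conn` there are `n₁ ~ n₂` in `K`, `z ~ n₁`, `z` not `~ n₂`: bull
`{v, n₁, n₂; w on v, z on n₁}`.
(S3) Let `Y` be a component of `G[Z]`, `n₁ ≠ n₂` in `N`.  If some `y₀ ∈ Y` is adjacent to both then all are:
the set of these vertices is closed in `Y`: let `y'` be adjacent to both and `z ∈ Y`, `z ~ y'`: (BL) with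
`K = {y'}` twice.
(S4) `N` is not a module (not subsingleton, `≠ X`), so (by S2) there are a component `Y` of `G[Z]` and
`n₁ ≠ n₂` in `N`, `y ∈ Y` adjacent to `n₁` and not to `n₂`, hence by (S3) no vertex of `Y` is adjacent to
both.  `path` in `Y` with `{x | x ~ n₁}`, `{x | x ~ n₂}` (nonempty in `Y` by S1): `p 0, ..., p l`, `p i ~ n₁` iff
`i = 0`, `p i ~ n₂` iff `i = l`; `l ≥ 1`.  `Y = {p i}`: otherwise there is `z ∈ Y \ {p i}` with a neighbour in
`{p i}`; by (BL) (twice) `z ~ n₁, n₂`: contradiction.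
(S5) `N = {n₁, n₂}`: let `n₃ ∈ N` be another element; by (S1) `n₃ ~ p j` for some `j`, take the smallest.  If
`j < l`: (BL) with `n = n₁`, `n' = n₃`, `K = {p 0, ..., p j}`, `z = p (j+1)` gives `p (j+1) ~ n₁`:
contradiction.  If `j = l`: (BL) with `n = n₂`, `n' = n₃`, `K = {p l}`, `z = p (l-1)` gives `p (l-1) ~ n₂`:
contradiction (`l ≥ 1`).
(S6) `Z = Y`: let `Y₂` be another component of `G[Z]`: (BL) with `n = n₂`, `n' = n₁`, `K = Y₂` (touches both by
S1), `z = p 0` (`~ n'`) gives `p 0 ~ n₂`: contradiction.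
So `C = {n₁, p 0, ..., p l, n₂}` is an induced path with `l + 3` vertices; the inner vertices `p i` are in
`Z`, not adjacent to `v`. -/
def S_B1 : Prop := ∀ (V : Type) [Finite V] (G : SimpleGraph V) (X C : Set V) (v : V), Prm G X → BF G X →
  Conn G X → v ∈ X → IsComp G (X \ {v}) C → C ≠ X \ {v} →
    ∀ a ∈ C, ∀ b ∈ C, a ≠ b → G.Adj v a → G.Adj v b →
      ∃ (n : ℕ) (p : ℕ → V), IP G X n p ∧ C = {x | ∃ i < n, x = p i} ∧
        ∀ i, 0 < i → i + 1 < n → ¬ G.Adj (p i) v

/-- **B2.** Layouts of prime graphs with a cut vertex.  (Uses `S_B1`, `S_R5`.)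

Proof. `R B = ((Rw G X B).encard ≤ 3)`.  CLAIM: for every `v ∈ X` and every component `C` of `G[X \ {v}]` with
`C ≠ X \ {v}`: `LT R C`.  Strong induction on `C.ncard`, for all `v`.  `N = {x ∈ C | x ~ v}` is nonempty
(`Conn G X`).  If `N` has two elements: `S_B1` and `S_R5`: for `0 < i`, `i + 1 < n` the neighbours of `p i` in
`X` are in `C ∪ {v}`, not `v`, so they are `p (i-1)`, `p (i+1)`.  If `N = {n}`: the components `C'` of
`G[C \ {n}]` are components of `G[X \ {n}]` (a vertex of `X \ {n}` with a neighbour in `C'` is in `C ∪ {v}`,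
and `v` has only the neighbour `n` in `C`), `C' ≠ X \ {n}` (`v ∉ C'`), `|C'| < |C|`: `LT R C'`.  Unions of
such components have only rows `⊆ {n}` (two rows), `LT.biUnion` (index: a finite set of the components, as
`Finset (Set V)`): `LT R (C \ {n})`.  Then `LT.insert`: the rows of `C` are `⊆ {v}`: two rows.
Theorem: let `v` be the cut vertex; if `X \ {v} = ∅` then `X = {v}`.  All components of `G[X \ {v}]` are
`≠ X \ {v}` (which is not connected), the rows of unions of them are `⊆ {v}`: `LT.biUnion`; then `v` is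
inserted (only row `∅`). -/
def S_B2 : Prop := ∀ (V : Type) [Finite V] (G : SimpleGraph V) (X : Set V) (v : V), Prm G X → BF G X →
  Conn G X → v ∈ X → ¬ Conn G (X \ {v}) → RL G X 3 X

/-- **B3.** Domination.

Proof. Let `z₀ ∈ M`, `z₀` not `~ f`.  `path` in `C = M` with `{z | ¬ f ~ z}` and `P`: `r 0, ..., r l`, `r i ~ f`
for `1 ≤ i`, `r 0` not `~ f`, `r i ∈ P` only for `i = l`; `l ≥ 1`.  `r 0 ∉ P`, so by (h1) `r 0` has no
neighbours in `P`; so `l ≥ 2`, `r 1 ∉ P`.
If `r 1` has a neighbour in `P`: take `q, q'` from (h2) for `m = r 1`: bull `{f, r 1, q; q' on f, r 0 on r 1}`.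
Otherwise `l ≥ 3`, `r 2 ∉ P`.  There is `q ∈ P`, `q` not `~ r 2` (if `r 2` has a neighbour in `P` by (h2),
otherwise any).  Bull `{f, r 1, r 2; q on f, r 0 on r 1}`. -/
def S_B3 : Prop := ∀ (V : Type) (G : SimpleGraph V) (X P M : Set V) (f : V), BF G X → Conn G M →
  P.Nonempty → P ⊆ M → M ⊆ X → f ∈ X → (∀ q ∈ P, G.Adj f q) →
  (∀ m ∈ M, m ∉ P → (∃ q ∈ P, G.Adj m q) → G.Adj f m ∧
    ∃ q ∈ P, ∃ q' ∈ P, G.Adj m q ∧ ¬ G.Adj m q' ∧ ¬ G.Adj q q' ∧ q ≠ q') → ∀ m ∈ M, G.Adj f m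

/-- **B4.** No vertex is complete to `P`.  (Uses `S_B3`.)

Proof. `F = {f ∈ X | f ∉ P ∧ ∀ q ∈ P, f ~ q}`; suppose `f₀ ∈ F`.  `M` = component of `G[X \ F]` containing a
given element of `P`; `P ⊆ M` (otherwise `P ∩ M` is a nonempty proper subset of `P`; `Conn G P` gives an edge
to an element of `P \ M`, which is in `X \ F`: contradiction).  For every `f ∈ F` `S_B3` shows that `f` is
complete to `M` (`m ∈ M`, `m ∉ P` is not in `F`, so it has a non-neighbour in `P`).  So `M` is a module of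
`G[X]`: vertices in `X \ M` are in `F` (complete) or have no neighbours in `M`.  `M` is not subsingleton,
`f₀ ∉ M`: contradiction to `Prm`. -/
def S_B4 : Prop := ∀ (V : Type) [Finite V] (G : SimpleGraph V) (X P : Set V), Prm G X → BF G X →
  Conn G P → P ⊆ X → ¬ P.Subsingleton →
  (∀ f ∈ X, f ∉ P → (∀ q ∈ P, G.Adj f q) → ∀ m ∈ X, m ∉ P → (∃ q ∈ P, G.Adj m q) →
    (∃ q ∈ P, ¬ G.Adj m q) → G.Adj f m ∧
      ∃ q ∈ P, ∃ q' ∈ P, G.Adj m q ∧ ¬ G.Adj m q' ∧ ¬ G.Adj q q' ∧ q ≠ q') →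
    ∀ f ∈ X, f ∉ P → ∃ q ∈ P, ¬ G.Adj f q

/-- **B5.** Rotation of an induced cycle, and the cycle formed by a part of an induced path and an outside
path.

Proof. (1) `(i + s) % n` is a bijection of `{0, .., n-1}`; adjacency: `omega` after
`Nat.mod_eq_of_lt`/case distinction `i + s < n` or not (`(i + s) % n = i + s` or `i + s - n`).
(2) `c k = p (i + k)` for `k ≤ j - i` and `c k = r (l - (k - (j - i) - 1))` for
`j - i < k ≤ j - i + l + 1`. -/
def S_B5 : Prop :=
  (∀ (V : Type) (G : SimpleGraph V) (X : Set V) (n s : ℕ) (p : ℕ → V), IC G X n p → s < n →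
    IC G X n fun i => p ((i + s) % n)) ∧
  ∀ (V : Type) (G : SimpleGraph V) (X : Set V) (n i j l : ℕ) (p r : ℕ → V), IP G X n p → i < j → j < n →
    IP G X (l + 1) r → (∀ k ≤ l, ∀ s < n, r k ≠ p s) → (∀ k ≤ l, (G.Adj (r k) (p i) ↔ k = 0)) →
    (∀ k ≤ l, (G.Adj (r k) (p j) ↔ k = l)) → (∀ k ≤ l, ∀ s, i < s → s < j → ¬ G.Adj (r k) (p s)) →
      ∃ c, IC G X (j - i + l + 2) c

/-! ### finite facts (proved by computer certificates in `BU/Fin*.lean`) -/

/-- the cycle relation of the sets `0, ..., n-1`, extended by further rows: for `i = n, n+1, ...` the set `i`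
has the trace `ts[i-n]` on the sets `0, ..., i-1` -/
def rC (n : ℕ) (ts : List ℕ) (i j : ℕ) : Bool :=
  if i < n then (j + 1 == i) || (j == 0 && i + 1 == n) else (ts.getD (i - n) 0).testBit j

/-- the same for the path relation -/
def rP (n : ℕ) (ts : List ℕ) (i j : ℕ) : Bool :=
  if i < n then (j + 1 == i) else (ts.getD (i - n) 0).testBit j

/-- **F7.** A connected set and a cycle of seven sets. -/
def S_F7 : Prop := ∀ (V : Type) (G : SimpleGraph V) (X : Set V) (S : ℕ → Set V) (t : ℕ), BF G X →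
  SP G X 8 S (rC 7 [t]) → t < 128 → t.testBit 0 = false → t.testBit 1 = true → t = 2

/-- **F6.** A connected set and a cycle of six sets. -/
def S_F6 : Prop := ∀ (V : Type) (G : SimpleGraph V) (X : Set V) (S : ℕ → Set V) (t : ℕ), BF G X →
  SP G X 7 S (rC 6 [t]) → t < 64 → t ∈ [0, 1, 2, 4, 8, 16, 32, 9, 18, 36, 63]

/-- **F6b.** Additional sets at a cycle of six sets and a set with the trace `{0, 3}` (or two sets
with the traces `{0}`, `{3}` which touch each other): (1) no further set touching it, with trace inside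
`{0, 3}`; (2) the same for the pair; (3) no further set not touching it with the trace `{0, 3}`, `{1, 4}`
or `{2, 5}`. -/
def S_F6b : Prop :=
  (∀ (V : Type) (G : SimpleGraph V) (X : Set V) (S : ℕ → Set V) (t : ℕ),
    SP G X 8 S (rC 6 [9, t]) → t ∈ [64, 65, 72, 73] → IMS bull G X) ∧
  (∀ (V : Type) (G : SimpleGraph V) (X : Set V) (S : ℕ → Set V) (t : ℕ),
    SP G X 9 S (rC 6 [1, 72, t]) → t ∈ [64, 65, 72, 73, 128, 129, 136, 137, 192, 193, 200, 201] →
      IMS bull G X) ∧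
  ∀ (V : Type) (G : SimpleGraph V) (X : Set V) (S : ℕ → Set V) (t : ℕ),
    SP G X 8 S (rC 6 [9, t]) → t ∈ [9, 18, 36] → IMS bull G X

/-- **FP6.** Connected sets and an induced path of six sets. -/
def S_FP6 : Prop :=
  (∀ (V : Type) (G : SimpleGraph V) (X : Set V) (S : ℕ → Set V) (t : ℕ), BF G X →
    SP G X 7 S (rP 6 [t]) → t < 64 →
      t ∈ [0, 1, 2, 3, 4, 5, 7, 8, 9, 16, 17, 32, 33, 34, 36, 40, 48, 56, 63]) ∧
  (∀ (V : Type) (G : SimpleGraph V) (X : Set V) (S : ℕ → Set V),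
    (SP G X 8 S (rP 6 [7, 56 + 64]) → IMS bull G X) ∧ (SP G X 8 S (rP 6 [9, 36]) → IMS bull G X)) ∧
  ∀ (V : Type) (G : SimpleGraph V) (X : Set V) (S : ℕ → Set V) (t : ℕ),
    SP G X 8 S (rP 6 [63, t]) → 0 < t → t < 63 → IMS bull G X

/-- the possible traces of a vertex on an induced `P_5` -/
def tr5 : List ℕ := [0, 2, 3, 4, 5, 7, 8, 9, 18, 20, 21, 23, 24, 28, 29, 31]

/-- possible pairs of traces of two vertices on an induced `P_5`, vertices not adjacent -/
def a0 : List ℕ := [2981364669, 0, 286523677, 286523677, 286261693, 825229745, 0, 2981102001, 16778173,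
  16777473, 0, 0, 0, 0, 0, 0, 0, 0, 13, 0, 279969981, 269484193, 0, 2962227329, 16778173, 0, 0, 0,
  2964324541, 2961178785, 0, 2961178753]

/-- possible pairs of traces of two vertices on an induced `P_5`, vertices adjacent -/
def a1 : List ℕ := [2147483665, 0, 2694840492, 2694840492, 2147483665, 2156134572, 0, 2695102636,
  2981101824, 2425356288, 0, 0, 0, 0, 0, 0, 0, 0, 2684354720, 0, 2970616576, 2432696716, 0, 2977956780,
  2981101824, 0, 0, 0, 2981102336, 2979266956, 0, 2981364669]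

/-- the table of the possible pairs of traces; `e` says whether the two vertices are adjacent -/
def ok5 (t t' : ℕ) (e : Bool) : Bool := ((if e then a1 else a0).getD t 0).testBit t'

/-- **FP5.** The table of the extensions of an induced `P_5` by two vertices. -/
def S_FP5 : Prop := ∀ (V : Type) (G : SimpleGraph V) (X : Set V) (p : ℕ → V), BF G X → NoP G X 6 →
  NoC G X 6 → IP G X 5 p →
    (∀ y ∈ X, (∀ i < 5, y ≠ p i) → ∀ t, Tv G 5 p y t → t ∈ tr5) ∧
    ∀ y ∈ X, ∀ z ∈ X, y ≠ z → (∀ i < 5, y ≠ p i) → (∀ i < 5, z ≠ p i) → ∀ t t', Tv G 5 p y t →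
      Tv G 5 p z t' → (G.Adj y z → ok5 t t' true = true) ∧ (¬ G.Adj y z → ok5 t t' false = true)

/-! ### long cycles and `P_6` -/

/-- **B6.** Connected sets at an induced cycle of length at least seven.  (Uses `S_F7`, `S_B5`.)

Proof. Suppose `K` touches two different `p i` and does not touch all.  There is `s < n` such that `p s` is
not touched and `p ((s + 1) % n)` is touched (cyclic order: start at an untouched index and go on to the
first touched one).  Rotate by `s` (`S_B5`): now `p 0` is not touched and `p 1` is touched, and some `p j`,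
`2 ≤ j < n`, is touched.  `S i = {p i}` for `i ≤ 5`, `S 6 = {p i | 6 ≤ i < n}`, `S 7 = K`, `t` from `exists_tr`
(`Tr G 7 S K t`): `SP G X 8 S (rC 7 [t])` (`S 6` is connected: induction).  `t.testBit 0 = false`,
`t.testBit 1 = true`, and some further bit is `1`: contradiction to `S_F7`. -/
def S_B6 : Prop := ∀ (V : Type) (G : SimpleGraph V) (X K : Set V) (n : ℕ) (p : ℕ → V), BF G X →
  IC G X n p → 7 ≤ n → Conn G K → K ⊆ X → (∀ i < n, p i ∉ K) →
    (∀ i < n, ∀ j < n, Tch G K {p i} → Tch G K {p j} → i = j) ∨ ∀ i < n, Tch G K {p i}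

/-- **B7.** A prime graph without cut vertices and with an induced cycle of length at least seven is this
cycle.  (Uses `S_B4`, `S_B5`, `S_B6`.)

Proof. `Q = {x | ∃ i < n, x = p i}`, connected, not subsingleton.  (1) No vertex `f ∈ X \ Q` is complete to
`Q`: `S_B4` with `P = Q`: let `f` be complete to `Q`, `m ∉ Q` with a neighbour and a non-neighbour in `Q`.  By
`S_B6` with `K = {m}`: `m` has exactly one neighbour in `Q`; after rotation (`S_B5`) it is `p 0`.
`f ~ m`, otherwise bull `{f, p 0, p 1; p 4 on f, m on p 0}`.  `q = p 0`, `q' = p 2`.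
(2) Suppose `x ∈ X \ Q`.  `K₀` = component of `x` in `G[X \ Q]`.  `K₀` touches two different `p i`: otherwise
there is `i < n` such that `K₀` touches no `p j`, `j ≠ i`; `Conn G (X \ {p i})` (`TC`) and `Conn.eq_of_nb` give
`K₀ = X \ {p i}`, but `p j ∉ K₀`.  Let `K ⊆ K₀` be connected with two touched indices, with `K.ncard`
minimal.  By `S_B6` all `p i` are touched.  If `K = {f}`: contradiction to (1).  Otherwise
`growAux.shrink`: there is `v ∈ K` with `Conn G (K \ {v})`; both `K \ {v}` and `{v}` are smaller, so each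
touches at most one `p i`; but `p 0, p 1, p 2` are touched by `K`: contradiction. -/
def S_B7 : Prop := ∀ (V : Type) [Finite V] (G : SimpleGraph V) (X : Set V) (n : ℕ) (p : ℕ → V),
  Prm G X → BF G X → TC G X → IC G X n p → 7 ≤ n → ∀ x ∈ X, ∃ i < n, x = p i

/-- **B8.** A prime graph without cut vertices, without induced cycles of length at least seven and with
an induced `C_6` has at most eight vertices.  (Uses `S_B4`, `S_B5`, `S_F6`, `S_F6b`.)

Proof. `S i = {p i}`, `Q = {p i | i < 6}`.  For a connected set `K ⊆ X \ Q` with `Tr G 6 S K t`: `S_F6` (with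
`S 6 = K`) gives `t ∈ [0, 1, 2, 4, 8, 16, 32, 9, 18, 36, 63]`.
(1) No vertex `f ∈ X \ Q` is complete to `Q`: `S_B4` with `P = Q`: `f` complete, `m ∉ Q` with a neighbour and a
non-neighbour: its trace is a single element or `{i, i+3}`; after rotation (`S_B5`) `t = 1` or `t = 9`, i.e.
`m ~ p 0` and `m` not `~ p 1, p 2, p 4, p 5`.  `f ~ m`, otherwise bull `{f, p 0, p 1; p 4 on f, m on p 0}`.
`q = p 0`, `q' = p 2`.
(2) For connected `K ⊆ X \ Q` the trace is not `63`: otherwise let `K` be connected with trace `63` and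
`K.ncard` minimal; `K = {f}` contradicts (1); otherwise `growAux.shrink`: `K \ {v}` and `{v}` are connected
with traces `≠ 63`, so each touches at most two `p i`: contradiction.
(3) Let `K` be a component of `G[X \ Q]`.  It touches two different `p i` (`TC`, as in `S_B7`), so its trace is
`9`, `18` or `36`; after rotation `9`: it touches exactly `p 0` and `p 3`.  `path` in `K` with
`{x | x ~ p 0}`, `{x | x ~ p 3}`: `r 0, ..., r l`.  `S_B5` (2) with the path `p 0, p 1, p 2, p 3`: an induced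
cycle with `l + 5` vertices, so `l ≤ 1` (`NoC G X 7`).  If `K ≠ {r i | i ≤ l}` there is `z ∈ K`, outside, with
a neighbour `r i`.  The neighbours of `z` in `Q` are in `{p 0, p 3}`.  `l = 0`: `SP` with
`S 6 = {r 0}`, `S 7 = {z}`: `S_F6b` (1).  `l = 1`: `S 6 = {r 0}`, `S 7 = {r 1}`, `S 8 = {z}`: `S_F6b` (2).
So `K.ncard ≤ 2`.
(4) There is at most one component of `G[X \ Q]`: let `K ≠ K'` be two (they do not touch, disjoint), after
rotation `K` has trace `9`, `K'` has trace `9`, `18` or `36`: `S_F6b` (3) with `S 6 = K`, `S 7 = K'`.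
So `X.ncard ≤ 6 + 2`. -/
def S_B8 : Prop := ∀ (V : Type) [Finite V] (G : SimpleGraph V) (X : Set V) (p : ℕ → V),
  Prm G X → BF G X → TC G X → NoC G X 7 → IC G X 6 p → X.ncard ≤ 8

/-- **B9.** A prime graph without cut vertices and without induced cycles of length at least six has no
induced `P_6`.  (Uses `S_B4`, `S_B5`, `S_FP6`.)

Proof. Let `q 0, ..., q 5` be an induced path, `P = {q i}`, `S i = {q i}`.  For connected `K ⊆ X \ P` with
`Tr G 6 S K t`: `t` is in the list of `S_FP6` (1) (with `S 6 = K`).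
(1) No vertex `f ∈ X \ P` is complete to `P`: `S_B4`: `f` complete, `m ∉ P` with trace `t ≠ 0, 63`.  `f ~ m` by
`S_FP6` (3) (`S 6 = {f}`, `S 7 = {m}`).  There are `i, j < 6`, `t.testBit i`, `¬ t.testBit j`, `i ≠ j`, `i`, `j`
not consecutive (`decide` for `0 < t < 63`).
(2) For connected `K ⊆ X \ P` the trace is not `63`: minimal such `K`; `K = {f}` contradicts (1); otherwise
`K \ {v}` and `{v}` are connected with traces `t, t'` in the list, `≠ 63`, `t ||| t' = 63`, so
`{t, t'} = {7, 56}` (`decide`), and they touch: `S_FP6` (2), first part (`S 6` = the one with trace `7`).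
(3) If `K ⊆ X \ P` is connected and touches one of `q 0, q 1` and one of `q 3, q 4, q 5` then its trace is `9`:
the list leaves `9, 17, 33, 34`; for `17`, `33` (`i = 0`, `j = 4` resp. `5`) and `34` (`i = 1`, `j = 5`):
`path` in `K` with `{x | x ~ q i}`, `{x | x ~ q j}` and `S_B5` (2): an induced cycle with at least
`4 + 0 + 2 = 6` vertices.  By reversal (or the same argument): if `K` touches one of `q 4, q 5` and one of
`q 0, q 1, q 2` then its trace is `36`.
(4) Such sets exist: `path` in `C = X \ {q 2}` (`TC`) with `{q 0, q 1}`, `{q 3, q 4, q 5}`: `r 0, ..., r l`,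
`l ≥ 2` (no edges between the two sets); the inner vertices are not in `P`; `K = {r i | 0 < i < l}`.
The same for `X \ {q 3}`: `K'` with trace `36`.
(5) `K`, `K'` are disjoint and do not touch: otherwise `K ∪ K'` is connected with trace `45`, which is not in
the list.  `S_FP6` (2), second part. -/
def S_B9 : Prop := ∀ (V : Type) [Finite V] (G : SimpleGraph V) (X : Set V), Prm G X → BF G X → TC G X →
  NoC G X 6 → NoP G X 6

/-! ## Part C: `P_5` -/

/-- the hypotheses of Part C -/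
structure Hyp {V : Type} (G : SimpleGraph V) (X : Set V) : Prop where
  prm : Prm G X
  bf : BF G X
  tc : TC G X
  p6 : NoP G X 6
  c6 : NoC G X 6

/-- **C1.** The traces `{1}`, `{0,1}`, `{3}`, `{3,4}` do not occur.  (Uses `S_FP5`.)

Proof. `M = {p 0} ∪ {y ∈ X | y ∉ P, y has trace 2 or 3}` is a module: let `y ∈ X \ M`.  `y = p 1` is adjacent
to all of `M`, `y = p 2, p 3, p 4` to none.  `y ∉ P` with trace `t ∈ tr5`, `t ≠ 2, 3`: by the table, for
`m ∈ M` with trace `t' ∈ {2, 3}`: `y ~ m ↔ t.testBit 0` (`decide` over `tr5`: `ok5 t t' true → t.testBit 0` and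
`ok5 t t' false → ¬ t.testBit 0`), and `y ~ p 0 ↔ t.testBit 0`.  `p 1 ∉ M`, so `M` is subsingleton, i.e. no
vertex has trace `2` or `3`.  The reversed path (`IP.rev`; `p 4, ..., p 0`) gives the claim for
`8` and `24`. -/
def S_C1 : Prop := ∀ (V : Type) [Finite V] (G : SimpleGraph V) (X : Set V) (p : ℕ → V), Hyp G X →
  IP G X 5 p → ∀ y ∈ X, (∀ i < 5, y ≠ p i) → ∀ t, Tv G 5 p y t → t ≠ 2 ∧ t ≠ 3 ∧ t ≠ 8 ∧ t ≠ 24

/-- **C2.** The trace `{2}` does not occur.  (Uses `S_FP5`, `S_C1`, `S_B4`.)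

Proof. Let `x ∈ X` have trace `4`.  By the table and `S_C1` every vertex outside `P` has a trace in
`[0, 4, 5, 20, 7, 28, 31]`.  (1) No vertex is complete to `P` (trace `31`): `S_B4` with `P = {p i | i < 5}`: let `f`
have trace `31` and let `m ∉ P` have a neighbour and a non-neighbour in `P`: its trace is one of
`4, 5, 20, 7, 28`.  `f ~ m`: for `4, 5, 20` by the table.  For `7`: `f ~ x` (table), `x` not `~ m` (table); if
`f` not `~ m`: bull `{f, p 2, x; p 4 on f, m on p 2}`; for `28` the same with `p 0` instead of `p 4`.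
The pair `q, q'`: trace `4`: `p 2, p 0`.  `5`: `p 0, p 3`... any `q = p i`, `q' = p j` with `i` in the trace,
`j` not, not consecutive: `5`: `0, 3`; `20`: `4, 1`; `7`: `0, 3`; `28`: `4, 1`.
(2) So the traces outside `P` are `0, 4, 5, 20, 7, 28`.  `B = {y ∈ X | y ∉ P, trace 0 or 4}`; `x ∈ B`.  By the table
the neighbours of `B` outside `B` are `p 2` only (traces `5, 20, 7, 28` are not adjacent to traces `0, 4`).
`Conn G (X \ {p 2})` (`TC`) and `Conn.eq_of_nb` give `B = X \ {p 2}`, but `p 0 ∉ B`. -/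
def S_C2 : Prop := ∀ (V : Type) [Finite V] (G : SimpleGraph V) (X : Set V) (p : ℕ → V), Hyp G X →
  IP G X 5 p → ∀ y ∈ X, (∀ i < 5, y ≠ p i) → ∀ t, Tv G 5 p y t → t ≠ 4

/-- **C3.** `P` is dominating.  (Uses `S_FP5`, `S_C1`, `S_C2`.)

Proof. `Z` = the set of the vertices outside `P` with trace `0`, suppose `z₀ ∈ Z`.  By the table (and `S_C1`,
`S_C2`) the neighbours of `z ∈ Z` are in `Z` or have trace `31`.  `F₁` = the set of the vertices with trace
`31` and with a neighbour in `Z`.  `Prm.closure` with `M₀ = {p i | i < 5}` and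
`P M = Conn G M ∧ M ∩ (Z ∪ F₁) = ∅ ∧ ∀ f ∈ F₁, ∀ m ∈ M, f ~ m`.
Step: `y` mixed on `M`; by `mixed_conn` there are `a, b ∈ M`, `y ~ a`, `y` not `~ b`, `a ~ b`.  `y ∉ F₁` (`F₁` is
complete to `M`).  `y ∉ Z`: otherwise `a` has trace `31` (it is not in `Z`) and a neighbour in `Z`: `a ∈ F₁`.
Let `f ∈ F₁`, `z ∈ Z`, `z ~ f`; suppose `f` not `~ y`: bull `{f, a, b; z on f, y on a}` (`z` is not adjacent to
`a, b, y`, since these are not in `Z ∪ F₁`).  Result: `z₀ ∈ X` but `X ∩ Z = ∅`. -/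
def S_C3 : Prop := ∀ (V : Type) [Finite V] (G : SimpleGraph V) (X : Set V) (p : ℕ → V), Hyp G X →
  IP G X 5 p → ∀ y ∈ X, (∀ i < 5, y ≠ p i) → ∀ t, Tv G 5 p y t → t ≠ 0

/-- **C4.** Ears and gems.  (Uses `S_FP5`, `S_C1`, `S_C2`, `S_C3`.)

Proof. `D = Gᶜ`.  The traces outside `P` are in `[5, 7, 9, 18, 20, 21, 23, 28, 29, 31]`.
(1) There is a vertex `z` with trace `9`.  By the table the vertices `y ≠ z` outside `P` have traces in
`[20, 23, 28, 31]`, and all are adjacent to `z`.  `Gem D X (p 0) (p 1) (p 2) z (p 4)`: not adjacent (in `G`,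
and different) to `p 4`: `p 0, p 1, p 2, z` (all traces `20, 23, 28, 31` contain `4`); to `p 2`: `p 0, p 4, z`;
to `z`: `p 1, p 2, p 4`; for `y` outside the gem (`y = p 3` or trace `20, 23, 28, 31`): `y ~ p 0 ↔ y ~ p 1`
(trace `20`: no, no; `23`: yes, yes; `28`: no, no; `31`: yes, yes; `p 3`: no, no).
(2) There is a vertex with trace `18`: the reversed path.
(3) Otherwise the traces are in `[5, 7, 20, 21, 23, 28, 29, 31]`.  `Ear D X (p 0) (p 2) (p 4)`: all these traces
contain `2`: `nbe`.  `D.Adj (p 0) a`, `a ≠ p 4, p 2`: `a = p 3` or trace `20, 28`.  `D.Adj (p 4) b`,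
`b ≠ p 0, p 2`: `b = p 1` or trace `5, 7`.  `D.Adj a b`: table (`5, 7` and `20, 28`: not adjacent), and `p 3` is
not adjacent to `p 1` and the traces `5, 7`; `p 1` not to `20, 28`.  `exa`: `p 3`, `exb`: `p 1`. -/
def S_C4 : Prop := ∀ (V : Type) [Finite V] (G : SimpleGraph V) (X : Set V) (p : ℕ → V), Hyp G X →
  IP G X 5 p → Ear Gᶜ X (p 0) (p 2) (p 4) ∨
    ∃ z, Gem Gᶜ X (p 0) (p 1) (p 2) z (p 4) ∨ Gem Gᶜ X (p 4) (p 3) (p 2) z (p 0)

/-! ## Part D: the theorem -/

/-- **D1.** Different ears are disjoint.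

Proof. (i) `e' ≠ u`: otherwise the neighbours `v, e, a` (`exa`) of `u = e'` in `X` are three different elements
of `{u', v'}` (`nbe`).  By symmetry (`Ear D X v e u` holds as well, `Ear` is symmetric) `e' ≠ v`, and
`e ≠ u', v'`.
(ii) `u = u'` is impossible: `e' ∈ N(u)`, `e' ≠ v`, `e' ≠ e`; `b` from `exb`: `D.Adj e' b` by `bis`, so `b = u'` or
`b = v'`; `b ≠ u = u'`, so `b = v'`, `D.Adj u b` (`uv`); `b ≠ v` (`D.Adj v b`), `b ≠ e`; `bis` with
`a = b`: `D.Adj b b`.  (iii) `u = v'`: apply (ii) to the reversed second ear.  The rest by symmetry. -/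
def S_D1 : Prop := ∀ (V : Type) (D : SimpleGraph V) (X : Set V) (u e v u' e' v' : V), Ear D X u e v →
  Ear D X u' e' v' → e ≠ e' →
    e' ≠ u ∧ e' ≠ v ∧ e ≠ u' ∧ e ≠ v' ∧ u ≠ u' ∧ u ≠ v' ∧ v ≠ u' ∧ v ≠ v'

/-- **D2.** The layout.  (Uses `S_C4`, `S_D1`, `S_R4`, `S_E5`.)

Proof. `K = (3 k + 1) 4 ^ k + 5`, `6 ≤ K`.  Claim: `RLp G Y K Y` for all `Y ⊆ X`; strong induction on
`Y.ncard`.
CASE 1: there is `IP G Y 5 p` such that not `Ear Gᶜ X (p 0) (p 2) (p 4)`.  By `S_C4` (for `X`) there is a gem of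
`X` with the centre `c`, `a, b, x, y`, where `a, b, x, c ∈ Y` (`a, b, x, c = p 0, p 1, p 2, p 4` or
`p 4, p 3, p 2, p 0`).  `J = {a, b, x, y, c} ∩ Y`.  `S_R4`: let `j ∈ J`, `z ∈ Y \ J`, so `z ≠ a, b, x, y, c`.
`j = a`: trivial; `j = b`: `G.Adj b z ↔ G.Adj a z` from `nab` (`z ≠ a, b`); `j = x, y, c`: `z` is not a
neighbour of `j` in `D` (`nbx`, `nby`, `nbc`) and `z ≠ j`, so `G.Adj j z`.  `(Y \ J) ∪ {a}` does not contain
`b ≠ a` (`b ∈ J`; `a ≠ b` since `x` is adjacent to `a`, not to `b`), induction.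
CASE 2: all `IP G Y 5 p` give ears of `X`.  `E = {e | ∃ p, IP G Y 5 p ∧ e = p 2}`; for `e ∈ E` choose `p` and
put `u e = p 0`, `v e = p 4`; `Ear Gᶜ X (u e) e (v e)`.  `ES Gᶜ Y E u v` by `S_D1` (`u e ∉ E`: if
`u e = e' ∈ E`, then `e' ≠ e` and `S_D1` gives `e' ≠ u e`).  `Y \ E` contains no induced `P_5`, so
`RL G (Y \ E) k (Y \ E)`.  `S_E5` and `RL.toRLp`.
Finally `RLp.toRL`. -/
def S_D2 : Prop := ∀ (V : Type) [Finite V] (G : SimpleGraph V) (X : Set V) (k : ℕ), Hyp G X →
  (∀ Y ⊆ X, NoP G Y 5 → RL G Y k Y) → RL G X ((3 * k + 1) * 4 ^ k + 5) X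

/-- **Theorem BULL.** (Uses `S_A`, `S_B2`, `S_B7`, `S_B8`, `S_B9`, `S_D2`, `S_R2`, `S_R3`, `S_R5`.)

Proof. Given `k`.  `K = (3 (k+1) + 1) 4 ^ (k+1) + 8`.  For `Y` with `NoP G Y 5`: `RL G Y (k + 1) Y`: by `S_R2` it is
enough for prime `Z ⊆ Y`: `S_A` gives `Al2 G Z`, hypothesis, `S_R3` (1).  Let `X` be prime: `RL G X K X`: if
`X.ncard ≤ 8`: `RL.small`.  Otherwise `Conn G X` (`Prm.conn`).  If not `TC G X`: `S_B2`.  If there is an induced
cycle of length at least `7`: `S_B7`, `X = {p i}`, `S_R5` (for `0 < i`, `i + 1 < n` the neighbours are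
`p (i-1)`, `p (i+1)`).  If there is an induced `C_6`: `S_B8`, contradiction.  Otherwise `NoC G X 6`, `S_B9`,
`Hyp G X`, `S_D2`.  By `S_R2` `RL G Set.univ K Set.univ`; `S_R3` (2). -/
def S_BULL : Prop := ∀ k : ℕ, ∃ K : ℕ, ∀ (V : Type) [Finite V] (G : SimpleGraph V),
  ¬ IMS bull G Set.univ → (∀ S : Set V, Al2 G S → Lay (restr G S) k S) → Lay G K Set.univ

end Pool.Agent.MPd439b2.BU
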