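import Pool.Agent.Lib.MP_d439b2_co.BU.Spec

/-!
# MP_d439b2_co, BU: A1, no forks
-/

set_option autoImplicit false

namespace Pool.Agent.MPd439b2.BU

open Pool.Agent.MPd439b2

private theorem fork_fact {V : Type} {G : SimpleGraph V} {X : Set V} (hbf : BF G X)
    (hP : NoP G X 5) {u b c a z : V} (h : Fork G X u b c a z) {y : V} (hy : y ∈ X)
    (hyb : G.Adj y b) (hyc : ¬ G.Adj y c) : G.Adj y u ∧ ¬ G.Adj y a ∧ ¬ G.Adj y z := by
  by_cases hyu : G.Adj y u
  · by_cases hyz : G.Adj y z
    · exfalso
      exact hbf (bull5 h.mu hy h.mb h.mc h.mz hyu.symm h.ub hyb h.uc hyz hyc h.bc h.uz h.bz h.cz)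
    · by_cases hya : G.Adj y a
      · exfalso
        exact hbf (bull5 h.mu h.ma hy h.mc h.mz h.ua hyu.symm hya.symm h.uc h.az
          (fun h' => h.ca h'.symm) hyc h.uz hyz h.cz)
      · exact ⟨hyu, hya, hyz⟩
  · exfalso
    by_cases hyz : G.Adj y z
    · exact hP _ (ip5 h.mc h.mu h.mb hy h.mz h.uc.symm h.ub hyb.symm hyz
        (fun h' => h.bc h'.symm) (fun h' => hyc h'.symm) h.cz (fun h' => hyu h'.symm) h.uz h.bz)
    · by_cases hya : G.Adj y a
      · have hs : ∀ {x : V}, x ∈ X → ({x} : Set V) ⊆ X := fun h => Set.singleton_subset_iff.mpr h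
        have hd : ∀ {x y : V}, x ≠ y → Disjoint ({x} : Set V) {y} :=
          fun h => Set.disjoint_singleton.mpr h
        have hd2 : ∀ {x : V}, x ≠ b → x ≠ y → Disjoint ({x} : Set V) {b, y} := by
          intro x h1 h2
          rw [Set.disjoint_singleton_left]
          rintro (h3 | h3)
          · exact h1 h3
          · exact h2 h3
        have hab : a ≠ b := by
          intro h1
          have h2 := h.az
          rw [h1] at h2
          exact h.bz h2
        have huy : u ≠ y := by
          intro h1
          have h2 := h.uc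
          rw [h1] at h2
          exact hyc h2
        have hzb : z ≠ b := by
          intro h1
          have h2 := h.ub
          rw [← h1] at h2
          exact h.uz h2
        have hzy : z ≠ y := by
          intro h1
          apply h.bz
          rw [h1]
          exact hyb.symm
        have hcy : c ≠ y := by
          intro h1
          apply h.bc
          rw [h1]
          exact hyb.symm
        have hac : a ≠ c := by
          intro h1
          have h2 := h.az
          rw [h1] at h2
          exact h.cz h2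
        have huz : u ≠ z := by
          intro h1
          have h2 := h.uc
          rw [h1] at h2
          exact h.cz h2.symm
        have hzc : z ≠ c := by
          intro h1
          have h2 := h.uc
          rw [← h1] at h2
          exact h.uz h2
        refine hbf (bullS (hs h.ma) (hs h.mu)
          (Set.insert_subset h.mb (hs hy)) (hs h.mz) (hs h.mc) (Conn.singleton G a)
          (Conn.singleton G u) (Conn.pair hyb.symm) (Conn.singleton G z) (Conn.singleton G c)
          (hd h.ua.ne.symm) (hd2 hab hya.ne.symm) (hd2 h.ub.ne huy) (hd h.az.ne) (hd huz)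
          (hd2 hzb hzy).symm (hd hac) (hd h.uc.ne) (hd2 h.bc'.symm hcy).symm (hd hzc)
          (tch_single.2 h.ua.symm) ?_ ?_ (tch_single.2 h.az) (tch_single.2 h.uc)
          (fun h' => h.uz (tch_single.1 h')) ?_ (fun h' => h.ca (tch_single.1 h').symm) ?_
          (fun h' => h.cz (tch_single.1 h').symm))
        · exact tch_single_left.2 ⟨y, Or.inr rfl, hya.symm⟩
        · exact tch_single_left.2 ⟨b, Or.inl rfl, h.ub⟩
        · rw [tch_comm, tch_single_left]
          rintro ⟨x, rfl | rfl, hx⟩
          · exact h.bz hx.symm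
          · exact hyz hx.symm
        · rw [tch_comm, tch_single_left]
          rintro ⟨x, rfl | rfl, hx⟩
          · exact h.bc hx.symm
          · exact hyc hx.symm
      · exact hP _ (ip5 hy h.mb h.mu h.ma h.mz hyb h.ub.symm h.ua h.az hyu hya hyz h.ba h.bz h.uz)

theorem tA1 : S_A1 := by
  intro V _ G X hX hbf hP u b c a z h
  have hP0 : ({b, c} : Set V) ⊆ {x | G.Adj u x ∧ ¬ G.Adj x a ∧ ¬ G.Adj x z} ∧
      Conn Gᶜ ({b, c} : Set V) := by
    refine ⟨?_, Conn.pair ⟨h.bc', h.bc⟩⟩
    rintro x (rfl | rfl)
    · exact ⟨h.ub, h.ba, h.bz⟩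
    · exact ⟨h.uc, h.ca, h.cz⟩
  have hfin := Prm.closure hX
    (fun M => M ⊆ {x | G.Adj u x ∧ ¬ G.Adj x a ∧ ¬ G.Adj x z} ∧ Conn Gᶜ M) hP0
    (by
      rintro x (rfl | rfl)
      · exact h.mb
      · exact h.mc)
    (fun hsub => h.bc' (hsub (Or.inl rfl) (Or.inr rfl)))
    (by
      intro M _ hMX hPM y hy hyM h1 h2
      obtain ⟨x, hx, m, hm, hyx, hym, hxm, hxm'⟩ := mixed_co hPM.2 h1 h2
      have hfork : Fork G X u x m a z :=
        { mu := h.mu
          mb := hMX hx
          mc := hMX hm
          ma := h.ma
          mz := h.mz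
          ub := (hPM.1 hx).1
          uc := (hPM.1 hm).1
          ua := h.ua
          az := h.az
          bc' := hxm
          bc := hxm'
          ba := (hPM.1 hx).2.1
          bz := (hPM.1 hx).2.2
          ca := (hPM.1 hm).2.1
          cz := (hPM.1 hm).2.2
          uz := h.uz }
      obtain ⟨h3, h4, h5⟩ := fork_fact hbf hP hfork hy hyx hym
      refine ⟨Set.insert_subset ⟨h3.symm, h4, h5⟩ hPM.1, hPM.2.insert ⟨m, hm, ?_, ?_⟩⟩
      · rintro rfl
        exact hyM hm
      · exact fun h' => hym h'.symm)
  exact G.loopless.irrefl u (hfin.1 h.mu).1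

end Pool.Agent.MPd439b2.BU
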