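import Pool.Agent.Lib.MP_d439b2_co.BU.Ext

/-!
# MP_d439b2_co, BU, B8: induced cycles of length six
-/

set_option autoImplicit false

namespace Pool.Agent.MPd439b2.BU

open Pool.Agent.MPd439b2

namespace b8Aux

variable {V : Type} {G : SimpleGraph V} {X : Set V}

/-- the traces of connected sets -/
theorem trace (h6 : S_F6) (hb : BF G X) {p : ℕ → V} (hp : IC G X 6 p) {K : Set V} (hK : Conn G K)
    (hKX : K ⊆ X) (hd : ∀ i < 6, p i ∉ K) {t : ℕ} (ht : Tr G 6 (fun i => {p i}) K t) :
    t ∈ [0, 1, 2, 4, 8, 16, 32, 9, 18, 36, 63] := by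
  have h1 := hp.sp.snoc (r' := rC 6 [t]) (K := K) (t := t)
    (fun i hi j hj => by simp [rC, hi]) (fun j hj => by simp [rC]) hK hKX
    (fun j hj => Set.disjoint_singleton_right.2 (hd j hj)) ht
  exact h6 V G X _ t hb h1 (by simpa using ht.1)

theorem rot (h5 : S_B5) {p : ℕ → V} (hp : IC G X 6 p) (s : ℕ) (hs : s < 6) :
    IC G X 6 fun i => p ((i + s) % 6) := h5.1 V G X 6 s p hp hs

/-- the rotated trace -/
theorem tr_rot {p : ℕ → V} {K : Set V} {t t' : ℕ} (ht : Tr G 6 (fun i => {p i}) K t) (s : ℕ)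
    (ht' : t' < 64) (h : ∀ i < 6, t'.testBit i = t.testBit ((i + s) % 6)) :
    Tr G 6 (fun i => {p ((i + s) % 6)}) K t' :=
  ⟨by simpa using ht', fun j hj => by rw [h j hj]; exact ht.2 _ (Nat.mod_lt _ (by norm_num))⟩

/-- (1), (2): the trace is not `63` -/
theorem not_full [Finite V] (h4 : S_B4) (h5 : S_B5) (h6 : S_F6) (hP : Prm G X) (hb : BF G X)
    {p : ℕ → V} (hp : IC G X 6 p) {K : Set V} (hK : Conn G K) (hKX : K ⊆ X)
    (hd : ∀ i < 6, p i ∉ K) : ¬ ∀ i < 6, Tch G K {p i} := by
  intro hf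
  rcases full_min hK hKX hd hf with ⟨f, hfX, hfp, hfa⟩ | ⟨A, B, hA, hB, hAX, hBX, hAB, htAB, hpA, hpB, hnA,
    hnB, hor⟩
  · have hQc : Conn G {x | ∃ i < 6, x = p i} := by
      have key : ∀ m : ℕ, m < 6 → Conn G {x | ∃ i < m + 1, x = p i} := by
        intro m
        induction m with
        | zero =>
          intro _
          have : {x | ∃ i < 0 + 1, x = p i} = {p 0} := by
            ext x
            constructor
            · rintro ⟨i, hi, rfl⟩
              have : i = 0 := by omega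
              subst this
              rfl
            · rintro rfl
              exact ⟨0, by omega, rfl⟩
          rw [this]
          exact Conn.singleton G _
        | succ m ih =>
          intro hm
          have h1 : {x | ∃ i < m + 1 + 1, x = p i} = insert (p (m + 1)) {x | ∃ i < m + 1, x = p i} := by
            ext x
            constructor
            · rintro ⟨i, hi, rfl⟩
              by_cases h : i = m + 1
              · left; rw [h]
              · right; exact ⟨i, by omega, rfl⟩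
            · rintro (rfl | ⟨i, hi, rfl⟩)
              · exact ⟨m + 1, by omega, rfl⟩
              · exact ⟨i, by omega, rfl⟩
          rw [h1]
          refine (ih (by omega)).insert ⟨p m, ⟨m, by omega, rfl⟩, ?_⟩
          rw [hp.2.2 m (by omega) (m + 1) hm]
          omega
      exact key 5 (by omega)
    have hQX : {x | ∃ i < 6, x = p i} ⊆ X := by
      rintro x ⟨i, hi, rfl⟩
      exact hp.1 i hi
    have hQs : ¬ {x | ∃ i < 6, x = p i}.Subsingleton := fun h => by
      have h1 : p 0 = p 1 := h ⟨0, by omega, rfl⟩ ⟨1, by omega, rfl⟩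
      have := hp.2.1 0 (by omega) 1 (by omega) h1
      omega
    obtain ⟨q, ⟨i, hi, rfl⟩, hq⟩ := h4 V G X {x | ∃ i < 6, x = p i} hP hb hQc hQX hQs (by
      rintro f hf hfQ hfall m hm hmQ ⟨_, ⟨i, hi, rfl⟩, hmi⟩ ⟨_, ⟨j, hj, rfl⟩, hmj⟩
      have hmp : ∀ i < 6, p i ∉ ({m} : Set V) := fun i hi h => hmQ ⟨i, hi, h.symm⟩
      obtain ⟨t, ht⟩ := exists_tr G 6 (fun i => ({p i} : Set V)) {m}
      have htl := trace h6 hb hp (Conn.singleton G m) (Set.singleton_subset_iff.2 hm) hmp ht
      have h1 : t.testBit i = true := (ht.2 i hi).1 (tch_single.2 hmi)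
      have h2 : ¬ t.testBit j = true := fun h => hmj (tch_single.1 ((ht.2 j hj).2 h))
      have key : ∀ t ∈ [0, 1, 2, 4, 8, 16, 32, 9, 18, 36, 63], ∀ i < 6, ∀ j < 6, t.testBit i = true →
          ¬ t.testBit j = true → ∃ s < 6, t.testBit s = true ∧ ¬ t.testBit ((1 + s) % 6) = true ∧
          ¬ t.testBit ((2 + s) % 6) = true ∧ ¬ t.testBit ((4 + s) % 6) = true := by decide
      obtain ⟨s, hs, hs0, hs1, hs2, hs4⟩ := key t htl i hi j hj h1 h2
      have hadj : ∀ k < 6, (G.Adj m (p k) ↔ t.testBit k = true) := fun k hk => by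
        rw [← ht.2 k hk]; exact tch_single.symm
      have hr := rot h5 hp s hs
      have e0 : G.Adj m (p ((0 + s) % 6)) := by
        rw [hadj _ (Nat.mod_lt _ (by norm_num)), Nat.zero_add, Nat.mod_eq_of_lt hs]; exact hs0
      have e1 : ¬ G.Adj m (p ((1 + s) % 6)) := by
        rw [hadj _ (Nat.mod_lt _ (by norm_num))]; exact hs1
      have e2 : ¬ G.Adj m (p ((2 + s) % 6)) := by
        rw [hadj _ (Nat.mod_lt _ (by norm_num))]; exact hs2
      have e4 : ¬ G.Adj m (p ((4 + s) % 6)) := by
        rw [hadj _ (Nat.mod_lt _ (by norm_num))]; exact hs4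
      have fa : ∀ k : ℕ, G.Adj f (p ((k + s) % 6)) := fun k =>
        hfall _ ⟨(k + s) % 6, Nat.mod_lt _ (by norm_num), rfl⟩
      have a01 : G.Adj (p ((0 + s) % 6)) (p ((1 + s) % 6)) :=
        (hr.2.2 0 (by omega) 1 (by omega)).2 (by omega)
      have a04 : ¬ G.Adj (p ((0 + s) % 6)) (p ((4 + s) % 6)) := fun h => by
        have := (hr.2.2 0 (by omega) 4 (by omega)).1 h; omega
      have a14 : ¬ G.Adj (p ((1 + s) % 6)) (p ((4 + s) % 6)) := fun h => by
        have := (hr.2.2 1 (by omega) 4 (by omega)).1 h; omega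
      have a02 : ¬ G.Adj (p ((0 + s) % 6)) (p ((2 + s) % 6)) := fun h => by
        have := (hr.2.2 0 (by omega) 2 (by omega)).1 h; omega
      refine ⟨?_, p ((0 + s) % 6), ⟨_, Nat.mod_lt _ (by norm_num), rfl⟩, p ((2 + s) % 6),
        ⟨_, Nat.mod_lt _ (by norm_num), rfl⟩, e0, e2, a02, fun h => by
          have := hr.2.1 0 (by omega) 2 (by omega) h; omega⟩
      by_contra hfm
      exact hb (bull5 hf (hr.1 0 (by omega)) (hr.1 1 (by omega)) (hr.1 4 (by omega)) hm (fa 0) (fa 1)
        a01 (fa 4) e0.symm a04 a14 hfm (fun h => e1 h.symm) (fun h => e4 h.symm)))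
      f hfX (fun ⟨i, hi, h⟩ => hfp i hi h)
    exact hq (hfa i hi)
  · obtain ⟨t, ht⟩ := exists_tr G 6 (fun i => ({p i} : Set V)) A
    obtain ⟨t', ht'⟩ := exists_tr G 6 (fun i => ({p i} : Set V)) B
    have h1 := trace h6 hb hp hA hAX hpA ht
    have h2 := trace h6 hb hp hB hBX hpB ht'
    have key : ∀ t ∈ [0, 1, 2, 4, 8, 16, 32, 9, 18, 36, 63], ∀ t' ∈ [0, 1, 2, 4, 8, 16, 32, 9, 18, 36, 63],
      (¬ ∀ i < 6, t.testBit i = true) → (¬ ∀ i < 6, t'.testBit i = true) →
        ¬ ∀ i < 6, t.testBit i = true ∨ t'.testBit i = true := by decide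
    refine key t h1 t' h2 (fun h => hnA fun i hi => (ht.2 i hi).2 (h i hi))
      (fun h => hnB fun i hi => (ht'.2 i hi).2 (h i hi)) fun i hi => ?_
    rw [← ht.2 i hi, ← ht'.2 i hi]
    exact hor i hi

/-- the trace of a component is, after rotation, `9` -/
theorem comp_trace [Finite V] (h4 : S_B4) (h5 : S_B5) (h6 : S_F6) (hP : Prm G X) (hb : BF G X)
    (hT : TC G X) {p : ℕ → V} (hp : IC G X 6 p) {K : Set V} (hK : Conn G K) (hKX : K ⊆ X)
    (hd : ∀ i < 6, p i ∉ K) (hnb : ∀ u ∈ X, (∀ i < 6, u ≠ p i) → u ∉ nb G K) {t : ℕ}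
    (ht : Tr G 6 (fun i => {p i}) K t) : t ∈ [9, 18, 36] := by
  have htl := trace h6 hb hp hK hKX hd ht
  have h63 : ¬ ∀ i < 6, t.testBit i = true := fun h =>
    not_full h4 h5 h6 hP hb hp hK hKX hd fun i hi => (ht.2 i hi).2 (h i hi)
  have h2 : ∀ i < 6, ¬ ∀ j < 6, t.testBit j = true → j = i := by
    intro i hi h
    have h1 := (hT (p i) (hp.1 i hi)).eq_of_nb (C := K)
      (fun x hx => ⟨hKX hx, fun e => hd i hi (by rw [← Set.mem_singleton_iff.1 e]; exact hx)⟩) hK.1 (by
      intro v hv hvn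
      by_cases hvp : ∃ j < 6, v = p j
      · obtain ⟨j, hj, rfl⟩ := hvp
        obtain ⟨_, a, ha, hav⟩ := hvn
        have := h j hj ((ht.2 j hj).1 (tch_right_single.2 ⟨a, ha, hav⟩))
        subst this
        exact hv.2 rfl
      · push Not at hvp
        exact hnb v hv.1 hvp hvn)
    obtain ⟨j, hj, hji⟩ : ∃ j < 6, j ≠ i := by
      by_cases h : i = 0
      · exact ⟨1, by omega, by omega⟩
      · exact ⟨0, by omega, fun e => h e.symm⟩
    refine hd j hj ?_
    rw [h1]
    exact ⟨hp.1 j hj, fun e => hji (hp.2.1 j hj i hi e)⟩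
  have key : ∀ t ∈ [0, 1, 2, 4, 8, 16, 32, 9, 18, 36, 63], (¬ ∀ i < 6, t.testBit i = true) →
      (∀ i < 6, ¬ ∀ j < 6, t.testBit j = true → j = i) → t ∈ [9, 18, 36] := by decide
  exact key t htl h63 h2

/-- a component with the trace `9` has at most two elements -/
theorem comp_small [Finite V] (h5 : S_B5) (h6b : S_F6b) (hb : BF G X) (hN : NoC G X 7) {p : ℕ → V}
    (hp : IC G X 6 p) {K : Set V} (hK : Conn G K) (hKX : K ⊆ X) (hd : ∀ i < 6, p i ∉ K)
    (ht : Tr G 6 (fun i => {p i}) K 9) : K.ncard ≤ 2 := by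
  have hno : ∀ x ∈ K, ∀ i < 6, i ≠ 0 → i ≠ 3 → ¬ G.Adj x (p i) := by
    intro x hx i hi h0 h3 h
    have h1 := (ht.2 i hi).1 (tch_right_single.2 ⟨x, hx, h⟩)
    have key : ∀ i < 6, i ≠ 0 → i ≠ 3 → ¬ (9 : ℕ).testBit i = true := by decide
    exact key i hi h0 h3 h1
  have h0 : Tch G K {p 0} := (ht.2 0 (by omega)).2 (by decide)
  have h3 : Tch G K {p 3} := (ht.2 3 (by omega)).2 (by decide)
  obtain ⟨x0, hx0, hx0a⟩ := tch_right_single.1 h0
  obtain ⟨x3, hx3, hx3a⟩ := tch_right_single.1 h3
  obtain ⟨l, r, hr0, hrl, hrK, hri, hra, hr0', hrl'⟩ := path V G K {x | G.Adj x (p 0)}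
    {x | G.Adj x (p 3)} hK ⟨x0, hx0, hx0a⟩ ⟨x3, hx3, hx3a⟩
  have hip : IP G X 4 p := ⟨fun i hi => hp.1 i (by omega), fun i hi j hj h =>
    hp.2.1 i (by omega) j (by omega) h, fun i hi j hj => by
      rw [hp.2.2 i (by omega) j (by omega)]; omega⟩
  have hrp : IP G X (l + 1) r := ⟨fun i hi => hKX (hrK i (by omega)), fun i hi j hj h =>
    hri i (by omega) j (by omega) h, fun i hi j hj => by
      rw [hra i (by omega) j (by omega)]; omega⟩
  have hl : l ≤ 1 := by
    obtain ⟨c, hc⟩ := h5.2 V G X 4 0 3 l p r hip (by omega) (by omega) hrp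
      (fun k hk s hs e => hd s (by omega) (e ▸ hrK k hk))
      (fun k hk => ⟨fun h => hr0' k hk h, fun h => h ▸ hr0⟩)
      (fun k hk => ⟨fun h => hrl' k hk h, fun h => h ▸ hrl⟩)
      (fun k hk s hs1 hs2 => hno _ (hrK k hk) s (by omega) (by omega) (by omega))
    by_contra hl
    exact hN (3 - 0 + l + 2) (by omega) c hc
  -- `K` is the path
  have hKr : {x | ∃ i ≤ l, x = r i} = K := by
    by_contra hne
    obtain ⟨_, ⟨i, hi, rfl⟩, z, ⟨hzK, hzr⟩, hiz⟩ := hK.2 {x | ∃ i ≤ l, x = r i} (by
      rintro x ⟨i, hi, rfl⟩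
      exact hrK i hi) ⟨r 0, 0, by omega, rfl⟩ hne
    have hzr' : ∀ i ≤ l, z ≠ r i := fun i hi e => hzr ⟨i, hi, e⟩
    have hz : ∀ i < 6, z ≠ p i := fun i hi e => hd i hi (e ▸ hzK)
    have hrp' : ∀ k ≤ l, ∀ i < 6, r k ≠ p i := fun k hk i hi e => hd i hi (e ▸ hrK k hk)
    have hsg : ∀ x ∈ K, ({x} : Set V) ⊆ X := fun x hx => Set.singleton_subset_iff.2 (hKX hx)
    have e0 : ∀ k ≤ l, (G.Adj (r k) (p 0) ↔ k = 0) := fun k hk =>
      ⟨fun h => hr0' k hk h, fun h => h ▸ hr0⟩
    have e3 : ∀ k ≤ l, (G.Adj (r k) (p 3) ↔ k = l) := fun k hk =>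
      ⟨fun h => hrl' k hk h, fun h => h ▸ hrl⟩
    have hl01 : l = 0 ∨ l = 1 := by omega
    rcases hl01 with rfl | rfl
    · have hi0 : i = 0 := by omega
      subst hi0
      have t6 : Tr G 6 (fun i => ({p i} : Set V)) {r 0} 9 := by
        refine ⟨by norm_num, fun j hj => ?_⟩
        rw [tch_single]
        by_cases hj0 : j = 0
        · subst hj0
          exact iff_of_true ((e0 0 le_rfl).2 rfl) (by decide)
        · by_cases hj3 : j = 3
          · subst hj3
            exact iff_of_true ((e3 0 le_rfl).2 rfl) (by decide)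
          · have key : ∀ i < 6, i ≠ 0 → i ≠ 3 → ¬ (9 : ℕ).testBit i = true := by decide
            exact iff_of_false (hno _ (hrK 0 le_rfl) j hj hj0 hj3) (key j hj hj0 hj3)
      have s7 : SP G X 7 (fun i => if i < 6 then ({p i} : Set V) else {r 0}) (rC 6 [9]) :=
        hp.sp.snoc (r' := rC 6 [9]) (t := 9) (fun i hi j hj => by simp [rC, hi]) (fun j hj => by simp [rC])
          (Conn.singleton G _) (hsg _ (hrK 0 le_rfl))
          (fun j hj => Set.disjoint_singleton.2 (hrp' 0 le_rfl j hj)) t6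
      obtain ⟨t, ht7⟩ := exists_tr G 7 (fun i => if i < 6 then ({p i} : Set V) else {r 0}) {z}
      have s8 := s7.snoc (r' := rC 6 [9, t]) (t := t) (K := {z})
        (fun i hi j hj => by
          by_cases h : i < 6
          · simp [rC, h]
          · have : i = 6 := by omega
            subst this
            simp [rC])
        (fun j hj => by simp [rC]) (Conn.singleton G _) (hsg _ hzK)
        (fun j hj => by
          by_cases h : j < 6
          · simpa [h] using hz j h
          · simpa [h] using hzr' 0 le_rfl) ht7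
      refine hb (h6b.1 V G X _ t s8 ?_)
      have hb7 : ∀ j < 6, j ≠ 0 → j ≠ 3 → ¬ t.testBit j = true := fun j hj hj0 hj3 h => by
        have h1 := (ht7.2 j (by omega)).2 h
        simp only [hj, if_true] at h1
        exact hno z hzK j hj hj0 hj3 (tch_single.1 h1)
      have hb6 : t.testBit 6 = true := (ht7.2 6 (by omega)).1 (by
        simp only [lt_self_iff_false, if_false]
        exact tch_single.2 hiz.symm)
      have key : ∀ t < 128, ((¬ t.testBit 1 = true) ∧ (¬ t.testBit 2 = true) ∧ (¬ t.testBit 4 = true) ∧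
        (¬ t.testBit 5 = true) ∧ t.testBit 6 = true) → t ∈ [64, 65, 72, 73] := by decide
      exact key t ht7.1 ⟨hb7 1 (by omega) (by omega) (by omega), hb7 2 (by omega) (by omega) (by omega),
        hb7 4 (by omega) (by omega) (by omega), hb7 5 (by omega) (by omega) (by omega), hb6⟩
    · have t6 : Tr G 6 (fun i => ({p i} : Set V)) {r 0} 1 := by
        refine ⟨by norm_num, fun j hj => ?_⟩
        rw [tch_single]
        by_cases hj0 : j = 0
        · subst hj0
          exact iff_of_true ((e0 0 (by omega)).2 rfl) (by decide)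
        · have key : ∀ i < 6, i ≠ 0 → ¬ (1 : ℕ).testBit i = true := by decide
          refine iff_of_false (fun h => ?_) (key j hj hj0)
          by_cases hj3 : j = 3
          · subst hj3
            have := (e3 0 (by omega)).1 h
            omega
          · exact hno _ (hrK 0 (by omega)) j hj hj0 hj3 h
      have s7 : SP G X 7 (fun i => if i < 6 then ({p i} : Set V) else {r 0}) (rC 6 [1]) :=
        hp.sp.snoc (r' := rC 6 [1]) (t := 1) (fun i hi j hj => by simp [rC, hi]) (fun j hj => by simp [rC])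
          (Conn.singleton G _) (hsg _ (hrK 0 (by omega)))
          (fun j hj => Set.disjoint_singleton.2 (hrp' 0 (by omega) j hj)) t6
      have t7 : Tr G 7 (fun i => if i < 6 then ({p i} : Set V) else {r 0}) {r 1} 72 := by
        refine ⟨by norm_num, fun j hj => ?_⟩
        by_cases h6 : j < 6
        · simp only [h6, if_true]
          rw [tch_single]
          by_cases hj3 : j = 3
          · subst hj3
            exact iff_of_true ((e3 1 le_rfl).2 rfl) (by decide)
          · have key : ∀ i < 6, i ≠ 3 → ¬ (72 : ℕ).testBit i = true := by decide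
            refine iff_of_false (fun h => ?_) (key j h6 hj3)
            by_cases hj0 : j = 0
            · subst hj0
              have := (e0 1 (by omega)).1 h
              omega
            · exact hno _ (hrK 1 (by omega)) j h6 hj0 hj3 h
        · have : j = 6 := by omega
          subst this
          simp only [lt_self_iff_false, if_false]
          rw [tch_single]
          exact iff_of_true ((hra 1 (by omega) 0 (by omega)).2 (by omega)) (by decide)
      have s8 : SP G X 8 (fun i => if i < 7 then (if i < 6 then ({p i} : Set V) else {r 0}) else {r 1})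
          (rC 6 [1, 72]) :=
        s7.snoc (r' := rC 6 [1, 72]) (t := 72)
          (fun i hi j hj => by
            by_cases h : i < 6
            · simp [rC, h]
            · have : i = 6 := by omega
              subst this
              simp [rC]) (fun j hj => by simp [rC])
          (Conn.singleton G _) (hsg _ (hrK 1 (by omega)))
          (fun j hj => by
            by_cases h : j < 6
            · simpa [h] using hrp' 1 le_rfl j h
            · simpa [h] using fun e => by
                have := hri 1 (by omega) 0 (by omega) e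
                omega) t7
      obtain ⟨t, ht8⟩ := exists_tr G 8
        (fun i => if i < 7 then (if i < 6 then ({p i} : Set V) else {r 0}) else {r 1}) {z}
      have s9 := s8.snoc (r' := rC 6 [1, 72, t]) (t := t) (K := {z})
        (fun i hi j hj => by
          by_cases h : i < 6
          · simp [rC, h]
          · have : i = 6 ∨ i = 7 := by omega
            rcases this with rfl | rfl <;> simp [rC])
        (fun j hj => by simp [rC]) (Conn.singleton G _) (hsg _ hzK)
        (fun j hj => by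
          by_cases h7 : j < 7
          · by_cases h : j < 6
            · simpa [h7, h] using hz j h
            · simpa [h7, h] using hzr' 0 (by omega)
          · simpa [h7] using hzr' 1 le_rfl) ht8
      refine hb (h6b.2.1 V G X _ t s9 ?_)
      have hb7 : ∀ j < 6, j ≠ 0 → j ≠ 3 → ¬ t.testBit j = true := fun j hj hj0 hj3 h => by
        have h1 := (ht8.2 j (by omega)).2 h
        have h7 : j < 7 := by omega
        simp only [hj, h7, if_true] at h1
        exact hno z hzK j hj hj0 hj3 (tch_single.1 h1)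
      have hb6 : t.testBit 6 = true ∨ t.testBit 7 = true := by
        have : i = 0 ∨ i = 1 := by omega
        rcases this with rfl | rfl
        · left
          refine (ht8.2 6 (by omega)).1 ?_
          simp only [lt_self_iff_false, if_false, show (6 : ℕ) < 7 by norm_num, if_true]
          exact tch_single.2 hiz.symm
        · right
          refine (ht8.2 7 (by omega)).1 ?_
          simp only [lt_self_iff_false, if_false]
          exact tch_single.2 hiz.symm
      have key : ∀ t < 256, ((¬ t.testBit 1 = true) ∧ (¬ t.testBit 2 = true) ∧ (¬ t.testBit 4 = true) ∧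
        (¬ t.testBit 5 = true) ∧ (t.testBit 6 = true ∨ t.testBit 7 = true)) →
          t ∈ [64, 65, 72, 73, 128, 129, 136, 137, 192, 193, 200, 201] := by decide +kernel
      exact key t ht8.1 ⟨hb7 1 (by omega) (by omega) (by omega), hb7 2 (by omega) (by omega) (by omega),
        hb7 4 (by omega) (by omega) (by omega), hb7 5 (by omega) (by omega) (by omega), hb6⟩
  rw [← hKr]
  have h1 : {x | ∃ i ≤ l, x = r i} ⊆ {r 0, r 1} := by
    rintro x ⟨i, hi, rfl⟩
    have : i = 0 ∨ i = 1 := by omega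
    rcases this with rfl | rfl
    · exact Or.inl rfl
    · exact Or.inr rfl
  refine (Set.ncard_le_ncard h1).trans ((Set.ncard_insert_le _ _).trans ?_)
  rw [Set.ncard_singleton]

/-- two sets which do not touch, one with the trace `9` -/
theorem no_two (h6b : S_F6b) (hb : BF G X) {p : ℕ → V}
    (hp : IC G X 6 p) {K K' : Set V} (hK : Conn G K) (hKX : K ⊆ X) (hd : ∀ i < 6, p i ∉ K)
    (hK' : Conn G K') (hKX' : K' ⊆ X) (hd' : ∀ i < 6, p i ∉ K') (hdd : Disjoint K' K)
    (hnt : ¬ Tch G K' K) {t : ℕ}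
    (ht : Tr G 6 (fun i => {p i}) K 9) (ht' : Tr G 6 (fun i => {p i}) K' t) : t ∉ [9, 18, 36] := by
  intro htl
  have s7 : SP G X 7 (fun i => if i < 6 then ({p i} : Set V) else K) (rC 6 [9]) :=
    hp.sp.snoc (r' := rC 6 [9]) (t := 9) (fun i hi j hj => by simp [rC, hi]) (fun j hj => by simp [rC])
      hK hKX (fun j hj => Set.disjoint_singleton_right.2 (hd j hj)) ht
  have t7 : Tr G 7 (fun i => if i < 6 then ({p i} : Set V) else K) K' t := by
    refine ⟨lt_trans ht'.1 (by norm_num), fun j hj => ?_⟩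
    by_cases h6 : j < 6
    · simpa [h6] using ht'.2 j h6
    · have : j = 6 := by omega
      subst this
      simp only [lt_self_iff_false, if_false]
      refine iff_of_false hnt ?_
      have key : ∀ t ∈ [9, 18, 36], ¬ Nat.testBit t 6 = true := by decide
      exact key t htl
  have s8 := s7.snoc (r' := rC 6 [9, t]) (t := t) (K := K')
    (fun i hi j hj => by
      by_cases h : i < 6
      · simp [rC, h]
      · have : i = 6 := by omega
        subst this
        simp [rC])
    (fun j hj => by simp [rC]) hK' hKX'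
    (fun j hj => by
      by_cases h : j < 6
      · simpa [h] using hd' j h
      · simpa [h] using hdd) t7
  exact hb (h6b.2.2 V G X _ t s8 htl)

end b8Aux

open b8Aux in
theorem b8 (h4 : S_B4) (h5 : S_B5) (h6 : S_F6) (h6b : S_F6b) : S_B8 := by
  intro V _ G X p hP hb hT hN hp
  have hQ6 : {x | ∃ i < 6, x = p i}.ncard ≤ 6 := by
    have h1 : {x | ∃ i < 6, x = p i} = p '' (Finset.range 6 : Set ℕ) := by
      ext x
      constructor
      · rintro ⟨i, hi, rfl⟩
        exact ⟨i, by simpa using hi, rfl⟩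
      · rintro ⟨i, hi, rfl⟩
        exact ⟨i, by simpa using hi, rfl⟩
    rw [h1]
    refine (Set.ncard_image_le (Finset.finite_toSet _)).trans ?_
    rw [Set.ncard_coe_finset, Finset.card_range]
  by_cases hXQ : X ⊆ {x | ∃ i < 6, x = p i}
  · exact (Set.ncard_le_ncard hXQ).trans (hQ6.trans (by norm_num))
  rw [Set.not_subset] at hXQ
  obtain ⟨x, hxX, hxQ⟩ := hXQ
  obtain ⟨K, hKA, hxK, hK, hKnb⟩ := exists_comp G (A := X \ {x | ∃ i < 6, x = p i}) (v := x) ⟨hxX, hxQ⟩
  have hKX : K ⊆ X := fun y hy => (hKA hy).1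
  have hKd : ∀ i < 6, p i ∉ K := fun i hi h => (hKA h).2 ⟨i, hi, rfl⟩
  have hKnb' : ∀ u ∈ X, (∀ i < 6, u ≠ p i) → u ∉ nb G K := fun u hu h =>
    hKnb u ⟨hu, fun ⟨i, hi, e⟩ => h i hi e⟩
  obtain ⟨t, ht⟩ := exists_tr G 6 (fun i => ({p i} : Set V)) K
  have htl := comp_trace h4 h5 h6 hP hb hT hp hK hKX hKd hKnb' ht
  -- rotation
  obtain ⟨s, hs, hst⟩ : ∃ s < 6, ∀ i < 6, (9 : ℕ).testBit i = t.testBit ((i + s) % 6) := by
    have key : ∀ t ∈ [9, 18, 36], ∃ s < 6, ∀ i < 6, (9 : ℕ).testBit i = Nat.testBit t ((i + s) % 6) := by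
      decide
    exact key t htl
  have hpr := rot h5 hp s hs
  have hKd' : ∀ i < 6, p ((i + s) % 6) ∉ K := fun i hi => hKd _ (Nat.mod_lt _ (by norm_num))
  have htr := tr_rot ht s (by norm_num) hst
  have hK2 : K.ncard ≤ 2 := comp_small h5 h6b hb hN hpr hK hKX hKd' htr
  have hall : X ⊆ {x | ∃ i < 6, x = p i} ∪ K := by
    intro y hy
    by_contra hyn
    have hyQ : y ∉ {x | ∃ i < 6, x = p i} := fun h => hyn (Or.inl h)
    have hyK : y ∉ K := fun h => hyn (Or.inr h)
    obtain ⟨K', hKA', hyK', hK', hKnb''⟩ := exists_comp G (A := X \ {x | ∃ i < 6, x = p i}) (v := y)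
      ⟨hy, hyQ⟩
    have hKX' : K' ⊆ X := fun y hy => (hKA' hy).1
    have hd' : ∀ i < 6, p i ∉ K' := fun i hi h => (hKA' h).2 ⟨i, hi, rfl⟩
    have hnbK' : ∀ u ∈ X, (∀ i < 6, u ≠ p i) → u ∉ nb G K' := fun u hu h =>
      hKnb'' u ⟨hu, fun ⟨i, hi, e⟩ => h i hi e⟩
    -- disjoint
    have hdisj : Disjoint K' K := by
      rw [Set.disjoint_left]
      intro z hz hz'
      have h1 : K' ∪ K = K' := by
        symm
        refine (hK'.union hK (Or.inl ⟨z, hz, hz'⟩)).eq_of_nb Set.subset_union_left hK'.1 ?_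
        rintro v (hv | hv) hvn
        · exact hvn.1 hv
        · exact hKnb'' v (hKA hv) hvn
      have h2 : K' ∪ K = K := by
        symm
        refine (hK'.union hK (Or.inl ⟨z, hz, hz'⟩)).eq_of_nb Set.subset_union_right hK.1 ?_
        rintro v (hv | hv) hvn
        · exact hKnb v (hKA' hv) hvn
        · exact hvn.1 hv
      exact hyK (by rw [← h2, h1]; exact hyK')
    have hnt : ¬ Tch G K' K := by
      rintro ⟨a, ha, b, hb', hab⟩
      exact hKnb a (hKA' ha) ⟨fun h => Set.disjoint_left.1 hdisj ha h, b, hb', hab.symm⟩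
    obtain ⟨t', ht'⟩ := exists_tr G 6 (fun i => ({p ((i + s) % 6)} : Set V)) K'
    have hd'' : ∀ i < 6, p ((i + s) % 6) ∉ K' := fun i hi => hd' _ (Nat.mod_lt _ (by norm_num))
    have hnb3 : ∀ u ∈ X, (∀ i < 6, u ≠ p ((i + s) % 6)) → u ∉ nb G K' := by
      intro u hu h
      refine hnbK' u hu fun i hi e => ?_
      refine h ((i + (6 - s)) % 6) (Nat.mod_lt _ (by norm_num)) ?_
      rw [e]
      congr 1
      omega
    have h1 := comp_trace h4 h5 h6 hP hb hT hpr hK' hKX' hd'' hnb3 ht'
    exact no_two h6b hb hpr hK hKX hKd' hK' hKX' hd'' hdisj hnt htr ht' h1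
  calc X.ncard ≤ ({x | ∃ i < 6, x = p i} ∪ K).ncard := Set.ncard_le_ncard hall
    _ ≤ _ := Set.ncard_union_le _ _
    _ ≤ 8 := by omega

end Pool.Agent.MPd439b2.BU
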