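import Pool.Agent.Lib.MP_d439b2_co.Basic
import Pool.Agent.Lib.MP_d439b2_co.B.SpecR
import Pool.Agent.Lib.MP_d439b2_co.B.Path
import Pool.Agent.Lib.MP_d439b2_co.B.Grow

/-!
# MP_d439b2_co, BU: the bull, definitions and basic lemmas (helper1)

`G` is a graph, `X` a set of vertices; everything is relative to the induced subgraph `G[X]`.
-/

set_option autoImplicit false

namespace Pool.Agent.MPd439b2.BU

open Pool.Agent.MPd439b2

variable {V : Type}

/-! ### the bull -/

/-- the edges of the bull: the triangle `0 1 2`, `3` adjacent to `0`, `4` adjacent to `1` -/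
def bullE : List (ℕ × ℕ) := [(0, 1), (0, 2), (1, 2), (0, 3), (1, 4)]

/-- the bull -/
def bull : SimpleGraph (Fin 5) where
  Adj i j := (i.val, j.val) ∈ bullE ∨ (j.val, i.val) ∈ bullE
  symm := ⟨fun _ _ h => Or.symm h⟩
  loopless := ⟨fun i h => by
    revert h
    revert i
    decide⟩

instance : DecidableRel bull.Adj := fun i j => by
  unfold bull
  infer_instance

/-- the bull is not an induced minor of `G[X]` -/
def BF (G : SimpleGraph V) (X : Set V) : Prop := ¬ IMS bull G X

/-! ### modules, prime sets -/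

/-- `M` is a module of `G[X]` -/
def Mod (G : SimpleGraph V) (X M : Set V) : Prop :=
  M ⊆ X ∧ ∀ y ∈ X, y ∉ M → ∀ a ∈ M, ∀ b ∈ M, G.Adj y a → G.Adj y b

/-- `G[X]` is prime: every module has at most one element or is `X` -/
def Prm (G : SimpleGraph V) (X : Set V) : Prop :=
  ∀ M, Mod G X M → M.Subsingleton ∨ M = X

/-- no three pairwise non-adjacent vertices in `Y` -/
def Al2 (G : SimpleGraph V) (Y : Set V) : Prop :=
  ∀ a ∈ Y, ∀ b ∈ Y, ∀ c ∈ Y, a ≠ b → a ≠ c → b ≠ c → ¬ G.Adj a b → ¬ G.Adj a c → G.Adj b c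

/-- `G[X]` is connected and has no cut vertices -/
def TC (G : SimpleGraph V) (X : Set V) : Prop := ∀ v ∈ X, Conn G (X \ {v})

/-! ### induced paths and cycles -/

/-- `p 0, ..., p (n-1)` is an induced path with `n` vertices in `G[X]` -/
def IP (G : SimpleGraph V) (X : Set V) (n : ℕ) (p : ℕ → V) : Prop :=
  (∀ i < n, p i ∈ X) ∧ (∀ i < n, ∀ j < n, p i = p j → i = j) ∧
    ∀ i < n, ∀ j < n, (G.Adj (p i) (p j) ↔ i + 1 = j ∨ j + 1 = i)

/-- `p 0, ..., p (n-1)` is an induced cycle with `n` vertices in `G[X]` (for `4 ≤ n`) -/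
def IC (G : SimpleGraph V) (X : Set V) (n : ℕ) (p : ℕ → V) : Prop :=
  (∀ i < n, p i ∈ X) ∧ (∀ i < n, ∀ j < n, p i = p j → i = j) ∧
    ∀ i < n, ∀ j < n, (G.Adj (p i) (p j) ↔
      i + 1 = j ∨ j + 1 = i ∨ (i = 0 ∧ j + 1 = n) ∨ (j = 0 ∧ i + 1 = n))

/-- no induced path with `n` vertices -/
def NoP (G : SimpleGraph V) (X : Set V) (n : ℕ) : Prop := ∀ p, ¬ IP G X n p

/-- no induced cycles with at least `n` vertices -/
def NoC (G : SimpleGraph V) (X : Set V) (n : ℕ) : Prop := ∀ m, n ≤ m → ∀ p, ¬ IC G X m p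

/-! ### layouts -/

/-- the rows of `A` in `X`: the traces on `X \ A` of the neighbourhoods of the vertices of `A` -/
def Rw (G : SimpleGraph V) (X A : Set V) : Set (Set V) :=
  {T | ∃ a ∈ A, T = (G.neighborSet a ∩ X) \ A}

/-- rooted binary trees of sets: `R` holds for every set of leaves below an inner node -/
inductive LT (R : Set V → Prop) : Set V → Prop
  | empty : LT R ∅
  | single (v : V) : LT R {v}
  | union {A B : Set V} : LT R A → LT R B → Disjoint A B → R (A ∪ B) → LT R (A ∪ B)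

/-- `A` has a layout in `X` with at most `k` rows -/
abbrev RL (G : SimpleGraph V) (X : Set V) (k : ℕ) (A : Set V) : Prop :=
  LT (fun B => (Rw G X B).encard ≤ k) A

/-- the same with at most `k` rows, where the full row is always counted -/
abbrev RLp (G : SimpleGraph V) (X : Set V) (k : ℕ) (A : Set V) : Prop :=
  LT (fun B => (insert (X \ B) (Rw G X B)).encard ≤ k) A

/-! ### ears and gems (in the complement graph `D = Gᶜ`) -/

/-- `e` is an ear at the edge `u v` of `D[X]`: the neighbours of `e` are `u` and `v`; the other neighbours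
of `u` are completely adjacent to the other neighbours of `v` -/
structure Ear (D : SimpleGraph V) (X : Set V) (u e v : V) : Prop where
  mu : u ∈ X
  me : e ∈ X
  mv : v ∈ X
  ue : D.Adj u e
  ev : D.Adj e v
  uv : D.Adj u v
  nbe : ∀ y ∈ X, D.Adj e y → y = u ∨ y = v
  bis : ∀ a ∈ X, D.Adj u a → a ≠ v → a ≠ e → ∀ b ∈ X, D.Adj v b → b ≠ u → b ≠ e → D.Adj a b
  exa : ∃ a ∈ X, D.Adj u a ∧ a ≠ v ∧ a ≠ e
  exb : ∃ b ∈ X, D.Adj v b ∧ b ≠ u ∧ b ≠ e

/-- a gem of `D[X]` with the centre `c` and the path `a x y b`; only `a` and `b` have neighbours outside,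
and they have the same ones -/
structure Gem (D : SimpleGraph V) (X : Set V) (a b x y c : V) : Prop where
  ma : a ∈ X
  mb : b ∈ X
  mx : x ∈ X
  my : y ∈ X
  mc : c ∈ X
  nbc : ∀ z ∈ X, (D.Adj c z ↔ z = a ∨ z = b ∨ z = x ∨ z = y)
  nbx : ∀ z ∈ X, (D.Adj x z ↔ z = a ∨ z = c ∨ z = y)
  nby : ∀ z ∈ X, (D.Adj y z ↔ z = b ∨ z = c ∨ z = x)
  nab : ∀ z ∈ X, z ≠ x → z ≠ y → z ≠ c → (D.Adj a z ↔ D.Adj b z)

/-! ### finite patterns -/

/-- the sets `S i`, `i < n`, are connected, pairwise disjoint subsets of `X`; for `j < i < n` the sets `S i`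
and `S j` touch iff `r i j = true` -/
structure SP (G : SimpleGraph V) (X : Set V) (n : ℕ) (S : ℕ → Set V) (r : ℕ → ℕ → Bool) : Prop where
  sub : ∀ i < n, S i ⊆ X
  conn : ∀ i < n, Conn G (S i)
  dis : ∀ i < n, ∀ j < i, Disjoint (S i) (S j)
  tch : ∀ i < n, ∀ j < i, (Tch G (S i) (S j) ↔ r i j = true)

/-- the trace of the set `K` on the sets `S j`, `j < n`, is coded by the bits of `t` -/
def Tr (G : SimpleGraph V) (n : ℕ) (S : ℕ → Set V) (K : Set V) (t : ℕ) : Prop :=
  t < 2 ^ n ∧ ∀ j < n, (Tch G K (S j) ↔ t.testBit j = true)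

/-- the same for a vertex `y` and vertices `p j` -/
def Tv (G : SimpleGraph V) (n : ℕ) (p : ℕ → V) (y : V) (t : ℕ) : Prop :=
  t < 2 ^ n ∧ ∀ j < n, (G.Adj y (p j) ↔ t.testBit j = true)

/-- a set of positions is coded by a number -/
theorem exists_code (n : ℕ) (P : ℕ → Prop) :
    ∃ t < 2 ^ n, ∀ j < n, (P j ↔ t.testBit j = true) := by
  classical
  refine ⟨Nat.ofBits (fun i : Fin n => decide (P i.val)), Nat.ofBits_lt_two_pow _, fun j hj => ?_⟩
  rw [Nat.testBit_ofBits_lt _ _ hj]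
  simp

theorem exists_tr (G : SimpleGraph V) (n : ℕ) (S : ℕ → Set V) (K : Set V) : ∃ t, Tr G n S K t := by
  obtain ⟨t, ht, h⟩ := exists_code n fun j => Tch G K (S j)
  exact ⟨t, ht, h⟩

theorem exists_tv (G : SimpleGraph V) (n : ℕ) (p : ℕ → V) (y : V) : ∃ t, Tv G n p y t := by
  obtain ⟨t, ht, h⟩ := exists_code n fun j => G.Adj y (p j)
  exact ⟨t, ht, h⟩

/-! ### basic lemmas: bulls -/

/-- the bull with branch sets `A B C` (triangle), `P` on `A`, `Q` on `B` -/
theorem bullS {G : SimpleGraph V} {X A B C P Q : Set V} (hA : A ⊆ X) (hB : B ⊆ X) (hC : C ⊆ X)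
    (hP : P ⊆ X) (hQ : Q ⊆ X) (cA : Conn G A) (cB : Conn G B) (cC : Conn G C) (cP : Conn G P)
    (cQ : Conn G Q) (dAB : Disjoint A B) (dAC : Disjoint A C) (dBC : Disjoint B C)
    (dAP : Disjoint A P) (dBP : Disjoint B P) (dCP : Disjoint C P) (dAQ : Disjoint A Q)
    (dBQ : Disjoint B Q) (dCQ : Disjoint C Q) (dPQ : Disjoint P Q)
    (tAB : Tch G A B) (tAC : Tch G A C) (tBC : Tch G B C) (tAP : Tch G A P) (tBQ : Tch G B Q)
    (nBP : ¬ Tch G B P) (nCP : ¬ Tch G C P) (nAQ : ¬ Tch G A Q) (nCQ : ¬ Tch G C Q)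
    (nPQ : ¬ Tch G P Q) : IMS bull G X := by
  have key : ∀ w w' : Fin 5, w ≠ w' → w < w' → Disjoint (![A, B, C, P, Q] w) (![A, B, C, P, Q] w') ∧
      (bull.Adj w w' ↔ Tch G (![A, B, C, P, Q] w) (![A, B, C, P, Q] w')) := by
    intro w w' hw hlt
    fin_cases w <;> fin_cases w' <;> first
      | exact absurd rfl hw
      | exact absurd hlt (by decide)
      | exact ⟨by assumption, iff_of_true (by decide) (by assumption)⟩
      | exact ⟨by assumption, iff_of_false (by decide) (by assumption)⟩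
  refine ⟨![A, B, C, P, Q], ?_, ?_, ?_, ?_⟩
  · intro w; fin_cases w <;> simpa
  · intro w; fin_cases w <;> simpa
  · intro w w' hw
    rcases lt_or_gt_of_ne hw with h | h
    · exact (key w w' hw h).1
    · exact (key w' w hw.symm h).1.symm
  · intro w w' hw
    rcases lt_or_gt_of_ne hw with h | h
    · exact (key w w' hw h).2
    · rw [bull.adj_comm, tch_comm]
      exact (key w' w hw.symm h).2

theorem tch_single {G : SimpleGraph V} {a b : V} : Tch G {a} {b} ↔ G.Adj a b :=
  ⟨fun ⟨_, ha, _, hb, h⟩ => by rw [Set.mem_singleton_iff] at ha hb; subst ha; subst hb; exact h,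
    fun h => ⟨a, rfl, b, rfl, h⟩⟩

theorem tch_single_left {G : SimpleGraph V} {a : V} {B : Set V} :
    Tch G {a} B ↔ ∃ b ∈ B, G.Adj a b :=
  ⟨fun ⟨_, ha, b, hb, h⟩ => by rw [Set.mem_singleton_iff] at ha; subst ha; exact ⟨b, hb, h⟩,
    fun ⟨b, hb, h⟩ => ⟨a, rfl, b, hb, h⟩⟩

/-- the bull with vertices: the triangle `a b c`, `p` on `a`, `q` on `b` (automatically distinct) -/
theorem bull5 {G : SimpleGraph V} {X : Set V} {a b c p q : V} (ha : a ∈ X) (hb : b ∈ X) (hc : c ∈ X)
    (hp : p ∈ X) (hq : q ∈ X) (ab : G.Adj a b) (ac : G.Adj a c) (bc : G.Adj b c) (ap : G.Adj a p)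
    (bq : G.Adj b q) (bp : ¬ G.Adj b p) (cp : ¬ G.Adj c p) (aq : ¬ G.Adj a q) (cq : ¬ G.Adj c q)
    (pq : ¬ G.Adj p q) : IMS bull G X := by
  have s : ∀ {x : V}, x ∈ X → ({x} : Set V) ⊆ X := fun h => Set.singleton_subset_iff.mpr h
  have d : ∀ {x y : V}, x ≠ y → Disjoint ({x} : Set V) {y} := fun h => Set.disjoint_singleton.mpr h
  have h1 : b ≠ p := fun h => pq (h ▸ bq)
  have h2 : c ≠ p := fun h => bp (h ▸ bc)
  have h3 : a ≠ q := fun h => pq (h ▸ ap).symm
  have h4 : c ≠ q := fun h => aq (h ▸ ac)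
  have h5 : p ≠ q := fun h => aq (h ▸ ap)
  exact bullS (s ha) (s hb) (s hc) (s hp) (s hq) (Conn.singleton G a) (Conn.singleton G b)
    (Conn.singleton G c) (Conn.singleton G p) (Conn.singleton G q) (d ab.ne) (d ac.ne) (d bc.ne)
    (d ap.ne) (d h1) (d h2) (d h3) (d bq.ne) (d h4) (d h5) (tch_single.2 ab) (tch_single.2 ac)
    (tch_single.2 bc) (tch_single.2 ap) (tch_single.2 bq) (fun h => bp (tch_single.1 h))
    (fun h => cp (tch_single.1 h)) (fun h => aq (tch_single.1 h)) (fun h => cq (tch_single.1 h))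
    (fun h => pq (tch_single.1 h))

/-- an induced path with five vertices (automatically distinct) -/
theorem ip5 {G : SimpleGraph V} {X : Set V} {a b c d e : V} (ha : a ∈ X) (hb : b ∈ X) (hc : c ∈ X)
    (hd : d ∈ X) (he : e ∈ X) (ab : G.Adj a b) (bc : G.Adj b c) (cd : G.Adj c d) (de : G.Adj d e)
    (ac : ¬ G.Adj a c) (ad : ¬ G.Adj a d) (ae : ¬ G.Adj a e) (bd : ¬ G.Adj b d) (be : ¬ G.Adj b e)
    (ce : ¬ G.Adj c e) :
    IP G X 5 (fun i => if i = 0 then a else if i = 1 then b else if i = 2 then c else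
      if i = 3 then d else e) := by
  have h1 : a ≠ c := fun h => ad (h ▸ cd)
  have h2 : a ≠ d := fun h => ac (h ▸ cd).symm
  have h3 : a ≠ e := fun h => ad (h ▸ de).symm
  have h4 : b ≠ d := fun h => ad (h ▸ ab)
  have h5 : b ≠ e := fun h => ae (h ▸ ab)
  have h6 : c ≠ e := fun h => be (h ▸ bc)
  refine ⟨?_, ?_, ?_⟩
  · intro i hi
    interval_cases i <;> simpa
  · intro i hi j hj h
    interval_cases i <;> interval_cases j <;> first
      | rfl
      | (exfalso
         simp only [OfNat.ofNat_ne_zero, OfNat.ofNat_ne_one, if_true, if_false, one_ne_zero,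
           Nat.reduceEqDiff, zero_ne_one] at h
         first
           | exact ab.ne h | exact ab.ne h.symm | exact bc.ne h | exact bc.ne h.symm
           | exact cd.ne h | exact cd.ne h.symm | exact de.ne h | exact de.ne h.symm
           | exact h1 h | exact h1 h.symm | exact h2 h | exact h2 h.symm | exact h3 h
           | exact h3 h.symm | exact h4 h | exact h4 h.symm | exact h5 h | exact h5 h.symm
           | exact h6 h | exact h6 h.symm)
  · intro i hi j hj
    interval_cases i <;> interval_cases j <;>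
      simp [ab, ab.symm, bc, bc.symm, cd, cd.symm, de, de.symm, ac, ad, ae, bd, be, ce,
        G.adj_comm c a, G.adj_comm d a, G.adj_comm e a, G.adj_comm d b, G.adj_comm e b,
        G.adj_comm e c]

/-! ### basic lemmas: modules and closures -/

/-- the closure principle for prime sets -/
theorem Prm.closure [Finite V] {G : SimpleGraph V} {X M₀ : Set V} (hX : Prm G X)
    (P : Set V → Prop) (h0 : P M₀) (hM₀ : M₀ ⊆ X) (hn : ¬ M₀.Subsingleton)
    (step : ∀ M, M₀ ⊆ M → M ⊆ X → P M → ∀ y ∈ X, y ∉ M →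
      (∃ a ∈ M, G.Adj y a) → (∃ b ∈ M, ¬ G.Adj y b) → P (insert y M)) : P X := by
  have hfin : {M : Set V | M₀ ⊆ M ∧ M ⊆ X ∧ P M}.Finite := Set.toFinite _
  obtain ⟨M, hM⟩ := hfin.exists_maximal ⟨M₀, subset_rfl, hM₀, h0⟩
  obtain ⟨h1, h2, h3⟩ := hM.1
  have hmod : Mod G X M := by
    refine ⟨h2, fun y hy hyM a ha b hb hya => ?_⟩
    by_contra hyb
    have h4 := step M h1 h2 h3 y hy hyM ⟨a, ha, hya⟩ ⟨b, hb, hyb⟩
    have h5 := hM.2 (y := insert y M) ⟨h1.trans (Set.subset_insert y M), Set.insert_subset hy h2, h4⟩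
      (Set.subset_insert y M)
    exact hyM (h5 (Set.mem_insert y M))
  rcases hX M hmod with h | h
  · exact absurd (h.anti h1) hn
  · rw [h] at h3; exact h3

/-- a vertex which is mixed on a connected set is mixed on an edge of it -/
theorem mixed_conn {G : SimpleGraph V} {M : Set V} {y : V} (hM : Conn G M) (h1 : ∃ a ∈ M, G.Adj y a)
    (h2 : ∃ b ∈ M, ¬ G.Adj y b) : ∃ a ∈ M, ∃ b ∈ M, G.Adj y a ∧ ¬ G.Adj y b ∧ G.Adj a b := by
  obtain ⟨b, hb, a, ha, hab⟩ := hM.2 {x | x ∈ M ∧ G.Adj y x} (fun x hx => hx.1)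
    (by obtain ⟨a, ha, h⟩ := h1; exact ⟨a, ha, h⟩)
    (by
      obtain ⟨b, hb, h⟩ := h2
      intro h'
      rw [← h'] at hb
      exact h hb.2)
  exact ⟨b, hb.1, a, ha.1, hb.2, fun h => ha.2 ⟨ha.1, h⟩, hab⟩

/-- a vertex which is mixed on a co-connected set is mixed on a non-edge of it -/
theorem mixed_co {G : SimpleGraph V} {M : Set V} {y : V} (hM : Conn Gᶜ M) (h1 : ∃ a ∈ M, G.Adj y a)
    (h2 : ∃ b ∈ M, ¬ G.Adj y b) :
    ∃ a ∈ M, ∃ b ∈ M, G.Adj y a ∧ ¬ G.Adj y b ∧ a ≠ b ∧ ¬ G.Adj a b := by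
  obtain ⟨b, hb, a, ha, hab⟩ := hM.2 {x | x ∈ M ∧ G.Adj y x} (fun x hx => hx.1)
    (by obtain ⟨a, ha, h⟩ := h1; exact ⟨a, ha, h⟩)
    (by
      obtain ⟨b, hb, h⟩ := h2
      intro h'
      rw [← h'] at hb
      exact h hb.2)
  exact ⟨b, hb.1, a, ha.1, hb.2, fun h => ha.2 ⟨ha.1, h⟩, hab.1, hab.2⟩

theorem Mod.compl {G : SimpleGraph V} {X M : Set V} (h : Mod G X M) : Mod Gᶜ X M :=
  ⟨h.1, fun y hy hyM a ha b hb hya => ⟨fun e => hyM (e ▸ hb), fun hyb => hya.2 (h.2 y hy hyM b hb a ha hyb)⟩⟩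

theorem Mod.of_compl {G : SimpleGraph V} {X M : Set V} (h : Mod Gᶜ X M) : Mod G X M := by
  have := h.compl
  rwa [compl_compl] at this

theorem Prm.compl {G : SimpleGraph V} {X : Set V} (h : Prm G X) : Prm Gᶜ X :=
  fun M hM => h M hM.of_compl

/-- prime sets with at least three elements are connected -/
theorem Prm.conn [Finite V] {G : SimpleGraph V} {X : Set V} (h : Prm G X) (h3 : 3 ≤ X.ncard) :
    Conn G X := by
  by_contra hc
  have hne : X.Nonempty := by
    rw [← Set.ncard_pos]; omega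
  obtain ⟨C, hC, hcc, hCX, hnb⟩ := exists_comp_of_not_conn hne hc
  have hno : ∀ y ∈ X, y ∉ C → ∀ a ∈ C, ¬ G.Adj y a := fun y hy hyC a ha hya =>
    hnb y hy ⟨hyC, a, ha, hya.symm⟩
  have h1 : Mod G X C := ⟨hC, fun y hy hyC a ha _ _ hya => absurd hya (hno y hy hyC a ha)⟩
  have h2 : Mod G X (X \ C) := ⟨Set.sdiff_subset, fun y hy hyC a ha _ _ hya => by
    have hyC' : y ∈ C := by
      by_contra h'; exact hyC ⟨hy, h'⟩
    exact absurd hya.symm (hno a ha.1 ha.2 y hyC')⟩
  have h3' : C.Subsingleton := (h C h1).resolve_right hCX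
  have h4 : (X \ C).Subsingleton := by
    refine (h _ h2).resolve_right fun h' => ?_
    obtain ⟨c, hc⟩ := hcc.1
    have : c ∈ X \ C := by rw [h']; exact hC hc
    exact this.2 hc
  have h5 : X.ncard = C.ncard + (X \ C).ncard := by
    rw [add_comm, Set.ncard_sdiff_add_ncard_of_subset hC]
  have h6 : C.ncard ≤ 1 := Set.ncard_le_one_iff_subsingleton.2 h3'
  have h7 : (X \ C).ncard ≤ 1 := Set.ncard_le_one_iff_subsingleton.2 h4
  omega

theorem BF.mono {G : SimpleGraph V} {X Y : Set V} (h : BF G X) (hY : Y ⊆ X) : BF G Y :=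
  fun h' => h (h'.mono hY)

theorem IP.mono {G : SimpleGraph V} {X Y : Set V} {n : ℕ} {p : ℕ → V} (h : IP G Y n p) (hY : Y ⊆ X) :
    IP G X n p := ⟨fun i hi => hY (h.1 i hi), h.2⟩

theorem IC.mono {G : SimpleGraph V} {X Y : Set V} {n : ℕ} {p : ℕ → V} (h : IC G Y n p) (hY : Y ⊆ X) :
    IC G X n p := ⟨fun i hi => hY (h.1 i hi), h.2⟩

theorem NoP.mono {G : SimpleGraph V} {X Y : Set V} {n : ℕ} (h : NoP G X n) (hY : Y ⊆ X) : NoP G Y n :=
  fun p hp => h p (hp.mono hY)

/-- the reversed path -/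
theorem IP.rev {G : SimpleGraph V} {X : Set V} {n : ℕ} {p : ℕ → V} (h : IP G X n p) :
    IP G X n (fun i => p (n - 1 - i)) := by
  refine ⟨fun i hi => h.1 _ (by omega), fun i hi j hj hij => ?_, fun i hi j hj => ?_⟩
  · have := h.2.1 _ (by omega) _ (by omega) hij
    omega
  · rw [h.2.2 _ (by omega) _ (by omega)]
    omega

/-! ### basic lemmas: layouts -/

theorem LT.mono {R R' : Set V → Prop} (h : ∀ A, R A → R' A) {A : Set V} (hA : LT R A) : LT R' A := by
  induction hA with
  | empty => exact LT.empty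
  | single v => exact LT.single v
  | union _ _ hd hr ihA ihB => exact LT.union ihA ihB hd (h _ hr)

/-- monotonicity where only the subsets of `A` matter -/
theorem LT.mono' {R R' : Set V → Prop} {A : Set V} (hA : LT R A) (h : ∀ B ⊆ A, R B → R' B) :
    LT R' A := by
  induction hA with
  | empty => exact LT.empty
  | single v => exact LT.single v
  | union _ _ hd hr ihA ihB =>
    exact LT.union (ihA fun B hB => h B (hB.trans Set.subset_union_left))
      (ihB fun B hB => h B (hB.trans Set.subset_union_right)) hd (h _ subset_rfl hr)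

/-- expansion: the leaf `y` is replaced by the set `B y` -/
theorem LT.exp {R R' : Set V → Prop} {Y : Set V} (hY : LT R Y) (B : V → Set V)
    (hd : ∀ y ∈ Y, ∀ z ∈ Y, y ≠ z → Disjoint (B y) (B z)) (hB : ∀ y ∈ Y, LT R' (B y))
    (h : ∀ A ⊆ Y, R A → R' (⋃ y ∈ A, B y)) : LT R' (⋃ y ∈ Y, B y) := by
  induction hY with
  | empty => simpa using LT.empty
  | single v => simpa using hB v rfl
  | @union A C _ _ hAC hr ihA ihB =>
    rw [Set.biUnion_union]
    refine LT.union
      (ihA (fun y hy z hz => hd y (Or.inl hy) z (Or.inl hz)) (fun y hy => hB y (Or.inl hy))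
        fun D hD => h D (hD.trans Set.subset_union_left))
      (ihB (fun y hy z hz => hd y (Or.inr hy) z (Or.inr hz)) (fun y hy => hB y (Or.inr hy))
        fun D hD => h D (hD.trans Set.subset_union_right)) ?_ ?_
    · rw [Set.disjoint_iUnion₂_left]
      intro y hy
      rw [Set.disjoint_iUnion₂_right]
      intro z hz
      refine hd y (Or.inl hy) z (Or.inr hz) fun e => ?_
      subst e
      exact Set.disjoint_left.1 hAC hy hz
    · rw [← Set.biUnion_union]
      exact h _ subset_rfl hr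

/-- restriction -/
theorem LT.restrict {R R' : Set V → Prop} {Y : Set V} (hY : LT R Y) (Z : Set V)
    (h : ∀ A ⊆ Y, R A → R' (A ∩ Z)) : LT R' (Y ∩ Z) := by
  induction hY with
  | empty => simpa using LT.empty
  | single v =>
    by_cases hv : v ∈ Z
    · rw [Set.inter_eq_left.2 (Set.singleton_subset_iff.2 hv)]
      exact LT.single v
    · rw [show ({v} : Set V) ∩ Z = ∅ from Set.singleton_inter_eq_empty.2 hv]
      exact LT.empty
  | @union A C _ _ hAC hr ihA ihB =>
    rw [Set.union_inter_distrib_right]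
    refine LT.union (ihA fun D hD => h D (hD.trans Set.subset_union_left))
      (ihB fun D hD => h D (hD.trans Set.subset_union_right))
      (hAC.mono Set.inter_subset_left Set.inter_subset_left) ?_
    rw [← Set.union_inter_distrib_right]
    exact h _ subset_rfl hr

/-- unions of families: `R` holds for the union of every subfamily -/
theorem LT.biUnion {R : Set V → Prop} {ι : Type} (s : Finset ι) (B : ι → Set V)
    (hd : ∀ i ∈ s, ∀ j ∈ s, i ≠ j → Disjoint (B i) (B j)) (hB : ∀ i ∈ s, LT R (B i))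
    (h : ∀ t ⊆ s, R (⋃ i ∈ t, B i)) : LT R (⋃ i ∈ s, B i) := by
  classical
  induction s using Finset.induction_on with
  | empty => simpa using LT.empty
  | @insert a s ha ih =>
    rw [Finset.set_biUnion_insert]
    refine LT.union (hB a (Finset.mem_insert_self a s))
      (ih (fun i hi j hj => hd i (Finset.mem_insert_of_mem hi) j (Finset.mem_insert_of_mem hj))
        (fun i hi => hB i (Finset.mem_insert_of_mem hi))
        fun t ht => h t (ht.trans (Finset.subset_insert a s))) ?_ ?_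
    · rw [Set.disjoint_iUnion₂_right]
      intro j hj
      exact hd a (Finset.mem_insert_self a s) j (Finset.mem_insert_of_mem hj) fun e => ha (e ▸ hj)
    · rw [← Finset.set_biUnion_insert]
      exact h _ subset_rfl

/-- adding one vertex -/
theorem LT.insert {R : Set V → Prop} {A : Set V} {v : V} (hA : LT R A) (hv : v ∉ A)
    (h : R (Insert.insert v A)) : LT R (Insert.insert v A) := by
  rw [Set.insert_eq] at h ⊢
  exact LT.union (LT.single v) hA (Set.disjoint_singleton_left.2 hv) h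

/-- a set all of whose subsets satisfy `R` -/
theorem LT.of_all [Finite V] {R : Set V → Prop} {A : Set V} (h : ∀ B ⊆ A, R B) : LT R A := by
  have key : ∀ n : ℕ, ∀ B : Set V, B ⊆ A → B.ncard = n → LT R B := by
    intro n
    induction n with
    | zero =>
      intro B _ hB
      rw [Set.ncard_eq_zero] at hB
      subst hB
      exact LT.empty
    | succ n ih =>
      intro B hBA hB
      obtain ⟨b, hb⟩ : B.Nonempty := by rw [← Set.ncard_pos]; omega
      have h1 : Insert.insert b (B \ {b}) = B := by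
        rw [Set.insert_sdiff_singleton, Set.insert_eq_of_mem hb]
      rw [← h1]
      refine LT.insert (ih (B \ {b}) (Set.sdiff_subset.trans hBA) ?_) (fun h => h.2 rfl) ?_
      · rw [Set.ncard_sdiff_singleton_of_mem hb]; omega
      · rw [h1]; exact h B hBA
  exact key _ A subset_rfl rfl

theorem rw_encard_le (G : SimpleGraph V) (X A : Set V) : (Rw G X A).encard ≤ A.encard := by
  have h : Rw G X A = (fun a => (G.neighborSet a ∩ X) \ A) '' A := by
    ext T
    constructor
    · rintro ⟨a, ha, rfl⟩; exact ⟨a, ha, rfl⟩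
    · rintro ⟨a, ha, rfl⟩; exact ⟨a, ha, rfl⟩
  rw [h]
  exact Set.encard_image_le _ _

/-- small sets -/
theorem RL.small [Finite V] {G : SimpleGraph V} {X A : Set V} {k : ℕ} (h : A.ncard ≤ k) :
    RL G X k A := by
  refine LT.of_all fun B hB => (rw_encard_le G X B).trans ?_
  rw [← (Set.toFinite B).cast_ncard_eq]
  exact_mod_cast (Set.ncard_le_ncard hB).trans h

theorem RL.mono {G : SimpleGraph V} {X A : Set V} {k k' : ℕ} (hk : k ≤ k') (h : RL G X k A) :
    RL G X k' A := LT.mono (fun _ h => h.trans (by exact_mod_cast hk)) h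

theorem RLp.mono {G : SimpleGraph V} {X A : Set V} {k k' : ℕ} (hk : k ≤ k') (h : RLp G X k A) :
    RLp G X k' A := LT.mono (fun _ h => h.trans (by exact_mod_cast hk)) h

theorem RL.toRLp {G : SimpleGraph V} {X A : Set V} {k : ℕ} (h : RL G X k A) : RLp G X (k + 1) A :=
  LT.mono (fun B h => (Set.encard_insert_le _ _).trans (by
    push_cast
    gcongr)) h

theorem RLp.toRL {G : SimpleGraph V} {X A : Set V} {k : ℕ} (h : RLp G X k A) : RL G X k A :=
  LT.mono (fun _ h => (Set.encard_le_encard (Set.subset_insert _ _)).trans h) h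

/-- restriction to a subset of `X` -/
theorem RL.restrict {G : SimpleGraph V} {X Y : Set V} {k : ℕ} (hY : Y ⊆ X) (h : RL G X k X) :
    RL G Y k Y := by
  have h2 : RL G Y k (X ∩ Y) := by
    refine LT.restrict h Y fun A _ hA => ?_
    have h1 : Rw G Y (A ∩ Y) ⊆ (fun T => T ∩ Y) '' Rw G X A := by
      rintro T ⟨a, ha, rfl⟩
      refine ⟨_, ⟨a, ha.1, rfl⟩, ?_⟩
      ext z
      constructor
      · rintro ⟨⟨⟨hz1, _⟩, hz3⟩, hz4⟩
        exact ⟨⟨hz1, hz4⟩, fun h => hz3 h.1⟩
      · rintro ⟨⟨hz1, hz2⟩, hz3⟩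
        exact ⟨⟨⟨hz1, hY hz2⟩, fun h => hz3 ⟨h, hz2⟩⟩, hz2⟩
    exact (Set.encard_le_encard h1).trans ((Set.encard_image_le _ _).trans hA)
  rwa [Set.inter_eq_right.2 hY] at h2

end Pool.Agent.MPd439b2.BU
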