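import Pool.Agent.Lib.MP_d439b2_co.BU.Spec

/-!
# MP_d439b2_co, BU: certificates for finite patterns (helper1)
-/

set_option autoImplicit false

namespace Pool.Agent.MPd439b2.BU

open Pool.Agent.MPd439b2

namespace Eng

/-- the symmetric relation of a pattern -/
def rs (r : ℕ → ℕ → Bool) (i j : ℕ) : Bool :=
  bif Nat.blt j i then r i j else bif Nat.blt i j then r j i else false

/-- some element of `l` is related to some element of `m` -/
def tchL (r : ℕ → ℕ → Bool) : List ℕ → List ℕ → Bool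
  | [], _ => false
  | i :: l, m => m.any (fun j => rs r i j) || tchL r l m

/-- every element except the last one is related to a later one -/
def connL (r : ℕ → ℕ → Bool) : List ℕ → Bool
  | [] => false
  | i :: l => l.isEmpty || (l.any (fun j => rs r i j) && connL r l)

/-- all elements are less than `n` and different -/
def goodL (n : ℕ) : List ℕ → Bool
  | [] => true
  | i :: l => Nat.blt i n && (l.all fun j => !Nat.beq i j) && goodL n l

/-- a certificate for the bull -/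
def chkB (n : ℕ) (r : ℕ → ℕ → Bool) (A B C P Q : List ℕ) : Bool :=
  goodL n (A ++ B ++ C ++ P ++ Q) && tchL r A B && tchL r A C && tchL r B C && tchL r A P &&
    tchL r B Q && !tchL r B P && !tchL r C P && !tchL r A Q && !tchL r C Q && !tchL r P Q &&
    connL r A && connL r B && connL r C && connL r P && connL r Q

/-- the union of the sets `S i`, `i ∈ l` -/
def US {V : Type} (S : ℕ → Set V) (l : List ℕ) : Set V := {x | ∃ i ∈ l, x ∈ S i}

theorem goodL_iff {n : ℕ} {l : List ℕ} (h : goodL n l = true) : (∀ i ∈ l, i < n) ∧ l.Nodup := by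
  induction l with
  | nil => exact ⟨by simp, List.nodup_nil⟩
  | cons a l ih =>
    simp only [goodL, Bool.and_eq_true, Nat.blt_eq, List.all_eq_true, Bool.not_eq_true'] at h
    obtain ⟨⟨h1, h2⟩, h3⟩ := h
    obtain ⟨h4, h5⟩ := ih h3
    refine ⟨?_, List.nodup_cons.2 ⟨fun ha => ?_, h5⟩⟩
    · intro i hi
      rcases List.mem_cons.1 hi with rfl | hi
      · exact h1
      · exact h4 i hi
    · have := h2 a ha
      simp at this

theorem tchL_iff {r : ℕ → ℕ → Bool} {l m : List ℕ} :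
    tchL r l m = true ↔ ∃ i ∈ l, ∃ j ∈ m, rs r i j = true := by
  induction l with
  | nil => simp [tchL]
  | cons a l ih =>
    simp only [tchL, Bool.or_eq_true, List.any_eq_true, ih, List.mem_cons, exists_eq_or_imp]

variable {V : Type} {G : SimpleGraph V} {X : Set V} {n : ℕ} {S : ℕ → Set V} {r : ℕ → ℕ → Bool}

theorem rs_iff (h : SP G X n S r) {i j : ℕ} (hi : i < n) (hj : j < n) (hij : i ≠ j) :
    (Tch G (S i) (S j) ↔ rs r i j = true) := by
  unfold rs
  rcases lt_or_gt_of_ne hij with h1 | h1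
  · have h2 : Nat.blt j i = false := by
      rw [Bool.eq_false_iff]
      intro h3
      rw [Nat.blt_eq] at h3
      omega
    have h3 : Nat.blt i j = true := by rw [Nat.blt_eq]; exact h1
    rw [h2, h3, cond_false, cond_true, tch_comm]
    exact h.tch j hj i h1
  · have h3 : Nat.blt j i = true := by rw [Nat.blt_eq]; exact h1
    rw [h3, cond_true]
    exact h.tch i hi j h1

theorem dis' (h : SP G X n S r) {i j : ℕ} (hi : i < n) (hj : j < n) (hij : i ≠ j) :
    Disjoint (S i) (S j) := by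
  rcases lt_or_gt_of_ne hij with h1 | h1
  · exact (h.dis j hj i h1).symm
  · exact h.dis i hi j h1

theorem us_sub (h : SP G X n S r) {l : List ℕ} (hl : ∀ i ∈ l, i < n) : US S l ⊆ X := by
  rintro x ⟨i, hi, hx⟩
  exact h.sub i (hl i hi) hx

theorem us_dis (h : SP G X n S r) {l m : List ℕ} (hl : ∀ i ∈ l, i < n) (hm : ∀ i ∈ m, i < n)
    (hlm : ∀ i ∈ l, i ∉ m) : Disjoint (US S l) (US S m) := by
  rw [Set.disjoint_left]
  rintro x ⟨i, hi, hx⟩ ⟨j, hj, hx'⟩
  exact Set.disjoint_left.1 (dis' h (hl i hi) (hm j hj) fun e => hlm i hi (e ▸ hj)) hx hx'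

theorem us_tch (h : SP G X n S r) {l m : List ℕ} (hl : ∀ i ∈ l, i < n) (hm : ∀ i ∈ m, i < n)
    (hlm : ∀ i ∈ l, i ∉ m) : Tch G (US S l) (US S m) ↔ tchL r l m = true := by
  rw [tchL_iff]
  constructor
  · rintro ⟨a, ⟨i, hi, ha⟩, b, ⟨j, hj, hb⟩, hab⟩
    exact ⟨i, hi, j, hj, (rs_iff h (hl i hi) (hm j hj) fun e => hlm i hi (e ▸ hj)).1
      ⟨a, ha, b, hb, hab⟩⟩
  · rintro ⟨i, hi, j, hj, hr⟩
    obtain ⟨a, ha, b, hb, hab⟩ := (rs_iff h (hl i hi) (hm j hj) fun e => hlm i hi (e ▸ hj)).2 hr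
    exact ⟨a, ⟨i, hi, ha⟩, b, ⟨j, hj, hb⟩, hab⟩

theorem us_conn (h : SP G X n S r) {l : List ℕ} (hl : ∀ i ∈ l, i < n) (hd : l.Nodup)
    (hc : connL r l = true) : Conn G (US S l) := by
  induction l with
  | nil => simp [connL] at hc
  | cons a l ih =>
    have ha : a < n := hl a List.mem_cons_self
    have hs : US S (a :: l) = S a ∪ US S l := by
      ext x
      constructor
      · rintro ⟨i, hi, hx⟩
        rcases List.mem_cons.1 hi with rfl | hi
        · exact Or.inl hx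
        · exact Or.inr ⟨i, hi, hx⟩
      · rintro (hx | ⟨i, hi, hx⟩)
        · exact ⟨a, List.mem_cons_self, hx⟩
        · exact ⟨i, List.mem_cons_of_mem a hi, hx⟩
    simp only [connL, Bool.or_eq_true, Bool.and_eq_true, List.any_eq_true] at hc
    rcases hc with hc | ⟨⟨j, hj, hr⟩, hc⟩
    · rw [List.isEmpty_iff] at hc
      subst hc
      have : US S [] = ∅ := by
        ext x
        simp [US]
      rw [hs, this, Set.union_empty]
      exact h.conn a ha
    · rw [hs]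
      rw [List.nodup_cons] at hd
      have hj' : j < n := hl j (List.mem_cons_of_mem a hj)
      refine (h.conn a ha).union (ih (fun i hi => hl i (List.mem_cons_of_mem a hi)) hd.2 hc) (Or.inr ?_)
      obtain ⟨x, hx, y, hy, hxy⟩ := (rs_iff h ha hj' fun e => hd.1 (e ▸ hj)).2 hr
      exact ⟨x, hx, y, ⟨j, hj, hy⟩, hxy⟩

/-- the bull from a certificate -/
theorem bull_of (h : SP G X n S r) (A B C P Q : List ℕ) (hc : chkB n r A B C P Q = true) :
    IMS bull G X := by
  simp only [chkB, Bool.and_eq_true, Bool.not_eq_true'] at hc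
  obtain ⟨⟨⟨⟨⟨⟨⟨⟨⟨⟨⟨⟨⟨⟨⟨hg, tAB⟩, tAC⟩, tBC⟩, tAP⟩, tBQ⟩, nBP⟩, nCP⟩, nAQ⟩, nCQ⟩, nPQ⟩, cA⟩, cB⟩, cC⟩, cP⟩, cQ⟩ := hc
  obtain ⟨hn, hd⟩ := goodL_iff hg
  simp only [List.mem_append] at hn
  simp only [List.nodup_append, List.mem_append] at hd
  obtain ⟨⟨⟨⟨dA, dB, hAB⟩, dC, hABC⟩, dP, hABCP⟩, dQ, hABCPQ⟩ := hd
  have nA : ∀ i ∈ A, i < n := fun i hi => hn i (Or.inl (Or.inl (Or.inl (Or.inl hi))))
  have nB : ∀ i ∈ B, i < n := fun i hi => hn i (Or.inl (Or.inl (Or.inl (Or.inr hi))))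
  have nC : ∀ i ∈ C, i < n := fun i hi => hn i (Or.inl (Or.inl (Or.inr hi)))
  have nP : ∀ i ∈ P, i < n := fun i hi => hn i (Or.inl (Or.inr hi))
  have nQ : ∀ i ∈ Q, i < n := fun i hi => hn i (Or.inr hi)
  have eAB : ∀ i ∈ A, i ∉ B := fun i hi hj => hAB i hi i hj rfl
  have eAC : ∀ i ∈ A, i ∉ C := fun i hi hj => hABC i (Or.inl hi) i hj rfl
  have eBC : ∀ i ∈ B, i ∉ C := fun i hi hj => hABC i (Or.inr hi) i hj rfl
  have eAP : ∀ i ∈ A, i ∉ P := fun i hi hj => hABCP i (Or.inl (Or.inl hi)) i hj rfl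
  have eBP : ∀ i ∈ B, i ∉ P := fun i hi hj => hABCP i (Or.inl (Or.inr hi)) i hj rfl
  have eCP : ∀ i ∈ C, i ∉ P := fun i hi hj => hABCP i (Or.inr hi) i hj rfl
  have eAQ : ∀ i ∈ A, i ∉ Q := fun i hi hj => hABCPQ i (Or.inl (Or.inl (Or.inl hi))) i hj rfl
  have eBQ : ∀ i ∈ B, i ∉ Q := fun i hi hj => hABCPQ i (Or.inl (Or.inl (Or.inr hi))) i hj rfl
  have eCQ : ∀ i ∈ C, i ∉ Q := fun i hi hj => hABCPQ i (Or.inl (Or.inr hi)) i hj rfl
  have ePQ : ∀ i ∈ P, i ∉ Q := fun i hi hj => hABCPQ i (Or.inr hi) i hj rfl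
  refine bullS (A := US S A) (B := US S B) (C := US S C) (P := US S P) (Q := US S Q)
    (us_sub h nA) (us_sub h nB) (us_sub h nC) (us_sub h nP) (us_sub h nQ)
    (us_conn h nA dA cA) (us_conn h nB dB cB) (us_conn h nC dC cC) (us_conn h nP dP cP)
    (us_conn h nQ dQ cQ) (us_dis h nA nB eAB) (us_dis h nA nC eAC) (us_dis h nB nC eBC)
    (us_dis h nA nP eAP) (us_dis h nB nP eBP) (us_dis h nC nP eCP) (us_dis h nA nQ eAQ)
    (us_dis h nB nQ eBQ) (us_dis h nC nQ eCQ) (us_dis h nP nQ ePQ)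
    ((us_tch h nA nB eAB).2 tAB) ((us_tch h nA nC eAC).2 tAC) ((us_tch h nB nC eBC).2 tBC)
    ((us_tch h nA nP eAP).2 tAP) ((us_tch h nB nQ eBQ).2 tBQ) ?_ ?_ ?_ ?_ ?_
  · rw [us_tch h nB nP eBP, nBP]; exact Bool.false_ne_true
  · rw [us_tch h nC nP eCP, nCP]; exact Bool.false_ne_true
  · rw [us_tch h nA nQ eAQ, nAQ]; exact Bool.false_ne_true
  · rw [us_tch h nC nQ eCQ, nCQ]; exact Bool.false_ne_true
  · rw [us_tch h nP nQ ePQ, nPQ]; exact Bool.false_ne_true

/-- certificates as lists of five lists -/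
def chkL (n : ℕ) (r : ℕ → ℕ → Bool) : List (List ℕ) → Bool
  | [A, B, C, P, Q] => chkB n r A B C P Q
  | _ => false

/-- one of the certificates of a list works -/
def anyB (n : ℕ) (r : ℕ → ℕ → Bool) (cs : List (List (List ℕ))) : Bool := cs.any (chkL n r)

theorem bull_of_any (h : SP G X n S r) (cs : List (List (List ℕ))) (hc : anyB n r cs = true) :
    IMS bull G X := by
  rw [anyB, List.any_eq_true] at hc
  obtain ⟨c, _, hc⟩ := hc
  match c, hc with
  | [A, B, C, P, Q], hc => exact bull_of h A B C P Q hc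
  | [], hc => simp [chkL] at hc
  | [_], hc => simp [chkL] at hc
  | [_, _], hc => simp [chkL] at hc
  | [_, _, _], hc => simp [chkL] at hc
  | [_, _, _, _], hc => simp [chkL] at hc
  | _ :: _ :: _ :: _ :: _ :: _ :: _, hc => simp [chkL] at hc

end Eng

end Pool.Agent.MPd439b2.BU
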