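import Pool.Agent.Lib.MP_d439b2_co.BU.Spec

/-!
# MP_d439b2_co, BU: extending patterns by a set (used for B8 and B9)
-/

set_option autoImplicit false

namespace Pool.Agent.MPd439b2.BU

open Pool.Agent.MPd439b2

variable {V : Type} {G : SimpleGraph V} {X : Set V}

/-- extending a pattern by one set -/
theorem SP.snoc {n : ℕ} {S : ℕ → Set V} {r r' : ℕ → ℕ → Bool} {K : Set V} {t : ℕ} (h : SP G X n S r)
    (hr : ∀ i < n, ∀ j < i, r' i j = r i j) (hn : ∀ j < n, r' n j = t.testBit j) (hK : Conn G K)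
    (hKX : K ⊆ X) (hd : ∀ j < n, Disjoint K (S j)) (ht : Tr G n S K t) :
    SP G X (n + 1) (fun i => if i < n then S i else K) r' := by
  refine ⟨?_, ?_, ?_, ?_⟩
  · intro i hi
    by_cases h1 : i < n
    · simpa [h1] using h.sub i h1
    · simpa [h1] using hKX
  · intro i hi
    by_cases h1 : i < n
    · simpa [h1] using h.conn i h1
    · simpa [h1] using hK
  · intro i hi j hj
    by_cases h1 : i < n
    · have h2 : j < n := by omega
      simpa [h1, h2] using h.dis i h1 j hj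
    · have h2 : j < n := by omega
      simpa [h1, h2] using hd j h2
  · intro i hi j hj
    by_cases h1 : i < n
    · have h2 : j < n := by omega
      simp only [h1, h2, if_true]
      rw [h.tch i h1 j hj, hr i h1 j hj]
    · have h2 : j < n := by omega
      have h3 : i = n := by omega
      subst h3
      simp only [h2, if_true, lt_self_iff_false, if_false]
      rw [ht.2 j h2, hn j h2]

/-- the pattern of a path -/
theorem IP.sp {n : ℕ} {p : ℕ → V} (h : IP G X n p) : SP G X n (fun i => {p i}) (rP n []) := by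
  refine ⟨fun i hi => Set.singleton_subset_iff.2 (h.1 i hi), fun i hi => Conn.singleton G _,
    fun i hi j hj => Set.disjoint_singleton.2 fun e => ?_, fun i hi j hj => ?_⟩
  · have := h.2.1 i hi j (by omega) e
    omega
  · rw [tch_single, h.2.2 i hi j (by omega)]
    simp only [rP, hi, if_true, beq_iff_eq]
    omega

/-- the pattern of a cycle -/
theorem IC.sp {n : ℕ} {p : ℕ → V} (h : IC G X n p) : SP G X n (fun i => {p i}) (rC n []) := by
  refine ⟨fun i hi => Set.singleton_subset_iff.2 (h.1 i hi), fun i hi => Conn.singleton G _,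
    fun i hi j hj => Set.disjoint_singleton.2 fun e => ?_, fun i hi j hj => ?_⟩
  · have := h.2.1 i hi j (by omega) e
    omega
  · rw [tch_single, h.2.2 i hi j (by omega)]
    simp only [rC, hi, if_true, beq_iff_eq, Bool.or_eq_true, Bool.and_eq_true]
    omega

/-- the traces of vertices -/
theorem tch_right_single {a : V} {A : Set V} : Tch G A {a} ↔ ∃ b ∈ A, G.Adj b a :=
  ⟨fun ⟨b, hb, _, ha, h⟩ => by rw [Set.mem_singleton_iff] at ha; subst ha; exact ⟨b, hb, h⟩,
    fun ⟨b, hb, h⟩ => ⟨b, hb, a, rfl, h⟩⟩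

/-- a set which touches all vertices `p i` leads to a vertex which is adjacent to all of them or to
two smaller sets which touch all of them only together -/
theorem full_min [Finite V] {n : ℕ} {p : ℕ → V} {K₀ : Set V} (hK : Conn G K₀) (hX : K₀ ⊆ X)
    (hp : ∀ i < n, p i ∉ K₀) (hf : ∀ i < n, Tch G K₀ {p i}) :
    (∃ f ∈ X, (∀ i < n, f ≠ p i) ∧ ∀ i < n, G.Adj f (p i)) ∨
    ∃ A B : Set V, Conn G A ∧ Conn G B ∧ A ⊆ X ∧ B ⊆ X ∧ Disjoint A B ∧ Tch G A B ∧
      (∀ i < n, p i ∉ A) ∧ (∀ i < n, p i ∉ B) ∧ (¬ ∀ i < n, Tch G A {p i}) ∧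
      (¬ ∀ i < n, Tch G B {p i}) ∧ ∀ i < n, Tch G A {p i} ∨ Tch G B {p i} := by
  have hfin : {D : Set V | D ⊆ K₀ ∧ Conn G D ∧ ∀ i < n, Tch G D {p i}}.Finite := Set.toFinite _
  obtain ⟨D, hD⟩ := hfin.exists_minimal ⟨K₀, subset_rfl, hK, hf⟩
  obtain ⟨hDK, hDc, hDt⟩ := hD.1
  obtain ⟨f, hfD⟩ := hDc.1
  by_cases hDf : D = {f}
  · left
    refine ⟨f, hX (hDK hfD), fun i hi e => hp i hi (e ▸ hDK hfD), fun i hi => ?_⟩
    have := hDt i hi
    rw [hDf, tch_single] at this
    exact this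
  · right
    obtain ⟨v, hvD, hvf, hv⟩ := growAux.shrink G D f hDc hfD hDf
    have hvD' : ({v} : Set V) ⊆ D := Set.singleton_subset_iff.2 hvD
    have h1 : ¬ ∀ i < n, Tch G (D \ {v}) {p i} := fun h => by
      have h2 := hD.2 (y := D \ {v}) ⟨Set.sdiff_subset.trans hDK, hv, h⟩ Set.sdiff_subset
      exact (h2 hvD).2 rfl
    have h2 : ¬ ∀ i < n, Tch G {v} {p i} := fun h => by
      have h2 := hD.2 (y := {v}) ⟨hvD'.trans hDK, Conn.singleton G v, h⟩ hvD'
      exact hvf (h2 hfD).symm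
    refine ⟨D \ {v}, {v}, hv, Conn.singleton G v, (Set.sdiff_subset.trans hDK).trans hX,
      (hvD'.trans hDK).trans hX, Set.disjoint_sdiff_left, ?_, fun i hi h => hp i hi (hDK h.1),
      fun i hi h => hp i hi (hDK (hvD' h)), h1, h2, fun i hi => ?_⟩
    · obtain ⟨b, hb, a, ha, hab⟩ := hDc.2 {v} hvD' ⟨v, rfl⟩ (fun h => by
        rw [← h] at hfD
        exact hvf hfD.symm)
      exact Tch.symm ⟨b, hb, a, ha, hab⟩
    · obtain ⟨b, hb, h⟩ := tch_right_single.1 (hDt i hi)
      by_cases hbv : b = v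
      · right
        exact tch_right_single.2 ⟨b, hbv, h⟩
      · left
        exact tch_right_single.2 ⟨b, ⟨hb, hbv⟩, h⟩

end Pool.Agent.MPd439b2.BU
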