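import Pool.Agent.Lib.MP_d439b2_co.BU.Spec

/-!
# MP_d439b2_co, BU: the theorem (assembly)
-/

set_option autoImplicit false

namespace Pool.Agent.MPd439b2.BU

open Pool.Agent.MPd439b2

theorem bullMain (hA : S_A) (h2 : S_B2) (h7 : S_B7) (h8 : S_B8) (h9 : S_B9) (hd : S_D2)
    (hr2 : S_R2) (hr3 : S_R3) (hr5 : S_R5) : S_BULL := by
  intro k
  refine ⟨(3 * (k + 1) + 1) * 4 ^ (k + 1) + 8, fun V _ G hb hL => ?_⟩
  have hbf : ∀ X : Set V, BF G X := fun X h => hb (h.mono (Set.subset_univ X))
  have hs1 : ∀ Y : Set V, NoP G Y 5 → RL G Y (k + 1) Y := fun Y hP =>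
    hr2 V G Y (k + 1) fun Z hZ hprm =>
      hr3.1 V G Z k (hL Z (hA V G Z hprm (hbf Z) (hP.mono hZ)))
  have hs2 : ∀ X : Set V, Prm G X → RL G X ((3 * (k + 1) + 1) * 4 ^ (k + 1) + 8) X := by
    intro X hprm
    by_cases hX8 : X.ncard ≤ 8
    · exact RL.small (hX8.trans (Nat.le_add_left _ _))
    have hconn : Conn G X := hprm.conn (by omega)
    by_cases htc : TC G X
    · by_cases h7' : NoC G X 7
      · by_cases h6 : ∃ p, IC G X 6 p
        · obtain ⟨p, hp⟩ := h6
          exact absurd (h8 V G X p hprm (hbf X) htc h7' hp) hX8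
        · have hc6 : NoC G X 6 := by
            intro m hm p hp
            rcases Nat.eq_or_lt_of_le hm with h | h
            · rw [← h] at hp
              exact h6 ⟨p, hp⟩
            · exact h7' m h p hp
          have hp6 := h9 V G X hprm (hbf X) htc hc6
          exact RL.mono (by omega) (hd V G X (k + 1) ⟨hprm, hbf X, htc, hp6, hc6⟩
            fun Y _ hP => hs1 Y hP)
      · unfold NoC at h7'
        push Not at h7'
        obtain ⟨m, hm, p, hp⟩ := h7'
        have hall := h7 V G X m p hprm (hbf X) htc hp hm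
        have hX : {x | ∃ i < m, x = p i} = X := by
          ext x
          constructor
          · rintro ⟨i, hi, rfl⟩
            exact hp.1 i hi
          · exact fun hx => hall x hx
        have h10 := hr5 V G X m p hp.2.1 (by
          intro i hi him y hy hadj
          obtain ⟨j, hj, rfl⟩ := hall y hy
          have h11 := (hp.2.2 i (by omega) j hj).mp hadj
          rcases h11 with h11 | h11 | h11 | h11
          · exact Or.inr (by rw [h11])
          · exact Or.inl (by rw [← h11]; rfl)
          · omega
          · omega)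
        rw [hX] at h10
        exact RL.mono (by omega) h10
    · unfold TC at htc
      push Not at htc
      obtain ⟨v, hv, hnc⟩ := htc
      exact RL.mono (by omega) (h2 V G X v hprm (hbf X) hconn hv hnc)
  exact hr3.2 V G _ (by omega) (hr2 V G Set.univ _ fun Y _ hprm => hs2 Y hprm)

end Pool.Agent.MPd439b2.BU
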